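import Pool.Agent.Helper30_FC.Lin

/-!
MP_f5cbfa_nt, frozen S18989 (helper30): exact density of the pair of values
`(A(x), A(x+h))`.
-/

set_option autoImplicit false

open MeasureTheory Set

namespace Pool.Agent.Helper30_FC

open Pool.Agent.BTL

/-- one dimensional substitution `u = c + y²` -/
theorem sub_sq (G : ℝ → ENNReal) (c : ℝ) :
    ∫⁻ y, G (c + y ^ 2) = ∫⁻ u, ENNReal.ofReal (1 / Real.sqrt (u - c)) * G u := by
  have himg : (fun y : ℝ => c + y ^ 2) '' Set.Ioi 0 = Set.Ioi c := by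
    ext u
    constructor
    · rintro ⟨y, hy, rfl⟩
      have : 0 < y := hy
      change c < c + y ^ 2
      nlinarith [pow_pos this 2]
    · intro hu
      have hu' : c < u := hu
      refine ⟨Real.sqrt (u - c), Real.sqrt_pos.mpr (by linarith), ?_⟩
      change c + Real.sqrt (u - c) ^ 2 = u
      rw [Real.sq_sqrt (by linarith)]; ring
  have hinj : Set.InjOn (fun y : ℝ => c + y ^ 2) (Set.Ioi 0) := by
    intro y hy y' hy' h
    have h1 : y ^ 2 = y' ^ 2 := by
      have : c + y ^ 2 = c + y' ^ 2 := h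
      linarith
    have h2 : 0 < y := hy
    have h3 : 0 < y' := hy'
    nlinarith [sq_nonneg (y - y')]
  have h1 := lintegral_image_eq_lintegral_abs_deriv_mul (s := Set.Ioi (0 : ℝ))
    (f := fun y : ℝ => c + y ^ 2) (f' := fun y => 2 * y) measurableSet_Ioi
    (fun y _ => by
      have := ((hasDerivAt_pow 2 y).const_add c).hasDerivWithinAt (s := Set.Ioi 0)
      simpa using this) hinj
    (fun u => ENNReal.ofReal (1 / Real.sqrt (u - c)) * G u)
  rw [himg] at h1
  have h2 : ∫⁻ y in Set.Ioi (0 : ℝ), ENNReal.ofReal |2 * y| *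
      (ENNReal.ofReal (1 / Real.sqrt (c + y ^ 2 - c)) * G (c + y ^ 2)) =
      ∫⁻ y in Set.Ioi (0 : ℝ), 2 * G (c + y ^ 2) := by
    refine setLIntegral_congr_fun measurableSet_Ioi ?_
    intro y hy
    have hy0 : 0 < y := hy
    change ENNReal.ofReal |2 * y| *
      (ENNReal.ofReal (1 / Real.sqrt (c + y ^ 2 - c)) * G (c + y ^ 2)) = 2 * G (c + y ^ 2)
    rw [← mul_assoc, ← ENNReal.ofReal_mul (abs_nonneg _), add_sub_cancel_left,
      Real.sqrt_sq hy0.le, abs_of_pos (by linarith)]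
    have : 2 * y * (1 / y) = 2 := by field_simp
    rw [this]
    norm_num
  rw [h2] at h1
  have h3 : ∫⁻ u, ENNReal.ofReal (1 / Real.sqrt (u - c)) * G u =
      ∫⁻ u in Set.Ioi c, ENNReal.ofReal (1 / Real.sqrt (u - c)) * G u := by
    rw [← lintegral_indicator measurableSet_Ioi]
    congr 1
    ext u
    by_cases hu : u ∈ Set.Ioi c
    · rw [Set.indicator_of_mem hu]
    · rw [Set.indicator_of_notMem hu]
      have hu' : u ≤ c := not_lt.mp hu
      rw [Real.sqrt_eq_zero_of_nonpos (by linarith)]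
      simp
  rw [h3, h1]
  have h4 : ∫⁻ y, G (c + y ^ 2) = (∫⁻ y in Set.Ioi (0 : ℝ), G (c + y ^ 2)) +
      ∫⁻ y in Set.Iic (0 : ℝ), G (c + y ^ 2) := by
    have := lintegral_add_compl (μ := (volume : Measure ℝ)) (fun y => G (c + y ^ 2))
      (A := Set.Ioi (0 : ℝ)) measurableSet_Ioi
    rw [Set.compl_Ioi] at this
    exact this.symm
  have h5 : ∫⁻ y in Set.Iic (0 : ℝ), G (c + y ^ 2) = ∫⁻ y in Set.Ioi (0 : ℝ), G (c + y ^ 2) := by
    rw [setLIntegral_congr Iio_ae_eq_Iic.symm]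
    rw [← lintegral_indicator measurableSet_Iio, ← lintegral_indicator measurableSet_Ioi,
      ← lintegral_neg_eq_self]
    congr 1
    ext y
    by_cases hy : 0 < y
    · rw [Set.indicator_of_mem (show -y ∈ Set.Iio (0 : ℝ) from by simpa using hy),
        Set.indicator_of_mem (show y ∈ Set.Ioi (0 : ℝ) from hy), neg_sq]
    · rw [Set.indicator_of_notMem (show -y ∉ Set.Iio (0 : ℝ) from by simpa using hy),
        Set.indicator_of_notMem (show y ∉ Set.Ioi (0 : ℝ) from hy)]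
  rw [h4, h5, lintegral_const_mul' _ _ (by norm_num), two_mul]

/-- affine substitution -/
theorem sub_aff (G : ℝ → ENNReal) (hG : Measurable G) {k : ℝ} (hk : 0 < k) (b : ℝ) :
    ∫⁻ z, G z = ∫⁻ v, ENNReal.ofReal k⁻¹ * G ((v - b) / k) := by
  have h1 := Real.map_volume_mul_left (a := k⁻¹) (inv_pos.mpr hk).ne'
  have h2 : ∫⁻ v, G (k⁻¹ * v) = ENNReal.ofReal k * ∫⁻ z, G z := by
    rw [← lintegral_map hG (measurable_const_mul _), h1, lintegral_smul_measure, inv_inv,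
      abs_of_pos hk, smul_eq_mul]
  have h3 : ∫⁻ v, G ((v - b) / k) = ∫⁻ v, G (k⁻¹ * v) := by
    rw [← lintegral_sub_right_eq_self (fun v => G (k⁻¹ * v)) b]
    congr 1
    ext v
    congr 1
    field_simp
  rw [lintegral_const_mul' _ _ ENNReal.ofReal_ne_top, h3, h2, ← mul_assoc,
    ← ENNReal.ofReal_mul (inv_pos.mpr hk).le, inv_mul_cancel₀ hk.ne', ENNReal.ofReal_one, one_mul]

/-- density of the pair of values -/
noncomputable def DD (q u v : ℝ) : ℝ := 1 / Real.sqrt (4 * q * u - (v - u - q) ^ 2)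

theorem measurable_DD (q : ℝ) : Measurable (fun p : ℝ × ℝ => DD q p.1 p.2) := by
  unfold DD
  refine measurable_const.div (Measurable.sqrt ?_)
  fun_prop

theorem coarea {A : ℝ × ℝ × ℝ} {h : ℝ × ℝ} (hd : 0 < disc A) (hh : 0 < qf A h)
    (K1 K2 : ℝ → ENNReal) (h1 : Measurable K1) (h2 : Measurable K2) :
    ∫⁻ x, K1 (qf A x) * K2 (qf A (x + h)) = ENNReal.ofReal (Real.sqrt (disc A))⁻¹ *
      ∫⁻ u, ∫⁻ v, K1 u * K2 v * ENNReal.ofReal (DD (qf A h) u v) := by
  set ρ := Real.sqrt (qf A h) with hρ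
  have hρ0 : 0 < ρ := Real.sqrt_pos.mpr hh
  have hρ2 : ρ ^ 2 = qf A h := Real.sq_sqrt hh.le
  set F : ℝ × ℝ → ENNReal := fun z => K1 (z.1 ^ 2 + z.2 ^ 2) *
    K2 (z.1 ^ 2 + z.2 ^ 2 + 2 * ρ * z.1 + ρ ^ 2) with hF
  have hFm : Measurable F := by
    rw [hF]
    exact (h1.comp (by fun_prop)).mul (h2.comp (by fun_prop))
  have e1 : ∫⁻ x, K1 (qf A x) * K2 (qf A (x + h)) = ∫⁻ x, F (zc A h x) := by
    congr 1
    ext x
    rw [hF]
    simp only
    rw [← qf_add_zc hd hh, zc_sq hd hh]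
  rw [e1, lintegral_zc hd hh F hFm]
  congr 1
  rw [Measure.volume_eq_prod, lintegral_prod _ hFm.aemeasurable]
  -- substitution in the second coordinate
  have e2 : ∀ z1 : ℝ, ∫⁻ z2, F (z1, z2) = ∫⁻ u, ENNReal.ofReal (1 / Real.sqrt (u - z1 ^ 2)) *
      (K1 u * K2 (u + 2 * ρ * z1 + ρ ^ 2)) := by
    intro z1
    exact sub_sq (fun u => K1 u * K2 (u + 2 * ρ * z1 + ρ ^ 2)) (z1 ^ 2)
  simp only [e2]
  have hm3 : Measurable (fun p : ℝ × ℝ => ENNReal.ofReal (1 / Real.sqrt (p.2 - p.1 ^ 2)) *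
      (K1 p.2 * K2 (p.2 + 2 * ρ * p.1 + ρ ^ 2))) := by
    refine Measurable.mul ?_ ?_
    · refine ENNReal.measurable_ofReal.comp (measurable_const.div (Measurable.sqrt ?_))
      fun_prop
    · exact (h1.comp measurable_snd).mul (h2.comp (by fun_prop))
  rw [lintegral_lintegral_swap hm3.aemeasurable]
  congr 1
  ext u
  have hm4 : Measurable (fun z1 : ℝ => ENNReal.ofReal (1 / Real.sqrt (u - z1 ^ 2)) *
      (K1 u * K2 (u + 2 * ρ * z1 + ρ ^ 2))) := by
    refine Measurable.mul ?_ ?_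
    · refine ENNReal.measurable_ofReal.comp (measurable_const.div (Measurable.sqrt ?_))
      fun_prop
    · exact measurable_const.mul (h2.comp (by fun_prop))
  rw [sub_aff _ hm4 (by positivity : (0 : ℝ) < 2 * ρ) (u + ρ ^ 2)]
  congr 1
  ext v
  have e3 : u + 2 * ρ * ((v - (u + ρ ^ 2)) / (2 * ρ)) + ρ ^ 2 = v := by
    field_simp; ring
  rw [e3, ← mul_assoc, ← ENNReal.ofReal_mul (by positivity), mul_comm]
  congr 2
  unfold DD
  rw [← hρ2]
  have e4 : 4 * ρ ^ 2 * u - (v - u - ρ ^ 2) ^ 2 =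
      (2 * ρ) ^ 2 * (u - ((v - (u + ρ ^ 2)) / (2 * ρ)) ^ 2) := by
    field_simp; ring
  rw [e4, Real.sqrt_mul (by positivity), Real.sqrt_sq (by positivity)]
  rw [one_div, one_div, mul_inv, mul_inv, mul_inv]

end Pool.Agent.Helper30_FC
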