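import Pool.Agent.Helper30_FC.Fub

/-!
MP_f5cbfa_nt, frozen S18989 (helper30): the objects of the hard half as extended nonnegative
integrals.
-/

set_option autoImplicit false

open MeasureTheory Set

namespace Pool.Agent.Helper30_FC

open Pool.Agent.BTL Pool.Agent.F5S Pool.Agent.F5H

theorem tn_nonneg' (u : ℝ) : 0 ≤ tn u := le_max_left _ _

theorem tn_le_one' (u : ℝ) : tn u ≤ 1 := by
  unfold tn
  exact max_le (by norm_num) (by linarith [abs_nonneg u])

theorem continuous_tn' : Continuous tn := by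
  unfold tn
  fun_prop

theorem tn_even' (u : ℝ) : tn (-u) = tn u := by
  unfold tn
  rw [abs_neg]

theorem tn_ne_zero' {u : ℝ} (h : tn u ≠ 0) : |u| < 1 := by
  by_contra hc
  push Not at hc
  apply h
  unfold tn
  exact max_eq_left (by linarith)

/-- the three windows -/
noncomputable def K3 (e : ℝ) (p : ℝ × ℝ) : Fin 3 → ℝ → ENNReal :=
  ![fun t => ENNReal.ofReal (tn ((t - (p.1 + p.2)) / e)),
    fun t => ENNReal.ofReal (tn ((t - p.2) / e)), fun t => ENNReal.ofReal (tn (t / e))]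

theorem measurable_K3 (e : ℝ) (p : ℝ × ℝ) (l : Fin 3) : Measurable (K3 e p l) := by
  have h := continuous_tn'.measurable
  fin_cases l
  · exact ENNReal.measurable_ofReal.comp (h.comp ((measurable_id.sub_const _).div_const _))
  · exact ENNReal.measurable_ofReal.comp (h.comp ((measurable_id.sub_const _).div_const _))
  · exact ENNReal.measurable_ofReal.comp (h.comp (measurable_id.div_const _))

theorem win_K3 {e : ℝ} (he : 0 < e) (p : ℝ × ℝ) (l : Fin 3) :
    Win (e + |p.1| + |p.2| + 1) (K3 e p l) := by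
  have h1 := abs_nonneg p.1
  have h2 := abs_nonneg p.2
  refine ⟨by linarith, measurable_K3 e p l, ?_, ?_⟩
  · intro t
    rw [← ENNReal.ofReal_one]
    fin_cases l
    · exact ENNReal.ofReal_le_ofReal (tn_le_one' _)
    · exact ENNReal.ofReal_le_ofReal (tn_le_one' _)
    · exact ENNReal.ofReal_le_ofReal (tn_le_one' _)
  · intro t ht
    have key : ∀ q : ℝ, |q| ≤ |p.1| + |p.2| → ENNReal.ofReal (tn ((t - q) / e)) = 0 := by
      intro q hq
      by_contra hc
      have h3 : tn ((t - q) / e) ≠ 0 := by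
        intro h4
        rw [h4, ENNReal.ofReal_zero] at hc
        exact hc rfl
      have h5 := tn_ne_zero' h3
      rw [abs_div, abs_of_pos he, div_lt_one he] at h5
      have h6 : |t| ≤ |t - q| + |q| := by
        have := abs_add_le (t - q) q
        rw [sub_add_cancel] at this
        exact this
      linarith
    fin_cases l
    · exact key (p.1 + p.2) (abs_add_le _ _)
    · exact key p.2 (by linarith)
    · have := key 0 (by rw [abs_zero]; linarith)
      rw [sub_zero] at this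
      exact this

theorem KA_eq (e : ℝ) (p : ℝ × ℝ) (A : ℝ × ℝ × ℝ) (s : ℝ) (x : R6) :
    ENNReal.ofReal (KA e p A s x) = K3 e p 0 (qf A x.1 - s) *
      (K3 e p 1 (qf A x.2.1 - s) * K3 e p 2 (qf A x.2.2 - s)) := by
  unfold KA
  rw [ENNReal.ofReal_mul (tn_nonneg' _), ENNReal.ofReal_mul (tn_nonneg' _)]
  have e1 : qf A x.1 - (p.1 + p.2) - s = qf A x.1 - s - (p.1 + p.2) := by ring
  have e2 : qf A x.2.1 - p.2 - s = qf A x.2.1 - s - p.2 := by ring
  rw [e1, e2]
  rfl

/-- the integral of the kernels over the triples with a given difference -/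
theorem lint_KA (e : ℝ) (p : ℝ × ℝ) (A : ℝ × ℝ × ℝ) (s s' : ℝ) (h : R6) :
    ∫⁻ x : R6, ENNReal.ofReal (KA e p A s x) * ENNReal.ofReal (KA e p A s' (x + h)) =
      gk A (K3 e p 0) s s' h.1 * (gk A (K3 e p 1) s s' h.2.1 * gk A (K3 e p 2) s s' h.2.2) := by
  have hq := measurable_qf A
  have hm : ∀ (l : Fin 3) (k : ℝ × ℝ), Measurable (fun x : ℝ × ℝ =>
      K3 e p l (qf A x - s) * K3 e p l (qf A (x + k) - s')) := by
    intro l k
    exact ((measurable_K3 e p l).comp (hq.sub_const _)).mul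
      ((measurable_K3 e p l).comp ((hq.comp (measurable_add_const _)).sub_const _))
  have h1 := lint_n3 (volume : Measure (ℝ × ℝ)) _ _ _ (hm 0 h.1) (hm 1 h.2.1) (hm 2 h.2.2)
  rw [n3_volume] at h1
  unfold gk
  rw [← h1]
  refine lintegral_congr fun x => ?_
  rw [KA_eq, KA_eq]
  simp only [Prod.fst_add, Prod.snd_add]
  ring

/-- swap of the values with the pairs -/
theorem swap2 (ν : Measure R6) [SFinite ν] (P : R6 → ENNReal) (hP : Measurable P)
    (om : ℝ → ℝ → ENNReal) (hom : Measurable (fun q : ℝ × ℝ => om q.1 q.2))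
    (kE : ℝ → R6 → ENNReal) (hkE : Measurable (fun q : ℝ × R6 => kE q.1 q.2)) :
    ∫⁻ h : R6, (∫⁻ x : R6, P h * (∫⁻ s, ∫⁻ s', om s s' * (kE s x * kE s' (x + h)))) ∂ν =
    ∫⁻ s, ∫⁻ s', om s s' * (∫⁻ h : R6, P h * (∫⁻ x : R6, kE s x * kE s' (x + h)) ∂ν) := by
  have m1 : Measurable (fun q : (ℝ × ℝ) × R6 × R6 => om q.1.1 q.1.2) := hom.comp measurable_fst
  have m3 : Measurable (fun q : (ℝ × ℝ) × R6 × R6 => kE q.1.1 q.2.2) :=
    hkE.comp ((measurable_fst.comp measurable_fst).prodMk (measurable_snd.comp measurable_snd))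
  have m4 : Measurable (fun q : (ℝ × ℝ) × R6 × R6 => kE q.1.2 (q.2.2 + q.2.1)) :=
    hkE.comp ((measurable_snd.comp measurable_fst).prodMk
      ((measurable_snd.comp measurable_snd).add (measurable_fst.comp measurable_snd)))
  have m5 : Measurable (fun q : (ℝ × ℝ) × R6 × R6 => P q.2.1) :=
    hP.comp (measurable_fst.comp measurable_snd)
  have m34 : Measurable (fun q : (ℝ × ℝ) × R6 × R6 => kE q.1.1 q.2.2 * kE q.1.2 (q.2.2 + q.2.1)) :=
    m3.mul m4
  have m7 : Measurable (fun q : (ℝ × ℝ) × R6 × R6 =>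
      (om q.1.1 q.1.2 * (kE q.1.1 q.2.2 * kE q.1.2 (q.2.2 + q.2.1)))) := m1.mul m34
  have m6 : Measurable (fun q : (ℝ × ℝ) × R6 × R6 =>
      P q.2.1 * (om q.1.1 q.1.2 * (kE q.1.1 q.2.2 * kE q.1.2 (q.2.2 + q.2.1)))) := m5.mul m7
  have eL : ∀ h x : R6, P h * (∫⁻ s, ∫⁻ s', om s s' * (kE s x * kE s' (x + h))) =
      ∫⁻ z : ℝ × ℝ, P h * (om z.1 z.2 * (kE z.1 x * kE z.2 (x + h))) := by
    intro h x
    have mz : Measurable (fun z : ℝ × ℝ => (om z.1 z.2 * (kE z.1 x * kE z.2 (x + h)))) :=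
      hom.mul ((hkE.comp (measurable_fst.prodMk measurable_const)).mul
        (hkE.comp (measurable_snd.prodMk measurable_const)))
    rw [lintegral_const_mul _ mz, Measure.volume_eq_prod, lintegral_prod _ mz.aemeasurable]
  simp only [eL]
  have mL : Measurable (fun q : R6 × R6 => ∫⁻ z : ℝ × ℝ,
      P q.1 * (om z.1 z.2 * (kE z.1 q.2 * kE z.2 (q.2 + q.1)))) :=
    Measurable.lintegral_prod_left' (μ := (volume : Measure (ℝ × ℝ))) m6
  rw [← lintegral_prod (μ := ν) (ν := (volume : Measure R6)) (fun q : R6 × R6 =>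
    ∫⁻ z : ℝ × ℝ, P q.1 * (om z.1 z.2 * (kE z.1 q.2 * kE z.2 (q.2 + q.1)))) mL.aemeasurable]
  have m6' : Measurable (fun q : (R6 × R6) × ℝ × ℝ =>
      P q.1.1 * (om q.2.1 q.2.2 * (kE q.2.1 q.1.2 * kE q.2.2 (q.1.2 + q.1.1)))) :=
    m6.comp measurable_swap
  rw [lintegral_lintegral_swap m6'.aemeasurable]
  have eR : ∀ z : ℝ × ℝ, ∫⁻ q : R6 × R6, P q.1 * (om z.1 z.2 * (kE z.1 q.2 * kE z.2 (q.2 + q.1)))
      ∂(ν.prod (volume : Measure R6)) =
      om z.1 z.2 * (∫⁻ h : R6, P h * (∫⁻ x : R6, kE z.1 x * kE z.2 (x + h)) ∂ν) := by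
    intro z
    have mz : Measurable (fun q : R6 × R6 =>
        P q.1 * (om z.1 z.2 * (kE z.1 q.2 * kE z.2 (q.2 + q.1)))) := m6.comp measurable_prodMk_left
    rw [lintegral_prod _ mz.aemeasurable]
    have mq : Measurable (fun q : R6 × R6 => kE z.1 q.2 * kE z.2 (q.2 + q.1)) :=
      m34.comp measurable_prodMk_left
    have mi : Measurable (fun h : R6 => ∫⁻ x : R6, kE z.1 x * kE z.2 (x + h)) :=
      mq.lintegral_prod_right'
    have e1 : ∀ h : R6, ∫⁻ x : R6, P h * (om z.1 z.2 * (kE z.1 x * kE z.2 (x + h))) =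
        om z.1 z.2 * (P h * ∫⁻ x : R6, kE z.1 x * kE z.2 (x + h)) := by
      intro h
      have mk : Measurable (fun x : R6 => kE z.1 x * kE z.2 (x + h)) :=
        mq.comp measurable_prodMk_left
      rw [lintegral_const_mul _ (mk.const_mul _), lintegral_const_mul _ mk]
      ring
    simp only [e1]
    have mPi : Measurable (fun h : R6 => P h * ∫⁻ x : R6, kE z.1 x * kE z.2 (x + h)) := hP.mul mi
    rw [lintegral_const_mul _ mPi]
  have mR : Measurable (fun z : ℝ × ℝ => ∫⁻ q : R6 × R6,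
      P q.1 * (om z.1 z.2 * (kE z.1 q.2 * kE z.2 (q.2 + q.1))) ∂(ν.prod (volume : Measure R6))) :=
    Measurable.lintegral_prod_left' (μ := ν.prod (volume : Measure R6)) m6'
  simp only [eR] at mR ⊢
  rw [Measure.volume_eq_prod, lintegral_prod _ mR.aemeasurable]

/-- the sum over the pairs as a product -/
theorem assemble (ν : Measure (ℝ × ℝ)) [SFinite ν] (e : ℝ) (p : ℝ × ℝ) (A : ℝ × ℝ × ℝ) (L Λ : ℝ)
    (Φ : ℝ × ℝ → ℝ) (hΦ : Cut Λ Φ) (om : ℝ → ℝ → ENNReal)
    (hom : Measurable (fun q : ℝ × ℝ => om q.1 q.2))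
    (hkE : Measurable (fun q : ℝ × R6 => ENNReal.ofReal (KA e p A q.1 q.2))) :
    ∫⁻ h : R6, (∫⁻ x : R6, (ph L Φ h.1 * (ph L Φ h.2.1 * ph L Φ h.2.2)) *
      (∫⁻ s, ∫⁻ s', om s s' * (ENNReal.ofReal (KA e p A s x) *
        ENNReal.ofReal (KA e p A s' (x + h))))) ∂(n3 ν) =
    ∫⁻ s, ∫⁻ s', om s s' * ∏ l, ∫⁻ h, ph L Φ h * gk A (K3 e p l) s s' h ∂ν := by
  have hp := measurable_ph hΦ L
  have m2 : Measurable (fun h : R6 => ph L Φ h.1 * (ph L Φ h.2.1 * ph L Φ h.2.2)) :=
    (hp.comp measurable_fst).mul ((hp.comp (measurable_fst.comp measurable_snd)).mul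
      (hp.comp (measurable_snd.comp measurable_snd)))
  rw [swap2 (n3 ν) _ m2 om hom (fun s x => ENNReal.ofReal (KA e p A s x)) hkE]
  refine lintegral_congr fun s => ?_
  refine lintegral_congr fun s' => ?_
  congr 1
  have hgk : ∀ (l : Fin 3), Measurable (fun h => ph L Φ h * gk A (K3 e p l) s s' h) :=
    fun l => hp.mul (measurable_gk (measurable_K3 e p l) s s')
  rw [Fin.prod_univ_three, mul_assoc, ← lint_n3 ν _ _ _ (hgk 0) (hgk 1) (hgk 2)]
  refine lintegral_congr fun h => ?_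
  rw [lint_KA]
  ring

end Pool.Agent.Helper30_FC
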