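import Pool.Agent.Helper30_FC.Ring
import Pool.Agent.Helper99_BTL.Shell

/-!
MP_f5cbfa_nt, frozen S18989 (helper30): uniform bound for the number of short differences.
-/

set_option autoImplicit false

open MeasureTheory Set

namespace Pool.Agent.Helper30_FC

open Pool.Agent.BTL

theorem le_ofReal_sqrt {y : ENNReal} {X : ℝ} (hX : 0 ≤ X) (h : y ^ 2 ≤ ENNReal.ofReal X) :
    y ≤ ENNReal.ofReal (Real.sqrt X) := by
  by_contra hc
  push Not at hc
  have h1 : ENNReal.ofReal (Real.sqrt X) ^ 2 < y ^ 2 :=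
    ENNReal.pow_lt_pow_left (by norm_num) hc
  rw [← ENNReal.ofReal_pow (Real.sqrt_nonneg _), Real.sq_sqrt hX] at h1
  exact absurd h (not_le.mpr h1)

/-- position relative to the edges -/
noncomputable def ps (a s s' ρ : ℝ) : ℝ := 2 * ρ * a - |s' - s - ρ ^ 2|

theorem ps_mono {a s s' ρ1 ρ2 H : ℝ} (h0 : 0 ≤ ρ1) (h1 : ρ1 ≤ ρ2) (h2 : ρ2 ≤ H) (hH : 2 * H ≤ a) :
    ps a s s' ρ1 + a * (ρ2 - ρ1) ≤ ps a s s' ρ2 := by
  unfold ps
  have h3 : |s' - s - ρ2 ^ 2| ≤ |s' - s - ρ1 ^ 2| + (ρ2 ^ 2 - ρ1 ^ 2) := by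
    have e : s' - s - ρ2 ^ 2 = (s' - s - ρ1 ^ 2) - (ρ2 ^ 2 - ρ1 ^ 2) := by ring
    have h4 : 0 ≤ ρ2 ^ 2 - ρ1 ^ 2 := by nlinarith
    rw [e]
    refine le_trans (abs_sub _ _) ?_
    rw [abs_of_nonneg h4]
  nlinarith

section
variable {M : ℝ} (hM : 1 ≤ M) {A : ℝ × ℝ × ℝ} (hA : A ∈ KM M) {B : ℝ} (hB : 1 ≤ B)
  {s s' a : ℝ} (ha : 1 ≤ a) (ha2 : a ^ 2 = s + B) {h : ℝ × ℝ} (hh : 0 < qf A h)

include hM hA hB ha ha2 hh

theorem bt_bound1 : bt A B s s' h ≤
    ENNReal.ofReal (M * Real.sqrt (2 * B / rr A h * ((16 * B + 64 * B ^ 2 * Real.log a) / a))) := by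
  have hρ0 : 0 < rr A h := Real.sqrt_pos.mpr hh
  have h1 := bt_le_strip (disc_pos_of_KM hM hA) hh (by linarith : (0 : ℝ) ≤ B) s s'
  refine le_trans h1 ?_
  rw [ENNReal.ofReal_mul (by linarith)]
  refine mul_le_mul' (ENNReal.ofReal_le_ofReal (inv_sqrt_disc_le hM hA)) ?_
  have hlog := Real.log_nonneg ha
  have hX : 0 ≤ 2 * B / rr A h * ((16 * B + 64 * B ^ 2 * Real.log a) / a) := by
    have : 0 < a := by linarith
    positivity
  refine le_ofReal_sqrt hX ?_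
  refine le_trans (lint_sq_le _ _ (measurable_sl B s).aemeasurable) ?_
  rw [Measure.restrict_apply_univ, Real.volume_Icc, ENNReal.ofReal_mul (by positivity)]
  refine mul_le_mul' (ENNReal.ofReal_le_ofReal (le_of_eq ?_)) ?_
  · change _ = 2 * B / Real.sqrt (qf A h)
    ring
  · exact le_trans (setLIntegral_le_lintegral _ _) (lint_sl_sq (by linarith) ha ha2)

theorem bt_zero (hps : ps a s s' (rr A h) < -2 * B) : bt A B s s' h = 0 := by
  have hρ0 : 0 < rr A h := Real.sqrt_pos.mpr hh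
  have h1 := bt_le_strip (disc_pos_of_KM hM hA) hh (by linarith : (0 : ℝ) ≤ B) s s'
  rw [← nonpos_iff_eq_zero]
  refine le_trans h1 ?_
  change ENNReal.ofReal (Real.sqrt (disc A))⁻¹ *
      ∫⁻ z in Set.Icc (zz (rr A h) s s' - B / rr A h) (zz (rr A h) s s' + B / rr A h), sl B s z ≤ 0
  have h2 : ∫⁻ z in Set.Icc (zz (rr A h) s s' - B / rr A h) (zz (rr A h) s s' + B / rr A h),
      sl B s z = ∫⁻ z in Set.Icc (zz (rr A h) s s' - B / rr A h) (zz (rr A h) s s' + B / rr A h),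
        0 := by
    refine setLIntegral_congr_fun measurableSet_Icc ?_
    intro z hz
    refine sl_zero_a (by linarith) ha2 ?_
    have h3 : |z - zz (rr A h) s s'| ≤ B / rr A h := by
      rw [abs_le]; constructor <;> linarith [hz.1, hz.2]
    have h4 : |zz (rr A h) s s'| ≤ |z| + B / rr A h := by
      have := abs_sub_abs_le_abs_sub (zz (rr A h) s s') z
      rw [abs_sub_comm] at this
      linarith
    have h5 : |zz (rr A h) s s'| = |s' - s - rr A h ^ 2| / (2 * rr A h) := by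
      unfold zz
      rw [abs_div, abs_of_pos (by positivity : (0 : ℝ) < 2 * rr A h)]
    have h6 : a + B / rr A h < |zz (rr A h) s s'| := by
      rw [h5, lt_div_iff₀ (by positivity)]
      unfold ps at hps
      have e : (a + B / rr A h) * (2 * rr A h) = 2 * rr A h * a + 2 * B := by
        field_simp
      rw [e]; linarith
    linarith
  rw [h2]; simp

theorem bt_bound2 (hps : 4 * B ≤ ps a s s' (rr A h)) : bt A B s s' h ≤
    ENNReal.ofReal (M * (16 * B ^ 2 / Real.sqrt (rr A h * a * ps a s s' (rr A h)))) := by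
  have hρ0 : 0 < rr A h := Real.sqrt_pos.mpr hh
  have ha0 : 0 < a := by linarith
  have hp0 : 0 < ps a s s' (rr A h) := by linarith
  have h1 := bt_le_strip (disc_pos_of_KM hM hA) hh (by linarith : (0 : ℝ) ≤ B) s s'
  refine le_trans h1 ?_
  rw [ENNReal.ofReal_mul (by linarith)]
  refine mul_le_mul' (ENNReal.ofReal_le_ofReal (inv_sqrt_disc_le hM hA)) ?_
  change ∫⁻ z in Set.Icc (zz (rr A h) s s' - B / rr A h) (zz (rr A h) s s' + B / rr A h), sl B s z ≤ _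
  set ρ := rr A h with hρ
  set ψ := ps a s s' ρ with hψ
  have h5 : |zz ρ s s'| = |s' - s - ρ ^ 2| / (2 * ρ) := by
    unfold zz
    rw [abs_div, abs_of_pos (by positivity : (0 : ℝ) < 2 * ρ)]
  have h6 : a - |zz ρ s s'| = ψ / (2 * ρ) := by
    rw [h5, hψ]; unfold ps; field_simp
  have hb : ∀ z ∈ Set.Icc (zz ρ s s' - B / ρ) (zz ρ s s' + B / ρ),
      sl B s z ≤ ENNReal.ofReal (4 * B / Real.sqrt (a * (ψ / (4 * ρ)))) := by
    intro z hz
    have h3 : |z - zz ρ s s'| ≤ B / ρ := by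
      rw [abs_le]; constructor <;> linarith [hz.1, hz.2]
    have h4 : |z| ≤ |zz ρ s s'| + B / ρ := by
      have := abs_sub_abs_le_abs_sub z (zz ρ s s')
      linarith
    have h7 : B / ρ ≤ ψ / (4 * ρ) := by
      rw [div_le_div_iff₀ hρ0 (by positivity)]
      nlinarith
    have h8 : ψ / (2 * ρ) = ψ / (4 * ρ) + ψ / (4 * ρ) := by field_simp; ring
    have h9 : 0 < ψ / (4 * ρ) := by positivity
    have h10 : ψ / (4 * ρ) ≤ a - |z| := by linarith
    refine le_trans (sl_le_a (by linarith) ha0 ha2 (by linarith)) (ENNReal.ofReal_le_ofReal ?_)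
    apply div_le_div_of_nonneg_left (by positivity) (Real.sqrt_pos.mpr (by positivity))
    apply Real.sqrt_le_sqrt
    exact mul_le_mul_of_nonneg_left h10 ha0.le
  refine le_trans (setLIntegral_mono' measurableSet_Icc hb) ?_
  rw [setLIntegral_const, Real.volume_Icc, ← ENNReal.ofReal_mul (by positivity)]
  refine ENNReal.ofReal_le_ofReal (le_of_eq ?_)
  have e1 : Real.sqrt (a * (ψ / (4 * ρ))) = Real.sqrt (ρ * a * ψ) / (2 * ρ) := by
    rw [eq_div_iff (by positivity), ← Real.sqrt_sq (by positivity : (0 : ℝ) ≤ 2 * ρ),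
      ← Real.sqrt_mul (by positivity)]
    congr 1
    field_simp
    ring
  rw [e1]
  have h11 : 0 < Real.sqrt (ρ * a * ψ) := Real.sqrt_pos.mpr (by positivity)
  field_simp
  ring

end

/-- lattice vectors: comparison of norms -/
theorem ln_le_rr {M : ℝ} (hM : 1 ≤ M) {A : ℝ × ℝ × ℝ} (hA : A ∈ KM M) (h : ℤ × ℤ) :
    ln h ≤ M * rr A (rc h) := by
  have h1 := (hA (rc h)).1
  have h2 : nz h = nr (rc h) := rfl
  have hM0 : 0 < M := by linarith
  rw [ln]
  apply Real.sqrt_le_iff.mpr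
  refine ⟨mul_nonneg hM0.le (rr_nonneg _ _), ?_⟩
  rw [mul_pow, rr_sq hM hA, h2]
  rw [div_le_iff₀ hM0] at h1
  have h3 := qf_nonneg hM hA (rc h)
  have h4 : 0 ≤ M * (M - 1) * qf A (rc h) := by
    have : 0 ≤ M - 1 := by linarith
    positivity
  nlinarith

theorem qf_pos_of_ne {M : ℝ} (hM : 1 ≤ M) {A : ℝ × ℝ × ℝ} (hA : A ∈ KM M) {h : ℤ × ℤ}
    (hh : h ≠ 0) : 0 < qf A (rc h) := by
  have h1 := (hA (rc h)).1
  have h2 := one_le_nz hh
  have h3 : nz h = nr (rc h) := rfl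
  rw [h3] at h2
  have : 0 < nr (rc h) / M := by
    apply div_pos <;> linarith
  linarith

theorem one_le_M_rr {M : ℝ} (hM : 1 ≤ M) {A : ℝ × ℝ × ℝ} (hA : A ∈ KM M) {h : ℤ × ℤ}
    (hh : h ≠ 0) : 1 ≤ M * rr A (rc h) :=
  le_trans (one_le_ln hh) (ln_le_rr hM hA h)

/-- sum of the inverse square roots -/
theorem sum_inv_sqrt {M : ℝ} (hM : 1 ≤ M) : ∃ C : ℝ, 1 ≤ C ∧ ∀ A ∈ KM M, ∀ H : ℝ, 0 ≤ H →
    ∀ S : Finset (ℤ × ℤ), (∀ h ∈ S, h ≠ 0 ∧ rr A (rc h) ≤ H) →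
      ∑ h ∈ S, 1 / Real.sqrt (rr A (rc h)) ≤ C * H ^ (3 / 2 : ℝ) := by
  obtain ⟨C, hC1, hC⟩ := Pool.Agent.BTL.H99.shell_all Pool.Agent.BTL.H99.shell (1 / 2)
    (by norm_num) (by norm_num)
  have hM0 : 0 < M := by linarith
  refine ⟨M * (C * M ^ (3 / 2 : ℝ)), ?_, ?_⟩
  · have h1 : 1 ≤ M ^ (3 / 2 : ℝ) := Real.one_le_rpow hM (by norm_num)
    have h2 : 1 ≤ C * M ^ (3 / 2 : ℝ) := by nlinarith
    nlinarith
  intro A hA H hH S hS
  have h1 := hC S (M * H) (by positivity) (by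
    intro x hx
    refine ⟨(hS x hx).1, le_trans (ln_le_rr hM hA x) ?_⟩
    exact mul_le_mul_of_nonneg_left (hS x hx).2 hM0.le)
  have h2 : ∑ h ∈ S, 1 / Real.sqrt (rr A (rc h)) ≤ ∑ h ∈ S, M * (ln h) ^ (-(1 / 2) : ℝ) := by
    refine Finset.sum_le_sum fun h hh => ?_
    have h3 := ln_le_rr hM hA h
    have h4 := one_le_ln (hS h hh).1
    have h5 : 0 < rr A (rc h) := Real.sqrt_pos.mpr (qf_pos_of_ne hM hA (hS h hh).1)
    rw [Real.rpow_neg (by linarith), ← Real.sqrt_eq_rpow, div_le_iff₀ (Real.sqrt_pos.mpr h5)]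
    have h6 : Real.sqrt (ln h) ≤ M * Real.sqrt (rr A (rc h)) := by
      rw [← Real.sqrt_sq hM0.le, ← Real.sqrt_mul (by positivity)]
      apply Real.sqrt_le_sqrt
      have : M ≤ M ^ 2 := by nlinarith
      nlinarith
    have h7 : 0 < Real.sqrt (ln h) := Real.sqrt_pos.mpr (by linarith)
    calc (1 : ℝ) = (Real.sqrt (ln h))⁻¹ * Real.sqrt (ln h) := (inv_mul_cancel₀ h7.ne').symm
      _ ≤ (Real.sqrt (ln h))⁻¹ * (M * Real.sqrt (rr A (rc h))) :=
          mul_le_mul_of_nonneg_left h6 (by positivity)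
      _ = _ := by ring
  refine le_trans h2 ?_
  rw [← Finset.mul_sum]
  calc M * ∑ h ∈ S, (ln h) ^ (-(1 / 2) : ℝ) ≤ M * (C * (M * H) ^ (2 - 1 / 2 : ℝ)) :=
        mul_le_mul_of_nonneg_left h1 hM0.le
    _ = _ := by
        rw [show (2 - 1 / 2 : ℝ) = 3 / 2 by norm_num, Real.mul_rpow hM0.le hH]
        ring

end Pool.Agent.Helper30_FC
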