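import Pool.Agent.Helper30_FC.Coarea
import Pool.Agent.Helper30_FC.Sup

/-!
MP_f5cbfa_nt, frozen S18989 (helper30): long differences: comparison of the lattice sum with
the integral.
-/

set_option autoImplicit false

open MeasureTheory Set

namespace Pool.Agent.Helper30_FC

open Pool.Agent.BTL

/-- pair density with difference `h` -/
noncomputable def gk (A : ℝ × ℝ × ℝ) (K : ℝ → ENNReal) (s s' : ℝ) (h : ℝ × ℝ) : ENNReal :=
  ∫⁻ x, K (qf A x - s) * K (qf A (x + h) - s')

theorem measurable_gk {A : ℝ × ℝ × ℝ} {K : ℝ → ENNReal} (hK : Measurable K) (s s' : ℝ) :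
    Measurable (gk A K s s') := by
  have hq := measurable_qf A
  have h1 : Measurable (fun p : (ℝ × ℝ) × (ℝ × ℝ) => K (qf A p.2 - s) * K (qf A (p.2 + p.1) - s')) :=
    (hK.comp (by fun_prop)).mul (hK.comp (by fun_prop))
  exact h1.lintegral_prod_right'

theorem RR_lower {u v q Y : ℝ} (hY : |v - u| ≤ Y) (hq : 0 < q) (hqu : 8 * q ≤ u)
    (hYq : 4 * Y ^ 2 ≤ u * q) : u * q ≤ 4 * q * u - (v - u - q) ^ 2 := by
  have h1 : (v - u) ^ 2 ≤ Y ^ 2 := by
    rw [← sq_abs (v - u)]
    exact pow_le_pow_left₀ (abs_nonneg _) hY 2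
  have h2 : (v - u - q) ^ 2 ≤ 2 * (v - u) ^ 2 + 2 * q ^ 2 := by nlinarith [sq_nonneg (v - u + q)]
  nlinarith

theorem DD_le {u v q Y : ℝ} (hY : |v - u| ≤ Y) (hq : 0 < q) (hqu : 8 * q ≤ u)
    (hYq : 4 * Y ^ 2 ≤ u * q) : DD q u v ≤ 1 / Real.sqrt (u * q) := by
  have h1 := RR_lower hY hq hqu hYq
  have h2 : 0 < u * q := by nlinarith
  unfold DD
  exact div_le_div_of_nonneg_left zero_le_one (Real.sqrt_pos.mpr h2) (Real.sqrt_le_sqrt h1)

theorem DD_comp {u v ρ ρ' Y δ : ℝ} (hY : |v - u| ≤ Y) (hρ : 0 < ρ) (hρ' : 0 < ρ')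
    (hδ : |ρ - ρ'| ≤ δ) (h2 : ρ ≤ 2 * ρ') (hqu : 8 * ρ ^ 2 ≤ u) (hqu' : 8 * ρ' ^ 2 ≤ u)
    (hYq : 4 * Y ^ 2 ≤ u * ρ ^ 2) (hYq' : 4 * Y ^ 2 ≤ u * ρ' ^ 2) :
    DD (ρ ^ 2) u v ≤ DD (ρ' ^ 2) u v + 15 * δ / (Real.sqrt u * ρ ^ 2) := by
  have hδ0 : 0 ≤ δ := le_trans (abs_nonneg _) hδ
  have hY0 : 0 ≤ Y := le_trans (abs_nonneg _) hY
  have hu : 0 < u := by nlinarith [pow_pos hρ 2]
  have hR := RR_lower hY (pow_pos hρ 2) hqu hYq
  have hR' := RR_lower hY (pow_pos hρ' 2) hqu' hYq'
  set R := 4 * ρ ^ 2 * u - (v - u - ρ ^ 2) ^ 2 with hRd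
  set R' := 4 * ρ' ^ 2 * u - (v - u - ρ' ^ 2) ^ 2 with hRd'
  have hu2 : 0 < u * ρ ^ 2 := by positivity
  have hu2' : 0 < u * ρ' ^ 2 := by positivity
  have hR0 : 0 < R := lt_of_lt_of_le hu2 hR
  have hR0' : 0 < R' := lt_of_lt_of_le hu2' hR'
  have hs : Real.sqrt u * ρ ≤ Real.sqrt R := by
    rw [← Real.sqrt_sq hρ.le, ← Real.sqrt_mul hu.le]
    exact Real.sqrt_le_sqrt hR
  have hs' : Real.sqrt u * ρ' ≤ Real.sqrt R' := by
    rw [← Real.sqrt_sq hρ'.le, ← Real.sqrt_mul hu.le]
    exact Real.sqrt_le_sqrt hR'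
  have hsu : 0 < Real.sqrt u := Real.sqrt_pos.mpr hu
  have hYu : Y ≤ u / 5 := by
    have h3 : 4 * Y ^ 2 ≤ u * (u / 8) := le_trans hYq (by nlinarith)
    nlinarith
  have hdiff : R' - R ≤ 15 * u * (δ * ρ') := by
    have e : R' - R = (ρ' ^ 2 - ρ ^ 2) * (4 * u + 2 * (v - u) - ρ ^ 2 - ρ' ^ 2) := by
      rw [hRd, hRd']; ring
    have h4 : |ρ' ^ 2 - ρ ^ 2| ≤ δ * (3 * ρ') := by
      have e2 : ρ' ^ 2 - ρ ^ 2 = -((ρ - ρ') * (ρ + ρ')) := by ring
      rw [e2, abs_neg, abs_mul, abs_of_pos (by linarith : 0 < ρ + ρ')]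
      exact mul_le_mul hδ (by linarith) (by linarith) hδ0
    have h5 : |4 * u + 2 * (v - u) - ρ ^ 2 - ρ' ^ 2| ≤ 5 * u := by
      have h6 := abs_le.mp hY
      have h7 := sq_nonneg ρ
      have h8 := sq_nonneg ρ'
      rw [abs_le]
      constructor <;> linarith [h6.1, h6.2]
    calc R' - R ≤ |R' - R| := le_abs_self _
      _ = |ρ' ^ 2 - ρ ^ 2| * |4 * u + 2 * (v - u) - ρ ^ 2 - ρ' ^ 2| := by rw [e, abs_mul]
      _ ≤ (δ * (3 * ρ')) * (5 * u) := mul_le_mul h4 h5 (abs_nonneg _) (by positivity)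
      _ = _ := by ring
  have hsR : 0 < Real.sqrt R := Real.sqrt_pos.mpr hR0
  have hsR' : 0 < Real.sqrt R' := Real.sqrt_pos.mpr hR0'
  have hkey : 1 / Real.sqrt R - 1 / Real.sqrt R' = (R' - R) / (Real.sqrt R * Real.sqrt R' *
      (Real.sqrt R + Real.sqrt R')) := by
    have e1 : R = Real.sqrt R ^ 2 := (Real.sq_sqrt hR0.le).symm
    have e2 : R' = Real.sqrt R' ^ 2 := (Real.sq_sqrt hR0'.le).symm
    rw [show R' - R = (Real.sqrt R' - Real.sqrt R) * (Real.sqrt R + Real.sqrt R') by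
      nth_rewrite 1 [e1, e2]; ring]
    field_simp
  have hden : Real.sqrt u ^ 3 * ρ ^ 2 * ρ' ≤ Real.sqrt R * Real.sqrt R' *
      (Real.sqrt R + Real.sqrt R') := by
    calc Real.sqrt u ^ 3 * ρ ^ 2 * ρ' = (Real.sqrt u * ρ) * (Real.sqrt u * ρ') *
          (Real.sqrt u * ρ) := by ring
      _ ≤ Real.sqrt R * Real.sqrt R' * (Real.sqrt R + Real.sqrt R') := by
          apply mul_le_mul
          · exact mul_le_mul hs hs' (by positivity) hsR.le
          · linarith
          · positivity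
          · positivity
  have hfin : (R' - R) / (Real.sqrt R * Real.sqrt R' * (Real.sqrt R + Real.sqrt R')) ≤
      15 * δ / (Real.sqrt u * ρ ^ 2) := by
    have hpos : 0 < Real.sqrt u ^ 3 * ρ ^ 2 * ρ' := by positivity
    calc (R' - R) / (Real.sqrt R * Real.sqrt R' * (Real.sqrt R + Real.sqrt R'))
        ≤ (15 * u * (δ * ρ')) / (Real.sqrt R * Real.sqrt R' * (Real.sqrt R + Real.sqrt R')) :=
          div_le_div_of_nonneg_right hdiff (by positivity)
      _ ≤ (15 * u * (δ * ρ')) / (Real.sqrt u ^ 3 * ρ ^ 2 * ρ') :=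
          div_le_div_of_nonneg_left (by positivity) hpos hden
      _ = _ := by
          have e3 : Real.sqrt u ^ 2 = u := Real.sq_sqrt hu.le
          rw [div_eq_div_iff hpos.ne' (by positivity)]
          calc 15 * u * (δ * ρ') * (Real.sqrt u * ρ ^ 2)
              = 15 * δ * (Real.sqrt u * u * ρ ^ 2 * ρ') := by ring
            _ = 15 * δ * (Real.sqrt u * Real.sqrt u ^ 2 * ρ ^ 2 * ρ') := by rw [e3]
            _ = _ := by ring
  change 1 / Real.sqrt R ≤ 1 / Real.sqrt R' + _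
  linarith

section
variable {M : ℝ} (hM : 1 ≤ M) {A : ℝ × ℝ × ℝ} (hA : A ∈ KM M) {B : ℝ} (hB : 1 ≤ B)
  {K : ℝ → ENNReal} (hK : Measurable K) (hK1 : ∀ t, K t ≤ 1) (hKB : ∀ t, B < |t| → K t = 0)
  {s s' : ℝ} (hs : 2 * B ≤ s)

include hM hA hB hK hK1 hKB hs

theorem lint_K (c : ℝ) : ∫⁻ u, K (u - c) ≤ ENNReal.ofReal (2 * B) := by
  calc ∫⁻ u, K (u - c) ≤ ∫⁻ u, (Set.Icc (c - B) (c + B)).indicator 1 u := by
        refine lintegral_mono fun u => ?_
        by_cases hu : u ∈ Set.Icc (c - B) (c + B)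
        · rw [Set.indicator_of_mem hu]; exact hK1 _
        · rw [Set.indicator_of_notMem hu]
          have : B < |u - c| := by
            by_contra hc
            push Not at hc
            rw [abs_le] at hc
            exact hu ⟨by linarith [hc.1], by linarith [hc.2]⟩
          rw [hKB _ this]
    _ = _ := by
        rw [lintegral_indicator_one measurableSet_Icc, Real.volume_Icc]
        congr 1; ring

theorem gk_le_bt (h : ℝ × ℝ) : gk A K s s' h ≤ bt A B s s' h := by
  have hq := measurable_qf A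
  have hm : MeasurableSet {x : ℝ × ℝ | |qf A x - s| ≤ B ∧ |qf A (x + h) - s'| ≤ B} := by
    have h1 : MeasurableSet {x : ℝ × ℝ | |qf A x - s| ≤ B} :=
      measurableSet_le (by fun_prop) measurable_const
    have h2 : MeasurableSet {x : ℝ × ℝ | |qf A (x + h) - s'| ≤ B} :=
      measurableSet_le (by fun_prop) measurable_const
    exact h1.inter h2
  unfold gk bt
  rw [← lintegral_indicator_one hm]
  refine lintegral_mono fun x => ?_
  by_cases hx : |qf A x - s| ≤ B ∧ |qf A (x + h) - s'| ≤ B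
  · rw [Set.indicator_of_mem (show x ∈ {x : ℝ × ℝ | |qf A x - s| ≤ B ∧ |qf A (x + h) - s'| ≤ B} from hx)]
    calc K (qf A x - s) * K (qf A (x + h) - s') ≤ 1 * 1 := mul_le_mul' (hK1 _) (hK1 _)
      _ = _ := by simp
  · rcases not_and_or.mp hx with h1 | h1
    · rw [hKB _ (lt_of_not_ge h1), zero_mul]; exact zero_le
    · rw [hKB _ (lt_of_not_ge h1), mul_zero]; exact zero_le

theorem gk_le_far {h : ℝ × ℝ} (hh : 0 < qf A h) (hY : 8 * (|s - s'| + 2 * B) ^ 2 ≤ s * qf A h)
    (hq : 16 * qf A h ≤ s) : gk A K s s' h ≤ ENNReal.ofReal (6 * M * B ^ 2 / (Real.sqrt s * rr A h)) := by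
  have hρ0 : 0 < rr A h := Real.sqrt_pos.mpr hh
  have hs0 : 0 < s := by linarith
  have hss : 0 < Real.sqrt s := Real.sqrt_pos.mpr hs0
  have hKs : Measurable (fun u => K (u - s)) := hK.comp (measurable_id.sub_const s)
  have hKs' : Measurable (fun u => K (u - s')) := hK.comp (measurable_id.sub_const s')
  unfold gk
  rw [coarea (disc_pos_of_KM hM hA) hh (fun t => K (t - s)) (fun t => K (t - s'))
    (hK.comp (measurable_id.sub_const _)) (hK.comp (measurable_id.sub_const _))]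
  have hp : ∀ u v : ℝ, K (u - s) * K (v - s') * ENNReal.ofReal (DD (qf A h) u v) ≤
      K (u - s) * (K (v - s') * ENNReal.ofReal (3 / 2 / (Real.sqrt s * rr A h))) := by
    intro u v
    rw [mul_assoc]
    by_cases h1 : |u - s| ≤ B
    · by_cases h2 : |v - s'| ≤ B
      · gcongr
        have h3 := abs_le.mp h1
        have h4 : |v - u| ≤ |s - s'| + 2 * B := by
          have e : v - u = (v - s') - (u - s) - (s - s') := by ring
          rw [e]
          calc |v - s' - (u - s) - (s - s')| ≤ |v - s' - (u - s)| + |s - s'| := abs_sub _ _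
            _ ≤ |v - s'| + |u - s| + |s - s'| := by gcongr; exact abs_sub _ _
            _ ≤ _ := by linarith
        have hus : s / 2 ≤ u := by linarith [h3.1]
        refine le_trans (DD_le h4 hh (by linarith) (by nlinarith)) ?_
        rw [div_le_div_iff₀ (Real.sqrt_pos.mpr (by nlinarith)) (by positivity), one_mul]
        have h5 : Real.sqrt (u * qf A h) = Real.sqrt u * rr A h := by
          rw [Real.sqrt_mul (by linarith)]; rfl
        rw [h5, ← mul_assoc]
        apply mul_le_mul_of_nonneg_right _ hρ0.le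
        rw [← Real.sqrt_sq (by norm_num : (0 : ℝ) ≤ 3 / 2), ← Real.sqrt_mul (by positivity)]
        apply Real.sqrt_le_sqrt
        nlinarith
      · rw [hKB _ (lt_of_not_ge h2)]; simp
    · rw [hKB _ (lt_of_not_ge h1)]; simp
  have hle : ∫⁻ u, ∫⁻ v, K (u - s) * K (v - s') * ENNReal.ofReal (DD (qf A h) u v) ≤
      ENNReal.ofReal (2 * B) * (ENNReal.ofReal (2 * B) *
        ENNReal.ofReal (3 / 2 / (Real.sqrt s * rr A h))) := by
    calc ∫⁻ u, ∫⁻ v, K (u - s) * K (v - s') * ENNReal.ofReal (DD (qf A h) u v)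
        ≤ ∫⁻ u, ∫⁻ v, K (u - s) * (K (v - s') * ENNReal.ofReal (3 / 2 / (Real.sqrt s * rr A h))) :=
          lintegral_mono fun u => lintegral_mono fun v => hp u v
      _ = (∫⁻ u, K (u - s)) * ((∫⁻ v, K (v - s')) * ENNReal.ofReal (3 / 2 / (Real.sqrt s * rr A h))) := by
          have e1 : ∀ u : ℝ, ∫⁻ v, K (u - s) * (K (v - s') *
              ENNReal.ofReal (3 / 2 / (Real.sqrt s * rr A h))) = K (u - s) * ((∫⁻ v, K (v - s')) *
                ENNReal.ofReal (3 / 2 / (Real.sqrt s * rr A h))) := by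
            intro u
            rw [lintegral_const_mul _ (hKs'.mul_const _), lintegral_mul_const _ hKs']
          simp only [e1]
          rw [lintegral_mul_const _ hKs]
      _ ≤ _ := by
          gcongr
          · exact lint_K hM hA hB hK hK1 hKB hs s
          · exact lint_K hM hA hB hK hK1 hKB hs s'
  refine le_trans (mul_le_mul' (ENNReal.ofReal_le_ofReal (inv_sqrt_disc_le hM hA)) hle) ?_
  rw [← ENNReal.ofReal_mul (by positivity), ← ENNReal.ofReal_mul (by positivity),
    ← ENNReal.ofReal_mul (by positivity)]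
  refine ENNReal.ofReal_le_ofReal (le_of_eq ?_)
  field_simp
  ring

theorem gk_comp {h h' : ℝ × ℝ} (hh : 0 < qf A h) (hh' : 0 < qf A h')
    (hY : 8 * (|s - s'| + 2 * B) ^ 2 ≤ s * qf A h) (hY' : 8 * (|s - s'| + 2 * B) ^ 2 ≤ s * qf A h')
    (hq : 16 * qf A h ≤ s) (hq' : 16 * qf A h' ≤ s) {δ : ℝ} (hδ : |rr A h - rr A h'| ≤ δ)
    (h2 : rr A h ≤ 2 * rr A h') :
    gk A K s s' h ≤ gk A K s s' h' + ENNReal.ofReal (90 * δ * M * B ^ 2 / (Real.sqrt s * qf A h)) := by
  have hρ0 : 0 < rr A h := Real.sqrt_pos.mpr hh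
  have hρ0' : 0 < rr A h' := Real.sqrt_pos.mpr hh'
  have hρ2 : rr A h ^ 2 = qf A h := rr_sq hM hA h
  have hρ2' : rr A h' ^ 2 = qf A h' := rr_sq hM hA h'
  have hδ0 : 0 ≤ δ := le_trans (abs_nonneg _) hδ
  have hs0 : 0 < s := by linarith
  have hss : 0 < Real.sqrt s := Real.sqrt_pos.mpr hs0
  have hKs : Measurable (fun u => K (u - s)) := hK.comp (measurable_id.sub_const s)
  have hKs' : Measurable (fun u => K (u - s')) := hK.comp (measurable_id.sub_const s')
  unfold gk
  rw [coarea (disc_pos_of_KM hM hA) hh (fun t => K (t - s)) (fun t => K (t - s'))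
      (hK.comp (measurable_id.sub_const _)) (hK.comp (measurable_id.sub_const _)),
    coarea (disc_pos_of_KM hM hA) hh' (fun t => K (t - s)) (fun t => K (t - s'))
      (hK.comp (measurable_id.sub_const _)) (hK.comp (measurable_id.sub_const _))]
  set e := ENNReal.ofReal (45 / 2 * δ / (Real.sqrt s * qf A h)) with he
  have hp : ∀ u v : ℝ, K (u - s) * K (v - s') * ENNReal.ofReal (DD (qf A h) u v) ≤
      K (u - s) * K (v - s') * ENNReal.ofReal (DD (qf A h') u v) + K (u - s) * (K (v - s') * e) := by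
    intro u v
    by_cases h1 : |u - s| ≤ B
    · by_cases h4 : |v - s'| ≤ B
      · rw [← mul_assoc, ← mul_add]
        gcongr
        have h3 := abs_le.mp h1
        have h5 : |v - u| ≤ |s - s'| + 2 * B := by
          have e : v - u = (v - s') - (u - s) - (s - s') := by ring
          rw [e]
          calc |v - s' - (u - s) - (s - s')| ≤ |v - s' - (u - s)| + |s - s'| := abs_sub _ _
            _ ≤ |v - s'| + |u - s| + |s - s'| := by gcongr; exact abs_sub _ _
            _ ≤ _ := by linarith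
        have hus : s / 2 ≤ u := by linarith [h3.1]
        have h6 := DD_comp h5 hρ0 hρ0' hδ h2 (by rw [hρ2]; linarith) (by rw [hρ2']; linarith)
          (by rw [hρ2]; nlinarith) (by rw [hρ2']; nlinarith)
        rw [hρ2, hρ2'] at h6
        have h7 : 15 * δ / (Real.sqrt u * qf A h) ≤ 45 / 2 * δ / (Real.sqrt s * qf A h) := by
          have hsu : 0 < Real.sqrt u := Real.sqrt_pos.mpr (by linarith)
          have h8 : Real.sqrt s ≤ 3 / 2 * Real.sqrt u := by
            rw [← Real.sqrt_sq (by norm_num : (0 : ℝ) ≤ 3 / 2), ← Real.sqrt_mul (by positivity)]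
            apply Real.sqrt_le_sqrt
            nlinarith
          rw [div_le_div_iff₀ (by positivity) (by positivity)]
          have h9 : 0 ≤ 15 * δ * qf A h := by positivity
          calc 15 * δ * (Real.sqrt s * qf A h) = (15 * δ * qf A h) * Real.sqrt s := by ring
            _ ≤ (15 * δ * qf A h) * (3 / 2 * Real.sqrt u) := mul_le_mul_of_nonneg_left h8 h9
            _ = _ := by ring
        refine le_trans (ENNReal.ofReal_le_ofReal (le_trans h6 (add_le_add_right h7 _))) ?_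
        rw [he]
        refine ENNReal.ofReal_add_le
      · rw [hKB _ (lt_of_not_ge h4)]; simp
    · rw [hKB _ (lt_of_not_ge h1)]; simp
  have hm1 : ∀ u : ℝ, Measurable (fun v => K (u - s) * K (v - s') * ENNReal.ofReal (DD (qf A h') u v)) := by
    intro u
    refine Measurable.mul (measurable_const.mul hKs') ?_
    exact ENNReal.measurable_ofReal.comp ((measurable_DD _).comp measurable_prodMk_left)
  have hm2 : Measurable (fun u => ∫⁻ v, K (u - s) * K (v - s') * ENNReal.ofReal (DD (qf A h') u v)) := by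
    have : Measurable (fun p : ℝ × ℝ => K (p.1 - s) * K (p.2 - s') *
        ENNReal.ofReal (DD (qf A h') p.1 p.2)) := by
      refine Measurable.mul ((hK.comp (by fun_prop)).mul (hK.comp (by fun_prop))) ?_
      exact ENNReal.measurable_ofReal.comp (measurable_DD _)
    exact this.lintegral_prod_right'
  have hle : ∫⁻ u, ∫⁻ v, K (u - s) * K (v - s') * ENNReal.ofReal (DD (qf A h) u v) ≤
      (∫⁻ u, ∫⁻ v, K (u - s) * K (v - s') * ENNReal.ofReal (DD (qf A h') u v)) +
      ENNReal.ofReal (2 * B) * (ENNReal.ofReal (2 * B) * e) := by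
    calc ∫⁻ u, ∫⁻ v, K (u - s) * K (v - s') * ENNReal.ofReal (DD (qf A h) u v)
        ≤ ∫⁻ u, ∫⁻ v, (K (u - s) * K (v - s') * ENNReal.ofReal (DD (qf A h') u v) +
            K (u - s) * (K (v - s') * e)) :=
          lintegral_mono fun u => lintegral_mono fun v => hp u v
      _ = (∫⁻ u, ∫⁻ v, K (u - s) * K (v - s') * ENNReal.ofReal (DD (qf A h') u v)) +
          (∫⁻ u, K (u - s)) * ((∫⁻ v, K (v - s')) * e) := by
          have e1 : ∀ u : ℝ, ∫⁻ v, (K (u - s) * K (v - s') * ENNReal.ofReal (DD (qf A h') u v) +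
              K (u - s) * (K (v - s') * e)) =
              (∫⁻ v, K (u - s) * K (v - s') * ENNReal.ofReal (DD (qf A h') u v)) +
                K (u - s) * ((∫⁻ v, K (v - s')) * e) := by
            intro u
            rw [lintegral_add_left (hm1 u),
              lintegral_const_mul _ (hKs'.mul_const _)]
            congr 2
            exact lintegral_mul_const _ hKs'
          simp only [e1]
          rw [lintegral_add_left hm2]
          congr 1
          exact lintegral_mul_const _ hKs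
      _ ≤ _ := by
          gcongr
          · exact lint_K hM hA hB hK hK1 hKB hs s
          · exact lint_K hM hA hB hK hK1 hKB hs s'
  refine le_trans (mul_le_mul_right hle _) ?_
  rw [mul_add]
  refine add_le_add_right ?_ _
  rw [he, ← ENNReal.ofReal_mul (by positivity), ← ENNReal.ofReal_mul (by positivity),
    ← ENNReal.ofReal_mul (by positivity)]
  refine ENNReal.ofReal_le_ofReal ?_
  have h10 := inv_sqrt_disc_le hM hA
  have h11 : 0 ≤ 2 * B * (2 * B * (45 / 2 * δ / (Real.sqrt s * qf A h))) := by positivity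
  calc (Real.sqrt (disc A))⁻¹ * (2 * B * (2 * B * (45 / 2 * δ / (Real.sqrt s * qf A h))))
      ≤ M * (2 * B * (2 * B * (45 / 2 * δ / (Real.sqrt s * qf A h)))) :=
        mul_le_mul_of_nonneg_right h10 h11
    _ = _ := by ring

end

end Pool.Agent.Helper30_FC
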