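import Pool.Agent.Helper30_FC.Far

/-!
MP_f5cbfa_nt, frozen S18989 (helper30): long differences: the lattice sum is at most the integral
plus a small error; size of the integral.
-/

set_option autoImplicit false

open MeasureTheory Set

namespace Pool.Agent.Helper30_FC

open Pool.Agent.BTL

/-- hypotheses on the cut-off of the differences -/
structure Cut (Λ : ℝ) (Φ : ℝ × ℝ → ℝ) : Prop where
  one_le : 1 ≤ Λ
  nonneg : ∀ x, 0 ≤ Φ x
  le_one : ∀ x, Φ x ≤ 1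
  supp : ∀ x, Φ x ≠ 0 → ‖x‖ ≤ Λ
  lip : ∀ x y, |Φ x - Φ y| ≤ Λ * ‖x - y‖

/-- hypotheses on the window -/
structure Win (B : ℝ) (K : ℝ → ENNReal) : Prop where
  one_le : 1 ≤ B
  meas : Measurable K
  le_one : ∀ t, K t ≤ 1
  supp : ∀ t, B < |t| → K t = 0

/-- scaled cut-off -/
noncomputable def ph (L : ℝ) (Φ : ℝ × ℝ → ℝ) (h : ℝ × ℝ) : ENNReal := ENNReal.ofReal (Φ (L⁻¹ • h))

theorem Cut.measurable {Λ : ℝ} {Φ : ℝ × ℝ → ℝ} (hΦ : Cut Λ Φ) : Measurable Φ := by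
  have : Continuous Φ := by
    refine (LipschitzWith.of_dist_le_mul (K := Real.toNNReal Λ) ?_).continuous
    intro x y
    rw [Real.dist_eq, dist_eq_norm, Real.coe_toNNReal _ (by linarith [hΦ.one_le])]
    exact hΦ.lip x y
  exact this.measurable

theorem measurable_ph {Λ : ℝ} {Φ : ℝ × ℝ → ℝ} (hΦ : Cut Λ Φ) (L : ℝ) : Measurable (ph L Φ) :=
  ENNReal.measurable_ofReal.comp (hΦ.measurable.comp (measurable_const_smul _))

theorem ph_le_one {Λ : ℝ} {Φ : ℝ × ℝ → ℝ} (hΦ : Cut Λ Φ) (L : ℝ) (h : ℝ × ℝ) : ph L Φ h ≤ 1 := by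
  unfold ph
  rw [← ENNReal.ofReal_one]
  exact ENNReal.ofReal_le_ofReal (hΦ.le_one _)

theorem rr_le_of_norm {M : ℝ} (hM : 1 ≤ M) {A : ℝ × ℝ × ℝ} (hA : A ∈ KM M) {h : ℝ × ℝ} {R : ℝ}
    (hh : ‖h‖ ≤ R) : rr A h ≤ 2 * M * R := by
  have hR : 0 ≤ R := le_trans (norm_nonneg _) hh
  rw [Prod.norm_def, sup_le_iff, Real.norm_eq_abs, Real.norm_eq_abs] at hh
  have h1 := (hA h).2
  have h2 : nr h ≤ 2 * R ^ 2 := by
    unfold nr
    have e1 : h.1 ^ 2 ≤ R ^ 2 := by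
      rw [← sq_abs]; exact pow_le_pow_left₀ (abs_nonneg _) hh.1 2
    have e2 : h.2 ^ 2 ≤ R ^ 2 := by
      rw [← sq_abs]; exact pow_le_pow_left₀ (abs_nonneg _) hh.2 2
    linarith
  rw [rr]
  apply Real.sqrt_le_iff.mpr
  refine ⟨by positivity, ?_⟩
  have h3 : M * nr h ≤ M * (2 * R ^ 2) := mul_le_mul_of_nonneg_left h2 (by linarith)
  nlinarith [sq_nonneg R, mul_nonneg (sq_nonneg R) (by linarith : (0 : ℝ) ≤ M - 1),
    mul_nonneg (sq_nonneg R) (sq_nonneg (M - 1))]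

theorem rr_le_of_ph {M : ℝ} (hM : 1 ≤ M) {A : ℝ × ℝ × ℝ} (hA : A ∈ KM M) {Λ : ℝ}
    {Φ : ℝ × ℝ → ℝ} (hΦ : Cut Λ Φ) {L : ℝ} (hL : 1 ≤ L) {h : ℝ × ℝ} (hh : ph L Φ h ≠ 0) :
    rr A h ≤ 2 * M * (Λ * L) := by
  apply rr_le_of_norm hM hA
  have h1 : Φ (L⁻¹ • h) ≠ 0 := by
    intro h0
    apply hh
    unfold ph
    rw [h0, ENNReal.ofReal_zero]
  have h2 := hΦ.supp _ h1
  rw [norm_smul, Real.norm_eq_abs, abs_of_pos (by positivity)] at h2
  have hL0 : 0 < L := by linarith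
  rw [inv_mul_le_iff₀ hL0] at h2
  linarith

/-- the error term of one lattice vector -/
theorem far_one {M : ℝ} (hM : 1 ≤ M) {A : ℝ × ℝ × ℝ} (hA : A ∈ KM M) {B Λ L H s s' : ℝ}
    (hL : 1 ≤ L) (hH : 2 * M ≤ H) (hs : 2 * B ≤ s)
    (hY : 32 * (|s - s'| + 2 * B) ^ 2 ≤ s * H ^ 2) (hW : 16 * (2 * M * (Λ * L) + M) ^ 2 ≤ s)
    {K : ℝ → ENNReal} (hK : Win B K) {Φ : ℝ × ℝ → ℝ} (hΦ : Cut Λ Φ) {k : ℤ × ℤ}
    (hk : H ≤ rr A (rc k)) (hk2 : ph L Φ (rc k) ≠ 0) {z : ℝ × ℝ} (hz : z ∈ sq0) :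
    ph L Φ (rc k) * gk A K s s' (rc k) ≤ ph L Φ (rc k + z) * gk A K s s' (rc k + z) +
      ENNReal.ofReal (102 * M ^ 2 * Λ ^ 2 * B ^ 2 / Real.sqrt s * (1 / rr A (rc k) ^ 2)) := by
  have hM0 : 0 < M := by linarith
  have hΛ := hΦ.one_le
  have hB := hK.one_le
  set W := 2 * M * (Λ * L) with hWd
  set ρ := rr A (rc k) with hρ
  set ρ' := rr A (rc k + z) with hρ'
  have hρW : ρ ≤ W := rr_le_of_ph hM hA hΦ hL hk2
  have hzz := rr_sq0 hM hA hz
  have h1 := rr_add_le hM hA (rc k) z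
  have h2 := rr_sub_le hM hA (rc k) z
  have hρ0 : 0 < ρ := by linarith
  have hρ'1 : H / 2 ≤ ρ' := by linarith
  have hρ'2 : ρ' ≤ W + M := by linarith
  have hρ'0 : 0 < ρ' := by linarith
  have hq : qf A (rc k) = ρ ^ 2 := (rr_sq hM hA _).symm
  have hq' : qf A (rc k + z) = ρ' ^ 2 := (rr_sq hM hA _).symm
  have hs0 : 0 < s := by linarith
  have hss : 0 < Real.sqrt s := Real.sqrt_pos.mpr hs0
  have c1 : 8 * (|s - s'| + 2 * B) ^ 2 ≤ s * ρ' ^ 2 := by
    have : s * (H / 2) ^ 2 ≤ s * ρ' ^ 2 := by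
      apply mul_le_mul_of_nonneg_left _ hs0.le
      exact pow_le_pow_left₀ (by linarith) hρ'1 2
    nlinarith
  have c2 : 8 * (|s - s'| + 2 * B) ^ 2 ≤ s * ρ ^ 2 := by
    have : s * H ^ 2 ≤ s * ρ ^ 2 := by
      apply mul_le_mul_of_nonneg_left _ hs0.le
      exact pow_le_pow_left₀ (by linarith) hk 2
    nlinarith [sq_nonneg (|s - s'| + 2 * B)]
  have c3 : 16 * ρ ^ 2 ≤ s := by
    have : ρ ^ 2 ≤ (W + M) ^ 2 := pow_le_pow_left₀ hρ0.le (by linarith) 2
    linarith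
  have c4 : 16 * ρ' ^ 2 ≤ s := by
    have : ρ' ^ 2 ≤ (W + M) ^ 2 := pow_le_pow_left₀ hρ'0.le hρ'2 2
    linarith
  have g1 := gk_comp hM hA hB hK.meas hK.le_one hK.supp hs (s' := s') (h := rc k) (h' := rc k + z)
    (by rw [hq]; positivity) (by rw [hq']; positivity) (by rw [hq]; exact c2)
    (by rw [hq']; exact c1) (by rw [hq]; exact c3) (by rw [hq']; exact c4) (δ := M)
    (by rw [abs_le]; constructor <;> linarith) (by linarith)
  have g2 := gk_le_far hM hA hB hK.meas hK.le_one hK.supp hs (s' := s') (h := rc k)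
    (by rw [hq]; positivity) (by rw [hq]; exact c2) (by rw [hq]; exact c3)
  have p1 : ph L Φ (rc k) ≤ ph L Φ (rc k + z) + ENNReal.ofReal (Λ / L) := by
    unfold ph
    refine le_trans (ENNReal.ofReal_le_ofReal ?_) ENNReal.ofReal_add_le
    have h5 := hΦ.lip (L⁻¹ • rc k) (L⁻¹ • (rc k + z))
    have h6 : L⁻¹ • rc k - L⁻¹ • (rc k + z) = -(L⁻¹ • z) := by
      rw [smul_add]; abel
    have hL0 : 0 < L := by linarith
    rw [h6, norm_neg, norm_smul, Real.norm_eq_abs, abs_of_pos (inv_pos.mpr hL0)] at h5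
    have h7 : ‖z‖ ≤ 1 := by
      obtain ⟨⟨a1, a2⟩, a3, a4⟩ := hz
      rw [Prod.norm_def, sup_le_iff, Real.norm_eq_abs, Real.norm_eq_abs, abs_le, abs_le]
      refine ⟨⟨by linarith, by linarith⟩, by linarith, by linarith⟩
    have h8 : Λ * (L⁻¹ * ‖z‖) ≤ Λ / L := by
      rw [div_eq_mul_inv]
      apply mul_le_mul_of_nonneg_left _ (by linarith)
      calc L⁻¹ * ‖z‖ ≤ L⁻¹ * 1 := mul_le_mul_of_nonneg_left h7 (by positivity)
        _ = L⁻¹ := mul_one _
    have h9 := abs_le.mp h5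
    linarith [h9.2]
  calc ph L Φ (rc k) * gk A K s s' (rc k)
      ≤ (ph L Φ (rc k + z) + ENNReal.ofReal (Λ / L)) * gk A K s s' (rc k) := mul_le_mul_left p1 _
    _ = ph L Φ (rc k + z) * gk A K s s' (rc k) + ENNReal.ofReal (Λ / L) * gk A K s s' (rc k) :=
        add_mul _ _ _
    _ ≤ ph L Φ (rc k + z) * (gk A K s s' (rc k + z) +
          ENNReal.ofReal (90 * M * M * B ^ 2 / (Real.sqrt s * qf A (rc k)))) +
        ENNReal.ofReal (Λ / L) * ENNReal.ofReal (6 * M * B ^ 2 / (Real.sqrt s * rr A (rc k))) := by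
        gcongr
    _ ≤ ph L Φ (rc k + z) * gk A K s s' (rc k + z) +
          ENNReal.ofReal (90 * M * M * B ^ 2 / (Real.sqrt s * qf A (rc k))) +
        ENNReal.ofReal (Λ / L) * ENNReal.ofReal (6 * M * B ^ 2 / (Real.sqrt s * rr A (rc k))) := by
        rw [mul_add]
        gcongr
        calc ph L Φ (rc k + z) * ENNReal.ofReal (90 * M * M * B ^ 2 / (Real.sqrt s * qf A (rc k)))
            ≤ 1 * ENNReal.ofReal (90 * M * M * B ^ 2 / (Real.sqrt s * qf A (rc k))) :=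
              mul_le_mul_left (ph_le_one hΦ _ _) _
          _ = _ := one_mul _
    _ ≤ _ := by
        rw [add_assoc]
        refine add_le_add_right ?_ _
        rw [← ENNReal.ofReal_mul (by positivity), ← ENNReal.ofReal_add (by rw [hq]; positivity)
          (by positivity)]
        refine ENNReal.ofReal_le_ofReal ?_
        rw [hq, ← hρ]
        have h10 : 1 / L ≤ 2 * M * Λ / ρ := by
          rw [div_le_div_iff₀ (by linarith) hρ0]
          nlinarith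
        have h11 : Λ / L * (6 * M * B ^ 2 / (Real.sqrt s * ρ)) =
            (6 * M * Λ * B ^ 2 / (Real.sqrt s * ρ)) * (1 / L) := by
          field_simp
        have h12 : (6 * M * Λ * B ^ 2 / (Real.sqrt s * ρ)) * (1 / L) ≤
            (6 * M * Λ * B ^ 2 / (Real.sqrt s * ρ)) * (2 * M * Λ / ρ) :=
          mul_le_mul_of_nonneg_left h10 (by positivity)
        have h13 : (6 * M * Λ * B ^ 2 / (Real.sqrt s * ρ)) * (2 * M * Λ / ρ) =
            12 * M ^ 2 * Λ ^ 2 * B ^ 2 / Real.sqrt s * (1 / ρ ^ 2) := by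
          field_simp
          ring
        have h14 : 90 * M * M * B ^ 2 / (Real.sqrt s * ρ ^ 2) ≤
            90 * M ^ 2 * Λ ^ 2 * B ^ 2 / Real.sqrt s * (1 / ρ ^ 2) := by
          have e : 90 * M * M * B ^ 2 / (Real.sqrt s * ρ ^ 2) =
              (90 * M ^ 2 * B ^ 2 / Real.sqrt s * (1 / ρ ^ 2)) * 1 := by
            field_simp
          have e2 : 90 * M ^ 2 * Λ ^ 2 * B ^ 2 / Real.sqrt s * (1 / ρ ^ 2) =
              (90 * M ^ 2 * B ^ 2 / Real.sqrt s * (1 / ρ ^ 2)) * Λ ^ 2 := by ring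
          rw [e, e2]
          apply mul_le_mul_of_nonneg_left _ (by positivity)
          nlinarith
        rw [h11]
        calc 90 * M * M * B ^ 2 / (Real.sqrt s * ρ ^ 2) +
              6 * M * Λ * B ^ 2 / (Real.sqrt s * ρ) * (1 / L)
            ≤ 90 * M ^ 2 * Λ ^ 2 * B ^ 2 / Real.sqrt s * (1 / ρ ^ 2) +
              12 * M ^ 2 * Λ ^ 2 * B ^ 2 / Real.sqrt s * (1 / ρ ^ 2) := by
              refine add_le_add h14 (le_trans h12 (le_of_eq h13))
          _ = _ := by ring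

/-- sum of the inverse squares of the norms -/
theorem sum_inv_sq {M : ℝ} (hM : 1 ≤ M) : ∃ C : ℝ, 1 ≤ C ∧ ∀ A ∈ KM M, ∀ H : ℝ, 0 ≤ H →
    ∀ S : Finset (ℤ × ℤ), (∀ h ∈ S, h ≠ 0 ∧ rr A (rc h) ≤ H) →
      ∑ h ∈ S, 1 / rr A (rc h) ^ 2 ≤ C * Real.sqrt H := by
  obtain ⟨C, hC1, hC⟩ := Pool.Agent.BTL.H99.shell_all Pool.Agent.BTL.H99.shell (3 / 2)
    (by norm_num) (by norm_num)
  have hM0 : 0 < M := by linarith
  refine ⟨M ^ 2 * (C * M), ?_, ?_⟩
  · have h1 : 1 ≤ M ^ 2 := one_le_pow₀ hM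
    have h2 : 1 ≤ C * M := by nlinarith
    nlinarith
  intro A hA H hH S hS
  have h1 := hC S (M * H) (by positivity) (by
    intro x hx
    refine ⟨(hS x hx).1, le_trans (ln_le_rr hM hA x) ?_⟩
    exact mul_le_mul_of_nonneg_left (hS x hx).2 hM0.le)
  have h2 : ∑ h ∈ S, 1 / rr A (rc h) ^ 2 ≤ ∑ h ∈ S, M ^ 2 * (ln h) ^ (-(3 / 2) : ℝ) := by
    refine Finset.sum_le_sum fun h hh => ?_
    have h3 := ln_le_rr hM hA h
    have h4 := one_le_ln (hS h hh).1
    have h5 : 0 < rr A (rc h) := Real.sqrt_pos.mpr (qf_pos_of_ne hM hA (hS h hh).1)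
    have h6 : (ln h) ^ (3 / 2 : ℝ) ≤ (ln h) ^ 2 := by
      rw [← Real.rpow_natCast]
      exact Real.rpow_le_rpow_of_exponent_le h4 (by norm_num)
    have h7 : 0 < (ln h) ^ (3 / 2 : ℝ) := Real.rpow_pos_of_pos (by linarith) _
    have h8 : (ln h) ^ 2 ≤ (M * rr A (rc h)) ^ 2 := pow_le_pow_left₀ (by linarith) h3 2
    rw [Real.rpow_neg (by linarith), div_le_iff₀ (by positivity)]
    calc (1 : ℝ) = ((ln h) ^ (3 / 2 : ℝ))⁻¹ * (ln h) ^ (3 / 2 : ℝ) := (inv_mul_cancel₀ h7.ne').symm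
      _ ≤ ((ln h) ^ (3 / 2 : ℝ))⁻¹ * (M * rr A (rc h)) ^ 2 :=
          mul_le_mul_of_nonneg_left (le_trans h6 h8) (by positivity)
      _ = _ := by ring
  refine le_trans h2 ?_
  rw [← Finset.mul_sum]
  have h9 : (M * H) ^ (2 - 3 / 2 : ℝ) ≤ M * Real.sqrt H := by
    rw [show (2 - 3 / 2 : ℝ) = 1 / 2 by norm_num, ← Real.sqrt_eq_rpow, Real.sqrt_mul hM0.le]
    apply mul_le_mul_of_nonneg_right _ (Real.sqrt_nonneg _)
    rw [Real.sqrt_le_left hM0.le]
    nlinarith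
  calc M ^ 2 * ∑ h ∈ S, (ln h) ^ (-(3 / 2) : ℝ) ≤ M ^ 2 * (C * (M * H) ^ (2 - 3 / 2 : ℝ)) :=
        mul_le_mul_of_nonneg_left h1 (by positivity)
    _ ≤ M ^ 2 * (C * (M * Real.sqrt H)) := by gcongr
    _ = _ := by ring

open Classical in
/-- long differences -/
theorem far_sum {M : ℝ} (hM : 1 ≤ M) : ∃ C : ℝ, 1 ≤ C ∧ ∀ A ∈ KM M, ∀ B Λ L H s s' : ℝ,
    1 ≤ L → 2 * M ≤ H → 2 * B ≤ s → 32 * (|s - s'| + 2 * B) ^ 2 ≤ s * H ^ 2 →
    16 * (2 * M * (Λ * L) + M) ^ 2 ≤ s → ∀ (K : ℝ → ENNReal) (Φ : ℝ × ℝ → ℝ), Win B K → Cut Λ Φ →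
    ∑' k : ℤ × ℤ, (if H ≤ rr A (rc k) then ph L Φ (rc k) * gk A K s s' (rc k) else 0) ≤
      (∫⁻ h, ph L Φ h * gk A K s s' h) +
        ENNReal.ofReal (C * Λ ^ 3 * B ^ 2 * (Real.sqrt L / Real.sqrt s)) := by
  obtain ⟨C, hC1, hC⟩ := sum_inv_sq hM
  have hM0 : 0 < M := by linarith
  refine ⟨204 * M ^ 3 * C, ?_, ?_⟩
  · have h1 : 1 ≤ M ^ 3 := one_le_pow₀ hM
    nlinarith
  intro A hA B Λ L H s s' hL hH hs hY hW K Φ hK hΦ
  have hΛ := hΦ.one_le
  have hB := hK.one_le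
  have hs0 : 0 < s := by linarith
  have hss : 0 < Real.sqrt s := Real.sqrt_pos.mpr hs0
  set W := 2 * M * (Λ * L) with hWd
  set e : ℤ × ℤ → ENNReal := fun k => ENNReal.ofReal
    (102 * M ^ 2 * Λ ^ 2 * B ^ 2 / Real.sqrt s * (1 / rr A (rc k) ^ 2)) with he
  set c : ℤ × ℤ → ENNReal := fun k => if k ≠ 0 ∧ rr A (rc k) ≤ W then e k else 0 with hc
  have hgm := measurable_gk (A := A) hK.meas s s'
  have hfm : Measurable (fun h => ph L Φ h * gk A K s s' h) := (measurable_ph hΦ L).mul hgm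
  have hpt : ∀ k : ℤ × ℤ, (if H ≤ rr A (rc k) then ph L Φ (rc k) * gk A K s s' (rc k) else 0) ≤
      (∫⁻ z in sq0, ph L Φ (rc k + z) * gk A K s s' (rc k + z)) + c k := by
    intro k
    split_ifs with h1
    · by_cases h2 : ph L Φ (rc k) = 0
      · rw [h2, zero_mul]; exact zero_le
      · have h3 : c k = e k := by
          rw [hc]
          simp only
          rw [if_pos]
          refine ⟨?_, rr_le_of_ph hM hA hΦ hL h2⟩
          intro h0
          have : rr A (rc k) = 0 := by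
            rw [h0]; unfold rr qf rc; simp
          rw [this] at h1
          linarith
        rw [h3]
        calc ph L Φ (rc k) * gk A K s s' (rc k)
            = ∫⁻ _ in sq0, ph L Φ (rc k) * gk A K s s' (rc k) := by
              rw [setLIntegral_const, vol_sq0, mul_one]
          _ ≤ ∫⁻ z in sq0, (ph L Φ (rc k + z) * gk A K s s' (rc k + z) + e k) :=
              setLIntegral_mono' measurableSet_sq0 (fun z hz =>
                far_one hM hA hL hH hs hY hW hK hΦ h1 h2 hz)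
          _ = _ := by
              rw [lintegral_add_right _ measurable_const, setLIntegral_const, vol_sq0, mul_one]
    · exact zero_le
  refine le_trans (ENNReal.tsum_le_tsum hpt) ?_
  rw [ENNReal.tsum_add, tile (fun h => ph L Φ h * gk A K s s' h) hfm]
  refine add_le_add_right ?_ _
  set S := (ball (M * W + 1)).filter (fun k => k ≠ 0 ∧ rr A (rc k) ≤ W) with hS
  have hmemS : ∀ k : ℤ × ℤ, (k ≠ 0 ∧ rr A (rc k) ≤ W) → k ∈ S := by
    intro k hk
    rw [hS, Finset.mem_filter]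
    refine ⟨?_, hk⟩
    rw [mem_ball]
    have h1 := ln_le_rr hM hA k
    have h2 : ln k < M * W + 1 := by
      have := mul_le_mul_of_nonneg_left hk.2 hM0.le
      linarith
    rw [← ln_sq]
    exact pow_lt_pow_left₀ h2 (ln_nonneg k) (by norm_num)
  rw [tsum_eq_sum (s := S) (by
    intro k hk
    rw [hc]
    simp only
    rw [if_neg (fun h => hk (hmemS k h))])]
  calc ∑ k ∈ S, c k ≤ ∑ k ∈ S, e k := by
        refine Finset.sum_le_sum fun k _ => ?_
        rw [hc]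
        simp only
        split_ifs
        · exact le_refl _
        · exact zero_le
    _ = ENNReal.ofReal (∑ k ∈ S, 102 * M ^ 2 * Λ ^ 2 * B ^ 2 / Real.sqrt s *
          (1 / rr A (rc k) ^ 2)) := by
        rw [ENNReal.ofReal_sum_of_nonneg]
        intro i _
        positivity
    _ ≤ _ := by
        refine ENNReal.ofReal_le_ofReal ?_
        rw [← Finset.mul_sum]
        have h1 := hC A hA W (by positivity) S (fun k hk => (Finset.mem_filter.mp hk).2)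
        have h2 : Real.sqrt W ≤ 2 * M * Λ * Real.sqrt L := by
          have e1 : W = (2 * M * Λ) * L := by rw [hWd]; ring
          rw [e1, Real.sqrt_mul (by positivity)]
          apply mul_le_mul_of_nonneg_right _ (Real.sqrt_nonneg _)
          rw [Real.sqrt_le_left (by positivity)]
          have : 1 ≤ 2 * M * Λ := by nlinarith
          nlinarith
        calc 102 * M ^ 2 * Λ ^ 2 * B ^ 2 / Real.sqrt s * ∑ k ∈ S, 1 / rr A (rc k) ^ 2
            ≤ 102 * M ^ 2 * Λ ^ 2 * B ^ 2 / Real.sqrt s * (C * (2 * M * Λ * Real.sqrt L)) := by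
              apply mul_le_mul_of_nonneg_left _ (by positivity)
              exact le_trans h1 (mul_le_mul_of_nonneg_left h2 (by linarith))
          _ = _ := by ring

end Pool.Agent.Helper30_FC
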