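import Pool.Agent.Helper30_FC.Near

/-!
MP_f5cbfa_nt, frozen S18989 (helper30): the `k = 0` theorem.
-/

set_option autoImplicit false

open MeasureTheory Set

namespace Pool.Agent.Helper30_FC

open Pool.Agent.BTL

/-- lattice sum over the differences -/
noncomputable def ZZ (A : ℝ × ℝ × ℝ) (L : ℝ) (Φ : ℝ × ℝ → ℝ) (K : ℝ → ENNReal) (s s' : ℝ) :
    ENNReal := ∑' k : ℤ × ℤ, ph L Φ (rc k) * gk A K s s' (rc k)

/-- integral over the differences -/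
noncomputable def II (A : ℝ × ℝ × ℝ) (L : ℝ) (Φ : ℝ × ℝ → ℝ) (K : ℝ → ENNReal) (s s' : ℝ) :
    ENNReal := ∫⁻ h, ph L Φ h * gk A K s s' h

/-- pointwise comparison -/
theorem pw {M : ℝ} (hM : 1 ≤ M) : ∃ C : ℝ, 1 ≤ C ∧ ∀ A ∈ KM M, ∀ B Λ L H s s' : ℝ,
    1 ≤ L → 2 * M ≤ H → 2 * B ≤ s → 32 * (|s - s'| + 2 * B) ^ 2 ≤ s * H ^ 2 →
    16 * (2 * M * (Λ * L) + M) ^ 2 ≤ s → ∀ (K : ℝ → ENNReal) (Φ : ℝ × ℝ → ℝ), Win B K → Cut Λ Φ →
    ZZ A L Φ K s s' ≤ II A L Φ K s s' + (bt A B s s' 0 + nn M A B H s s' +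
      ENNReal.ofReal (C * Λ ^ 3 * B ^ 2 * (Real.sqrt L / Real.sqrt s))) := by
  classical
  obtain ⟨C, hC1, hC⟩ := far_sum hM
  refine ⟨C, hC1, ?_⟩
  intro A hA B Λ L H s s' hL hH hs hY hW K Φ hK hΦ
  have hB := hK.one_le
  have h1 := hC A hA B Λ L H s s' hL hH hs hY hW K Φ hK hΦ
  have hpt : ∀ k : ℤ × ℤ, ph L Φ (rc k) * gk A K s s' (rc k) ≤
      ((if k = 0 then bt A B s s' 0 else 0) + (if k ∈ NS M A H then bt A B s s' (rc k) else 0)) +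
      (if H ≤ rr A (rc k) then ph L Φ (rc k) * gk A K s s' (rc k) else 0) := by
    intro k
    have hle : ph L Φ (rc k) * gk A K s s' (rc k) ≤ bt A B s s' (rc k) := by
      calc ph L Φ (rc k) * gk A K s s' (rc k) ≤ 1 * bt A B s s' (rc k) :=
            mul_le_mul' (ph_le_one hΦ _ _)
              (gk_le_bt hM hA hB hK.meas hK.le_one hK.supp hs (rc k))
        _ = _ := one_mul _
    by_cases h2 : H ≤ rr A (rc k)
    · rw [if_pos h2]; exact le_add_self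
    · by_cases h3 : k = 0
      · rw [if_pos h3]
        have e : rc k = 0 := by rw [h3]; unfold rc; simp
        rw [e] at hle ⊢
        refine le_trans hle ?_
        rw [add_assoc]
        exact le_self_add
      · have h4 : k ∈ NS M A H := (mem_NS hM hA).mpr ⟨h3, (not_le.mp h2).le⟩
        rw [if_pos h4]
        refine le_trans hle ?_
        refine le_trans ?_ (le_self_add)
        exact le_add_self
  unfold ZZ II
  refine le_trans (ENNReal.tsum_le_tsum hpt) ?_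
  rw [ENNReal.tsum_add, ENNReal.tsum_add]
  have e1 : ∑' k : ℤ × ℤ, (if k = 0 then bt A B s s' 0 else 0) = bt A B s s' 0 := by
    rw [tsum_eq_single 0 (fun k hk => if_neg hk), if_pos rfl]
  have e2 : ∑' k : ℤ × ℤ, (if k ∈ NS M A H then bt A B s s' (rc k) else 0) = nn M A B H s s' := by
    unfold nn
    rw [tsum_eq_sum (s := NS M A H) (fun k hk => if_neg hk)]
    exact Finset.sum_congr rfl fun k hk => if_pos hk
  rw [e1, e2]
  refine le_trans (add_le_add_right h1 _) (le_of_eq ?_)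
  ring

theorem prod3 {I1 I2 I3 b R : ENNReal} (h1 : I1 ≤ R) (h2 : I2 ≤ R) (h3 : I3 ≤ R) :
    (I1 + b) * (I2 + b) * (I3 + b) ≤ I1 * I2 * I3 + (3 * R ^ 2 * b + 3 * R * b ^ 2 + b ^ 3) := by
  have e : (I1 + b) * (I2 + b) * (I3 + b) = I1 * I2 * I3 +
      ((I1 * I2 + I1 * I3 + I2 * I3) * b + (I1 + I2 + I3) * b ^ 2 + b ^ 3) := by ring
  rw [e]
  gcongr
  · calc I1 * I2 + I1 * I3 + I2 * I3 ≤ R * R + R * R + R * R := by gcongr
      _ = 3 * R ^ 2 := by ring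
  · calc I1 + I2 + I3 ≤ R + R + R := by gcongr
      _ = 3 * R := by ring

theorem pow3 (x y z : ENNReal) (n : ℕ) : (x + y + z) ^ n ≤ 3 ^ n * (x ^ n + y ^ n + z ^ n) := by
  have key : ∀ m : ENNReal, x ≤ m → y ≤ m → z ≤ m → (m = x ∨ m = y ∨ m = z) →
      (x + y + z) ^ n ≤ 3 ^ n * (x ^ n + y ^ n + z ^ n) := by
    intro m h1 h2 h3 h4
    have h5 : x + y + z ≤ 3 * m := by
      calc x + y + z ≤ m + m + m := by gcongr
        _ = 3 * m := by ring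
    refine le_trans (pow_le_pow_left' h5 n) ?_
    rw [mul_pow]
    refine mul_le_mul_right ?_ _
    rcases h4 with h | h | h
    · rw [h, add_assoc]; exact le_self_add
    · rw [h, add_comm (x ^ n), add_assoc]; exact le_self_add
    · rw [h]; exact le_add_self
  rcases le_total x y with h1 | h1
  · rcases le_total y z with h2 | h2
    · exact key z (h1.trans h2) h2 le_rfl (Or.inr (Or.inr rfl))
    · exact key y h1 le_rfl h2 (Or.inr (Or.inl rfl))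
  · rcases le_total x z with h2 | h2
    · exact key z h2 (h1.trans h2) le_rfl (Or.inr (Or.inr rfl))
    · exact key x le_rfl h1 h2 (Or.inl rfl)

/-- pointwise bound of the polynomial in the small quantity -/
theorem poly_bound {R b β n e c N : ENNReal} (hb : b = β + n + e) (hβ : β ≤ c) (hn : n ≤ N) :
    3 * R ^ 2 * b + 3 * R * b ^ 2 + b ^ 3 ≤
      (3 * R ^ 2 + 27 * R * c + 27 * c ^ 2) * β + 3 * R ^ 2 * n + (27 * R + 27 * N) * n ^ 2 +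
        (3 * R ^ 2 * e + 27 * R * e ^ 2 + 27 * e ^ 3) := by
  have h2 := pow3 β n e 2
  have h3 := pow3 β n e 3
  have g1 : β ^ 2 ≤ c * β := by rw [pow_two]; gcongr
  have g2 : β ^ 3 ≤ c ^ 2 * β := by
    calc β ^ 3 = β ^ 2 * β := by ring
      _ ≤ c ^ 2 * β := by gcongr
  have g3 : n ^ 3 ≤ N * n ^ 2 := by
    calc n ^ 3 = n * n ^ 2 := by ring
      _ ≤ N * n ^ 2 := by gcongr
  rw [hb]
  calc 3 * R ^ 2 * (β + n + e) + 3 * R * (β + n + e) ^ 2 + (β + n + e) ^ 3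
      ≤ 3 * R ^ 2 * (β + n + e) + 3 * R * (3 ^ 2 * (β ^ 2 + n ^ 2 + e ^ 2)) +
        3 ^ 3 * (β ^ 3 + n ^ 3 + e ^ 3) := by gcongr
    _ ≤ 3 * R ^ 2 * (β + n + e) + 3 * R * (3 ^ 2 * (c * β + n ^ 2 + e ^ 2)) +
        3 ^ 3 * (c ^ 2 * β + N * n ^ 2 + e ^ 3) := by gcongr
    _ = _ := by ring

/-- the numerical bookkeeping -/
theorem book {t c1 cR cE cN q1 q2 q3 q4 : ℝ} (ht : 1 ≤ t) (hc1 : 0 ≤ c1) (hR : 0 ≤ cR)
    (hE : 0 ≤ cE) (hN : 0 ≤ cN) (h1 : 0 ≤ q1) (h2 : 0 ≤ q2) (h3 : 0 ≤ q3) (h4 : 0 ≤ q4) :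
    c1 * (q1 * t ^ 80) + 3 * (cR / t ^ 16) ^ 2 * (q2 * t ^ 112) +
      (27 * (cR / t ^ 16) + 27 * (cN / t ^ 11)) * (q3 * t ^ 89) +
      (3 * (cR / t ^ 16) ^ 2 * (cE / t ^ 28) + 27 * (cR / t ^ 16) * (cE / t ^ 28) ^ 2 +
        27 * (cE / t ^ 28) ^ 3) * (q4 * t ^ 136) ≤
    (c1 * q1 + 3 * cR ^ 2 * q2 + 27 * (cR + cN) * q3 + (3 * cR ^ 2 * cE + 27 * cR * cE ^ 2 +
      27 * cE ^ 3) * q4) * t ^ 80 := by
  have ht0 : 0 < t := by linarith
  have p : ∀ m n : ℕ, m ≤ n → t ^ m ≤ t ^ n := fun m n h => pow_le_pow_right₀ ht h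
  have e2 : 3 * (cR / t ^ 16) ^ 2 * (q2 * t ^ 112) = 3 * cR ^ 2 * q2 * t ^ 80 := by
    field_simp
  have e3 : (27 * (cR / t ^ 16) + 27 * (cN / t ^ 11)) * (q3 * t ^ 89) =
      27 * cR * q3 * t ^ 73 + 27 * cN * q3 * t ^ 78 := by
    field_simp
  have e4 : (3 * (cR / t ^ 16) ^ 2 * (cE / t ^ 28) + 27 * (cR / t ^ 16) * (cE / t ^ 28) ^ 2 +
        27 * (cE / t ^ 28) ^ 3) * (q4 * t ^ 136) =
      3 * cR ^ 2 * cE * q4 * t ^ 76 + 27 * cR * cE ^ 2 * q4 * t ^ 64 + 27 * cE ^ 3 * q4 * t ^ 52 := by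
    field_simp
  rw [e2, e3, e4]
  have f1 : 27 * cR * q3 * t ^ 73 ≤ 27 * cR * q3 * t ^ 80 :=
    mul_le_mul_of_nonneg_left (p 73 80 (by norm_num)) (by positivity)
  have f2 : 27 * cN * q3 * t ^ 78 ≤ 27 * cN * q3 * t ^ 80 :=
    mul_le_mul_of_nonneg_left (p 78 80 (by norm_num)) (by positivity)
  have f3 : 3 * cR ^ 2 * cE * q4 * t ^ 76 ≤ 3 * cR ^ 2 * cE * q4 * t ^ 80 :=
    mul_le_mul_of_nonneg_left (p 76 80 (by norm_num)) (by positivity)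
  have f4 : 27 * cR * cE ^ 2 * q4 * t ^ 64 ≤ 27 * cR * cE ^ 2 * q4 * t ^ 80 :=
    mul_le_mul_of_nonneg_left (p 64 80 (by norm_num)) (by positivity)
  have f5 : 27 * cE ^ 3 * q4 * t ^ 52 ≤ 27 * cE ^ 3 * q4 * t ^ 80 :=
    mul_le_mul_of_nonneg_left (p 52 80 (by norm_num)) (by positivity)
  nlinarith

end Pool.Agent.Helper30_FC
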