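import Pool.Agent.Helper30_FC.T6
import Pool.Agent.Helper30_FC.K0
import Pool.Agent.F5H.StmtsA

/-!
MP_f5cbfa_nt, frozen S18989 (helper30): Fubini for the pair functional, product structure.
-/

set_option autoImplicit false

open MeasureTheory Set

namespace Pool.Agent.Helper30_FC

open Pool.Agent.BTL Pool.Agent.F5S Pool.Agent.F5H

/-- the lattice measure on the plane -/
noncomputable def lat : Measure (ℝ × ℝ) := Measure.sum (fun k : ℤ × ℤ => Measure.dirac (rc k))

instance instSFlat : SFinite lat := by unfold lat; infer_instance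

/-- the threefold product -/
noncomputable def n3 (ν : Measure (ℝ × ℝ)) : Measure R6 := ν.prod (ν.prod ν)

instance instSFn3 (ν : Measure (ℝ × ℝ)) [SFinite ν] : SFinite (n3 ν) := by
  unfold n3; infer_instance

theorem n3_volume : n3 (volume : Measure (ℝ × ℝ)) = (volume : Measure R6) := rfl

theorem lint_lat (f : ℝ × ℝ → ENNReal) (hf : Measurable f) :
    ∫⁻ h, f h ∂lat = ∑' k : ℤ × ℤ, f (rc k) := by
  unfold lat
  rw [lintegral_sum_measure]
  refine tsum_congr fun k => ?_
  rw [lintegral_dirac' _ hf]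

theorem lint_lat3 (f : R6 → ENNReal) (hf : Measurable f) :
    ∫⁻ h, f h ∂(n3 lat) = ∑' k : Z6, f (r3 k) := by
  unfold n3
  have m0 : Measurable (fun a : ℝ × ℝ => ∫⁻ y, f (a, y) ∂(lat.prod lat)) :=
    hf.lintegral_prod_right'
  rw [lintegral_prod _ hf.aemeasurable, lint_lat _ m0, ENNReal.tsum_prod' (f := fun k => f (r3 k))]
  refine tsum_congr fun k => ?_
  have h1 : Measurable (fun y : (ℝ × ℝ) × (ℝ × ℝ) => f (rc k, y)) := hf.comp measurable_prodMk_left
  have m1 : Measurable (fun a : ℝ × ℝ => ∫⁻ y, f (rc k, a, y) ∂lat) := h1.lintegral_prod_right'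
  rw [lintegral_prod _ h1.aemeasurable, lint_lat _ m1,
    ENNReal.tsum_prod' (f := fun l => f (r3 (k, l)))]
  refine tsum_congr fun l => ?_
  have h2 : Measurable (fun y : ℝ × ℝ => f (rc k, rc l, y)) := h1.comp measurable_prodMk_left
  rw [lint_lat _ h2]
  rfl

/-- product functions -/
theorem lint_n3 (ν : Measure (ℝ × ℝ)) [SFinite ν] (f g k : ℝ × ℝ → ENNReal) (hf : Measurable f)
    (hg : Measurable g) (hk : Measurable k) :
    ∫⁻ h, f h.1 * (g h.2.1 * k h.2.2) ∂(n3 ν) =
      (∫⁻ h, f h ∂ν) * ((∫⁻ h, g h ∂ν) * ∫⁻ h, k h ∂ν) := by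
  unfold n3
  have h1 := lintegral_prod_mul (μ := ν) (ν := ν.prod ν) (f := f)
    (g := fun y : (ℝ × ℝ) × (ℝ × ℝ) => g y.1 * k y.2) hf.aemeasurable
    ((hg.comp measurable_fst).mul (hk.comp measurable_snd)).aemeasurable
  rw [h1, lintegral_prod_mul hg.aemeasurable hk.aemeasurable]

/-- swap of the classes with the pairs -/
theorem swap_gen (ν : Measure R6) [SFinite ν] (w : R6 → ENNReal) (hw : Measurable w)
    (cE : R6 → R6 → ENNReal) (hcE : Measurable (fun q : R6 × R6 => cE q.1 q.2))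
    (G : ℝ → R6 → ENNReal) (hG : Measurable (fun q : ℝ × R6 => G q.1 q.2)) (J : Set ℝ) :
    ∫⁻ z : R6 × ℝ, w z.1 * (∫⁻ h, (∫⁻ x, (cE z.1 x * G z.2 x) *
      (cE z.1 (x + h) * G z.2 (x + h))) ∂ν) ∂((volume : Measure R6).prod (volume.restrict J)) =
    ∫⁻ h, (∫⁻ x, (∫⁻ c, w c * (cE c x * cE c (x + h))) *
      (∫⁻ τ in J, G τ x * G τ (x + h))) ∂ν := by
  have m1 : Measurable (fun q : (R6 × ℝ) × R6 × R6 => cE q.1.1 q.2.2) :=
    hcE.comp ((measurable_fst.comp measurable_fst).prodMk (measurable_snd.comp measurable_snd))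
  have m2 : Measurable (fun q : (R6 × ℝ) × R6 × R6 => cE q.1.1 (q.2.2 + q.2.1)) :=
    hcE.comp ((measurable_fst.comp measurable_fst).prodMk
      ((measurable_snd.comp measurable_snd).add (measurable_fst.comp measurable_snd)))
  have m3 : Measurable (fun q : (R6 × ℝ) × R6 × R6 => G q.1.2 q.2.2) :=
    hG.comp ((measurable_snd.comp measurable_fst).prodMk (measurable_snd.comp measurable_snd))
  have m4 : Measurable (fun q : (R6 × ℝ) × R6 × R6 => G q.1.2 (q.2.2 + q.2.1)) :=
    hG.comp ((measurable_snd.comp measurable_fst).prodMk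
      ((measurable_snd.comp measurable_snd).add (measurable_fst.comp measurable_snd)))
  have m5 : Measurable (fun q : (R6 × ℝ) × R6 × R6 => w q.1.1) :=
    hw.comp (measurable_fst.comp measurable_fst)
  have m6 : Measurable (fun q : (R6 × ℝ) × R6 × R6 =>
      ((cE q.1.1 q.2.2 * G q.1.2 q.2.2) * (cE q.1.1 (q.2.2 + q.2.1) * G q.1.2 (q.2.2 + q.2.1)))) :=
    ((m1.mul m3).mul (m2.mul m4))
  have mF : Measurable (fun q : (R6 × ℝ) × R6 × R6 => w q.1.1 *
      ((cE q.1.1 q.2.2 * G q.1.2 q.2.2) * (cE q.1.1 (q.2.2 + q.2.1) * G q.1.2 (q.2.2 + q.2.1)))) :=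
    m5.mul m6
  have e1 : ∀ z : R6 × ℝ, w z.1 * (∫⁻ h, (∫⁻ x,
      (cE z.1 x * G z.2 x) * (cE z.1 (x + h) * G z.2 (x + h))) ∂ν) =
      ∫⁻ q : R6 × R6, w z.1 *
        ((cE z.1 q.2 * G z.2 q.2) * (cE z.1 (q.2 + q.1) * G z.2 (q.2 + q.1)))
        ∂(ν.prod (volume : Measure R6)) := by
    intro z
    have mz : Measurable (fun q : R6 × R6 =>
        ((cE z.1 q.2 * G z.2 q.2) * (cE z.1 (q.2 + q.1) * G z.2 (q.2 + q.1)))) :=
      m6.comp measurable_prodMk_left
    rw [lintegral_const_mul _ mz, lintegral_prod _ mz.aemeasurable]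
  simp only [e1]
  rw [lintegral_lintegral_swap mF.aemeasurable]
  have e2 : ∀ q : R6 × R6, ∫⁻ z : R6 × ℝ, w z.1 *
        ((cE z.1 q.2 * G z.2 q.2) * (cE z.1 (q.2 + q.1) * G z.2 (q.2 + q.1)))
        ∂((volume : Measure R6).prod (volume.restrict J)) =
      (∫⁻ c, w c * (cE c q.2 * cE c (q.2 + q.1))) *
        (∫⁻ τ in J, G τ q.2 * G τ (q.2 + q.1)) := by
    intro q
    have hc : ∀ a : R6, Measurable (fun c => cE c a) := fun a => hcE.comp measurable_prodMk_right
    have hg : ∀ a : R6, Measurable (fun τ => G τ a) := fun a => hG.comp measurable_prodMk_right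
    have := lintegral_prod_mul (μ := (volume : Measure R6)) (ν := volume.restrict J)
      (f := fun c => w c * (cE c q.2 * cE c (q.2 + q.1)))
      (g := fun τ => G τ q.2 * G τ (q.2 + q.1))
      (hw.mul ((hc _).mul (hc _))).aemeasurable ((hg _).mul (hg _)).aemeasurable
    rw [← this]
    refine lintegral_congr fun z => ?_
    ring
  simp only [e2]
  have m7 : Measurable (fun q : R6 × R6 => ∫⁻ c, w c * (cE c q.2 * cE c (q.2 + q.1))) := by
    refine Measurable.lintegral_prod_right' (f := fun q : (R6 × R6) × R6 =>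
      w q.2 * (cE q.2 q.1.2 * cE q.2 (q.1.2 + q.1.1))) ?_
    exact (hw.comp measurable_snd).mul ((hcE.comp (measurable_snd.prodMk
      (measurable_snd.comp measurable_fst))).mul (hcE.comp (measurable_snd.prodMk
      ((measurable_snd.comp measurable_fst).add (measurable_fst.comp measurable_fst)))))
  have m8 : Measurable (fun q : R6 × R6 => ∫⁻ τ in J, G τ q.2 * G τ (q.2 + q.1)) := by
    refine Measurable.lintegral_prod_right' (f := fun q : (R6 × R6) × ℝ =>
      G q.2 q.1.2 * G q.2 (q.1.2 + q.1.1)) ?_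
    exact ((hG.comp (measurable_snd.prodMk
      (measurable_snd.comp measurable_fst))).mul (hG.comp (measurable_snd.prodMk
      ((measurable_snd.comp measurable_fst).add (measurable_fst.comp measurable_fst)))))
  have m9 : Measurable (fun q : R6 × R6 => (∫⁻ c, w c * (cE c q.2 * cE c (q.2 + q.1))) *
    ∫⁻ τ in J, G τ q.2 * G τ (q.2 + q.1)) := m7.mul m8
  rw [lintegral_prod _ m9.aemeasurable]

/-- the radial part -/
theorem radial (tE : ℝ → ℝ → ENNReal) (htE : Measurable (fun q : ℝ × ℝ => tE q.1 q.2))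
    (kE : ℝ → R6 → ENNReal) (hkE : Measurable (fun q : ℝ × R6 => kE q.1 q.2)) (J : Set ℝ)
    (x y : R6) :
    ∫⁻ τ in J, (∫⁻ s, tE s τ * kE s x) * (∫⁻ s, tE s τ * kE s y) =
      ∫⁻ s, ∫⁻ s', (∫⁻ τ in J, tE s τ * tE s' τ) * (kE s x * kE s' y) := by
  have hk : ∀ a : R6, Measurable (fun s => kE s a) := fun a => hkE.comp measurable_prodMk_right
  have ht : ∀ τ : ℝ, Measurable (fun s => tE s τ) := fun a => htE.comp measurable_prodMk_right
  have ht' : ∀ s : ℝ, Measurable (fun τ => tE s τ) := fun a => htE.comp measurable_prodMk_left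
  have e1 : ∀ τ : ℝ, (∫⁻ s, tE s τ * kE s x) * (∫⁻ s, tE s τ * kE s y) =
      ∫⁻ z : ℝ × ℝ, (tE z.1 τ * kE z.1 x) * (tE z.2 τ * kE z.2 y) := by
    intro τ
    rw [Measure.volume_eq_prod, lintegral_prod_mul (f := fun s => tE s τ * kE s x)
      (g := fun s => tE s τ * kE s y) ((ht τ).mul (hk x)).aemeasurable
      ((ht τ).mul (hk y)).aemeasurable]
  simp only [e1]
  have m1 : Measurable (fun q : ℝ × ℝ × ℝ => (tE q.2.1 q.1 * kE q.2.1 x) *
      (tE q.2.2 q.1 * kE q.2.2 y)) := by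
    refine ((htE.comp ((measurable_fst.comp measurable_snd).prodMk measurable_fst)).mul
      ((hk x).comp (measurable_fst.comp measurable_snd))).mul
      ((htE.comp ((measurable_snd.comp measurable_snd).prodMk measurable_fst)).mul
      ((hk y).comp (measurable_snd.comp measurable_snd)))
  rw [lintegral_lintegral_swap m1.aemeasurable]
  have e2 : ∀ z : ℝ × ℝ, ∫⁻ τ in J, (tE z.1 τ * kE z.1 x) * (tE z.2 τ * kE z.2 y) =
      (∫⁻ τ in J, tE z.1 τ * tE z.2 τ) * (kE z.1 x * kE z.2 y) := by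
    intro z
    have mm : Measurable (fun τ => tE z.1 τ * tE z.2 τ) := (ht' _).mul (ht' _)
    rw [← lintegral_mul_const _ mm]
    refine lintegral_congr fun τ => ?_
    ring
  simp only [e2]
  have m2 : Measurable (fun z : ℝ × ℝ => ∫⁻ τ in J, tE z.1 τ * tE z.2 τ) := by
    refine Measurable.lintegral_prod_right' (f := fun q : (ℝ × ℝ) × ℝ =>
      tE q.1.1 q.2 * tE q.1.2 q.2) ?_
    exact (htE.comp ((measurable_fst.comp measurable_fst).prodMk measurable_snd)).mul
      (htE.comp ((measurable_snd.comp measurable_fst).prodMk measurable_snd))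
  have m3 : Measurable (fun z : ℝ × ℝ => (∫⁻ τ in J, tE z.1 τ * tE z.2 τ) *
      (kE z.1 x * kE z.2 y)) :=
    m2.mul (((hk x).comp measurable_fst).mul ((hk y).comp measurable_snd))
  rw [Measure.volume_eq_prod, lintegral_prod _ m3.aemeasurable]

end Pool.Agent.Helper30_FC
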