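import Pool.Agent.Helper30_FC.Ring
import Pool.Agent.F5H.StmtsA

/-!
MP_f5cbfa_nt, frozen S18989 (helper30): geometry of good triples, comparison of powers of `T`.
-/

set_option autoImplicit false

open MeasureTheory Set Filter

namespace Pool.Agent.Helper30_FC

open Pool.Agent.BTL Pool.Agent.F5S Pool.Agent.F5H

theorem nr_nonneg (x : ℝ × ℝ) : 0 ≤ nr x := by unfold nr; positivity

theorem dr_sq_le (x y : ℝ × ℝ) : dr x y ^ 2 ≤ nr x * nr y := by
  unfold dr nr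
  nlinarith [sq_nonneg (x.1 * y.1 + x.2 * y.2)]

/-- lower bound for the norms of a good triple -/
theorem good_lower {T K : ℝ} (hT : 0 < T) (hK : 0 < K) {c : R6} (hc : good T K c) :
    T ^ 2 / (4 * K ^ 2) ≤ nr c.1 ∧ T ^ 2 / (4 * K ^ 2) ≤ nr c.2.1 ∧
      T ^ 2 / (4 * K ^ 2) ≤ nr c.2.2 := by
  obtain ⟨⟨n1, n2, n3⟩, d12, d13, d23⟩ := hc
  have key : ∀ x y : ℝ × ℝ, T ^ 2 / K ≤ |dr x y| → nr x ≤ (2 * T) ^ 2 →
      T ^ 2 / (4 * K ^ 2) ≤ nr y := by
    intro x y h1 h2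
    have h3 : (T ^ 2 / K) ^ 2 ≤ nr x * nr y := by
      refine le_trans ?_ (dr_sq_le x y)
      rw [← sq_abs (dr x y)]
      exact pow_le_pow_left₀ (by positivity) h1 2
    have h4 : nr x * nr y ≤ (2 * T) ^ 2 * nr y := mul_le_mul_of_nonneg_right h2 (nr_nonneg y)
    have h5 : (2 * T) ^ 2 * (T ^ 2 / (4 * K ^ 2)) ≤ (2 * T) ^ 2 * nr y := by
      refine le_trans (le_of_eq ?_) (le_trans h3 h4)
      field_simp
      ring
    exact le_of_mul_le_mul_left h5 (by positivity)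
  have sym : ∀ x y : ℝ × ℝ, |dr x y| = |dr y x| := by
    intro x y
    have : dr x y = -dr y x := by unfold dr; ring
    rw [this, abs_neg]
  refine ⟨key c.2.1 c.1 (by rw [sym]; exact d12) n2, key c.1 c.2.1 d12 n1, key c.1 c.2.2 d13 n1⟩

theorem nr_le_of_norm {z : ℝ × ℝ} {L : ℝ} (h : ‖z‖ ≤ L) : nr z ≤ 2 * L ^ 2 := by
  rw [Prod.norm_def, sup_le_iff, Real.norm_eq_abs, Real.norm_eq_abs] at h
  unfold nr
  have h1 : z.1 ^ 2 ≤ L ^ 2 := by
    rw [← sq_abs]; exact pow_le_pow_left₀ (abs_nonneg _) h.1 2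
  have h2 : z.2 ^ 2 ≤ L ^ 2 := by
    rw [← sq_abs]; exact pow_le_pow_left₀ (abs_nonneg _) h.2 2
  linarith

/-- a point near a point which is not small -/
theorem nr_near {x c : ℝ × ℝ} {L N : ℝ} (h : ‖x - c‖ ≤ L) (hc : N ≤ nr c) (hN : 8 * L ^ 2 ≤ N) :
    N / 4 ≤ nr x ∧ nr x ≤ 4 * nr c := by
  have h1 := nr_le_of_norm h
  have h2 : nr c ≤ 2 * nr x + 2 * nr (x - c) := by
    unfold nr
    simp only [Prod.fst_sub, Prod.snd_sub]
    nlinarith [sq_nonneg (x.1 + (x.1 - c.1)), sq_nonneg (x.2 + (x.2 - c.2)),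
      sq_nonneg (x.1 - c.1), sq_nonneg (x.2 - c.2)]
  have h3 : nr x ≤ 2 * nr c + 2 * nr (x - c) := by
    unfold nr
    simp only [Prod.fst_sub, Prod.snd_sub]
    nlinarith [sq_nonneg (c.1 - (x.1 - c.1)), sq_nonneg (c.2 - (x.2 - c.2))]
  constructor <;> linarith

/-- eventually a smaller power is smaller -/
theorem ev_pow (c a b : ℝ) (h : a < b) : ∀ᶠ T : ℝ in atTop, c * T ^ a ≤ T ^ b := by
  have h1 : Tendsto (fun T : ℝ => T ^ (b - a)) atTop atTop := tendsto_rpow_atTop (by linarith)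
  filter_upwards [h1.eventually_ge_atTop c, eventually_gt_atTop 0] with T hT hT0
  have e : T ^ b = T ^ (b - a) * T ^ a := by
    rw [← Real.rpow_add hT0]; congr 1; ring
  rw [e]
  exact mul_le_mul_of_nonneg_right hT (Real.rpow_nonneg hT0.le _)

theorem ev_const (c b : ℝ) (h : 0 < b) : ∀ᶠ T : ℝ in atTop, c ≤ T ^ b :=
  (tendsto_rpow_atTop h).eventually_ge_atTop c

end Pool.Agent.Helper30_FC
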