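import Pool.Agent.Helper30_FC.FarSum

/-!
MP_f5cbfa_nt, frozen S18989 (helper30): size of the integral over the differences.
-/

set_option autoImplicit false

open MeasureTheory Set

namespace Pool.Agent.Helper30_FC

open Pool.Agent.BTL

theorem cd_sub_self (y x : ℝ × ℝ) : cd y x = cd (y - x) x := by
  unfold cd; simp only [Prod.fst_sub, Prod.snd_sub]; ring

theorem abs_zc2_le {M : ℝ} (hM : 1 ≤ M) {A : ℝ × ℝ × ℝ} (hA : A ∈ KM M) {x : ℝ × ℝ}
    (hx : 0 < qf A x) (y : ℝ × ℝ) : |(zc A x y).2| ≤ rr A (y - x) := by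
  have hd := disc_pos_of_KM hM hA
  have h1 := qf_mul_qf A (y - x) x
  have hρ : 0 < Real.sqrt (qf A x) := Real.sqrt_pos.mpr hx
  have h2 : (Real.sqrt (disc A) * cd y x) ^ 2 ≤ qf A (y - x) * qf A x := by
    rw [mul_pow, Real.sq_sqrt hd.le, cd_sub_self, h1]
    nlinarith [sq_nonneg (bf A (y - x) x)]
  have h3 : |Real.sqrt (disc A) * cd y x| ≤ rr A (y - x) * Real.sqrt (qf A x) := by
    rw [rr, ← Real.sqrt_mul (qf_nonneg hM hA _)]
    exact Real.abs_le_sqrt h2
  simp only [zc]
  rw [abs_div, abs_of_pos hρ, div_le_iff₀ hρ]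
  exact h3

/-- area of the part of a thin annulus near a point -/
theorem area_near {M : ℝ} (hM : 1 ≤ M) {A : ℝ × ℝ × ℝ} (hA : A ∈ KM M) {B W s' : ℝ}
    (hB : 1 ≤ B) (hW : 0 ≤ W) (hs' : 2 * B ≤ s') (hWs : 2 * W ^ 2 ≤ s') {x : ℝ × ℝ}
    (hx : 0 < qf A x) :
    volume {h : ℝ × ℝ | rr A h ≤ W ∧ |qf A (x + h) - s'| ≤ B} ≤
      ENNReal.ofReal (12 * M * B * W / Real.sqrt s') := by
  have hM0 : 0 < M := by linarith
  have hd := disc_pos_of_KM hM hA
  have hs0 : 0 < s' := by linarith
  have hss : 0 < Real.sqrt s' := Real.sqrt_pos.mpr hs0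
  set E : Set (ℝ × ℝ) := {z | z.2 ∈ Set.Icc (-W) W ∧ |z.2 ^ 2 + z.1 ^ 2 - s'| ≤ B} with hE
  have hEm : MeasurableSet E := by
    have h1 : MeasurableSet {z : ℝ × ℝ | |z.2 ^ 2 + z.1 ^ 2 - s'| ≤ B} :=
      measurableSet_le (by fun_prop) measurable_const
    exact (measurable_snd measurableSet_Icc).inter h1
  have hzc : Measurable (zc A x) := by
    have : (zc A x) = zl A x := by ext y <;> rw [zl_apply]
    rw [this]
    exact (zl A x).continuous_of_finiteDimensional.measurable
  have hsub : {h : ℝ × ℝ | rr A h ≤ W ∧ |qf A (x + h) - s'| ≤ B} ⊆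
      (fun h => x + h) ⁻¹' ((zc A x) ⁻¹' E) := by
    rintro h ⟨h1, h2⟩
    refine ⟨?_, ?_⟩
    · have h3 := abs_zc2_le hM hA hx (x + h)
      rw [add_sub_cancel_left] at h3
      have h4 := abs_le.mp (le_trans h3 h1)
      exact ⟨h4.1, h4.2⟩
    · change |(zc A x (x + h)).2 ^ 2 + (zc A x (x + h)).1 ^ 2 - s'| ≤ B
      rw [add_comm ((zc A x (x + h)).2 ^ 2), zc_sq hd hx]
      exact h2
  calc volume {h : ℝ × ℝ | rr A h ≤ W ∧ |qf A (x + h) - s'| ≤ B}
      ≤ volume ((fun h => x + h) ⁻¹' ((zc A x) ⁻¹' E)) := measure_mono hsub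
    _ = volume ((zc A x) ⁻¹' E) := by rw [measure_preimage_add]
    _ = ∫⁻ y, (E.indicator 1) (zc A x y) := by
        rw [← lintegral_indicator_one (hzc hEm)]
        rfl
    _ = ENNReal.ofReal (Real.sqrt (disc A))⁻¹ * ∫⁻ z, E.indicator 1 z :=
        lintegral_zc hd hx _ (measurable_one.indicator hEm)
    _ ≤ ENNReal.ofReal M * (ENNReal.ofReal (6 * B / Real.sqrt s') * ENNReal.ofReal (2 * W)) := by
        refine mul_le_mul' (ENNReal.ofReal_le_ofReal (inv_sqrt_disc_le hM hA)) ?_
        rw [lintegral_indicator_one hEm, Measure.volume_eq_prod, Measure.prod_apply_symm hEm]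
        calc ∫⁻ z, volume ((fun w => (w, z)) ⁻¹' E)
            ≤ ∫⁻ z, (Set.Icc (-W) W).indicator (fun _ => ENNReal.ofReal (6 * B / Real.sqrt s')) z := by
              refine lintegral_mono fun z => ?_
              by_cases hz : z ∈ Set.Icc (-W) W
              · rw [Set.indicator_of_mem hz]
                have hz2 : z ^ 2 ≤ W ^ 2 := by
                  rw [← sq_abs z]
                  exact pow_le_pow_left₀ (abs_nonneg _) (abs_le.mpr ⟨hz.1, hz.2⟩) 2
                have h5 : z ^ 2 < s' + B := by linarith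
                have h6 := sl_le_inv (by linarith : (0 : ℝ) ≤ B) h5
                have h7 : volume ((fun w => (w, z)) ⁻¹' E) ≤ sl B s' z := by
                  unfold sl
                  refine measure_mono ?_
                  intro w hw
                  exact hw.2
                refine le_trans h7 (le_trans h6 (ENNReal.ofReal_le_ofReal ?_))
                have h8 : Real.sqrt s' ≤ 3 / 2 * Real.sqrt (s' + B - z ^ 2) := by
                  rw [← Real.sqrt_sq (by norm_num : (0 : ℝ) ≤ 3 / 2), ← Real.sqrt_mul (by positivity)]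
                  apply Real.sqrt_le_sqrt
                  nlinarith
                rw [div_le_div_iff₀ (Real.sqrt_pos.mpr (by linarith)) hss]
                nlinarith
              · rw [Set.indicator_of_notMem hz]
                have : (fun w => (w, z)) ⁻¹' E = ∅ := by
                  ext w
                  simp only [hE, Set.mem_preimage, Set.mem_ofPred_eq, Set.mem_empty_iff_false,
                    iff_false]
                  exact fun h => hz h.1
                rw [this, measure_empty]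
          _ = _ := by
              rw [lintegral_indicator_const measurableSet_Icc, Real.volume_Icc]
              congr 2; ring
    _ = _ := by
        rw [← ENNReal.ofReal_mul (by positivity), ← ENNReal.ofReal_mul (by positivity)]
        congr 1
        field_simp
        ring

theorem int_bound {M : ℝ} (hM : 1 ≤ M) {A : ℝ × ℝ × ℝ} (hA : A ∈ KM M) {B Λ L s s' : ℝ}
    (hL : 1 ≤ L) (hs : 2 * B ≤ s) (hs' : 2 * B ≤ s') (hW : 2 * (2 * M * (Λ * L)) ^ 2 ≤ s')
    {K : ℝ → ENNReal} (hK : Win B K) {Φ : ℝ × ℝ → ℝ} (hΦ : Cut Λ Φ) :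
    ∫⁻ h, ph L Φ h * gk A K s s' h ≤
      ENNReal.ofReal (192 * M ^ 3 * Λ * B ^ 2 * (L / Real.sqrt s')) := by
  have hM0 : 0 < M := by linarith
  have hΛ := hΦ.one_le
  have hB := hK.one_le
  have hs0 : 0 < s' := by linarith
  have hss : 0 < Real.sqrt s' := Real.sqrt_pos.mpr hs0
  set W := 2 * M * (Λ * L) with hWd
  have hq := measurable_qf A
  have hKm := hK.meas
  have hphm := measurable_ph hΦ L
  have e1 : ∫⁻ h, ph L Φ h * gk A K s s' h =
      ∫⁻ h, ∫⁻ x, ph L Φ h * (K (qf A x - s) * K (qf A (x + h) - s')) := by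
    refine lintegral_congr fun h => ?_
    unfold gk
    rw [lintegral_const_mul]
    exact (hKm.comp (by fun_prop)).mul (hKm.comp (by fun_prop))
  have hm : Measurable (fun p : (ℝ × ℝ) × (ℝ × ℝ) => ph L Φ p.1 *
      (K (qf A p.2 - s) * K (qf A (p.2 + p.1) - s'))) := by
    refine (hphm.comp measurable_fst).mul ?_
    exact (hKm.comp (by fun_prop)).mul (hKm.comp (by fun_prop))
  rw [e1, lintegral_lintegral_swap hm.aemeasurable]
  have hpt : ∀ x : ℝ × ℝ, ∫⁻ h, ph L Φ h * (K (qf A x - s) * K (qf A (x + h) - s')) ≤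
      ({x : ℝ × ℝ | |qf A x - s| ≤ B}).indicator
        (fun _ => ENNReal.ofReal (12 * M * B * W / Real.sqrt s')) x := by
    intro x
    by_cases hx : |qf A x - s| ≤ B
    · rw [Set.indicator_of_mem (show x ∈ {x : ℝ × ℝ | |qf A x - s| ≤ B} from hx)]
      have hx0 : 0 < qf A x := by
        have := (abs_le.mp hx).1
        linarith
      have hmE : MeasurableSet {h : ℝ × ℝ | rr A h ≤ W ∧ |qf A (x + h) - s'| ≤ B} := by
        have h1 : MeasurableSet {h : ℝ × ℝ | rr A h ≤ W} :=
          measurableSet_le (measurable_rr A) measurable_const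
        have h2 : MeasurableSet {h : ℝ × ℝ | |qf A (x + h) - s'| ≤ B} :=
          measurableSet_le (by fun_prop) measurable_const
        exact h1.inter h2
      refine le_trans ?_ (area_near hM hA hB (by positivity) hs' hW hx0)
      rw [← lintegral_indicator_one hmE]
      refine lintegral_mono fun h => ?_
      by_cases hh : rr A h ≤ W ∧ |qf A (x + h) - s'| ≤ B
      · rw [Set.indicator_of_mem (show h ∈ {h : ℝ × ℝ | rr A h ≤ W ∧ |qf A (x + h) - s'| ≤ B} from hh)]
        calc ph L Φ h * (K (qf A x - s) * K (qf A (x + h) - s')) ≤ 1 * (1 * 1) :=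
              mul_le_mul' (ph_le_one hΦ _ _) (mul_le_mul' (hK.le_one _) (hK.le_one _))
          _ = _ := by simp
      · rcases not_and_or.mp hh with h1 | h1
        · have : ph L Φ h = 0 := by
            by_contra hc
            exact h1 (rr_le_of_ph hM hA hΦ hL hc)
          rw [this, zero_mul]; exact zero_le
        · rw [hK.supp _ (lt_of_not_ge h1)]; simp
    · rw [hK.supp _ (lt_of_not_ge hx)]
      simp
  refine le_trans (lintegral_mono hpt) ?_
  rw [lintegral_indicator_const (measurableSet_le (by fun_prop) measurable_const)]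
  refine le_trans (mul_le_mul_right (area_ann hM hA (by linarith) s) _) ?_
  rw [← ENNReal.ofReal_mul (by positivity)]
  refine ENNReal.ofReal_le_ofReal (le_of_eq ?_)
  rw [hWd]
  field_simp
  ring

end Pool.Agent.Helper30_FC
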