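import Pool.Agent.Helper30_FC.K0S

/-!
MP_f5cbfa_nt, frozen S18989 (helper30): the input `K0Stmt` of the hard half.
-/

set_option autoImplicit false

open MeasureTheory Set Filter

namespace Pool.Agent.Helper30_FC

open Pool.Agent.BTL Pool.Agent.F5S Pool.Agent.F5H

/-- the radial centre of a good class is in the middle range -/
theorem radial_range {M T K L R e Λ : ℝ} (hM : 1 ≤ M) (hT : 0 < T) (hK : 0 < K) (hΛ : 0 < Λ)
    (hL : 0 < L)
    (h1 : 8 * L ^ 2 ≤ T ^ 2 / (4 * K ^ 2)) (h2 : R + e ≤ T ^ 2 / (64 * M * K ^ 2))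
    (h3 : 128 * M * K ^ 2 ≤ Λ) (h4 : R + e ≤ M * T ^ 2)
    {c : R6} (hc : good T K c) {A : ℝ × ℝ × ℝ} (hA : A ∈ KM (2 * M)) {x : R6} (hx : ‖x - c‖ ≤ L)
    {τ : ℝ} (hτ : |qf A x.2.2 - τ| ≤ R + e) (h5 : 66 * M ≤ Λ) :
    2 * T ^ 2 / Λ ≤ τ ∧ τ ≤ Λ * T ^ 2 / 2 := by
  have hM0 : 0 < M := by linarith
  have g1 := (good_lower hT hK hc).2.2
  have hx3 : ‖x.2.2 - c.2.2‖ ≤ L :=
    le_trans (le_trans (norm_snd_le (x.2 - c.2)) (norm_snd_le (x - c))) hx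
  obtain ⟨n1, n2⟩ := nr_near hx3 g1 h1
  have g2 : nr c.2.2 ≤ (2 * T) ^ 2 := hc.1.2.2
  obtain ⟨q1, q2⟩ := hA x.2.2
  rw [abs_le] at hτ
  have e1 : T ^ 2 / (4 * K ^ 2) / 4 / (2 * M) = T ^ 2 / (64 * M * K ^ 2) + T ^ 2 / (64 * M * K ^ 2) := by
    field_simp
    ring
  have q1' : T ^ 2 / (4 * K ^ 2) / 4 / (2 * M) ≤ qf A x.2.2 :=
    le_trans (div_le_div_of_nonneg_right n1 (by positivity)) q1
  have q2' : qf A x.2.2 ≤ 2 * M * (16 * T ^ 2) := by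
    refine le_trans q2 (mul_le_mul_of_nonneg_left ?_ (by positivity))
    nlinarith
  have h6 : 2 * T ^ 2 / Λ ≤ T ^ 2 / (64 * M * K ^ 2) := by
    rw [div_le_div_iff₀ hΛ (by positivity)]
    nlinarith [mul_le_mul_of_nonneg_left h3 (sq_nonneg T)]
  constructor
  · linarith [hτ.2]
  · have h7 : 66 * M * T ^ 2 ≤ Λ * T ^ 2 := mul_le_mul_of_nonneg_right h5 (sq_nonneg T)
    linarith [hτ.1]

/-- the input (K0) -/
theorem k0_stmt (hkaf : KAFStmt) (hprf : PRFStmt) (hclf : CLFStmt) (hchk : CHKStmt)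
    (hggf : GGFStmt) (hfaf : FAFStmt) : K0Stmt := by
  have hρ := rho0_pos
  have hρ1 := rho0_le
  refine ⟨rho0 / 50, by positivity, ?_⟩
  intro M hM e he p
  have hM0 : 0 < M := by linarith
  obtain ⟨C0, hC01, hC0⟩ := pair_bound hkaf hprf hclf hggf (M := 2 * M) (by linarith)
  obtain ⟨B, hB⟩ : ∃ B : ℝ, B = e + |p.1| + |p.2| + 1 := ⟨_, rfl⟩
  have hB1 : 1 ≤ B := by
    have h1 := abs_nonneg p.1
    have h2 := abs_nonneg p.2
    rw [hB]; linarith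
  obtain ⟨v, hv⟩ : ∃ v : ℝ, v = (volume (KM (2 * M))).toReal := ⟨_, rfl⟩
  have hv0 : 0 ≤ v := by rw [hv]; exact ENNReal.toReal_nonneg
  -- large T
  have ev : ∀ᶠ T : ℝ in atTop, 1 ≤ T ∧
      2 ≤ T ^ (3 * rho0 / 50) ∧ 66 * M ≤ T ^ (3 * rho0 / 50) ∧ 128 * M ≤ T ^ (rho0 / 50) ∧
      (1600 * B ^ 2 * M ^ 2) ^ 40 ≤ T ^ (1 / 2 : ℝ) ∧ 2 * B ≤ T ^ (1 / 2 : ℝ) ∧
      128 * M ^ 2 * T ^ (3 / 2 : ℝ) ≤ T ^ (19 / 10 : ℝ) ∧
      (64 * M) * T ^ (3 / 2 : ℝ) ≤ T ^ (19 / 10 : ℝ) ∧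
      32 * T ^ (3 / 2 : ℝ) ≤ T ^ (19 / 10 : ℝ) ∧ e ≤ T ^ (669 / 500 + 2 * rho0) ∧
      2 * T ^ (669 / 500 + 2 * rho0) ≤ T ^ (3 / 2 : ℝ) := by
    refine (eventually_ge_atTop 1).and ((ev_const _ _ (by positivity)).and
      ((ev_const _ _ (by positivity)).and ((ev_const _ _ (by positivity)).and
      ((ev_const _ _ (by positivity)).and ((ev_const _ _ (by positivity)).and
      ((ev_pow _ _ _ (by norm_num)).and ((ev_pow _ _ _ (by norm_num)).and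
      ((ev_pow _ _ _ (by norm_num)).and ((ev_const _ _ (by positivity)).and
      (ev_pow _ _ _ (by linarith)))))))))))
  obtain ⟨T0, hT0⟩ := eventually_atTop.mp ev
  refine ⟨v * (C0 * B ^ 20) + 1, max T0 1, ?_, le_max_right _ _, ?_⟩
  · have : 0 ≤ v * (C0 * B ^ 20) :=
      mul_nonneg hv0 (mul_nonneg (by linarith) (pow_nonneg (by linarith) 20))
    linarith
  intro T hT W hAdm H
  obtain ⟨hT1, c1, c2, c3, c4, c5, c6, c7, c8, c9, c10⟩ := hT0 T (le_trans (le_max_left _ _) hT)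
  obtain ⟨hW, hW1, hWg, -⟩ := hAdm
  have hTp : 0 < T := by linarith
  obtain ⟨Λ, hΛ⟩ : ∃ Λ : ℝ, Λ = T ^ (3 * rho0 / 50) := ⟨_, rfl⟩
  obtain ⟨K, hK⟩ : ∃ K : ℝ, K = T ^ (rho0 / 50) := ⟨_, rfl⟩
  rw [← hΛ] at c1 c2
  rw [← hK] at c3
  rw [← hK] at hWg
  have hK0 : 0 < K := by rw [hK]; exact Real.rpow_pos_of_pos hTp _
  have hΛ0 : 0 < Λ := by rw [hΛ]; exact Real.rpow_pos_of_pos hTp _
  have hKΛ : K ^ 3 = Λ := by
    rw [hK, hΛ, ← Real.rpow_natCast, ← Real.rpow_mul hTp.le]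
    congr 1
    push_cast
    ring
  have hL0 : 0 < Lx T := Real.rpow_pos_of_pos hTp _
  have hR0 : 0 < Rx T := Real.rpow_pos_of_pos hTp _
  have hL1 : 1 ≤ Lx T := Real.one_le_rpow hT1 (by norm_num)
  have hRT : Rx T / T = T ^ (169 / 500 + 2 * rho0) := by
    unfold Rx
    rw [div_eq_iff hTp.ne']
    nth_rewrite 3 [← Real.rpow_one T]
    rw [← Real.rpow_add hTp]
    congr 1
    ring
  have hmono : ∀ {a b : ℝ}, a ≤ b → T ^ a ≤ T ^ b := fun h => Real.rpow_le_rpow_of_exponent_le hT1 h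
  have hΛle : Λ ≤ T ^ (1 / 10 : ℝ) := by rw [hΛ]; exact hmono (by linarith)
  have hT2Λ : T ^ (19 / 10 : ℝ) ≤ T ^ 2 / Λ := by
    rw [le_div_iff₀ hΛ0]
    have : T ^ 2 = T ^ (19 / 10 : ℝ) * T ^ (1 / 10 : ℝ) := by
      rw [← Real.rpow_add hTp, ← Real.rpow_natCast]; norm_num
    rw [this]
    exact mul_le_mul_of_nonneg_left hΛle (Real.rpow_nonneg hTp.le _)
  have hKle : K ^ 2 ≤ T ^ (1 / 10 : ℝ) := by
    have : K ^ 2 = T ^ (2 * (rho0 / 50)) := by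
      rw [hK, ← Real.rpow_natCast, ← Real.rpow_mul hTp.le]
      congr 1
      push_cast
      ring
    rw [this]
    exact hmono (by linarith)
  have hT2K : T ^ (19 / 10 : ℝ) * K ^ 2 ≤ T ^ 2 := by
    have : T ^ 2 = T ^ (19 / 10 : ℝ) * T ^ (1 / 10 : ℝ) := by
      rw [← Real.rpow_add hTp, ← Real.rpow_natCast]; norm_num
    rw [this]
    exact mul_le_mul_of_nonneg_left hKle (Real.rpow_nonneg hTp.le _)
  have hL2 : Lx T ^ 2 ≤ T ^ (3 / 2 : ℝ) := by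
    unfold Lx
    rw [← Real.rpow_natCast, ← Real.rpow_mul hTp.le]
    exact hmono (by norm_num)
  have hRe : Rx T + e ≤ T ^ (3 / 2 : ℝ) := by
    have : Rx T = T ^ (669 / 500 + 2 * rho0) := rfl
    rw [this]; linarith
  have hR15 : Rx T ≤ T ^ (3 / 2 : ℝ) := by linarith
  have h1912 : T ^ (3 / 2 : ℝ) ≤ T ^ (19 / 10 : ℝ) := hmono (by norm_num)
  -- the bound for the forms
  obtain ⟨E, hE⟩ : ∃ E : ℝ, E = C0 * (B ^ 20 * Λ ^ 14) * T ^ 2 := ⟨_, rfl⟩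
  have hC00 : 0 < C0 := by linarith
  have hB0 : 0 < B := by linarith
  have hE0 : 0 ≤ E := by rw [hE]; positivity
  obtain ⟨f1, -, -, -, -, -⟩ := hfaf M (Lx T) (Rx T) e hM hL0 hR0 he p W hW hW1
  have hall : ∀ A ∈ KM (2 * M), ∫⁻ h, (∫⁻ x, ENNReal.ofReal
      (FA (Lx T) (Rx T) e p W A x (x + h))) ∂(n3 lat) ≤
      (∫⁻ h, (∫⁻ x, ENNReal.ofReal (FA (Lx T) (Rx T) e p W A x (x + h))) ∂(n3 volume)) +
        ENNReal.ofReal E := by
    intro A hA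
    have mA : Measurable (fun z : R6 × R6 => FA (Lx T) (Rx T) e p W A z.1 z.2) := by
      have h := Measurable.comp (g := fun z : (ℝ × ℝ × ℝ) × R6 × R6 =>
        FA (Lx T) (Rx T) e p W z.1 z.2.1 z.2.2)
        (f := fun q : R6 × R6 => (A, q)) f1 measurable_prodMk_left
      exact h
    rw [hE]
    refine hC0 B Λ T (Lx T) (Rx T) e p he hB c1 ?_ hL1 ?_ ?_ ?_ ?_ ?_ ?_ A hA W hW hW1 mA ?_
    · -- size
      have e1 : (400 * Λ ^ 5 * B ^ 2 * (2 * M) ^ 2) ^ 40 = (1600 * B ^ 2 * M ^ 2) ^ 40 * Λ ^ 200 := by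
        have e : 400 * Λ ^ 5 * B ^ 2 * (2 * M) ^ 2 = (1600 * B ^ 2 * M ^ 2) * Λ ^ 5 := by ring
        rw [e, mul_pow, ← pow_mul]
      have e2 : Λ ^ 200 = T ^ (12 * rho0) := by
        rw [hΛ, ← Real.rpow_natCast, ← Real.rpow_mul hTp.le]
        congr 1
        push_cast
        ring
      have e3 : T = T ^ (1 / 2 : ℝ) * T ^ (1 / 2 : ℝ) := by
        rw [← Real.rpow_add hTp]; norm_num
      rw [e1, e2]
      calc (1600 * B ^ 2 * M ^ 2) ^ 40 * T ^ (12 * rho0) ≤ T ^ (1 / 2 : ℝ) * T ^ (1 / 2 : ℝ) :=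
            mul_le_mul c4 (hmono (by linarith)) (Real.rpow_nonneg hTp.le _)
              (Real.rpow_nonneg hTp.le _)
        _ = T := e3.symm
    · rw [hRT]; exact Real.one_le_rpow hT1 (by linarith)
    · rw [hRT, ← Real.rpow_natCast, ← Real.rpow_mul hTp.le, ← Real.rpow_natCast]
      exact hmono (by push_cast; linarith)
    · unfold Lx
      rw [← Real.rpow_natCast, ← Real.rpow_mul hTp.le, ← Real.rpow_natCast]
      exact hmono (by push_cast; norm_num)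
    · linarith
    · have : T ^ (1 / 2 : ℝ) ≤ T ^ (3 / 2 : ℝ) := hmono (by norm_num)
      linarith
    · calc 2 * (2 * (2 * M) * (2 * Lx T)) ^ 2 = 128 * M ^ 2 * Lx T ^ 2 := by ring
        _ ≤ 128 * M ^ 2 * T ^ (3 / 2 : ℝ) := mul_le_mul_of_nonneg_left hL2 (by positivity)
        _ ≤ T ^ 2 / Λ := le_trans c6 hT2Λ
    · intro c hc x hx τ hτ
      refine radial_range hM hTp hK0 hΛ0 hL0 ?_ ?_ ?_ ?_ (hWg c hc) hA hx hτ c2
      · rw [le_div_iff₀ (by positivity)]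
        calc 8 * Lx T ^ 2 * (4 * K ^ 2) = 32 * Lx T ^ 2 * K ^ 2 := by ring
          _ ≤ 32 * T ^ (3 / 2 : ℝ) * K ^ 2 :=
            mul_le_mul_of_nonneg_right (mul_le_mul_of_nonneg_left hL2 (by norm_num)) (by positivity)
          _ ≤ T ^ (19 / 10 : ℝ) * K ^ 2 := mul_le_mul_of_nonneg_right c8 (by positivity)
          _ ≤ T ^ 2 := hT2K
      · rw [le_div_iff₀ (by positivity)]
        calc (Rx T + e) * (64 * M * K ^ 2) = 64 * M * (Rx T + e) * K ^ 2 := by ring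
          _ ≤ 64 * M * T ^ (3 / 2 : ℝ) * K ^ 2 :=
            mul_le_mul_of_nonneg_right (mul_le_mul_of_nonneg_left hRe (by positivity))
              (by positivity)
          _ ≤ T ^ (19 / 10 : ℝ) * K ^ 2 := mul_le_mul_of_nonneg_right c7 (by positivity)
          _ ≤ T ^ 2 := hT2K
      · rw [← hKΛ]
        calc 128 * M * K ^ 2 ≤ K * K ^ 2 := mul_le_mul_of_nonneg_right c3 (by positivity)
          _ = K ^ 3 := by ring
      · have : T ^ (19 / 10 : ℝ) ≤ T ^ 2 := by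
          rw [← Real.rpow_natCast]; exact hmono (by norm_num)
        nlinarith [sq_nonneg T]
  -- conclusion
  have hρ2 : ∀ c, W c ≠ 0 → ‖c‖ ≤ 2 * T := by
    intro c hc
    obtain ⟨n1, n2, n3⟩ := (hWg c hc).1
    have key : ∀ z : ℝ × ℝ, nr z ≤ (2 * T) ^ 2 → ‖z‖ ≤ 2 * T := by
      intro z hz
      unfold nr at hz
      rw [Prod.norm_def, sup_le_iff, Real.norm_eq_abs, Real.norm_eq_abs]
      constructor
      · exact abs_le_of_sq_le_sq (by nlinarith [sq_nonneg z.2]) (by linarith)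
      · exact abs_le_of_sq_le_sq (by nlinarith [sq_nonneg z.1]) (by linarith)
    rw [Prod.norm_def, sup_le_iff]
    refine ⟨key _ n1, ?_⟩
    rw [Prod.norm_def, sup_le_iff]
    exact ⟨key _ n2, key _ n3⟩
  have hfin := from_forms hchk hfaf hM hL0 hR0 he p hW hW1 hρ2 hE0 hall H
  rw [← hv] at hfin
  have hbd : v * E ≤ (v * (C0 * B ^ 20) + 1) * Bx T := by
    have e1 : Λ ^ 14 * T ^ 2 = T ^ (42 * rho0 / 50 + 2) := by
      rw [hΛ, ← Real.rpow_natCast, ← Real.rpow_mul hTp.le, ← Real.rpow_natCast,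
        ← Real.rpow_add hTp]
      congr 1
      push_cast
      ring
    have e2 : Λ ^ 14 * T ^ 2 ≤ Bx T := by
      rw [e1]
      exact hmono (by linarith)
    have hBx : 0 ≤ Bx T := Real.rpow_nonneg hTp.le _
    calc v * E = v * (C0 * B ^ 20) * (Λ ^ 14 * T ^ 2) := by rw [hE]; ring
      _ ≤ v * (C0 * B ^ 20) * Bx T := mul_le_mul_of_nonneg_left e2 (by positivity)
      _ ≤ (v * (C0 * B ^ 20) + 1) * Bx T := by linarith
  unfold fx Fx
  linarith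

end Pool.Agent.Helper30_FC
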