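import Pool.Agent.Helper30_FC.K0

/-!
MP_f5cbfa_nt, frozen S18989 (helper30): the `k = 0` theorem, final form.
-/

set_option autoImplicit false

open MeasureTheory Set

namespace Pool.Agent.Helper30_FC

open Pool.Agent.BTL

/-- the domain of the pair of values -/
def Om (Λ T r : ℝ) : Set (ℝ × ℝ) :=
  {p | T ^ 2 / Λ ≤ p.1 ∧ p.1 ≤ Λ * T ^ 2 ∧ T ^ 2 / Λ ≤ p.2 ∧ p.2 ≤ Λ * T ^ 2 ∧
    |p.1 - p.2| ≤ Λ * r * T}

theorem measurableSet_Om (Λ T r : ℝ) : MeasurableSet (Om Λ T r) := by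
  have h1 : MeasurableSet {p : ℝ × ℝ | T ^ 2 / Λ ≤ p.1} := measurableSet_le measurable_const measurable_fst
  have h2 : MeasurableSet {p : ℝ × ℝ | p.1 ≤ Λ * T ^ 2} := measurableSet_le measurable_fst measurable_const
  have h3 : MeasurableSet {p : ℝ × ℝ | T ^ 2 / Λ ≤ p.2} := measurableSet_le measurable_const measurable_snd
  have h4 : MeasurableSet {p : ℝ × ℝ | p.2 ≤ Λ * T ^ 2} := measurableSet_le measurable_snd measurable_const
  have h5 : MeasurableSet {p : ℝ × ℝ | |p.1 - p.2| ≤ Λ * r * T} :=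
    measurableSet_le (by fun_prop) measurable_const
  exact h1.inter (h2.inter (h3.inter (h4.inter h5)))

/-- integral over the domain of a function with bounded inner integral -/
theorem lint_Om {Λ T r : ℝ} (hΛ : 1 ≤ Λ) (G : ℝ × ℝ → ENNReal) {q : ℝ}
    (hq : ∀ s, T ^ 2 / Λ ≤ s → s ≤ Λ * T ^ 2 → ∫⁻ s', G (s, s') ≤ ENNReal.ofReal q) (hq0 : 0 ≤ q) :
    ∫⁻ s, ∫⁻ s', (Om Λ T r).indicator G (s, s') ≤ ENNReal.ofReal (q * (Λ * T ^ 2)) := by
  have hΛ0 : 0 < Λ := by linarith
  have h1 : ∀ s : ℝ, ∫⁻ s', (Om Λ T r).indicator G (s, s') ≤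
      (Set.Icc (T ^ 2 / Λ) (Λ * T ^ 2)).indicator (fun _ => ENNReal.ofReal q) s := by
    intro s
    by_cases hs : s ∈ Set.Icc (T ^ 2 / Λ) (Λ * T ^ 2)
    · rw [Set.indicator_of_mem hs]
      refine le_trans (lintegral_mono fun s' => ?_) (hq s hs.1 hs.2)
      exact Set.indicator_le_self _ _ _
    · rw [Set.indicator_of_notMem hs]
      have : ∀ s' : ℝ, (Om Λ T r).indicator G (s, s') = 0 := by
        intro s'
        refine Set.indicator_of_notMem ?_ _
        intro h
        exact hs ⟨h.1, h.2.1⟩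
      simp only [this, lintegral_zero, le_refl]
  refine le_trans (lintegral_mono h1) ?_
  rw [lintegral_indicator_const measurableSet_Icc, Real.volume_Icc,
    ← ENNReal.ofReal_mul hq0]
  refine ENNReal.ofReal_le_ofReal (mul_le_mul_of_nonneg_left ?_ hq0)
  have : 0 ≤ T ^ 2 / Λ := by positivity
  linarith

/-- powers of `B` and `Λ` -/
theorem mon {B Λ : ℝ} (hB : 1 ≤ B) (hΛ : 1 ≤ Λ) {b l : ℕ} (hb : b ≤ 20) (hl : l ≤ 14) :
    B ^ b * Λ ^ l ≤ B ^ 20 * Λ ^ 14 :=
  mul_le_mul (pow_le_pow_right₀ hB hb) (pow_le_pow_right₀ hΛ hl) (by positivity) (by positivity)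

/-- the constant as a polynomial -/
theorem cst_le {M C1 C2 C3 B Λ : ℝ} (hM : 1 ≤ M) (h1 : 1 ≤ C1) (h2 : 1 ≤ C2) (h3 : 1 ≤ C3)
    (hB : 1 ≤ B) (hΛ : 1 ≤ Λ) {cR cE cN c1 q1 q2 q3 q4 : ℝ}
    (hcR : cR = 192 * M ^ 3 * Λ ^ 2 * B ^ 2) (hcE : cE = C1 * Λ ^ 4 * B ^ 2)
    (hcN : cN = C2 * B ^ 2 * (30 * Λ ^ 2 * B * M))
    (hc1 : c1 = 3 * cR ^ 2 + 27 * cR * (8 * M * B) + 27 * (8 * M * B) ^ 2)
    (hq1 : q1 = 16 * M * B ^ 2 * Λ) (hq2 : q2 = 57600 * Λ ^ 5 * M ^ 5 * B ^ 4)
    (hq3 : q3 = 344000 * C3 * Λ ^ 9 * B ^ 7 * M ^ 3) (hq4 : q4 = 2 * Λ ^ 2) :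
    (c1 * q1 + 3 * cR ^ 2 * q2 + 27 * (cR + cN) * q3 + (3 * cR ^ 2 * cE + 27 * cR * cE ^ 2 +
      27 * cE ^ 3) * q4) + 1 ≤
    (1769472 * M ^ 7 + 663552 * M ^ 5 + 27648 * M ^ 3 + 6370099200 * M ^ 11 +
      1783296000 * C3 * M ^ 6 + 278640000 * C2 * C3 * M ^ 4 + 221184 * C1 * M ^ 6 +
      10368 * C1 ^ 2 * M ^ 3 + 54 * C1 ^ 3 + 1) * (B ^ 20 * Λ ^ 14) := by
  have hM0 : 0 < M := by linarith
  have hC1 : 0 < C1 := by linarith
  have hC2 : 0 < C2 := by linarith
  have hC3 : 0 < C3 := by linarith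
  have e : (c1 * q1 + 3 * cR ^ 2 * q2 + 27 * (cR + cN) * q3 + (3 * cR ^ 2 * cE + 27 * cR * cE ^ 2 +
      27 * cE ^ 3) * q4) + 1 =
      1769472 * M ^ 7 * (B ^ 6 * Λ ^ 5) + 663552 * M ^ 5 * (B ^ 5 * Λ ^ 3) +
      27648 * M ^ 3 * (B ^ 4 * Λ ^ 1) + 6370099200 * M ^ 11 * (B ^ 8 * Λ ^ 9) +
      1783296000 * C3 * M ^ 6 * (B ^ 9 * Λ ^ 11) + 278640000 * C2 * C3 * M ^ 4 * (B ^ 10 * Λ ^ 11) +
      221184 * C1 * M ^ 6 * (B ^ 6 * Λ ^ 10) + 10368 * C1 ^ 2 * M ^ 3 * (B ^ 6 * Λ ^ 12) +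
      54 * C1 ^ 3 * (B ^ 6 * Λ ^ 14) + 1 * (B ^ 0 * Λ ^ 0) := by
    rw [hc1, hcN, hcE, hq1, hq2, hq3, hq4, hcR]
    ring
  rw [e]
  have f1 := mul_le_mul_of_nonneg_left (mon hB hΛ (b := 6) (l := 5) (by norm_num) (by norm_num))
    (by positivity : (0 : ℝ) ≤ 1769472 * M ^ 7)
  have f2 := mul_le_mul_of_nonneg_left (mon hB hΛ (b := 5) (l := 3) (by norm_num) (by norm_num))
    (by positivity : (0 : ℝ) ≤ 663552 * M ^ 5)
  have f3 := mul_le_mul_of_nonneg_left (mon hB hΛ (b := 4) (l := 1) (by norm_num) (by norm_num))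
    (by positivity : (0 : ℝ) ≤ 27648 * M ^ 3)
  have f4 := mul_le_mul_of_nonneg_left (mon hB hΛ (b := 8) (l := 9) (by norm_num) (by norm_num))
    (by positivity : (0 : ℝ) ≤ 6370099200 * M ^ 11)
  have f5 := mul_le_mul_of_nonneg_left (mon hB hΛ (b := 9) (l := 11) (by norm_num) (by norm_num))
    (by positivity : (0 : ℝ) ≤ 1783296000 * C3 * M ^ 6)
  have f6 := mul_le_mul_of_nonneg_left (mon hB hΛ (b := 10) (l := 11) (by norm_num) (by norm_num))
    (by positivity : (0 : ℝ) ≤ 278640000 * C2 * C3 * M ^ 4)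
  have f7 := mul_le_mul_of_nonneg_left (mon hB hΛ (b := 6) (l := 10) (by norm_num) (by norm_num))
    (by positivity : (0 : ℝ) ≤ 221184 * C1 * M ^ 6)
  have f8 := mul_le_mul_of_nonneg_left (mon hB hΛ (b := 6) (l := 12) (by norm_num) (by norm_num))
    (by positivity : (0 : ℝ) ≤ 10368 * C1 ^ 2 * M ^ 3)
  have f9 := mul_le_mul_of_nonneg_left (mon hB hΛ (b := 6) (l := 14) (by norm_num) (by norm_num))
    (by positivity : (0 : ℝ) ≤ 54 * C1 ^ 3)
  have f10 := mul_le_mul_of_nonneg_left (mon hB hΛ (b := 0) (l := 0) (by norm_num) (by norm_num))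
    (by norm_num : (0 : ℝ) ≤ 1)
  linarith

/-- the `k = 0` theorem with explicit dependence on `B` and `Λ` -/
theorem k0_expl {M : ℝ} (hM : 1 ≤ M) :
    ∃ C0 : ℝ, 1 ≤ C0 ∧ ∀ B Λ : ℝ, 1 ≤ B → 1 ≤ Λ → ∀ T L r : ℝ,
      (400 * Λ ^ 5 * B ^ 2 * M ^ 2) ^ 40 ≤ T → 1 ≤ r → 1 ≤ L → r ^ 5 ≤ T ^ 2 →
      L ^ 5 ≤ T ^ 3 → ∀ A ∈ KM M, ∀ (K : Fin 3 → ℝ → ENNReal) (Φ : ℝ × ℝ → ℝ),
      (∀ l, Win B (K l)) → Cut Λ Φ → ∀ ω : ℝ → ℝ → ENNReal, (∀ s s', ω s s' ≤ 1) →
      (∀ s s', ω s s' ≠ 0 → (s, s') ∈ Om Λ T r) →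
      ∫⁻ s, ∫⁻ s', ω s s' * ∏ l, ZZ A L Φ (K l) s s' ≤
        (∫⁻ s, ∫⁻ s', ω s s' * ∏ l, II A L Φ (K l) s s') +
          ENNReal.ofReal (C0 * (B ^ 20 * Λ ^ 14) * T ^ 2) := by
  obtain ⟨C1, hC11, hC1⟩ := pw hM
  obtain ⟨C2, hC21, hC2⟩ := sup_bound hM
  obtain ⟨C3, hC31, hC3⟩ := lint_nn_sq hM
  have hM0 : 0 < M := by linarith
  refine ⟨1769472 * M ^ 7 + 663552 * M ^ 5 + 27648 * M ^ 3 + 6370099200 * M ^ 11 +
      1783296000 * C3 * M ^ 6 + 278640000 * C2 * C3 * M ^ 4 + 221184 * C1 * M ^ 6 +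
      10368 * C1 ^ 2 * M ^ 3 + 54 * C1 ^ 3 + 1, ?_, ?_⟩
  · have : 0 ≤ 1769472 * M ^ 7 + 663552 * M ^ 5 + 27648 * M ^ 3 + 6370099200 * M ^ 11 +
      1783296000 * C3 * M ^ 6 + 278640000 * C2 * C3 * M ^ 4 + 221184 * C1 * M ^ 6 +
      10368 * C1 ^ 2 * M ^ 3 + 54 * C1 ^ 3 := by positivity
    linarith
  intro B Λ hB hΛ
  have hΛ0 : 0 < Λ := by linarith
  have hB0 : 0 < B := by linarith
  -- constants
  set cR : ℝ := 192 * M ^ 3 * Λ ^ 2 * B ^ 2 with hcR
  set cE : ℝ := C1 * Λ ^ 4 * B ^ 2 with hcE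
  set cN : ℝ := C2 * B ^ 2 * (30 * Λ ^ 2 * B * M) with hcN
  set c1 : ℝ := 3 * cR ^ 2 + 27 * cR * (8 * M * B) + 27 * (8 * M * B) ^ 2 with hc1
  set q1 : ℝ := 16 * M * B ^ 2 * Λ with hq1
  set q2 : ℝ := 57600 * Λ ^ 5 * M ^ 5 * B ^ 4 with hq2
  set q3 : ℝ := 344000 * C3 * Λ ^ 9 * B ^ 7 * M ^ 3 with hq3
  set q4 : ℝ := 2 * Λ ^ 2 with hq4
  set t0 : ℝ := 400 * Λ ^ 5 * B ^ 2 * M ^ 2 with ht0
  have hcst := cst_le hM hC11 hC21 hC31 hB hΛ hcR hcE hcN hc1 hq1 hq2 hq3 hq4
  have hcR0 : 0 ≤ cR := by positivity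
  have hcE0 : 0 ≤ cE := by positivity
  have hcN0 : 0 ≤ cN := by positivity
  have hc10 : 0 ≤ c1 := by positivity
  have hΛ5 : 1 ≤ Λ ^ 5 := one_le_pow₀ hΛ
  have hB2 : 1 ≤ B ^ 2 := one_le_pow₀ hB
  have hM2 : 1 ≤ M ^ 2 := one_le_pow₀ hM
  have ht01 : 1 ≤ t0 := by
    have h1 : 1 ≤ Λ ^ 5 * B ^ 2 * M ^ 2 := by
      have := one_le_mul_of_one_le_of_one_le (one_le_mul_of_one_le_of_one_le hΛ5 hB2) hM2
      exact this
    have e : t0 = 400 * (Λ ^ 5 * B ^ 2 * M ^ 2) := by rw [ht0]; ring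
    rw [e]; linarith
  intro T L r hT hr hL hr5 hL5 A hA K Φ hK hΦ ω hω1 hωs
  have hT1 : 1 ≤ T := le_trans (one_le_pow₀ ht01) hT
  have hT0 : 0 < T := by linarith
  -- the fortieth root
  set t : ℝ := T ^ (1 / 40 : ℝ) with ht
  have htT : t ^ 40 = T := by
    rw [ht, ← Real.rpow_natCast, ← Real.rpow_mul hT0.le]
    norm_num
  have htpos : 0 < t := Real.rpow_pos_of_pos hT0 _
  have ht0t : t0 ≤ t := by
    by_contra hc
    push Not at hc
    have : t ^ 40 < t0 ^ 40 := pow_lt_pow_left₀ hc htpos.le (by norm_num)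
    rw [htT] at this
    linarith
  have ht1 : 1 ≤ t := le_trans ht01 ht0t
  have hrt : r ≤ t ^ 16 := by
    by_contra hc
    push Not at hc
    have : (t ^ 16) ^ 5 < r ^ 5 := pow_lt_pow_left₀ hc (by positivity) (by norm_num)
    rw [← htT] at hr5
    have e : (t ^ 16) ^ 5 = (t ^ 40) ^ 2 := by ring
    rw [e] at this
    linarith
  have hLt : L ≤ t ^ 24 := by
    by_contra hc
    push Not at hc
    have : (t ^ 24) ^ 5 < L ^ 5 := pow_lt_pow_left₀ hc (by positivity) (by norm_num)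
    rw [← htT] at hL5
    have e : (t ^ 24) ^ 5 = (t ^ 40) ^ 3 := by ring
    rw [e] at this
    linarith
  set H : ℝ := 20 * Λ ^ 2 * B * M * r with hH
  have hΛ2 : 1 ≤ Λ ^ 2 := one_le_pow₀ hΛ
  have hH1 : 2 * M ≤ H := by
    have h1 : 1 ≤ Λ ^ 2 * B * r :=
      one_le_mul_of_one_le_of_one_le (one_le_mul_of_one_le_of_one_le hΛ2 hB) hr
    have e : H = 20 * M * (Λ ^ 2 * B * r) := by rw [hH]; ring
    rw [e]
    nlinarith
  have hHt : H ≤ 20 * Λ ^ 2 * B * M * t ^ 16 := by
    rw [hH]; exact mul_le_mul_of_nonneg_left hrt (by positivity)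
  have hH0 : 0 < H := by linarith
  -- estimates on the domain
  have dom : ∀ s s' : ℝ, (s, s') ∈ Om Λ T r → 2 * B ≤ s ∧ 2 * B ≤ s' ∧
      32 * (|s - s'| + 2 * B) ^ 2 ≤ s * H ^ 2 ∧ 16 * (2 * M * (Λ * L) + M) ^ 2 ≤ s ∧
      2 * (2 * M * (Λ * L)) ^ 2 ≤ s' ∧ T / Λ ≤ Real.sqrt s ∧ T / Λ ≤ Real.sqrt s' := by
    rintro s s' ⟨h1, h2, h3, h4, h5⟩
    simp only at h1 h2 h3 h4 h5
    have hTΛ : 2 * B ≤ T ^ 2 / Λ := by
      rw [le_div_iff₀ hΛ0, ← htT]
      have e1 : t ≤ (t ^ 40) ^ 2 := by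
        rw [← pow_mul]; exact le_self_pow₀ ht1 (by norm_num)
      have e2 : 2 * B * Λ ≤ t0 := by
        rw [ht0]
        have a1 : Λ ≤ Λ ^ 5 := le_self_pow₀ hΛ (by norm_num)
        have a2 : B ≤ B ^ 2 := le_self_pow₀ hB (by norm_num)
        have a3 : B * Λ ≤ B ^ 2 * Λ ^ 5 := mul_le_mul a2 a1 hΛ0.le (by positivity)
        have a4 : B ^ 2 * Λ ^ 5 * 1 ≤ B ^ 2 * Λ ^ 5 * M ^ 2 :=
          mul_le_mul_of_nonneg_left hM2 (by positivity)
        nlinarith
      linarith
    have hW : 16 * (2 * M * (Λ * L) + M) ^ 2 ≤ T ^ 2 / Λ := by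
      rw [le_div_iff₀ hΛ0, ← htT]
      have a1 : 2 * M * (Λ * L) + M ≤ 3 * M * Λ * t ^ 24 := by
        have b1 : Λ * L ≤ Λ * t ^ 24 := mul_le_mul_of_nonneg_left hLt hΛ0.le
        have b2 : 1 ≤ Λ * t ^ 24 := one_le_mul_of_one_le_of_one_le hΛ (one_le_pow₀ ht1)
        nlinarith
      have a2 : 0 ≤ 2 * M * (Λ * L) + M := by positivity
      have a3 : (2 * M * (Λ * L) + M) ^ 2 ≤ (3 * M * Λ * t ^ 24) ^ 2 := pow_le_pow_left₀ a2 a1 2
      have a4 : 144 * M ^ 2 * Λ ^ 3 ≤ t ^ 32 := by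
        have c1 : 144 * M ^ 2 * Λ ^ 3 ≤ t0 := by
          rw [ht0]
          have d1 : Λ ^ 3 ≤ Λ ^ 5 := pow_le_pow_right₀ hΛ (by norm_num)
          have d2 : M ^ 2 * Λ ^ 3 ≤ M ^ 2 * Λ ^ 5 := mul_le_mul_of_nonneg_left d1 (by positivity)
          have d3 : M ^ 2 * Λ ^ 5 * 1 ≤ M ^ 2 * Λ ^ 5 * B ^ 2 :=
            mul_le_mul_of_nonneg_left hB2 (by positivity)
          nlinarith [mul_nonneg (sq_nonneg M) (by positivity : (0 : ℝ) ≤ Λ ^ 5)]
        have c2 : t ≤ t ^ 32 := le_self_pow₀ ht1 (by norm_num)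
        linarith
      calc 16 * (2 * M * (Λ * L) + M) ^ 2 * Λ ≤ 16 * (3 * M * Λ * t ^ 24) ^ 2 * Λ := by gcongr
        _ = (144 * M ^ 2 * Λ ^ 3) * t ^ 48 := by ring
        _ ≤ t ^ 32 * t ^ 48 := mul_le_mul_of_nonneg_right a4 (by positivity)
        _ = (t ^ 40) ^ 2 := by ring
    have hsq : ∀ x : ℝ, T ^ 2 / Λ ≤ x → T / Λ ≤ Real.sqrt x := by
      intro x hx
      rw [← Real.sqrt_sq (by positivity : (0 : ℝ) ≤ T / Λ)]
      apply Real.sqrt_le_sqrt
      refine le_trans ?_ hx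
      rw [div_pow]
      apply div_le_div_of_nonneg_left (by positivity) hΛ0
      exact le_self_pow₀ hΛ (by norm_num)
    refine ⟨by linarith, by linarith, ?_, by linarith, ?_, hsq s h1, hsq s' h3⟩
    · have a1 : |s - s'| + 2 * B ≤ 3 * Λ * B * r * T := by
        have b1 : 1 ≤ Λ * r * T :=
          one_le_mul_of_one_le_of_one_le (one_le_mul_of_one_le_of_one_le hΛ hr) hT1
        have b2 : Λ * r * T ≤ B * (Λ * r * T) := by nlinarith
        nlinarith
      have a2 : (|s - s'| + 2 * B) ^ 2 ≤ (3 * Λ * B * r * T) ^ 2 :=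
        pow_le_pow_left₀ (by positivity) a1 2
      have a3 : T ^ 2 / Λ * H ^ 2 ≤ s * H ^ 2 := mul_le_mul_of_nonneg_right h1 (by positivity)
      have a4 : T ^ 2 / Λ * H ^ 2 = 400 * Λ ^ 3 * B ^ 2 * M ^ 2 * r ^ 2 * T ^ 2 := by
        rw [hH]; field_simp; ring
      have a5 : 32 * (3 * Λ * B * r * T) ^ 2 ≤ 400 * Λ ^ 3 * B ^ 2 * M ^ 2 * r ^ 2 * T ^ 2 := by
        have b1 : Λ ^ 2 ≤ Λ ^ 3 * M ^ 2 := by
          calc Λ ^ 2 = Λ ^ 2 * 1 := (mul_one _).symm
            _ ≤ Λ ^ 3 * M ^ 2 := mul_le_mul (pow_le_pow_right₀ hΛ (by norm_num)) hM2 (by norm_num)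
                (by positivity)
        have b2 : 0 ≤ B ^ 2 * r ^ 2 * T ^ 2 := by positivity
        calc 32 * (3 * Λ * B * r * T) ^ 2 = 288 * (Λ ^ 2 * (B ^ 2 * r ^ 2 * T ^ 2)) := by ring
          _ ≤ 400 * (Λ ^ 3 * M ^ 2 * (B ^ 2 * r ^ 2 * T ^ 2)) := by
              have := mul_le_mul_of_nonneg_right b1 b2
              have b3 : 0 ≤ Λ ^ 2 * (B ^ 2 * r ^ 2 * T ^ 2) := by positivity
              linarith
          _ = _ := by ring
      linarith
    · have a1 : (2 * M * (Λ * L)) ^ 2 ≤ (2 * M * (Λ * L) + M) ^ 2 :=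
        pow_le_pow_left₀ (by positivity) (by linarith) 2
      nlinarith [sq_nonneg (2 * M * (Λ * L))]
  -- the quantity a
  have aest : ∀ s : ℝ, T ^ 2 / Λ ≤ s → s ≤ Λ * T ^ 2 → ∃ a : ℝ, a ^ 2 = s + B ∧ T / Λ ≤ a ∧
      1 + Real.log a ≤ 43 * Λ * t ∧ 12 * B ≤ a ∧ 2 * H ≤ a ∧ H ^ 2 ≤ a ∧ 1 ≤ a := by
    intro s h1 h2
    have hTΛ0 : 0 ≤ T ^ 2 / Λ := by positivity
    have hs0 : 0 ≤ s := by linarith
    have e0 : Real.sqrt (s + B) ^ 2 = s + B := Real.sq_sqrt (by linarith)
    have e1 : T / Λ ≤ Real.sqrt (s + B) := by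
      rw [← Real.sqrt_sq (by positivity : (0 : ℝ) ≤ T / Λ)]
      apply Real.sqrt_le_sqrt
      refine le_trans ?_ (by linarith : T ^ 2 / Λ ≤ s + B)
      rw [div_pow]
      apply div_le_div_of_nonneg_left (by positivity) hΛ0
      exact le_self_pow₀ hΛ (by norm_num)
    have ebig : ∀ m : ℕ, ∀ c : ℝ, 0 ≤ c → m + 1 ≤ 40 → c * Λ ≤ t0 → c * t ^ m ≤ T / Λ := by
      intro m c hc hm hcΛ
      rw [le_div_iff₀ hΛ0, ← htT]
      calc c * t ^ m * Λ = (c * Λ) * t ^ m := by ring
        _ ≤ t * t ^ m := mul_le_mul_of_nonneg_right (le_trans hcΛ ht0t) (by positivity)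
        _ = t ^ (m + 1) := by ring
        _ ≤ t ^ 40 := pow_le_pow_right₀ ht1 hm
    have b1 : B ≤ B ^ 2 := le_self_pow₀ hB (by norm_num)
    have m1 : M ≤ M ^ 2 := le_self_pow₀ hM (by norm_num)
    have l1 : Λ ≤ Λ ^ 5 := le_self_pow₀ hΛ (by norm_num)
    have l3 : Λ ^ 3 ≤ Λ ^ 5 := pow_le_pow_right₀ hΛ (by norm_num)
    have bl : B * Λ ≤ B ^ 2 * Λ ^ 5 := mul_le_mul b1 l1 hΛ0.le (by positivity)
    refine ⟨Real.sqrt (s + B), e0, e1, ?_, ?_, ?_, ?_, ?_⟩
    · have f1 : Real.sqrt (s + B) ≤ 2 * Λ * T := by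
        rw [Real.sqrt_le_left (by positivity)]
        have g1 : B ≤ Λ * T ^ 2 := by
          have g2 : 12 * B * t ^ 0 ≤ T / Λ := ebig 0 (12 * B) (by positivity) (by norm_num) (by
            rw [ht0]
            have : B ^ 2 * Λ ^ 5 * 1 ≤ B ^ 2 * Λ ^ 5 * M ^ 2 :=
              mul_le_mul_of_nonneg_left hM2 (by positivity)
            nlinarith)
          rw [pow_zero, mul_one] at g2
          have g3 : T / Λ ≤ T := div_le_self hT0.le hΛ
          have g4 : T ≤ T ^ 2 := le_self_pow₀ hT1 (by norm_num)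
          have g5 : T ^ 2 ≤ Λ * T ^ 2 := le_mul_of_one_le_left (by positivity) hΛ
          linarith
        have g6 : Λ * T ^ 2 ≤ Λ ^ 2 * T ^ 2 :=
          mul_le_mul_of_nonneg_right (le_self_pow₀ hΛ (by norm_num)) (by positivity)
        nlinarith
      have f2 : 0 < Real.sqrt (s + B) := lt_of_lt_of_le (by positivity) e1
      have f3 : Real.log (Real.sqrt (s + B)) ≤ Real.log (2 * Λ * T) := Real.log_le_log f2 f1
      have f4 : Real.log (2 * Λ * T) = Real.log (2 * Λ) + Real.log T :=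
        Real.log_mul (by positivity) hT0.ne'
      have f5 : Real.log (2 * Λ) ≤ 2 * Λ := by
        have := Real.log_le_sub_one_of_pos (by positivity : (0 : ℝ) < 2 * Λ)
        linarith
      have f6 : Real.log T ≤ 40 * t := by
        have := Real.log_le_rpow_div hT0.le (by norm_num : (0 : ℝ) < 1 / 40)
        rw [← ht] at this
        linarith
      have f7 : Λ ≤ Λ * t := le_mul_of_one_le_right hΛ0.le ht1
      have f8 : t ≤ Λ * t := le_mul_of_one_le_left htpos.le hΛ
      nlinarith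
    · have g2 : 12 * B * t ^ 0 ≤ T / Λ := ebig 0 (12 * B) (by positivity) (by norm_num) (by
        rw [ht0]
        have : B ^ 2 * Λ ^ 5 * 1 ≤ B ^ 2 * Λ ^ 5 * M ^ 2 :=
          mul_le_mul_of_nonneg_left hM2 (by positivity)
        nlinarith)
      rw [pow_zero, mul_one] at g2
      linarith
    · have g2 : (40 * Λ ^ 2 * B * M) * t ^ 16 ≤ T / Λ := ebig 16 _ (by positivity) (by norm_num) (by
        rw [ht0]
        have h3 : Λ ^ 3 * B * M ≤ Λ ^ 5 * B ^ 2 * M ^ 2 := by
          apply mul_le_mul (mul_le_mul l3 b1 hB0.le (by positivity)) m1 hM0.le (by positivity)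
        have h4 : 0 ≤ Λ ^ 3 * B * M := by positivity
        nlinarith)
      nlinarith
    · have g1 : H ^ 2 ≤ (20 * Λ ^ 2 * B * M * t ^ 16) ^ 2 := pow_le_pow_left₀ hH0.le hHt 2
      have g2 : (400 * Λ ^ 4 * B ^ 2 * M ^ 2) * t ^ 32 ≤ T / Λ := ebig 32 _ (by positivity)
        (by norm_num) (by rw [ht0]; refine le_of_eq ?_; ring)
      have e3 : (20 * Λ ^ 2 * B * M * t ^ 16) ^ 2 = (400 * Λ ^ 4 * B ^ 2 * M ^ 2) * t ^ 32 := by ring
      linarith
    · have g2 : 1 * t ^ 0 ≤ T / Λ := ebig 0 1 (by positivity) (by norm_num) (by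
        rw [ht0, one_mul]
        have h3 : Λ * 1 ≤ Λ ^ 5 * (B ^ 2 * M ^ 2) :=
          mul_le_mul l1 (one_le_mul_of_one_le_of_one_le hB2 hM2) (by norm_num) (by positivity)
        nlinarith)
      rw [pow_zero, mul_one] at g2
      linarith
  -- pointwise bounds on the domain
  set eE : ℝ := cE / t ^ 28 with heE
  set eR : ℝ := cR / t ^ 16 with heR
  set eN : ℝ := cN / t ^ 11 with heN
  have heE0 : 0 ≤ eE := by positivity
  have heR0 : 0 ≤ eR := by positivity
  have heN0 : 0 ≤ eN := by positivity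
  have hpw : ∀ s s' : ℝ, (s, s') ∈ Om Λ T r → ∀ l, ZZ A L Φ (K l) s s' ≤ II A L Φ (K l) s s' +
      (bt A B s s' 0 + nn M A B H s s' + ENNReal.ofReal eE) := by
    intro s s' hs l
    obtain ⟨d1, d2, d3, d4, d5, d6, d7⟩ := dom s s' hs
    refine le_trans (hC1 A hA B Λ L H s s' hL hH1 d1 d3 d4 (K l) Φ (hK l) hΦ) ?_
    gcongr
    rw [heE, hcE]
    have g1 : Real.sqrt L ≤ t ^ 12 := by
      rw [Real.sqrt_le_left (by positivity)]
      calc L ≤ t ^ 24 := hLt
        _ = (t ^ 12) ^ 2 := by ring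
    have g2 : Real.sqrt L / Real.sqrt s ≤ Λ / t ^ 28 := by
      have g3 : 0 < T / Λ := by positivity
      calc Real.sqrt L / Real.sqrt s ≤ t ^ 12 / (T / Λ) := by
            apply div_le_div₀ (by positivity) g1 g3 d6
        _ = Λ / t ^ 28 := by
            rw [← htT]
            field_simp
    calc C1 * Λ ^ 3 * B ^ 2 * (Real.sqrt L / Real.sqrt s) ≤ C1 * Λ ^ 3 * B ^ 2 * (Λ / t ^ 28) :=
          mul_le_mul_of_nonneg_left g2 (by positivity)
      _ = _ := by ring
  have hII : ∀ s s' : ℝ, (s, s') ∈ Om Λ T r → ∀ l, II A L Φ (K l) s s' ≤ ENNReal.ofReal eR := by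
    intro s s' hs l
    obtain ⟨d1, d2, d3, d4, d5, d6, d7⟩ := dom s s' hs
    refine le_trans (int_bound hM hA hL d1 d2 d5 (hK l) hΦ) (ENNReal.ofReal_le_ofReal ?_)
    rw [heR, hcR]
    have g2 : L / Real.sqrt s' ≤ Λ / t ^ 16 := by
      have g3 : 0 < T / Λ := by positivity
      calc L / Real.sqrt s' ≤ t ^ 24 / (T / Λ) := by
            apply div_le_div₀ (by positivity) hLt g3 d7
        _ = Λ / t ^ 16 := by
            rw [← htT]
            field_simp
    calc 192 * M ^ 3 * Λ * B ^ 2 * (L / Real.sqrt s') ≤ 192 * M ^ 3 * Λ * B ^ 2 * (Λ / t ^ 16) :=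
          mul_le_mul_of_nonneg_left g2 (by positivity)
      _ = _ := by ring
  have hnn : ∀ s s' : ℝ, (s, s') ∈ Om Λ T r → nn M A B H s s' ≤ ENNReal.ofReal eN := by
    intro s s' hs
    obtain ⟨a, a1, a2, a3, a4, a5, a6, a7⟩ := aest s hs.1 hs.2.1
    unfold nn
    refine le_trans (hC2 A hA B s s' a H hB a1 a4 (by linarith) a5 a6 (NS M A H)
      (fun h hh => (mem_NS hM hA).mp hh)) (ENNReal.ofReal_le_ofReal ?_)
    rw [heN, hcN]
    have g1 : Real.sqrt ((1 + Real.log a) * H / a) ≤ 30 * Λ ^ 2 * B * M / t ^ 11 := by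
      rw [Real.sqrt_le_left (by positivity)]
      have g2 : (1 + Real.log a) * H / a ≤ (43 * Λ * t) * (20 * Λ ^ 2 * B * M * t ^ 16) / (T / Λ) := by
        have g3 : 0 < T / Λ := by positivity
        have g4 : 0 ≤ 1 + Real.log a := by have := Real.log_nonneg a7; linarith
        exact div_le_div₀ (by positivity) (mul_le_mul a3 hHt hH0.le (by positivity)) g3 a2
      refine le_trans g2 ?_
      rw [← htT]
      have e5 : (43 * Λ * t) * (20 * Λ ^ 2 * B * M * t ^ 16) / (t ^ 40 / Λ) =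
          860 * Λ ^ 4 * B * M / t ^ 23 := by
        field_simp
        ring
      have e6 : (30 * Λ ^ 2 * B * M / t ^ 11) ^ 2 = 900 * Λ ^ 4 * (B ^ 2 * M ^ 2) / t ^ 22 := by
        field_simp
        ring
      rw [e5, e6]
      apply div_le_div₀ (by positivity) _ (by positivity) (pow_le_pow_right₀ ht1 (by norm_num))
      have h3 : B * M ≤ B ^ 2 * M ^ 2 := mul_le_mul (le_self_pow₀ hB (by norm_num))
        (le_self_pow₀ hM (by norm_num)) hM0.le (by positivity)
      have h4 : Λ ^ 4 * (B * M) ≤ Λ ^ 4 * (B ^ 2 * M ^ 2) := mul_le_mul_of_nonneg_left h3 (by positivity)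
      have h5 : 0 ≤ Λ ^ 4 * (B * M) := by positivity
      nlinarith
    calc C2 * B ^ 2 * Real.sqrt ((1 + Real.log a) * H / a)
        ≤ C2 * B ^ 2 * (30 * Λ ^ 2 * B * M / t ^ 11) := mul_le_mul_of_nonneg_left g1 (by positivity)
      _ = _ := by ring
  -- the dominating function
  set x1 : ENNReal := ENNReal.ofReal c1 with hx1
  set x2 : ENNReal := ENNReal.ofReal (3 * eR ^ 2) with hx2
  set x3 : ENNReal := ENNReal.ofReal (27 * eR + 27 * eN) with hx3
  set x4 : ENNReal := ENNReal.ofReal (3 * eR ^ 2 * eE + 27 * eR * eE ^ 2 + 27 * eE ^ 3) with hx4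
  set G : ℝ × ℝ → ENNReal := fun p => x1 * bt A B p.1 p.2 0 + x2 * nn M A B H p.1 p.2 +
    x3 * nn M A B H p.1 p.2 ^ 2 + x4 with hG
  have heR1 : eR ≤ cR := by
    rw [heR]; exact div_le_self hcR0 (one_le_pow₀ ht1)
  have hmain : ∀ s s' : ℝ, ω s s' * ∏ l, ZZ A L Φ (K l) s s' ≤
      ω s s' * ∏ l, II A L Φ (K l) s s' + (Om Λ T r).indicator G (s, s') := by
    intro s s'
    by_cases hs : (s, s') ∈ Om Λ T r
    · rw [Set.indicator_of_mem hs, Fin.prod_univ_three, Fin.prod_univ_three]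
      have p1 := hpw s s' hs
      have p2 := hII s s' hs
      have p3 := hnn s s' hs
      set b := bt A B s s' 0 + nn M A B H s s' + ENNReal.ofReal eE with hb
      have p4 := poly_bound (R := ENNReal.ofReal eR) hb
        (bt_le_area hM hA hB0.le s s' 0) p3
      have p5 := prod3 (b := b) (p2 0) (p2 1) (p2 2)
      have p6 : 3 * ENNReal.ofReal eR ^ 2 * b + 3 * ENNReal.ofReal eR * b ^ 2 + b ^ 3 ≤ G (s, s') := by
        refine le_trans p4 ?_
        rw [hG]
        simp only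
        have f1 : 3 * ENNReal.ofReal eR ^ 2 + 27 * ENNReal.ofReal eR * ENNReal.ofReal (8 * M * B) +
            27 * ENNReal.ofReal (8 * M * B) ^ 2 ≤ x1 := by
          have e3 : (3 : ENNReal) = ENNReal.ofReal 3 := by norm_num
          have e27 : (27 : ENNReal) = ENNReal.ofReal 27 := by norm_num
          rw [hx1, e3, e27, ← ENNReal.ofReal_pow heR0, ← ENNReal.ofReal_pow (by positivity),
            ← ENNReal.ofReal_mul (by norm_num), ← ENNReal.ofReal_mul (by norm_num),
            ← ENNReal.ofReal_mul (by positivity), ← ENNReal.ofReal_mul (by norm_num),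
            ← ENNReal.ofReal_add (by positivity) (by positivity),
            ← ENNReal.ofReal_add (by positivity) (by positivity)]
          refine ENNReal.ofReal_le_ofReal ?_
          rw [hc1]
          gcongr
        have f2 : 3 * ENNReal.ofReal eR ^ 2 = x2 := by
          have e3 : (3 : ENNReal) = ENNReal.ofReal 3 := by norm_num
          rw [hx2, e3, ← ENNReal.ofReal_pow heR0, ← ENNReal.ofReal_mul (by norm_num)]
        have f3 : 27 * ENNReal.ofReal eR + 27 * ENNReal.ofReal eN = x3 := by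
          have e27 : (27 : ENNReal) = ENNReal.ofReal 27 := by norm_num
          rw [hx3, e27, ← ENNReal.ofReal_mul (by norm_num), ← ENNReal.ofReal_mul (by norm_num),
            ← ENNReal.ofReal_add (by positivity) (by positivity)]
        have f4 : 3 * ENNReal.ofReal eR ^ 2 * ENNReal.ofReal eE +
            27 * ENNReal.ofReal eR * ENNReal.ofReal eE ^ 2 + 27 * ENNReal.ofReal eE ^ 3 = x4 := by
          have e3 : (3 : ENNReal) = ENNReal.ofReal 3 := by norm_num
          have e27 : (27 : ENNReal) = ENNReal.ofReal 27 := by norm_num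
          rw [hx4, e3, e27, ← ENNReal.ofReal_pow heR0, ← ENNReal.ofReal_pow heE0,
            ← ENNReal.ofReal_pow heE0,
            ← ENNReal.ofReal_mul (by positivity), ← ENNReal.ofReal_mul (by positivity),
            ← ENNReal.ofReal_mul (by positivity), ← ENNReal.ofReal_mul (by positivity),
            ← ENNReal.ofReal_mul (by positivity),
            ← ENNReal.ofReal_add (by positivity) (by positivity),
            ← ENNReal.ofReal_add (by positivity) (by positivity)]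
        refine add_le_add (add_le_add (add_le_add (mul_le_mul_left f1 _) ?_) ?_) (le_of_eq f4)
        · rw [f2]
        · rw [f3]
      calc ω s s' * (ZZ A L Φ (K 0) s s' * ZZ A L Φ (K 1) s s' * ZZ A L Φ (K 2) s s')
          ≤ ω s s' * ((II A L Φ (K 0) s s' + b) * (II A L Φ (K 1) s s' + b) *
              (II A L Φ (K 2) s s' + b)) := by
            gcongr
            · exact p1 0
            · exact p1 1
            · exact p1 2
        _ ≤ ω s s' * (II A L Φ (K 0) s s' * II A L Φ (K 1) s s' * II A L Φ (K 2) s s' +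
              G (s, s')) := by
            refine mul_le_mul_right (le_trans p5 ?_) _
            exact add_le_add_right p6 _
        _ = ω s s' * (II A L Φ (K 0) s s' * II A L Φ (K 1) s s' * II A L Φ (K 2) s s') +
              ω s s' * G (s, s') := mul_add _ _ _
        _ ≤ _ := by
            refine add_le_add_right ?_ _
            calc ω s s' * G (s, s') ≤ 1 * G (s, s') := mul_le_mul_left (hω1 s s') _
              _ = _ := one_mul _
    · have : ω s s' = 0 := by
        by_contra hc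
        exact hs (hωs s s' hc)
      rw [this, zero_mul]; exact zero_le
  -- measurability
  have hmbt : Measurable (fun p : ℝ × ℝ => bt A B p.1 p.2 0) := measurable_bt A B 0
  have hmnn := measurable_nn M A B H
  have hGm : Measurable G := by
    rw [hG]
    exact (((hmbt.const_mul _).add (hmnn.const_mul _)).add ((hmnn.pow_const 2).const_mul _)).add
      measurable_const
  have hOm := measurableSet_Om Λ T r
  have hGi : Measurable ((Om Λ T r).indicator G) := hGm.indicator hOm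
  calc ∫⁻ s, ∫⁻ s', ω s s' * ∏ l, ZZ A L Φ (K l) s s'
      ≤ ∫⁻ s, ∫⁻ s', (ω s s' * ∏ l, II A L Φ (K l) s s' + (Om Λ T r).indicator G (s, s')) :=
        lintegral_mono fun s => lintegral_mono fun s' => hmain s s'
    _ = (∫⁻ s, ∫⁻ s', ω s s' * ∏ l, II A L Φ (K l) s s') +
          ∫⁻ s, ∫⁻ s', (Om Λ T r).indicator G (s, s') := by
        have e1 : ∀ s : ℝ, ∫⁻ s', (ω s s' * ∏ l, II A L Φ (K l) s s' +
            (Om Λ T r).indicator G (s, s')) = (∫⁻ s', ω s s' * ∏ l, II A L Φ (K l) s s') +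
            ∫⁻ s', (Om Λ T r).indicator G (s, s') := fun s =>
          lintegral_add_right _ (hGi.comp measurable_prodMk_left)
        simp only [e1]
        exact lintegral_add_right _ hGi.lintegral_prod_right'
    _ ≤ _ := by
        refine add_le_add_right ?_ _
        -- split the dominating function
        have hsplit : ∀ p : ℝ × ℝ, (Om Λ T r).indicator G p =
            x1 * (Om Λ T r).indicator (fun p => bt A B p.1 p.2 0) p +
            x2 * (Om Λ T r).indicator (fun p => nn M A B H p.1 p.2) p +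
            x3 * (Om Λ T r).indicator (fun p => nn M A B H p.1 p.2 ^ 2) p +
            x4 * (Om Λ T r).indicator (fun _ => 1) p := by
          intro p
          by_cases hp : p ∈ Om Λ T r
          · simp only [Set.indicator_of_mem hp]
            rw [hG]
            simp only [mul_one]
          · simp only [Set.indicator_of_notMem hp]
            simp
        have m1 := hmbt.indicator hOm
        have m2 := hmnn.indicator hOm
        have m3 := (hmnn.pow_const 2).indicator hOm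
        have m4 : Measurable ((Om Λ T r).indicator (fun _ : ℝ × ℝ => (1 : ENNReal))) :=
          measurable_const.indicator hOm
        have hint : ∫⁻ s, ∫⁻ s', (Om Λ T r).indicator G (s, s') =
            x1 * (∫⁻ s, ∫⁻ s', (Om Λ T r).indicator (fun p => bt A B p.1 p.2 0) (s, s')) +
            x2 * (∫⁻ s, ∫⁻ s', (Om Λ T r).indicator (fun p => nn M A B H p.1 p.2) (s, s')) +
            x3 * (∫⁻ s, ∫⁻ s', (Om Λ T r).indicator (fun p => nn M A B H p.1 p.2 ^ 2) (s, s')) +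
            x4 * (∫⁻ s, ∫⁻ s', (Om Λ T r).indicator (fun _ => 1) (s, s')) := by
          simp only [hsplit]
          have k1 : ∀ s : ℝ, ∫⁻ s', (x1 * (Om Λ T r).indicator (fun p => bt A B p.1 p.2 0) (s, s') +
              x2 * (Om Λ T r).indicator (fun p => nn M A B H p.1 p.2) (s, s') +
              x3 * (Om Λ T r).indicator (fun p => nn M A B H p.1 p.2 ^ 2) (s, s') +
              x4 * (Om Λ T r).indicator (fun _ => 1) (s, s')) =
              x1 * (∫⁻ s', (Om Λ T r).indicator (fun p => bt A B p.1 p.2 0) (s, s')) +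
              x2 * (∫⁻ s', (Om Λ T r).indicator (fun p => nn M A B H p.1 p.2) (s, s')) +
              x3 * (∫⁻ s', (Om Λ T r).indicator (fun p => nn M A B H p.1 p.2 ^ 2) (s, s')) +
              x4 * (∫⁻ s', (Om Λ T r).indicator (fun _ => 1) (s, s')) := by
            intro s
            have n1 : Measurable (fun s' : ℝ => (Om Λ T r).indicator (fun p => bt A B p.1 p.2 0) (s, s')) :=
              m1.comp measurable_prodMk_left
            have n2 : Measurable (fun s' : ℝ => (Om Λ T r).indicator (fun p => nn M A B H p.1 p.2) (s, s')) :=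
              m2.comp measurable_prodMk_left
            have n3 : Measurable (fun s' : ℝ => (Om Λ T r).indicator (fun p => nn M A B H p.1 p.2 ^ 2) (s, s')) :=
              m3.comp measurable_prodMk_left
            have n4 : Measurable (fun s' : ℝ => (Om Λ T r).indicator (fun _ => (1 : ENNReal)) (s, s')) :=
              m4.comp measurable_prodMk_left
            rw [lintegral_add_right _ (n4.const_mul x4), lintegral_add_right _ (n3.const_mul x3),
              lintegral_add_right _ (n2.const_mul x2), lintegral_const_mul _ n1,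
              lintegral_const_mul _ n2, lintegral_const_mul _ n3, lintegral_const_mul _ n4]
          simp only [k1]
          rw [lintegral_add_right _ (m4.lintegral_prod_right'.const_mul x4),
            lintegral_add_right _ (m3.lintegral_prod_right'.const_mul x3),
            lintegral_add_right _ (m2.lintegral_prod_right'.const_mul x2),
            lintegral_const_mul _ m1.lintegral_prod_right',
            lintegral_const_mul _ m2.lintegral_prod_right',
            lintegral_const_mul _ m3.lintegral_prod_right',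
            lintegral_const_mul _ m4.lintegral_prod_right']
        rw [hint]
        have i1 : ∫⁻ s, ∫⁻ s', (Om Λ T r).indicator (fun p => bt A B p.1 p.2 0) (s, s') ≤
            ENNReal.ofReal (q1 * t ^ 80) := by
          refine le_trans (lint_Om hΛ _ (q := 16 * M * B ^ 2)
            (fun s _ _ => lint_bt hM hA hB0.le s 0) (by positivity)) ?_
          refine ENNReal.ofReal_le_ofReal (le_of_eq ?_)
          rw [hq1, ← htT]; ring
        have i2 : ∫⁻ s, ∫⁻ s', (Om Λ T r).indicator (fun p => nn M A B H p.1 p.2) (s, s') ≤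
            ENNReal.ofReal (q2 * t ^ 112) := by
          refine le_trans (lint_Om hΛ _ (q := 144 * M ^ 3 * B ^ 2 * H ^ 2)
            (fun s _ _ => lint_nn hM hA hB0.le (by linarith) s) (by positivity)) ?_
          refine ENNReal.ofReal_le_ofReal ?_
          have g1 : H ^ 2 ≤ (20 * Λ ^ 2 * B * M * t ^ 16) ^ 2 := pow_le_pow_left₀ hH0.le hHt 2
          calc 144 * M ^ 3 * B ^ 2 * H ^ 2 * (Λ * T ^ 2)
              ≤ 144 * M ^ 3 * B ^ 2 * (20 * Λ ^ 2 * B * M * t ^ 16) ^ 2 * (Λ * T ^ 2) := by gcongr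
            _ = _ := by rw [hq2, ← htT]; ring
        have i3 : ∫⁻ s, ∫⁻ s', (Om Λ T r).indicator (fun p => nn M A B H p.1 p.2 ^ 2) (s, s') ≤
            ENNReal.ofReal (q3 * t ^ 89) := by
          refine le_trans (lint_Om hΛ _ (q := C3 * B ^ 4 * (43 * Λ * t) / (T / Λ) *
              (20 * Λ ^ 2 * B * M * t ^ 16) ^ 3) (fun s hs1 hs2 => ?_) (by positivity)) ?_
          · obtain ⟨a, a1, a2, a3, a4, a5, a6, a7⟩ := aest s hs1 hs2
            refine le_trans (hC3 A hA B H s a hB (by linarith) a7 a1) (ENNReal.ofReal_le_ofReal ?_)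
            have g3 : 0 < T / Λ := by positivity
            have g4 : 0 ≤ 1 + Real.log a := by have := Real.log_nonneg a7; linarith
            apply mul_le_mul
            · exact div_le_div₀ (by positivity)
                (mul_le_mul_of_nonneg_left a3 (by positivity)) g3 a2
            · exact pow_le_pow_left₀ hH0.le hHt 3
            · positivity
            · positivity
          · refine ENNReal.ofReal_le_ofReal (le_of_eq ?_)
            rw [hq3, ← htT]
            field_simp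
            ring
        have i4 : ∫⁻ s, ∫⁻ s', (Om Λ T r).indicator (fun _ => 1) (s, s') ≤
            ENNReal.ofReal (q4 * t ^ 136) := by
          have h1 : ∀ s s' : ℝ, (Om Λ T r).indicator (fun _ => (1 : ENNReal)) (s, s') ≤
              (Om Λ T r).indicator (fun p : ℝ × ℝ => (Set.Icc (p.1 - Λ * r * T) (p.1 + Λ * r * T)).indicator
                (fun _ => (1 : ENNReal)) p.2) (s, s') := by
            intro s s'
            by_cases hp : (s, s') ∈ Om Λ T r
            · rw [Set.indicator_of_mem hp, Set.indicator_of_mem hp]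
              have h5 := abs_le.mp hp.2.2.2.2
              simp only at h5
              rw [Set.indicator_of_mem]
              exact ⟨by simp only; linarith [h5.2], by simp only; linarith [h5.1]⟩
            · rw [Set.indicator_of_notMem hp]; exact zero_le
          refine le_trans (lintegral_mono fun s => lintegral_mono fun s' => h1 s s') ?_
          refine le_trans (lint_Om hΛ _ (q := 2 * Λ * r * T) (fun s _ _ => ?_) (by positivity)) ?_
          · simp only
            rw [lintegral_indicator_const measurableSet_Icc, Real.volume_Icc, one_mul]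
            refine ENNReal.ofReal_le_ofReal (le_of_eq ?_)
            ring
          · refine ENNReal.ofReal_le_ofReal ?_
            calc 2 * Λ * r * T * (Λ * T ^ 2) ≤ 2 * Λ * t ^ 16 * T * (Λ * T ^ 2) := by gcongr
              _ = _ := by rw [hq4, ← htT]; ring
        have hq10 : 0 ≤ q1 := by positivity
        have hq20 : 0 ≤ q2 := by positivity
        have hq30 : 0 ≤ q3 := by positivity
        have hq40 : 0 ≤ q4 := by positivity
        calc x1 * (∫⁻ s, ∫⁻ s', (Om Λ T r).indicator (fun p => bt A B p.1 p.2 0) (s, s')) +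
            x2 * (∫⁻ s, ∫⁻ s', (Om Λ T r).indicator (fun p => nn M A B H p.1 p.2) (s, s')) +
            x3 * (∫⁻ s, ∫⁻ s', (Om Λ T r).indicator (fun p => nn M A B H p.1 p.2 ^ 2) (s, s')) +
            x4 * (∫⁻ s, ∫⁻ s', (Om Λ T r).indicator (fun _ => 1) (s, s'))
            ≤ x1 * ENNReal.ofReal (q1 * t ^ 80) + x2 * ENNReal.ofReal (q2 * t ^ 112) +
              x3 * ENNReal.ofReal (q3 * t ^ 89) + x4 * ENNReal.ofReal (q4 * t ^ 136) := by
              gcongr
          _ = ENNReal.ofReal (c1 * (q1 * t ^ 80) + 3 * eR ^ 2 * (q2 * t ^ 112) +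
              (27 * eR + 27 * eN) * (q3 * t ^ 89) +
              (3 * eR ^ 2 * eE + 27 * eR * eE ^ 2 + 27 * eE ^ 3) * (q4 * t ^ 136)) := by
              rw [hx1, hx2, hx3, hx4, ← ENNReal.ofReal_mul hc10, ← ENNReal.ofReal_mul (by positivity),
                ← ENNReal.ofReal_mul (by positivity), ← ENNReal.ofReal_mul (by positivity),
                ← ENNReal.ofReal_add (by positivity) (by positivity),
                ← ENNReal.ofReal_add (by positivity) (by positivity),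
                ← ENNReal.ofReal_add (by positivity) (by positivity)]
          _ ≤ _ := by
              refine ENNReal.ofReal_le_ofReal ?_
              have h := book ht1 hc10 hcR0 hcE0 hcN0 hq10 hq20 hq30 hq40
              have e : T ^ 2 = t ^ 80 := by rw [← htT]; ring
              rw [e, heR, heE, heN]
              refine le_trans h ?_
              apply mul_le_mul_of_nonneg_right _ (by positivity)
              linarith

end Pool.Agent.Helper30_FC
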