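import Pool.Agent.Helper30_FC.PairB
import Pool.Agent.Helper30_FC.Geo

/-!
MP_f5cbfa_nt, frozen S18989 (helper30): the input `K0Stmt` of the hard half.
-/

set_option autoImplicit false

open MeasureTheory Set Filter

namespace Pool.Agent.Helper30_FC

open Pool.Agent.BTL Pool.Agent.F5S Pool.Agent.F5H

/-- volume of the set of forms is finite -/
theorem vol_KM_lt {M : ℝ} (hM : 1 ≤ M) : (volume : Measure (ℝ × ℝ × ℝ)) (KM M) < ⊤ := by
  have h1 : KM M ⊆ Metric.closedBall 0 M := by
    intro A hA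
    rw [mem_closedBall_zero_iff]
    have a1 := hA (1, 0)
    have a2 := hA (0, 1)
    have a3 := hA (1, 1)
    have a4 := hA (1, -1)
    unfold nr qf at a1 a2 a3 a4
    norm_num at a1 a2 a3 a4
    have hM0 : 0 < M := by linarith
    have hi : 0 < M⁻¹ := by positivity
    have i2 : 0 ≤ 2 / M := by positivity
    rw [Prod.norm_def, Prod.norm_def, sup_le_iff, sup_le_iff, Real.norm_eq_abs, Real.norm_eq_abs,
      Real.norm_eq_abs, abs_le, abs_le, abs_le]
    refine ⟨⟨?_, ?_⟩, ⟨?_, ?_⟩, ⟨?_, ?_⟩⟩ <;> linarith [a1.1, a1.2, a2.1, a2.2, a3.1, a3.2, a4.1, a4.2]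
  exact lt_of_le_of_lt (measure_mono h1) measure_closedBall_lt_top

/-- the sum over pairs of the averaged kernel as an integral over the forms -/
theorem avg_swap (hchk : CHKStmt) (hfaf : FAFStmt) (ν : Measure (ℝ × ℝ)) [SFinite ν]
    {M L R e : ℝ} (hM : 1 ≤ M) (hL : 0 < L) (hR : 0 < R) (he : 0 < e) (p : ℝ × ℝ) {W : R6 → ℝ}
    (hW : Measurable W) (hW1 : ∀ c, 0 ≤ W c ∧ W c ≤ 1) :
    ∫⁻ h, (∫⁻ x, ENNReal.ofReal (FF M L R e p W x (x + h))) ∂(n3 ν) =
      ∫⁻ A, ENNReal.ofReal (chK M A) *
        (∫⁻ h, (∫⁻ x, ENNReal.ofReal (FA L R e p W A x (x + h))) ∂(n3 ν)) := by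
  obtain ⟨f1, f2, -, -, -, -⟩ := hfaf M L R e hM hL hR he p W hW hW1
  obtain ⟨k1, -, k3, k4⟩ := hchk M hM
  have hkm : Measurable (chK M) := by
    have hlip : LipschitzWith (Real.toNNReal (12 * M)) (chK M) := by
      refine LipschitzWith.of_dist_le_mul ?_
      intro A A'
      rw [Real.dist_eq, dist_eq_norm, Real.coe_toNNReal _ (by linarith)]
      exact k4 A A'
    exact hlip.continuous.measurable
  -- the inner average
  have e1 : ∀ x y : R6, ENNReal.ofReal (FF M L R e p W x y) =
      ∫⁻ A, ENNReal.ofReal (chK M A) * ENNReal.ofReal (FA L R e p W A x y) := by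
    intro x y
    have mA : Measurable (fun A : ℝ × ℝ × ℝ => FA L R e p W A x y) := by
      have h := Measurable.comp (g := fun z : (ℝ × ℝ × ℝ) × R6 × R6 => FA L R e p W z.1 z.2.1 z.2.2)
        (f := fun A : ℝ × ℝ × ℝ => (A, x, y)) f1 measurable_prodMk_right
      exact h
    have hi : Integrable (fun A => chK M A * FA L R e p W A x y) := by
      refine integ_bdd (hkm.mul mA) (C := 64 * (4 * e ^ 2)) ?_ (S := KM (2 * M))
        (vol_KM_lt (by linarith)) ?_
      · intro A
        rw [abs_of_nonneg (mul_nonneg (k1 A).1 (f2 A x y).1)]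
        calc chK M A * FA L R e p W A x y ≤ 1 * (64 * (4 * e ^ 2)) :=
              mul_le_mul (k1 A).2 (f2 A x y).2 (f2 A x y).1 zero_le_one
          _ = _ := one_mul _
      · intro A hA
        exact k3 A (left_ne_zero_of_mul hA)
    unfold F5H.FF
    rw [ofReal_integral_eq_lintegral_ofReal hi
      (Filter.Eventually.of_forall fun A => mul_nonneg (k1 A).1 (f2 A x y).1)]
    refine lintegral_congr fun A => ?_
    rw [ENNReal.ofReal_mul (k1 A).1]
  simp only [e1]
  have mq : Measurable (fun q : (R6 × R6) × (ℝ × ℝ × ℝ) =>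
      ENNReal.ofReal (chK M q.2) * ENNReal.ofReal (FA L R e p W q.2 q.1.2 (q.1.2 + q.1.1))) := by
    have h := Measurable.comp (g := fun z : (ℝ × ℝ × ℝ) × R6 × R6 => FA L R e p W z.1 z.2.1 z.2.2)
      (f := fun q : (R6 × R6) × (ℝ × ℝ × ℝ) => (q.2, q.1.2, q.1.2 + q.1.1)) f1
      (measurable_snd.prodMk ((measurable_snd.comp measurable_fst).prodMk
        ((measurable_snd.comp measurable_fst).add (measurable_fst.comp measurable_fst))))
    exact (hkm.comp measurable_snd).ennreal_ofReal.mul h.ennreal_ofReal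
  have m1 : Measurable (fun q : R6 × R6 => ∫⁻ A, ENNReal.ofReal (chK M A) *
      ENNReal.ofReal (FA L R e p W A q.2 (q.2 + q.1))) := mq.lintegral_prod_right'
  rw [← lintegral_prod (μ := n3 ν) (ν := (volume : Measure R6)) (fun q : R6 × R6 =>
    ∫⁻ A, ENNReal.ofReal (chK M A) * ENNReal.ofReal (FA L R e p W A q.2 (q.2 + q.1)))
    m1.aemeasurable, lintegral_lintegral_swap mq.aemeasurable]
  refine lintegral_congr fun A => ?_
  have mA : Measurable (fun q : R6 × R6 => ENNReal.ofReal (FA L R e p W A q.2 (q.2 + q.1))) := by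
    have h := Measurable.comp (g := fun z : (ℝ × ℝ × ℝ) × R6 × R6 => FA L R e p W z.1 z.2.1 z.2.2)
      (f := fun q : R6 × R6 => (A, q.2, q.2 + q.1)) f1
      (measurable_const.prodMk (measurable_snd.prodMk (measurable_snd.add measurable_fst)))
    exact h.ennreal_ofReal
  rw [lintegral_const_mul _ mA, lintegral_prod _ mA.aemeasurable]

/-- from the comparison for the forms to the comparison of the averages -/
theorem from_forms (hchk : CHKStmt) (hfaf : FAFStmt)
    {M L R e : ℝ} (hM : 1 ≤ M) (hL : 0 < L) (hR : 0 < R) (he : 0 < e) (p : ℝ × ℝ) {W : R6 → ℝ}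
    (hW : Measurable W) (hW1 : ∀ c, 0 ≤ W c ∧ W c ≤ 1) {ρ : ℝ} (hρ : ∀ c, W c ≠ 0 → ‖c‖ ≤ ρ)
    {E : ℝ} (hE : 0 ≤ E)
    (hall : ∀ A ∈ KM (2 * M), ∫⁻ h, (∫⁻ x, ENNReal.ofReal (FA L R e p W A x (x + h))) ∂(n3 lat) ≤
      (∫⁻ h, (∫⁻ x, ENNReal.ofReal (FA L R e p W A x (x + h))) ∂(n3 volume)) +
        ENNReal.ofReal E) (H : Finset Z6) :
    ∑ h ∈ H, ∫ x, FF M L R e p W x (x + r3 h) ≤ (∫ z : R6 × R6, FF M L R e p W z.1 z.2) +
      (volume (KM (2 * M))).toReal * E := by
  obtain ⟨-, -, -, f4, f5, f6⟩ := hfaf M L R e hM hL hR he p W hW hW1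
  obtain ⟨k1, -, k3, k4⟩ := hchk M hM
  have a1 := avg_swap hchk hfaf lat hM hL hR he p hW hW1
  have a2 := avg_swap hchk hfaf (volume : Measure (ℝ × ℝ)) hM hL hR he p hW hW1
  have hkm : Measurable (chK M) := by
    have hlip : LipschitzWith (Real.toNNReal (12 * M)) (chK M) := by
      refine LipschitzWith.of_dist_le_mul ?_
      intro A A'
      rw [Real.dist_eq, dist_eq_norm, Real.coe_toNNReal _ (by linarith)]
      exact k4 A A'
    exact hlip.continuous.measurable
  -- comparison of the averages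
  have a3 : ∫⁻ h, (∫⁻ x, ENNReal.ofReal (FF M L R e p W x (x + h))) ∂(n3 lat) ≤
      (∫⁻ h, (∫⁻ x, ENNReal.ofReal (FF M L R e p W x (x + h))) ∂(n3 volume)) +
        volume (KM (2 * M)) * ENNReal.ofReal E := by
    rw [a1, a2]
    have hpt : ∀ A, ENNReal.ofReal (chK M A) *
        (∫⁻ h, (∫⁻ x, ENNReal.ofReal (FA L R e p W A x (x + h))) ∂(n3 lat)) ≤
        ENNReal.ofReal (chK M A) *
        (∫⁻ h, (∫⁻ x, ENNReal.ofReal (FA L R e p W A x (x + h))) ∂(n3 volume)) +
        (toMeasurable volume (KM (2 * M))).indicator (fun _ => ENNReal.ofReal E) A := by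
      intro A
      by_cases h0 : chK M A = 0
      · rw [h0, ENNReal.ofReal_zero, zero_mul]; exact zero_le
      · have hA := k3 A h0
        rw [Set.indicator_of_mem (subset_toMeasurable _ _ hA)]
        have hle : ENNReal.ofReal (chK M A) ≤ 1 := by
          rw [← ENNReal.ofReal_one]
          exact ENNReal.ofReal_le_ofReal (k1 A).2
        refine le_trans (mul_le_mul' le_rfl (hall A hA)) ?_
        rw [mul_add]
        refine add_le_add le_rfl ?_
        calc ENNReal.ofReal (chK M A) * ENNReal.ofReal E ≤ 1 * ENNReal.ofReal E :=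
              mul_le_mul' hle le_rfl
          _ = _ := one_mul _
    refine le_trans (lintegral_mono hpt) ?_
    rw [lintegral_add_right _ (measurable_const.indicator (measurableSet_toMeasurable _ _)),
      lintegral_indicator_const (measurableSet_toMeasurable _ _), measure_toMeasurable, mul_comm]
  -- the left side
  have mF : ∀ h : R6, Measurable (fun x : R6 => FF M L R e p W x (x + h)) := by
    intro h
    have h' := Measurable.comp (g := fun z : R6 × R6 => FF M L R e p W z.1 z.2)
      (f := fun x : R6 => (x, x + h)) f4 (measurable_id.prodMk (measurable_id.add_const _))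
    exact h'
  have hle : ENNReal.ofReal (∑ h ∈ H, ∫ x, FF M L R e p W x (x + r3 h)) ≤
      ∫⁻ h, (∫⁻ x, ENNReal.ofReal (FF M L R e p W x (x + h))) ∂(n3 lat) := by
    have mh : Measurable (fun h : R6 => ∫⁻ x : R6, ENNReal.ofReal (FF M L R e p W x (x + h))) := by
      have h' := Measurable.comp (g := fun z : R6 × R6 => FF M L R e p W z.1 z.2)
        (f := fun q : R6 × R6 => (q.2, q.2 + q.1)) f4
        (measurable_snd.prodMk (measurable_snd.add measurable_fst))
      exact h'.ennreal_ofReal.lintegral_prod_right'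
    rw [lint_lat3 _ mh, ENNReal.ofReal_sum_of_nonneg
      (fun h _ => integral_nonneg fun x => (f5 _ _).1)]
    refine le_trans (Finset.sum_le_sum fun h _ => ?_)
      (ENNReal.sum_le_tsum (f := fun k : Z6 => ∫⁻ x : R6,
        ENNReal.ofReal (FF M L R e p W x (x + r3 k))) H)
    by_cases hi : Integrable (fun x : R6 => FF M L R e p W x (x + r3 h))
    · rw [ofReal_integral_eq_lintegral_ofReal hi
        (Filter.Eventually.of_forall fun x => (f5 _ _).1)]
    · rw [integral_undef hi, ENNReal.ofReal_zero]; exact zero_le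
  -- the right side
  have hint : Integrable (fun z : R6 × R6 => FF M L R e p W z.1 z.2) := by
    refine integ_bdd f4 (C := (4 * M) ^ 3 * (64 * (4 * e ^ 2))) ?_
      (S := Metric.closedBall 0 (ρ + L)) measure_closedBall_lt_top ?_
    · intro z
      rw [abs_of_nonneg (f5 _ _).1]
      exact (f5 _ _).2
    · intro z hz
      obtain ⟨c, c1, c2, c3⟩ := f6 _ _ hz
      have c4 := hρ c c1
      rw [mem_closedBall_zero_iff, Prod.norm_def, sup_le_iff]
      have key : ∀ y : R6, ‖y - c‖ ≤ L → ‖y‖ ≤ ρ + L := by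
        intro y hy
        calc ‖y‖ = ‖c + (y - c)‖ := by rw [add_sub_cancel]
          _ ≤ ‖c‖ + ‖y - c‖ := norm_add_le _ _
          _ ≤ ρ + L := add_le_add c4 hy
      exact ⟨key _ c2, key _ c3⟩
  have hright : ∫⁻ h, (∫⁻ x, ENNReal.ofReal (FF M L R e p W x (x + h))) ∂(n3 volume) =
      ENNReal.ofReal (∫ z : R6 × R6, FF M L R e p W z.1 z.2) := by
    rw [n3_volume, ofReal_integral_eq_lintegral_ofReal hint
      (Filter.Eventually.of_forall fun z => (f5 _ _).1)]
    have mq : Measurable (fun q : R6 × R6 => ENNReal.ofReal (FF M L R e p W q.2 (q.2 + q.1))) := by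
      have h' := Measurable.comp (g := fun z : R6 × R6 => FF M L R e p W z.1 z.2)
        (f := fun q : R6 × R6 => (q.2, q.2 + q.1)) f4
        (measurable_snd.prodMk (measurable_snd.add measurable_fst))
      exact h'.ennreal_ofReal
    have ev : (volume : Measure (R6 × R6)) = (volume : Measure R6).prod (volume : Measure R6) := rfl
    rw [lintegral_lintegral_swap mq.aemeasurable, ev,
      lintegral_prod _ f4.ennreal_ofReal.aemeasurable]
    refine lintegral_congr fun x => ?_
    exact lintegral_add_left_eq_self (fun y : R6 => ENNReal.ofReal (FF M L R e p W x y)) x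
  have hfinal := le_trans hle a3
  rw [hright] at hfinal
  have hv : volume (KM (2 * M)) * ENNReal.ofReal E =
      ENNReal.ofReal ((volume (KM (2 * M))).toReal * E) := by
    rw [ENNReal.ofReal_mul ENNReal.toReal_nonneg, ENNReal.ofReal_toReal]
    exact (vol_KM_lt (by linarith)).ne
  have hnn : 0 ≤ ∫ z : R6 × R6, FF M L R e p W z.1 z.2 := integral_nonneg fun z => (f5 _ _).1
  rw [hv, ← ENNReal.ofReal_add hnn (mul_nonneg ENNReal.toReal_nonneg hE)] at hfinal
  exact (ENNReal.ofReal_le_ofReal_iff (add_nonneg hnn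
    (mul_nonneg ENNReal.toReal_nonneg hE))).mp hfinal

end Pool.Agent.Helper30_FC
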