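import Pool.Agent.BTL.Area
import Pool.Agent.BTL.Annul

/-!
MP_f5cbfa_nt, frozen S18989: the `k = 0` part (helper30).
Linear coordinates adapted to a form `A` and a vector `h`.
-/

set_option autoImplicit false

open MeasureTheory Set

namespace Pool.Agent.Helper30_FC

open Pool.Agent.BTL

/-- bilinear form of `A` -/
def bf (A : ℝ × ℝ × ℝ) (x h : ℝ × ℝ) : ℝ :=
  A.1 * x.1 * h.1 + A.2.1 * (x.1 * h.2 + x.2 * h.1) + A.2.2 * x.2 * h.2

/-- determinant -/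
def cd (x h : ℝ × ℝ) : ℝ := x.1 * h.2 - x.2 * h.1

theorem qf_mul_qf (A : ℝ × ℝ × ℝ) (x h : ℝ × ℝ) :
    qf A x * qf A h = bf A x h ^ 2 + disc A * cd x h ^ 2 := by
  unfold qf bf disc cd; ring

theorem qf_add (A : ℝ × ℝ × ℝ) (x h : ℝ × ℝ) :
    qf A (x + h) = qf A x + 2 * bf A x h + qf A h := by
  unfold qf bf; simp only [Prod.fst_add, Prod.snd_add]; ring

theorem measurable_qf (A : ℝ × ℝ × ℝ) : Measurable (qf A) := by
  unfold qf; fun_prop

/-- the two coordinates -/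
noncomputable def zc (A : ℝ × ℝ × ℝ) (h x : ℝ × ℝ) : ℝ × ℝ :=
  (bf A x h / Real.sqrt (qf A h), Real.sqrt (disc A) * cd x h / Real.sqrt (qf A h))

theorem zc_sq {A : ℝ × ℝ × ℝ} {h : ℝ × ℝ} (hd : 0 < disc A) (hh : 0 < qf A h) (x : ℝ × ℝ) :
    (zc A h x).1 ^ 2 + (zc A h x).2 ^ 2 = qf A x := by
  have h1 : Real.sqrt (qf A h) ^ 2 = qf A h := Real.sq_sqrt hh.le
  have h2 : Real.sqrt (disc A) ^ 2 = disc A := Real.sq_sqrt hd.le
  have h3 := qf_mul_qf A x h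
  simp only [zc]
  rw [div_pow, div_pow, mul_pow, h1, h2, ← add_div, ← h3]
  field_simp

theorem qf_add_zc {A : ℝ × ℝ × ℝ} {h : ℝ × ℝ} (hd : 0 < disc A) (hh : 0 < qf A h) (x : ℝ × ℝ) :
    qf A (x + h) = (zc A h x).1 ^ 2 + (zc A h x).2 ^ 2 +
      2 * Real.sqrt (qf A h) * (zc A h x).1 + Real.sqrt (qf A h) ^ 2 := by
  rw [zc_sq hd hh, qf_add, Real.sq_sqrt hh.le]
  have : 2 * Real.sqrt (qf A h) * (zc A h x).1 = 2 * bf A x h := by
    simp only [zc]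
    have : 0 < Real.sqrt (qf A h) := Real.sqrt_pos.mpr hh
    field_simp
  rw [this]

/-- the coordinates as a linear map -/
noncomputable def zl (A : ℝ × ℝ × ℝ) (h : ℝ × ℝ) : ℝ × ℝ →ₗ[ℝ] ℝ × ℝ :=
  Matrix.toLin (Module.Basis.finTwoProd ℝ) (Module.Basis.finTwoProd ℝ)
    !![(A.1 * h.1 + A.2.1 * h.2) / Real.sqrt (qf A h), (A.2.1 * h.1 + A.2.2 * h.2) / Real.sqrt (qf A h);
       Real.sqrt (disc A) * h.2 / Real.sqrt (qf A h), -(Real.sqrt (disc A) * h.1 / Real.sqrt (qf A h))]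

theorem zl_apply (A : ℝ × ℝ × ℝ) (h x : ℝ × ℝ) : zl A h x = zc A h x := by
  unfold zl
  rw [Matrix.toLin_finTwoProd_apply]
  simp only [zc, bf, cd]
  ext <;> simp only <;> ring

theorem zl_det {A : ℝ × ℝ × ℝ} {h : ℝ × ℝ} (hh : 0 < qf A h) :
    LinearMap.det (zl A h) = -Real.sqrt (disc A) := by
  unfold zl
  rw [LinearMap.det_toLin, Matrix.det_fin_two_of]
  have h1 : Real.sqrt (qf A h) * Real.sqrt (qf A h) = qf A h := Real.mul_self_sqrt hh.le
  have h0 : 0 < Real.sqrt (qf A h) := Real.sqrt_pos.mpr hh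
  have e : (A.1 * h.1 + A.2.1 * h.2) / Real.sqrt (qf A h) *
      -(Real.sqrt (disc A) * h.1 / Real.sqrt (qf A h)) -
      (A.2.1 * h.1 + A.2.2 * h.2) / Real.sqrt (qf A h) *
        (Real.sqrt (disc A) * h.2 / Real.sqrt (qf A h)) =
      -Real.sqrt (disc A) * (qf A h / (Real.sqrt (qf A h) * Real.sqrt (qf A h))) := by
    field_simp
    unfold qf; ring
  rw [e, h1, div_self hh.ne', mul_one]

/-- change of variables -/
theorem lintegral_zc {A : ℝ × ℝ × ℝ} {h : ℝ × ℝ} (hd : 0 < disc A) (hh : 0 < qf A h)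
    (F : ℝ × ℝ → ENNReal) (hF : Measurable F) :
    ∫⁻ x, F (zc A h x) = ENNReal.ofReal (Real.sqrt (disc A))⁻¹ * ∫⁻ z, F z := by
  have hs : 0 < Real.sqrt (disc A) := Real.sqrt_pos.mpr hd
  have hdet : LinearMap.det (zl A h) ≠ 0 := by rw [zl_det hh]; exact neg_ne_zero.mpr hs.ne'
  have hm := Measure.map_linearMap_addHaar_eq_smul_addHaar (volume : Measure (ℝ × ℝ)) hdet
  have hmeas : Measurable (zl A h) := (zl A h).continuous_of_finiteDimensional.measurable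
  have e1 : ∫⁻ x, F (zc A h x) = ∫⁻ x, F (zl A h x) := by simp only [zl_apply]
  rw [e1, ← lintegral_map hF hmeas, hm, lintegral_smul_measure, zl_det hh, abs_inv, abs_neg,
    abs_of_pos hs, smul_eq_mul]

end Pool.Agent.Helper30_FC
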