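import Pool.Agent.Helper30_FC.Conv

/-!
MP_f5cbfa_nt, frozen S18989 (helper30): the weights of the pairs as extended nonnegative integrals
over the classes.
-/

set_option autoImplicit false

open MeasureTheory Set

namespace Pool.Agent.Helper30_FC

open Pool.Agent.BTL Pool.Agent.F5S Pool.Agent.F5H

/-- bounded functions supported in sets of finite measure are integrable -/
theorem integ_bdd {α : Type*} [MeasurableSpace α] {μ : Measure α} {f : α → ℝ} (hm : Measurable f)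
    {C : ℝ} (h : ∀ x, |f x| ≤ C) {S : Set α} (hS : μ S < ⊤) (hs : ∀ x, f x ≠ 0 → x ∈ S) :
    Integrable f μ := by
  have h1 : IntegrableOn f S μ := by
    refine Measure.integrableOn_of_bounded (M := C) hS.ne hm.aestronglyMeasurable ?_
    refine Filter.Eventually.of_forall fun x => ?_
    rw [Real.norm_eq_abs]
    exact h x
  rwa [integrableOn_iff_integrable_of_support_subset] at h1
  intro x hx
  exact hs x hx

/-- cut-off of the differences -/
noncomputable def PhL (L : ℝ) (z : ℝ × ℝ) : ℝ := PR L (L * z.1) * PR L (L * z.2)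

theorem cut_PhL (hprf : PRFStmt) {L : ℝ} (hL : 0 < L) : Cut 2 (PhL L) := by
  obtain ⟨h1, h2, h3, -⟩ := hprf L hL
  refine ⟨by norm_num, ?_, ?_, ?_, ?_⟩
  · intro x
    exact mul_nonneg (h1 _).1 (h1 _).1
  · intro x
    exact mul_le_one₀ (h1 _).2 (h1 _).1 (h1 _).2
  · intro x hx
    unfold PhL at hx
    have e1 := h2 _ (left_ne_zero_of_mul hx)
    have e2 := h2 _ (right_ne_zero_of_mul hx)
    rw [abs_mul, abs_of_pos hL] at e1 e2
    rw [Prod.norm_def, sup_le_iff, Real.norm_eq_abs, Real.norm_eq_abs]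
    constructor
    · by_contra hc
      push Not at hc
      nlinarith
    · by_contra hc
      push Not at hc
      nlinarith
  · intro x y
    have e1 := h3 (L * x.1) (L * y.1)
    have e2 := h3 (L * x.2) (L * y.2)
    rw [← mul_sub, abs_mul, abs_of_pos hL, mul_div_cancel_left₀ _ hL.ne'] at e1 e2
    have n1 : |x.1 - y.1| ≤ ‖x - y‖ := norm_fst_le (x - y)
    have n2 : |x.2 - y.2| ≤ ‖x - y‖ := norm_snd_le (x - y)
    unfold PhL
    have a1 := h1 (L * x.2)
    have a2 := h1 (L * y.1)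
    have key : PR L (L * x.1) * PR L (L * x.2) - PR L (L * y.1) * PR L (L * y.2) =
        (PR L (L * x.1) - PR L (L * y.1)) * PR L (L * x.2) +
        PR L (L * y.1) * (PR L (L * x.2) - PR L (L * y.2)) := by ring
    rw [key]
    refine le_trans (abs_add_le _ _) ?_
    rw [abs_mul, abs_mul, abs_of_nonneg a1.1, abs_of_nonneg a2.1]
    have b1 : |PR L (L * x.1) - PR L (L * y.1)| * PR L (L * x.2) ≤ ‖x - y‖ * 1 :=
      mul_le_mul (le_trans e1 n1) a1.2 a1.1 (norm_nonneg _)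
    have b2 : PR L (L * y.1) * |PR L (L * x.2) - PR L (L * y.2)| ≤ 1 * ‖x - y‖ :=
      mul_le_mul a2.2 (le_trans e2 n2) (abs_nonneg _) zero_le_one
    linarith

/-- one coordinate -/
theorem mass1 (hprf : PRFStmt) {L : ℝ} (hL : 0 < L) (a b : ℝ) :
    ∫⁻ σ, ENNReal.ofReal (tn ((a - σ) / L)) * ENNReal.ofReal (tn ((b - σ) / L)) =
      ENNReal.ofReal (L * PR L (b - a)) := by
  obtain ⟨-, -, -, h4⟩ := hprf L hL
  obtain ⟨i1, i2⟩ := h4 b a
  rw [← i2, ofReal_integral_eq_lintegral_ofReal i1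
    (Filter.Eventually.of_forall fun σ => mul_nonneg (tn_nonneg' _) (tn_nonneg' _))]
  refine lintegral_congr fun σ => ?_
  rw [← ENNReal.ofReal_mul (tn_nonneg' _), mul_comm]

theorem ph_eq (L : ℝ) (x c : ℝ × ℝ) : ENNReal.ofReal (Pool.Agent.F5S.ph (L⁻¹ • (x - c))) =
    ENNReal.ofReal (tn ((x.1 - c.1) / L)) * ENNReal.ofReal (tn ((x.2 - c.2) / L)) := by
  unfold Pool.Agent.F5S.ph
  rw [ENNReal.ofReal_mul (tn_nonneg' _)]
  congr 3
  · change L⁻¹ * (x.1 - c.1) = _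
    rw [div_eq_inv_mul]
  · change L⁻¹ * (x.2 - c.2) = _
    rw [div_eq_inv_mul]

theorem measurable_t1 (L a : ℝ) : Measurable (fun σ : ℝ => ENNReal.ofReal (tn ((a - σ) / L))) :=
  ENNReal.measurable_ofReal.comp (continuous_tn'.measurable.comp
    ((measurable_const.sub measurable_id).div_const _))

theorem measurable_t2 (L : ℝ) (x : ℝ × ℝ) :
    Measurable (fun c : ℝ × ℝ => ENNReal.ofReal (Pool.Agent.F5S.ph (L⁻¹ • (x - c)))) := by
  have h : Measurable (fun c : ℝ × ℝ => ENNReal.ofReal (tn ((x.1 - c.1) / L)) *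
      ENNReal.ofReal (tn ((x.2 - c.2) / L))) := ((measurable_t1 L x.1).comp measurable_fst).mul
    ((measurable_t1 L x.2).comp measurable_snd)
  simp only [ph_eq]
  exact h

/-- one point of the plane -/
theorem mass2 (hprf : PRFStmt) {L : ℝ} (hL : 0 < L) (x y : ℝ × ℝ) :
    ∫⁻ c : ℝ × ℝ, ENNReal.ofReal (Pool.Agent.F5S.ph (L⁻¹ • (x - c))) *
      ENNReal.ofReal (Pool.Agent.F5S.ph (L⁻¹ • (y - c))) =
      ENNReal.ofReal (L ^ 2) * ph L (PhL L) (y - x) := by
  have e1 : ∀ c : ℝ × ℝ, ENNReal.ofReal (Pool.Agent.F5S.ph (L⁻¹ • (x - c))) *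
      ENNReal.ofReal (Pool.Agent.F5S.ph (L⁻¹ • (y - c))) =
      (ENNReal.ofReal (tn ((x.1 - c.1) / L)) * ENNReal.ofReal (tn ((y.1 - c.1) / L))) *
      (ENNReal.ofReal (tn ((x.2 - c.2) / L)) * ENNReal.ofReal (tn ((y.2 - c.2) / L))) := by
    intro c
    rw [ph_eq, ph_eq]
    ring
  simp only [e1]
  have m1 : ∀ a b : ℝ, Measurable (fun σ : ℝ =>
      ENNReal.ofReal (tn ((a - σ) / L)) * ENNReal.ofReal (tn ((b - σ) / L))) :=
    fun a b => (measurable_t1 L a).mul (measurable_t1 L b)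
  rw [Measure.volume_eq_prod, lintegral_prod_mul
    (f := fun σ : ℝ => ENNReal.ofReal (tn ((x.1 - σ) / L)) * ENNReal.ofReal (tn ((y.1 - σ) / L)))
    (g := fun σ : ℝ => ENNReal.ofReal (tn ((x.2 - σ) / L)) * ENNReal.ofReal (tn ((y.2 - σ) / L)))
    (m1 _ _).aemeasurable (m1 _ _).aemeasurable, mass1 hprf hL, mass1 hprf hL]
  obtain ⟨h1, -, -, -⟩ := hprf L hL
  unfold ph PhL
  have hL' : L ≠ 0 := hL.ne'
  have q1 : L * (L⁻¹ • (y - x)).1 = y.1 - x.1 := by
    change L * (L⁻¹ * (y.1 - x.1)) = _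
    field_simp
  have q2 : L * (L⁻¹ • (y - x)).2 = y.2 - x.2 := by
    change L * (L⁻¹ * (y.2 - x.2)) = _
    field_simp
  rw [q1, q2, ← ENNReal.ofReal_mul (mul_nonneg hL.le (h1 _).1), ← ENNReal.ofReal_mul (by positivity)]
  congr 1
  ring

theorem cl6_eq (L : ℝ) (c x : R6) : ENNReal.ofReal (cl6 L c x) =
    ENNReal.ofReal (Pool.Agent.F5S.ph (L⁻¹ • (x.1 - c.1))) *
    (ENNReal.ofReal (Pool.Agent.F5S.ph (L⁻¹ • (x.2.1 - c.2.1))) *
      ENNReal.ofReal (Pool.Agent.F5S.ph (L⁻¹ • (x.2.2 - c.2.2)))) := by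
  have hph : ∀ z, 0 ≤ Pool.Agent.F5S.ph z := fun z => mul_nonneg (tn_nonneg' _) (tn_nonneg' _)
  unfold cl6
  rw [ENNReal.ofReal_mul (hph _), ENNReal.ofReal_mul (hph _)]

/-- triples -/
theorem mass6 (hprf : PRFStmt) {L : ℝ} (hL : 0 < L) (x y : R6) :
    ∫⁻ c : R6, ENNReal.ofReal (cl6 L c x) * ENNReal.ofReal (cl6 L c y) =
      ENNReal.ofReal (L ^ 6) * (ph L (PhL L) (y - x).1 *
        (ph L (PhL L) (y - x).2.1 * ph L (PhL L) (y - x).2.2)) := by
  have m1 : ∀ a b : ℝ × ℝ, Measurable (fun c : ℝ × ℝ =>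
      ENNReal.ofReal (Pool.Agent.F5S.ph (L⁻¹ • (a - c))) *
      ENNReal.ofReal (Pool.Agent.F5S.ph (L⁻¹ • (b - c)))) :=
    fun a b => (measurable_t2 L a).mul (measurable_t2 L b)
  have h := lint_n3 (volume : Measure (ℝ × ℝ)) _ _ _ (m1 x.1 y.1) (m1 x.2.1 y.2.1) (m1 x.2.2 y.2.2)
  rw [n3_volume, mass2 hprf hL, mass2 hprf hL, mass2 hprf hL] at h
  have e1 : ∀ c : R6, ENNReal.ofReal (cl6 L c x) * ENNReal.ofReal (cl6 L c y) =
      (ENNReal.ofReal (Pool.Agent.F5S.ph (L⁻¹ • (x.1 - c.1))) *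
        ENNReal.ofReal (Pool.Agent.F5S.ph (L⁻¹ • (y.1 - c.1)))) *
      ((ENNReal.ofReal (Pool.Agent.F5S.ph (L⁻¹ • (x.2.1 - c.2.1))) *
        ENNReal.ofReal (Pool.Agent.F5S.ph (L⁻¹ • (y.2.1 - c.2.1)))) *
      (ENNReal.ofReal (Pool.Agent.F5S.ph (L⁻¹ • (x.2.2 - c.2.2))) *
        ENNReal.ofReal (Pool.Agent.F5S.ph (L⁻¹ • (y.2.2 - c.2.2))))) := by
    intro c
    rw [cl6_eq, cl6_eq]
    ring
  simp only [e1]
  rw [h]
  have e2 : ENNReal.ofReal (L ^ 6) =
      ENNReal.ofReal (L ^ 2) * (ENNReal.ofReal (L ^ 2) * ENNReal.ofReal (L ^ 2)) := by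
    rw [← ENNReal.ofReal_mul (by positivity), ← ENNReal.ofReal_mul (by positivity)]
    congr 1
    ring
  rw [e2]
  simp only [Prod.fst_sub, Prod.snd_sub]
  ring

/-- the weight of a pair -/
theorem WC_eq (hclf : CLFStmt) {L : ℝ} (hL : 0 < L) {W : R6 → ℝ} (hW : Measurable W)
    (hW1 : ∀ c, 0 ≤ W c ∧ W c ≤ 1) (x y : R6) :
    ∫⁻ c : R6, ENNReal.ofReal (W c) * (ENNReal.ofReal (cl6 L c x) * ENNReal.ofReal (cl6 L c y)) =
      ENNReal.ofReal (L ^ 6) * ENNReal.ofReal (WC L W x y) := by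
  obtain ⟨h1, h2, h3, -⟩ := hclf L hL
  have hc : ∀ a : R6, Measurable (fun c : R6 => cl6 L c a) := by
    intro a
    have h := Measurable.comp (g := fun z : R6 × R6 => cl6 L z.1 z.2) (f := fun c : R6 => (c, a))
      h2.measurable measurable_prodMk_right
    exact h
  have hm : Measurable (fun c : R6 => W c * ((L ^ 6)⁻¹ * (cl6 L c x * cl6 L c y))) :=
    hW.mul (((hc x).mul (hc y)).const_mul _)
  have hnn : ∀ c : R6, 0 ≤ W c * ((L ^ 6)⁻¹ * (cl6 L c x * cl6 L c y)) := by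
    intro c
    exact mul_nonneg (hW1 c).1 (mul_nonneg (by positivity) (mul_nonneg (h1 _ _).1 (h1 _ _).1))
  have hi : Integrable (fun c : R6 => W c * ((L ^ 6)⁻¹ * (cl6 L c x * cl6 L c y))) := by
    refine integ_bdd hm (C := (L ^ 6)⁻¹) ?_ (S := Metric.closedBall x L) ?_ ?_
    · intro c
      rw [abs_of_nonneg (hnn c)]
      have a1 : cl6 L c x * cl6 L c y ≤ 1 := mul_le_one₀ (h1 _ _).2 (h1 _ _).1 (h1 _ _).2
      have a2 : (L ^ 6)⁻¹ * (cl6 L c x * cl6 L c y) ≤ (L ^ 6)⁻¹ * 1 :=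
        mul_le_mul_of_nonneg_left a1 (by positivity)
      calc W c * ((L ^ 6)⁻¹ * (cl6 L c x * cl6 L c y)) ≤ 1 * ((L ^ 6)⁻¹ * 1) :=
            mul_le_mul (hW1 c).2 a2 (mul_nonneg (by positivity)
              (mul_nonneg (h1 _ _).1 (h1 _ _).1)) zero_le_one
        _ = (L ^ 6)⁻¹ := by ring
    · exact measure_closedBall_lt_top
    · intro c hc0
      have b1 : cl6 L c x ≠ 0 := by
        intro h0
        apply hc0
        rw [h0]; ring
      have := h3 c x b1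
      rw [Metric.mem_closedBall, dist_comm, dist_eq_norm]
      exact this
  unfold WC
  rw [ofReal_integral_eq_lintegral_ofReal hi (Filter.Eventually.of_forall hnn),
    ← lintegral_const_mul _ hm.ennreal_ofReal]
  refine lintegral_congr fun c => ?_
  rw [ENNReal.ofReal_mul (hW1 c).1, ENNReal.ofReal_mul (by positivity),
    ENNReal.ofReal_mul (h1 _ _).1]
  have e : ENNReal.ofReal (L ^ 6) * ENNReal.ofReal ((L ^ 6)⁻¹) = 1 := by
    rw [← ENNReal.ofReal_mul (by positivity), mul_inv_cancel₀ (by positivity), ENNReal.ofReal_one]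
  calc ENNReal.ofReal (W c) * (ENNReal.ofReal (cl6 L c x) * ENNReal.ofReal (cl6 L c y))
      = 1 * (ENNReal.ofReal (W c) * (ENNReal.ofReal (cl6 L c x) * ENNReal.ofReal (cl6 L c y))) := by
        rw [one_mul]
    _ = _ := by
        rw [← e]; ring

/-- one triple in a window -/
theorem gg_eq (hkaf : KAFStmt) {R e : ℝ} (he : 0 < e) (p : ℝ × ℝ) (A : ℝ × ℝ × ℝ)
    (τ : ℝ) (x : R6) : ENNReal.ofReal (gg R e p A τ x) =
      ∫⁻ s, ENNReal.ofReal (tn ((s - τ) / R)) * ENNReal.ofReal (KA e p A s x) := by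
  obtain ⟨h1, h2, -, h4⟩ := hkaf e he p
  have hK : Measurable (fun s => KA e p A s x) := by
    have h := Measurable.comp (g := fun z : (ℝ × ℝ × ℝ) × ℝ × R6 => KA e p z.1 z.2.1 z.2.2)
      (f := fun s : ℝ => (A, s, x)) h2.measurable
      (measurable_const.prodMk (measurable_id.prodMk measurable_const))
    exact h
  have ht : Measurable (fun s => tn ((s - τ) / R)) :=
    continuous_tn'.measurable.comp ((measurable_id.sub_const _).div_const _)
  have hi : Integrable (fun s => tn ((s - τ) / R) * KA e p A s x) := by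
    refine (h4 A x).1.mono' (ht.mul hK).aestronglyMeasurable ?_
    refine Filter.Eventually.of_forall fun s => ?_
    rw [Real.norm_eq_abs, abs_of_nonneg (mul_nonneg (tn_nonneg' _) (h1 _ _ _).1)]
    exact mul_le_of_le_one_left (h1 _ _ _).1 (tn_le_one' _)
  unfold gg
  rw [ofReal_integral_eq_lintegral_ofReal hi
    (Filter.Eventually.of_forall fun s => mul_nonneg (tn_nonneg' _) (h1 _ _ _).1)]
  refine lintegral_congr fun s => ?_
  rw [ENNReal.ofReal_mul (tn_nonneg' _)]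

/-- the values of a pair -/
theorem RV_eq (hggf : GGFStmt) {R e : ℝ} (hR : 0 < R) (he : 0 < e) (p : ℝ × ℝ)
    (A : ℝ × ℝ × ℝ) (x y : R6) :
    ∫⁻ τ, ENNReal.ofReal (gg R e p A τ x) * ENNReal.ofReal (gg R e p A τ y) =
      ENNReal.ofReal R * ENNReal.ofReal (RV R e p A x y) := by
  obtain ⟨h1, h2, -, h4, h5⟩ := hggf R e hR he p
  have hm : ∀ a : R6, Measurable (fun τ => gg R e p A τ a) := by
    intro a
    have h := Measurable.comp (g := fun z : (ℝ × ℝ × ℝ) × ℝ × R6 => gg R e p z.1 z.2.1 z.2.2)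
      (f := fun s : ℝ => (A, s, a)) h1
      (measurable_const.prodMk (measurable_id.prodMk measurable_const))
    exact h
  have hi : Integrable (fun τ => gg R e p A τ x * gg R e p A τ y) := by
    refine ((h4 A x).1.mul_const e).mono' ((hm x).mul (hm y)).aestronglyMeasurable ?_
    refine Filter.Eventually.of_forall fun s => ?_
    rw [Real.norm_eq_abs, abs_of_nonneg (mul_nonneg (h2 _ _ _).1 (h2 _ _ _).1)]
    exact mul_le_mul_of_nonneg_left (h2 _ _ _).2 (h2 _ _ _).1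
  rw [← ENNReal.ofReal_mul hR.le, ← h5 A x y, ofReal_integral_eq_lintegral_ofReal hi
    (Filter.Eventually.of_forall fun s => mul_nonneg (h2 _ _ _).1 (h2 _ _ _).1)]
  refine lintegral_congr fun s => ?_
  rw [ENNReal.ofReal_mul (h2 _ _ _).1]

end Pool.Agent.Helper30_FC
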