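import Pool.Agent.Helper30_FC.Sup

/-!
MP_f5cbfa_nt, frozen S18989 (helper30): uniform bound for the number of short differences, final.
-/

set_option autoImplicit false

open MeasureTheory Set

namespace Pool.Agent.Helper30_FC

open Pool.Agent.BTL

/-- at most `C √(H (1 + log a) / a)` short differences, for every pair of positions -/
theorem sup_bound {M : ℝ} (hM : 1 ≤ M) : ∃ C : ℝ, 1 ≤ C ∧ ∀ A ∈ KM M, ∀ B s s' a H : ℝ,
    1 ≤ B → a ^ 2 = s + B → 12 * B ≤ a → 1 ≤ H → 2 * H ≤ a → H ^ 2 ≤ a →
    ∀ S : Finset (ℤ × ℤ), (∀ h ∈ S, h ≠ 0 ∧ rr A (rc h) ≤ H) →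
      ∑ h ∈ S, bt A B s s' (rc h) ≤
        ENNReal.ofReal (C * B ^ 2 * Real.sqrt ((1 + Real.log a) * H / a)) := by
  classical
  obtain ⟨C0, hC01, hC0⟩ := sum_inv_sqrt hM
  have hM0 : 0 < M := by linarith
  refine ⟨2304 * M ^ 5 + 24 * M * C0, ?_, ?_⟩
  · have h1 : 1 ≤ M ^ 5 := one_le_pow₀ hM
    have h2 : 0 ≤ M * C0 := by positivity
    nlinarith
  intro A hA B s s' a H hB ha2 ha12 hH h2H hH2 S hS
  have ha0 : 0 < a := by linarith
  have ha1 : 1 ≤ a := by linarith
  have hlog := Real.log_nonneg ha1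
  set S' := S.filter (fun h => -2 * B ≤ ps a s s' (rr A (rc h))) with hS'
  have e0 : ∑ h ∈ S, bt A B s s' (rc h) = ∑ h ∈ S', bt A B s s' (rc h) := by
    symm
    apply Finset.sum_subset (Finset.filter_subset _ _)
    intro h hh hh'
    have hn : ¬ (-2 * B ≤ ps a s s' (rr A (rc h))) := fun hc =>
      hh' (Finset.mem_filter.mpr ⟨hh, hc⟩)
    push Not at hn
    exact bt_zero hM hA hB ha1 ha2 (qf_pos_of_ne hM hA (hS h hh).1) hn
  rw [e0]
  rcases S'.eq_empty_or_nonempty with hemp | hne
  · rw [hemp]; simp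
  obtain ⟨h0, hh0, hmin⟩ := Finset.exists_min_image S' (fun h => rr A (rc h)) hne
  set ρ0 := rr A (rc h0) with hρ0
  have hρ0n : 0 ≤ ρ0 := rr_nonneg _ _
  have hh0S := (Finset.mem_filter.mp hh0)
  have hρ0H : ρ0 ≤ H := (hS h0 hh0S.1).2
  rw [← Finset.sum_filter_add_sum_filter_not S' (fun h => rr A (rc h) ≤ ρ0 + 1)]
  set X := (1 + Real.log a) * H / a with hX
  have hX0 : 0 ≤ X := by positivity
  have key1 : ∑ h ∈ S'.filter (fun h => rr A (rc h) ≤ ρ0 + 1), bt A B s s' (rc h) ≤
      ENNReal.ofReal (2304 * M ^ 5 * B ^ 2 * Real.sqrt X) := by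
    set S1 := S'.filter (fun h => rr A (rc h) ≤ ρ0 + 1) with hS1
    have hc := ring_count hM hA hρ0n S1 (by
      intro h hh
      have := Finset.mem_filter.mp hh
      exact ⟨hmin h this.1, this.2⟩)
    have hb : ∀ h ∈ S1, bt A B s s' (rc h) ≤
        ENNReal.ofReal (M * Real.sqrt (2 * B * (2 * M / (ρ0 + 1)) *
          ((80 * B ^ 2 * (1 + Real.log a)) / a))) := by
      intro h hh
      have h1 := Finset.mem_filter.mp hh
      have h2 := Finset.mem_filter.mp h1.1
      have hq := qf_pos_of_ne hM hA (hS h h2.1).1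
      refine le_trans (bt_bound1 hM hA hB ha1 ha2 (s' := s') hq) (ENNReal.ofReal_le_ofReal ?_)
      apply mul_le_mul_of_nonneg_left _ hM0.le
      apply Real.sqrt_le_sqrt
      have h3 := one_le_M_rr hM hA (hS h h2.1).1
      have h4 : 0 < rr A (rc h) := Real.sqrt_pos.mpr hq
      have h5 : ρ0 ≤ rr A (rc h) := hmin h h1.1
      apply mul_le_mul
      · rw [div_eq_mul_inv]
        apply mul_le_mul_of_nonneg_left _ (by linarith)
        rw [inv_eq_one_div, div_le_div_iff₀ h4 (by linarith)]
        nlinarith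
      · apply div_le_div_of_nonneg_right _ ha0.le
        nlinarith [mul_nonneg (sq_nonneg B) hlog]
      · positivity
      · positivity
    calc ∑ h ∈ S1, bt A B s s' (rc h) ≤ ∑ h ∈ S1, ENNReal.ofReal (M * Real.sqrt (2 * B *
          (2 * M / (ρ0 + 1)) * ((80 * B ^ 2 * (1 + Real.log a)) / a))) := Finset.sum_le_sum hb
      _ = (S1.card : ENNReal) * ENNReal.ofReal (M * Real.sqrt (2 * B *
          (2 * M / (ρ0 + 1)) * ((80 * B ^ 2 * (1 + Real.log a)) / a))) := by
          rw [Finset.sum_const, nsmul_eq_mul]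
      _ ≤ ENNReal.ofReal (48 * M ^ 3 * (ρ0 + 1)) * ENNReal.ofReal (M * Real.sqrt (2 * B *
          (2 * M / (ρ0 + 1)) * ((80 * B ^ 2 * (1 + Real.log a)) / a))) := by
          gcongr
      _ ≤ _ := by
          rw [← ENNReal.ofReal_mul (by positivity)]
          refine ENNReal.ofReal_le_ofReal ?_
          have h6 : (ρ0 + 1) * Real.sqrt (2 * B * (2 * M / (ρ0 + 1)) *
              ((80 * B ^ 2 * (1 + Real.log a)) / a)) ≤ Real.sqrt (640 * M * B ^ 3 * X) := by
            rw [← Real.sqrt_sq (by positivity : (0 : ℝ) ≤ ρ0 + 1), ← Real.sqrt_mul (by positivity)]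
            apply Real.sqrt_le_sqrt
            rw [Real.sqrt_sq (by positivity)]
            have e1 : (ρ0 + 1) ^ 2 * (2 * B * (2 * M / (ρ0 + 1)) *
                ((80 * B ^ 2 * (1 + Real.log a)) / a)) =
                320 * M * B ^ 3 * ((1 + Real.log a) * (ρ0 + 1) / a) := by
              field_simp
              ring
            have e2 : 640 * M * B ^ 3 * X = 320 * M * B ^ 3 * ((1 + Real.log a) * (2 * H) / a) := by
              rw [hX]; ring
            rw [e1, e2]
            apply mul_le_mul_of_nonneg_left _ (by positivity)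
            apply div_le_div_of_nonneg_right _ ha0.le
            apply mul_le_mul_of_nonneg_left (by linarith) (by linarith)
          have h7 : Real.sqrt (640 * M * B ^ 3 * X) ≤ 48 * M * B ^ 2 * Real.sqrt X := by
            rw [← Real.sqrt_sq (by positivity : (0 : ℝ) ≤ 48 * M * B ^ 2),
              ← Real.sqrt_mul (by positivity)]
            apply Real.sqrt_le_sqrt
            apply mul_le_mul_of_nonneg_right _ hX0
            have h8 : B ^ 3 ≤ B ^ 4 := pow_le_pow_right₀ hB (by norm_num)
            have h9 : M ≤ M ^ 2 := by nlinarith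
            have h10 : M * B ^ 3 ≤ M ^ 2 * B ^ 4 :=
              mul_le_mul h9 h8 (by positivity) (by positivity)
            have h11 : 0 ≤ M * B ^ 3 := by positivity
            calc 640 * M * B ^ 3 = 640 * (M * B ^ 3) := by ring
              _ ≤ 2304 * (M ^ 2 * B ^ 4) := by linarith
              _ = (48 * M * B ^ 2) ^ 2 := by ring
          calc 48 * M ^ 3 * (ρ0 + 1) * (M * Real.sqrt (2 * B *
                (2 * M / (ρ0 + 1)) * ((80 * B ^ 2 * (1 + Real.log a)) / a)))
              = 48 * M ^ 4 * ((ρ0 + 1) * Real.sqrt (2 * B *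
                (2 * M / (ρ0 + 1)) * ((80 * B ^ 2 * (1 + Real.log a)) / a))) := by ring
            _ ≤ 48 * M ^ 4 * (48 * M * B ^ 2 * Real.sqrt X) :=
                mul_le_mul_of_nonneg_left (le_trans h6 h7) (by positivity)
            _ = _ := by ring
  have key2 : ∑ h ∈ S'.filter (fun h => ¬ rr A (rc h) ≤ ρ0 + 1), bt A B s s' (rc h) ≤
      ENNReal.ofReal (24 * M * C0 * B ^ 2 * Real.sqrt X) := by
    set S2 := S'.filter (fun h => ¬ rr A (rc h) ≤ ρ0 + 1) with hS2
    have hmem : ∀ h ∈ S2, h ∈ S ∧ h ∈ S' ∧ ρ0 + 1 < rr A (rc h) := by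
      intro h hh
      have h1 := Finset.mem_filter.mp hh
      exact ⟨(Finset.mem_filter.mp h1.1).1, h1.1, lt_of_not_ge h1.2⟩
    have hb : ∀ h ∈ S2, bt A B s s' (rc h) ≤
        ENNReal.ofReal (24 * M * B ^ 2 / a * (1 / Real.sqrt (rr A (rc h)))) := by
      intro h hh
      obtain ⟨h1, h2, h3⟩ := hmem h hh
      have hq := qf_pos_of_ne hM hA (hS h h1).1
      have h4 : 0 < rr A (rc h) := Real.sqrt_pos.mpr hq
      have h5 : ρ0 ≤ rr A (rc h) := by linarith
      have h6 := ps_mono (a := a) (s := s) (s' := s') hρ0n h5 (hS h h1).2 h2H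
      have h7 : -2 * B ≤ ps a s s' ρ0 := hh0S.2
      have h8 : a / 2 ≤ ps a s s' (rr A (rc h)) := by
        have : a * 1 ≤ a * (rr A (rc h) - ρ0) := mul_le_mul_of_nonneg_left (by linarith) ha0.le
        linarith
      refine le_trans (bt_bound2 hM hA hB ha1 ha2 (s' := s') hq (by linarith))
        (ENNReal.ofReal_le_ofReal ?_)
      have h9 : a / Real.sqrt 2 * Real.sqrt (rr A (rc h)) ≤
          Real.sqrt (rr A (rc h) * a * ps a s s' (rr A (rc h))) := by
        have e : a / Real.sqrt 2 = Real.sqrt (a ^ 2 / 2) := by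
          rw [Real.sqrt_div (by positivity), Real.sqrt_sq ha0.le]
        rw [e, ← Real.sqrt_mul (by positivity)]
        apply Real.sqrt_le_sqrt
        have : rr A (rc h) * a * (a / 2) ≤ rr A (rc h) * a * ps a s s' (rr A (rc h)) :=
          mul_le_mul_of_nonneg_left h8 (by positivity)
        nlinarith
      have h10 : 0 < Real.sqrt (rr A (rc h)) := Real.sqrt_pos.mpr h4
      have h11 : 0 < Real.sqrt 2 := Real.sqrt_pos.mpr (by norm_num)
      have h12 : Real.sqrt 2 ≤ 3 / 2 := by
        rw [Real.sqrt_le_left (by norm_num)]; norm_num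
      calc M * (16 * B ^ 2 / Real.sqrt (rr A (rc h) * a * ps a s s' (rr A (rc h))))
          ≤ M * (16 * B ^ 2 / (a / Real.sqrt 2 * Real.sqrt (rr A (rc h)))) := by
            apply mul_le_mul_of_nonneg_left _ hM0.le
            exact div_le_div_of_nonneg_left (by positivity) (by positivity) h9
        _ = (16 * Real.sqrt 2) * (M * B ^ 2 / a * (1 / Real.sqrt (rr A (rc h)))) := by
            field_simp
        _ ≤ 24 * (M * B ^ 2 / a * (1 / Real.sqrt (rr A (rc h)))) := by
            apply mul_le_mul_of_nonneg_right (by linarith) (by positivity)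
        _ = _ := by ring
    have hs := hC0 A hA H (by linarith) S2 (fun h hh => hS h (hmem h hh).1)
    calc ∑ h ∈ S2, bt A B s s' (rc h) ≤ ∑ h ∈ S2,
          ENNReal.ofReal (24 * M * B ^ 2 / a * (1 / Real.sqrt (rr A (rc h)))) :=
          Finset.sum_le_sum hb
      _ = ENNReal.ofReal (∑ h ∈ S2, 24 * M * B ^ 2 / a * (1 / Real.sqrt (rr A (rc h)))) := by
          rw [ENNReal.ofReal_sum_of_nonneg]
          intro i _
          positivity
      _ ≤ _ := by
          refine ENNReal.ofReal_le_ofReal ?_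
          rw [← Finset.mul_sum]
          have h13 : H ^ (3 / 2 : ℝ) ≤ a * Real.sqrt X := by
            have hH0 : 0 ≤ H := by linarith
            have e3 : H ^ (3 / 2 : ℝ) = Real.sqrt (H ^ 3) := by
              rw [Real.sqrt_eq_rpow, ← Real.rpow_natCast, ← Real.rpow_mul hH0]
              norm_num
            rw [e3, ← Real.sqrt_sq ha0.le, ← Real.sqrt_mul (by positivity)]
            apply Real.sqrt_le_sqrt
            have e4 : (Real.sqrt (a ^ 2)) = a := Real.sqrt_sq ha0.le
            have e5 : a ^ 2 * X = a * H * (1 + Real.log a) := by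
              rw [hX]; field_simp
            rw [e5]
            have h14 : H ^ 3 ≤ a * H := by nlinarith
            nlinarith [mul_nonneg (mul_nonneg ha0.le hH0) hlog]
          calc 24 * M * B ^ 2 / a * ∑ h ∈ S2, 1 / Real.sqrt (rr A (rc h))
              ≤ 24 * M * B ^ 2 / a * (C0 * H ^ (3 / 2 : ℝ)) :=
                mul_le_mul_of_nonneg_left hs (by positivity)
            _ ≤ 24 * M * B ^ 2 / a * (C0 * (a * Real.sqrt X)) := by
                apply mul_le_mul_of_nonneg_left _ (by positivity)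
                exact mul_le_mul_of_nonneg_left h13 (by linarith)
            _ = _ := by field_simp
  refine le_trans (add_le_add key1 key2) ?_
  rw [← ENNReal.ofReal_add (by positivity) (by positivity)]
  refine ENNReal.ofReal_le_ofReal (le_of_eq ?_)
  ring

end Pool.Agent.Helper30_FC
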