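import Pool.Agent.Helper30_FC.IntBound
import Pool.Agent.Helper30_FC.Sup2

/-!
MP_f5cbfa_nt, frozen S18989 (helper30): short differences, mean and mean square.
-/

set_option autoImplicit false

open MeasureTheory Set

namespace Pool.Agent.Helper30_FC

open Pool.Agent.BTL

open Classical in
/-- nonzero lattice vectors of norm at most `H` -/
noncomputable def NS (M : ℝ) (A : ℝ × ℝ × ℝ) (H : ℝ) : Finset (ℤ × ℤ) :=
  (ball (M * H + 1)).filter (fun k => k ≠ 0 ∧ rr A (rc k) ≤ H)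

theorem mem_NS {M : ℝ} (hM : 1 ≤ M) {A : ℝ × ℝ × ℝ} (hA : A ∈ KM M) {H : ℝ} {k : ℤ × ℤ} :
    k ∈ NS M A H ↔ (k ≠ 0 ∧ rr A (rc k) ≤ H) := by
  unfold NS
  rw [Finset.mem_filter]
  refine ⟨fun h => h.2, fun hk => ⟨?_, hk⟩⟩
  rw [mem_ball]
  have hM0 : 0 < M := by linarith
  have h1 := ln_le_rr hM hA k
  have h2 : ln k < M * H + 1 := by
    have := mul_le_mul_of_nonneg_left hk.2 hM0.le
    linarith
  rw [← ln_sq]
  exact pow_lt_pow_left₀ h2 (ln_nonneg k) (by norm_num)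

/-- number of short differences, integrated kernel -/
noncomputable def nn (M : ℝ) (A : ℝ × ℝ × ℝ) (B H s s' : ℝ) : ENNReal :=
  ∑ k ∈ NS M A H, bt A B s s' (rc k)

theorem measurable_nn (M : ℝ) (A : ℝ × ℝ × ℝ) (B H : ℝ) :
    Measurable (fun p : ℝ × ℝ => nn M A B H p.1 p.2) := by
  unfold nn
  exact Finset.measurable_sum _ fun k _ => measurable_bt A B (rc k)

theorem lint_nn {M : ℝ} (hM : 1 ≤ M) {A : ℝ × ℝ × ℝ} (hA : A ∈ KM M) {B : ℝ} (hB : 0 ≤ B)
    {H : ℝ} (hH : 1 ≤ H) (s : ℝ) :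
    ∫⁻ s', nn M A B H s s' ≤ ENNReal.ofReal (144 * M ^ 3 * B ^ 2 * H ^ 2) := by
  unfold nn
  rw [lintegral_finsetSum]
  · calc ∑ k ∈ NS M A H, ∫⁻ s', bt A B s s' (rc k)
        ≤ ∑ k ∈ NS M A H, ENNReal.ofReal (16 * M * B ^ 2) :=
          Finset.sum_le_sum fun k _ => lint_bt hM hA hB s (rc k)
      _ = ((NS M A H).card : ENNReal) * ENNReal.ofReal (16 * M * B ^ 2) := by
          rw [Finset.sum_const, nsmul_eq_mul]
      _ ≤ ENNReal.ofReal (9 * (M * H) ^ 2) * ENNReal.ofReal (16 * M * B ^ 2) := by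
          gcongr
          have h1 := Pool.Agent.BTL.H99.card_ln_le (NS M A H) (M * H) (by nlinarith) (by
            intro k hk
            have h2 := (mem_NS hM hA).mp hk
            refine le_trans (ln_le_rr hM hA k) ?_
            exact mul_le_mul_of_nonneg_left h2.2 (by linarith))
          rw [← ENNReal.ofReal_natCast]
          exact ENNReal.ofReal_le_ofReal h1
      _ = _ := by
          rw [← ENNReal.ofReal_mul (by positivity)]
          congr 1; ring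
  · intro k _
    exact (measurable_bt A B (rc k)).comp measurable_prodMk_left

/-- Cauchy-Schwarz with weights -/
theorem sq_sum_le (S : Finset (ℤ × ℤ)) (w : ℤ × ℤ → ℝ) (hw : ∀ k ∈ S, 0 < w k)
    (b : ℤ × ℤ → ENNReal) :
    (∑ k ∈ S, b k) ^ 2 ≤ ENNReal.ofReal (∑ k ∈ S, w k) *
      ∑ k ∈ S, ENNReal.ofReal (1 / w k) * b k ^ 2 := by
  have h := ENNReal.inner_le_Lp_mul_Lq S (fun k => ENNReal.ofReal (Real.sqrt (w k)))
    (fun k => ENNReal.ofReal (1 / Real.sqrt (w k)) * b k) Real.HolderConjugate.two_two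
  have e1 : ∑ k ∈ S, ENNReal.ofReal (Real.sqrt (w k)) *
      (ENNReal.ofReal (1 / Real.sqrt (w k)) * b k) = ∑ k ∈ S, b k := by
    refine Finset.sum_congr rfl fun k hk => ?_
    have h1 : 0 < Real.sqrt (w k) := Real.sqrt_pos.mpr (hw k hk)
    rw [← mul_assoc, ← ENNReal.ofReal_mul h1.le, mul_one_div_cancel h1.ne', ENNReal.ofReal_one,
      one_mul]
  have e2 : ∑ k ∈ S, ENNReal.ofReal (Real.sqrt (w k)) ^ (2 : ℝ) =
      ENNReal.ofReal (∑ k ∈ S, w k) := by
    rw [ENNReal.ofReal_sum_of_nonneg (fun k hk => (hw k hk).le)]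
    refine Finset.sum_congr rfl fun k hk => ?_
    rw [ENNReal.ofReal_rpow_of_nonneg (Real.sqrt_nonneg _) (by norm_num)]
    congr 1
    rw [show (2 : ℝ) = ((2 : ℕ) : ℝ) by norm_num, Real.rpow_natCast, Real.sq_sqrt (hw k hk).le]
  have e3 : ∑ k ∈ S, (ENNReal.ofReal (1 / Real.sqrt (w k)) * b k) ^ (2 : ℝ) =
      ∑ k ∈ S, ENNReal.ofReal (1 / w k) * b k ^ 2 := by
    refine Finset.sum_congr rfl fun k hk => ?_
    have h1 : 0 < Real.sqrt (w k) := Real.sqrt_pos.mpr (hw k hk)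
    rw [show (2 : ℝ) = ((2 : ℕ) : ℝ) by norm_num, ENNReal.rpow_natCast, mul_pow,
      ← ENNReal.ofReal_pow (by positivity)]
    congr 2
    rw [div_pow, one_pow, Real.sq_sqrt (hw k hk).le]
  rw [e1, e2, e3] at h
  have h2 := pow_le_pow_left' h 2
  refine le_trans h2 (le_of_eq ?_)
  rw [mul_pow, ← ENNReal.rpow_natCast, ← ENNReal.rpow_natCast, ← ENNReal.rpow_mul,
    ← ENNReal.rpow_mul]
  norm_num

theorem lint_nn_sq {M : ℝ} (hM : 1 ≤ M) : ∃ C : ℝ, 1 ≤ C ∧ ∀ A ∈ KM M, ∀ B H s a : ℝ, 1 ≤ B →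
    1 ≤ H → 1 ≤ a → a ^ 2 = s + B →
    ∫⁻ s', nn M A B H s s' ^ 2 ≤ ENNReal.ofReal (C * B ^ 4 * (1 + Real.log a) / a * H ^ 3) := by
  obtain ⟨C0, hC01, hC0⟩ := sum_inv_sqrt hM
  have hM0 : 0 < M := by linarith
  refine ⟨640 * M ^ 2 * C0 ^ 2, ?_, ?_⟩
  · have h1 : 1 ≤ M ^ 2 := one_le_pow₀ hM
    have h2 : 1 ≤ C0 ^ 2 := one_le_pow₀ hC01
    nlinarith
  intro A hA B H s a hB hH ha ha2
  have ha0 : 0 < a := by linarith
  have hlog := Real.log_nonneg ha
  set w : ℤ × ℤ → ℝ := fun k => 1 / Real.sqrt (rr A (rc k)) with hw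
  have hρ : ∀ k ∈ NS M A H, 0 < rr A (rc k) := fun k hk =>
    Real.sqrt_pos.mpr (qf_pos_of_ne hM hA ((mem_NS hM hA).mp hk).1)
  have hw0 : ∀ k ∈ NS M A H, 0 < w k := fun k hk => by
    have := Real.sqrt_pos.mpr (hρ k hk)
    change 0 < 1 / Real.sqrt (rr A (rc k))
    positivity
  have hsum := hC0 A hA H (by linarith) (NS M A H) (fun k hk => (mem_NS hM hA).mp hk)
  set X := 640 * M ^ 2 * B ^ 4 * (1 + Real.log a) / a with hX
  have hX0 : 0 ≤ X := by positivity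
  have hb : ∀ k ∈ NS M A H, ∫⁻ s', bt A B s s' (rc k) ^ 2 ≤ ENNReal.ofReal (X * (w k * w k)) := by
    intro k hk
    refine le_trans (lint_bt_sq hM hA (by linarith) ha ha2 (qf_pos_of_ne hM hA
      ((mem_NS hM hA).mp hk).1)) (ENNReal.ofReal_le_ofReal ?_)
    have h1 := hρ k hk
    have e1 : w k * w k = 1 / rr A (rc k) := by
      rw [hw]
      simp only
      rw [div_mul_div_comm, one_mul, Real.mul_self_sqrt h1.le]
    rw [e1]
    change M ^ 2 * (8 * B ^ 2) * (16 * B + 64 * B ^ 2 * Real.log a) / (rr A (rc k) * a) ≤ _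
    have e2 : M ^ 2 * (8 * B ^ 2) * (16 * B + 64 * B ^ 2 * Real.log a) / (rr A (rc k) * a) =
        (M ^ 2 * (8 * B ^ 2) / (rr A (rc k) * a)) * (16 * B + 64 * B ^ 2 * Real.log a) := by ring
    have e3 : X * (1 / rr A (rc k)) = (M ^ 2 * (8 * B ^ 2) / (rr A (rc k) * a)) *
        (80 * B ^ 2 * (1 + Real.log a)) := by
      rw [hX]; field_simp; ring
    rw [e2, e3]
    apply mul_le_mul_of_nonneg_left _ (by positivity)
    nlinarith [mul_nonneg (sq_nonneg B) hlog]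
  calc ∫⁻ s', nn M A B H s s' ^ 2
      ≤ ∫⁻ s', ENNReal.ofReal (∑ k ∈ NS M A H, w k) *
          ∑ k ∈ NS M A H, ENNReal.ofReal (1 / w k) * bt A B s s' (rc k) ^ 2 :=
        lintegral_mono fun s' => sq_sum_le _ w hw0 _
    _ = ENNReal.ofReal (∑ k ∈ NS M A H, w k) *
          ∑ k ∈ NS M A H, ENNReal.ofReal (1 / w k) * ∫⁻ s', bt A B s s' (rc k) ^ 2 := by
        rw [lintegral_const_mul' _ _ ENNReal.ofReal_ne_top, lintegral_finsetSum]
        · congr 1
          refine Finset.sum_congr rfl fun k _ => ?_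
          rw [lintegral_const_mul' _ _ ENNReal.ofReal_ne_top]
        · intro k _
          exact (((measurable_bt A B (rc k)).comp measurable_prodMk_left).pow_const 2).const_mul _
    _ ≤ ENNReal.ofReal (∑ k ∈ NS M A H, w k) *
          ∑ k ∈ NS M A H, ENNReal.ofReal (X * w k) := by
        gcongr with k hk
        refine le_trans (mul_le_mul_right (hb k hk) _) (le_of_eq ?_)
        have := hw0 k hk
        rw [← ENNReal.ofReal_mul (by positivity)]
        congr 1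
        field_simp
    _ = ENNReal.ofReal ((∑ k ∈ NS M A H, w k) * (X * ∑ k ∈ NS M A H, w k)) := by
        rw [← ENNReal.ofReal_sum_of_nonneg (fun k hk => mul_nonneg hX0 (hw0 k hk).le),
          ← Finset.mul_sum, ← ENNReal.ofReal_mul (Finset.sum_nonneg fun k hk => (hw0 k hk).le)]
    _ ≤ _ := by
        refine ENNReal.ofReal_le_ofReal ?_
        have h0 : 0 ≤ ∑ k ∈ NS M A H, w k := Finset.sum_nonneg fun k hk => (hw0 k hk).le
        have h1 : (∑ k ∈ NS M A H, w k) * (∑ k ∈ NS M A H, w k) ≤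
            (C0 * H ^ (3 / 2 : ℝ)) * (C0 * H ^ (3 / 2 : ℝ)) :=
          mul_le_mul hsum hsum h0 (le_trans h0 hsum)
        have h2 : (C0 * H ^ (3 / 2 : ℝ)) * (C0 * H ^ (3 / 2 : ℝ)) = C0 ^ 2 * H ^ 3 := by
          have : H ^ (3 / 2 : ℝ) * H ^ (3 / 2 : ℝ) = H ^ 3 := by
            rw [← Real.rpow_add (by linarith), ← Real.rpow_natCast]
            norm_num
          calc (C0 * H ^ (3 / 2 : ℝ)) * (C0 * H ^ (3 / 2 : ℝ))
              = C0 ^ 2 * (H ^ (3 / 2 : ℝ) * H ^ (3 / 2 : ℝ)) := by ring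
            _ = _ := by rw [this]
        calc (∑ k ∈ NS M A H, w k) * (X * ∑ k ∈ NS M A H, w k)
            = X * ((∑ k ∈ NS M A H, w k) * (∑ k ∈ NS M A H, w k)) := by ring
          _ ≤ X * (C0 ^ 2 * H ^ 3) := by
              rw [← h2]; exact mul_le_mul_of_nonneg_left h1 hX0
          _ = _ := by rw [hX]; ring

end Pool.Agent.Helper30_FC
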