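import Pool.Agent.Helper30_FC.Mass

/-!
MP_f5cbfa_nt, frozen S18989 (helper30): the pair functional for one form, with weight and without.
-/

set_option autoImplicit false

open MeasureTheory Set

namespace Pool.Agent.Helper30_FC

open Pool.Agent.BTL Pool.Agent.F5S Pool.Agent.F5H

/-- the class `z = (c, τ)`: sum over the pairs with differences distributed by `ν` -/
noncomputable def Dd (ν : Measure (ℝ × ℝ)) (L R e : ℝ) (p : ℝ × ℝ) (A : ℝ × ℝ × ℝ) (z : R6 × ℝ) :
    ENNReal :=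
  ∫⁻ h, (∫⁻ x, (ENNReal.ofReal (cl6 L z.1 x) * ENNReal.ofReal (gg R e p A z.2 x)) *
    (ENNReal.ofReal (cl6 L z.1 (x + h)) * ENNReal.ofReal (gg R e p A z.2 (x + h)))) ∂(n3 ν)

/-- the kernel of a pair of values -/
noncomputable def omI (R : ℝ) (I : Set ℝ) (s s' : ℝ) : ENNReal :=
  ∫⁻ τ in I, ENNReal.ofReal (tn ((s - τ) / R)) * ENNReal.ofReal (tn ((s' - τ) / R))

theorem measurable_tE (R : ℝ) : Measurable (fun q : ℝ × ℝ => ENNReal.ofReal (tn ((q.1 - q.2) / R))) :=
  ENNReal.measurable_ofReal.comp (continuous_tn'.measurable.comp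
    ((measurable_fst.sub measurable_snd).div_const _))

theorem measurable_omI (R : ℝ) (I : Set ℝ) : Measurable (fun q : ℝ × ℝ => omI R I q.1 q.2) := by
  refine Measurable.lintegral_prod_right' (f := fun q : (ℝ × ℝ) × ℝ =>
    ENNReal.ofReal (tn ((q.1.1 - q.2) / R)) * ENNReal.ofReal (tn ((q.1.2 - q.2) / R))) ?_
  exact ((measurable_tE R).comp ((measurable_fst.comp measurable_fst).prodMk measurable_snd)).mul
    ((measurable_tE R).comp ((measurable_snd.comp measurable_fst).prodMk measurable_snd))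

theorem measurable_cE (hclf : CLFStmt) {L : ℝ} (hL : 0 < L) :
    Measurable (fun q : R6 × R6 => ENNReal.ofReal (cl6 L q.1 q.2)) :=
  ENNReal.measurable_ofReal.comp (hclf L hL).2.1.measurable

theorem measurable_gE (hggf : GGFStmt) {R e : ℝ} (hR : 0 < R) (he : 0 < e) (p : ℝ × ℝ)
    (A : ℝ × ℝ × ℝ) : Measurable (fun q : ℝ × R6 => ENNReal.ofReal (gg R e p A q.1 q.2)) := by
  have h := Measurable.comp (g := fun z : (ℝ × ℝ × ℝ) × ℝ × R6 => gg R e p z.1 z.2.1 z.2.2)
    (f := fun q : ℝ × R6 => (A, q)) (hggf R e hR he p).1 (measurable_const.prodMk measurable_id)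
  exact ENNReal.measurable_ofReal.comp h

theorem measurable_kE (hkaf : KAFStmt) {e : ℝ} (he : 0 < e) (p : ℝ × ℝ)
    (A : ℝ × ℝ × ℝ) : Measurable (fun q : ℝ × R6 => ENNReal.ofReal (KA e p A q.1 q.2)) := by
  have h := Measurable.comp (g := fun z : (ℝ × ℝ × ℝ) × ℝ × R6 => KA e p z.1 z.2.1 z.2.2)
    (f := fun q : ℝ × R6 => (A, q)) (hkaf e he p).2.1.measurable
    (measurable_const.prodMk measurable_id)
  exact ENNReal.measurable_ofReal.comp h

theorem meas_pair (ν : Measure R6) [SFinite ν] (cE : R6 → R6 → ENNReal)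
    (hcE : Measurable (fun q : R6 × R6 => cE q.1 q.2))
    (G : ℝ → R6 → ENNReal) (hG : Measurable (fun q : ℝ × R6 => G q.1 q.2)) :
    Measurable (fun z : R6 × ℝ => ∫⁻ h, (∫⁻ x, (cE z.1 x * G z.2 x) *
      (cE z.1 (x + h) * G z.2 (x + h))) ∂ν) := by
  have m1 : Measurable (fun q : ((R6 × ℝ) × R6) × R6 => cE q.1.1.1 q.2) :=
    hcE.comp ((measurable_fst.comp (measurable_fst.comp measurable_fst)).prodMk measurable_snd)
  have m2 : Measurable (fun q : ((R6 × ℝ) × R6) × R6 => cE q.1.1.1 (q.2 + q.1.2)) :=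
    hcE.comp ((measurable_fst.comp (measurable_fst.comp measurable_fst)).prodMk
      (measurable_snd.add (measurable_snd.comp measurable_fst)))
  have m3 : Measurable (fun q : ((R6 × ℝ) × R6) × R6 => G q.1.1.2 q.2) :=
    hG.comp ((measurable_snd.comp (measurable_fst.comp measurable_fst)).prodMk measurable_snd)
  have m4 : Measurable (fun q : ((R6 × ℝ) × R6) × R6 => G q.1.1.2 (q.2 + q.1.2)) :=
    hG.comp ((measurable_snd.comp (measurable_fst.comp measurable_fst)).prodMk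
      (measurable_snd.add (measurable_snd.comp measurable_fst)))
  have m5 : Measurable (fun q : ((R6 × ℝ) × R6) × R6 => (cE q.1.1.1 q.2 * G q.1.1.2 q.2) *
      (cE q.1.1.1 (q.2 + q.1.2) * G q.1.1.2 (q.2 + q.1.2))) := (m1.mul m3).mul (m2.mul m4)
  have m6 : Measurable (fun q : (R6 × ℝ) × R6 => ∫⁻ x : R6, (cE q.1.1 x * G q.1.2 x) *
      (cE q.1.1 (x + q.2) * G q.1.2 (x + q.2))) := m5.lintegral_prod_right'
  exact m6.lintegral_prod_right'

/-- measurability of the class sums -/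
theorem measurable_Dd (hclf : CLFStmt) (hggf : GGFStmt) (ν : Measure (ℝ × ℝ)) [SFinite ν]
    {L R e : ℝ} (hL : 0 < L) (hR : 0 < R) (he : 0 < e) (p : ℝ × ℝ) (A : ℝ × ℝ × ℝ) :
    Measurable (Dd ν L R e p A) :=
  meas_pair (n3 ν) (fun c x => ENNReal.ofReal (cl6 L c x)) (measurable_cE hclf hL)
    (fun τ x => ENNReal.ofReal (gg R e p A τ x)) (measurable_gE hggf hR he p A)

theorem const_out (ν : Measure R6) [SFinite ν] (κ : ENNReal) (P : R6 → ENNReal) (hP : Measurable P)
    (om : ℝ → ℝ → ENNReal) (hom : Measurable (fun q : ℝ × ℝ => om q.1 q.2))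
    (kE : ℝ → R6 → ENNReal) (hkE : Measurable (fun q : ℝ × R6 => kE q.1 q.2)) :
    ∫⁻ h : R6, (∫⁻ x : R6, κ * (P h * (∫⁻ s, ∫⁻ s', om s s' * (kE s x * kE s' (x + h))))) ∂ν =
    κ * ∫⁻ h : R6, (∫⁻ x : R6, P h * (∫⁻ s, ∫⁻ s', om s s' * (kE s x * kE s' (x + h)))) ∂ν := by
  have n1 : Measurable (fun q : ((R6 × R6) × ℝ) × ℝ => om q.1.2 q.2) :=
    hom.comp ((measurable_snd.comp measurable_fst).prodMk measurable_snd)
  have n2 : Measurable (fun q : ((R6 × R6) × ℝ) × ℝ => kE q.1.2 q.1.1.2) :=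
    hkE.comp ((measurable_snd.comp measurable_fst).prodMk
        (measurable_snd.comp (measurable_fst.comp measurable_fst)))
  have n3 : Measurable (fun q : ((R6 × R6) × ℝ) × ℝ => kE q.2 (q.1.1.2 + q.1.1.1)) :=
    hkE.comp (measurable_snd.prodMk
        ((measurable_snd.comp (measurable_fst.comp measurable_fst)).add
          (measurable_fst.comp (measurable_fst.comp measurable_fst))))
  have m1 : Measurable (fun q : ((R6 × R6) × ℝ) × ℝ => om q.1.2 q.2 *
      (kE q.1.2 q.1.1.2 * kE q.2 (q.1.1.2 + q.1.1.1))) := n1.mul (n2.mul n3)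
  have m2 : Measurable (fun q : (R6 × R6) × ℝ => ∫⁻ s', om q.2 s' *
      (kE q.2 q.1.2 * kE s' (q.1.2 + q.1.1))) := m1.lintegral_prod_right'
  have m3 : Measurable (fun q : (R6 × R6) => ∫⁻ s, ∫⁻ s', om s s' *
      (kE s q.2 * kE s' (q.2 + q.1))) := m2.lintegral_prod_right'
  have m4 : Measurable (fun q : (R6 × R6) => P q.1 * (∫⁻ s, ∫⁻ s', om s s' *
      (kE s q.2 * kE s' (q.2 + q.1)))) := (hP.comp measurable_fst).mul m3
  have m5 : Measurable (fun h : R6 => ∫⁻ x : R6, P h * (∫⁻ s, ∫⁻ s', om s s' *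
      (kE s x * kE s' (x + h)))) := m4.lintegral_prod_right'
  rw [← lintegral_const_mul _ m5]
  refine lintegral_congr fun h => ?_
  have m6 : Measurable (fun x : R6 => P h * (∫⁻ s, ∫⁻ s', om s s' *
      (kE s x * kE s' (x + h)))) := m4.comp measurable_prodMk_left
  rw [lintegral_const_mul _ m6]

/-- the weighted pair functional -/
theorem D_weight (hclf : CLFStmt) (hggf : GGFStmt) (ν : Measure (ℝ × ℝ)) [SFinite ν]
    {L R e : ℝ} (hL : 0 < L) (hR : 0 < R) (he : 0 < e) (p : ℝ × ℝ) (A : ℝ × ℝ × ℝ)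
    {W : R6 → ℝ} (hW : Measurable W) (hW1 : ∀ c, 0 ≤ W c ∧ W c ≤ 1)
    (hFA : Measurable (fun z : R6 × R6 => FA L R e p W A z.1 z.2)) :
    ∫⁻ z : R6 × ℝ, ENNReal.ofReal (W z.1) * Dd ν L R e p A z
      ∂((volume : Measure R6).prod (volume.restrict Set.univ)) =
    ENNReal.ofReal (L ^ 6) * ENNReal.ofReal R *
      ∫⁻ h, (∫⁻ x, ENNReal.ofReal (FA L R e p W A x (x + h))) ∂(n3 ν) := by
  unfold Dd
  rw [swap_gen (n3 ν) (fun c => ENNReal.ofReal (W c)) hW.ennreal_ofReal
    (fun c x => ENNReal.ofReal (cl6 L c x)) (measurable_cE hclf hL)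
    (fun τ x => ENNReal.ofReal (gg R e p A τ x)) (measurable_gE hggf hR he p A) Set.univ]
  have hwc : ∀ x y, 0 ≤ WC L W x y := by
    intro x y
    unfold WC
    refine integral_nonneg fun c => ?_
    exact mul_nonneg (hW1 c).1 (mul_nonneg (by positivity)
      (mul_nonneg ((hclf L hL).1 _ _).1 ((hclf L hL).1 _ _).1))
  have e1 : ∀ h x : R6, (∫⁻ c, ENNReal.ofReal (W c) * (ENNReal.ofReal (cl6 L c x) *
      ENNReal.ofReal (cl6 L c (x + h)))) *
      (∫⁻ τ in Set.univ, ENNReal.ofReal (gg R e p A τ x) * ENNReal.ofReal (gg R e p A τ (x + h))) =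
      ENNReal.ofReal (L ^ 6) * ENNReal.ofReal R *
        ENNReal.ofReal (FA L R e p W A x (x + h)) := by
    intro h x
    rw [WC_eq hclf hL hW hW1, Measure.restrict_univ, RV_eq hggf hR he]
    unfold FA
    rw [ENNReal.ofReal_mul (hwc _ _)]
    ring
  simp only [e1]
  have mx : ∀ h : R6, Measurable (fun x : R6 => ENNReal.ofReal (FA L R e p W A x (x + h))) := by
    intro h
    have := Measurable.comp (g := fun z : R6 × R6 => FA L R e p W A z.1 z.2)
      (f := fun x : R6 => (x, x + h)) hFA (measurable_id.prodMk (measurable_id.add_const _))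
    exact this.ennreal_ofReal
  have mh : Measurable (fun h : R6 => ∫⁻ x : R6, ENNReal.ofReal (FA L R e p W A x (x + h))) := by
    have := Measurable.comp (g := fun z : R6 × R6 => FA L R e p W A z.1 z.2)
      (f := fun q : R6 × R6 => (q.2, q.2 + q.1)) hFA
      (measurable_snd.prodMk (measurable_snd.add measurable_fst))
    exact this.ennreal_ofReal.lintegral_prod_right'
  rw [← lintegral_const_mul _ mh]
  refine lintegral_congr fun h => ?_
  rw [lintegral_const_mul _ (mx h)]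

/-- the pair functional without weight -/
theorem D_free (hkaf : KAFStmt) (hprf : PRFStmt) (hclf : CLFStmt) (hggf : GGFStmt)
    (ν : Measure (ℝ × ℝ)) [SFinite ν]
    {L R e : ℝ} (hL : 0 < L) (hR : 0 < R) (he : 0 < e) (p : ℝ × ℝ) (A : ℝ × ℝ × ℝ) (I : Set ℝ) :
    ∫⁻ z : R6 × ℝ, Dd ν L R e p A z ∂((volume : Measure R6).prod (volume.restrict I)) =
    ENNReal.ofReal (L ^ 6) *
      ∫⁻ s, ∫⁻ s', omI R I s s' * ∏ l, ∫⁻ h, ph L (PhL L) h * gk A (K3 e p l) s s' h ∂ν := by
  have hΦ := cut_PhL hprf hL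
  have hp := measurable_ph hΦ L
  have e0 : ∀ z : R6 × ℝ, Dd ν L R e p A z = (fun _ : R6 => (1 : ENNReal)) z.1 *
      Dd ν L R e p A z := fun z => (one_mul _).symm
  have e00 : ∫⁻ z : R6 × ℝ, Dd ν L R e p A z ∂((volume : Measure R6).prod (volume.restrict I)) =
      ∫⁻ z : R6 × ℝ, (fun _ : R6 => (1 : ENNReal)) z.1 * Dd ν L R e p A z
        ∂((volume : Measure R6).prod (volume.restrict I)) := lintegral_congr e0
  rw [e00]
  unfold Dd
  rw [swap_gen (n3 ν) (fun _ => (1 : ENNReal)) measurable_const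
    (fun c x => ENNReal.ofReal (cl6 L c x)) (measurable_cE hclf hL)
    (fun τ x => ENNReal.ofReal (gg R e p A τ x)) (measurable_gE hggf hR he p A) I]
  have e1 : ∀ h x : R6, (∫⁻ c, 1 * (ENNReal.ofReal (cl6 L c x) *
      ENNReal.ofReal (cl6 L c (x + h)))) *
      (∫⁻ τ in I, ENNReal.ofReal (gg R e p A τ x) * ENNReal.ofReal (gg R e p A τ (x + h))) =
      ENNReal.ofReal (L ^ 6) * ((ph L (PhL L) h.1 * (ph L (PhL L) h.2.1 * ph L (PhL L) h.2.2)) *
        (∫⁻ s, ∫⁻ s', omI R I s s' * (ENNReal.ofReal (KA e p A s x) *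
          ENNReal.ofReal (KA e p A s' (x + h))))) := by
    intro h x
    simp only [one_mul]
    rw [mass6 hprf hL, add_sub_cancel_left]
    simp only [gg_eq hkaf he]
    rw [radial (fun s τ => ENNReal.ofReal (tn ((s - τ) / R))) (measurable_tE R)
      (fun s x => ENNReal.ofReal (KA e p A s x)) (measurable_kE hkaf he p A) I x (x + h)]
    unfold omI
    ring
  simp only [e1]
  rw [← assemble ν e p A L 2 (PhL L) hΦ (omI R I) (measurable_omI R I) (measurable_kE hkaf he p A)]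
  have mP : Measurable (fun h : R6 => (ph L (PhL L) h.1 * (ph L (PhL L) h.2.1 *
      ph L (PhL L) h.2.2))) :=
    (hp.comp measurable_fst).mul ((hp.comp (measurable_fst.comp measurable_snd)).mul
      (hp.comp (measurable_snd.comp measurable_snd)))
  exact const_out (n3 ν) (ENNReal.ofReal (L ^ 6)) (fun h : R6 => (ph L (PhL L) h.1 *
    (ph L (PhL L) h.2.1 * ph L (PhL L) h.2.2))) mP (omI R I) (measurable_omI R I)
    (fun s x => ENNReal.ofReal (KA e p A s x)) (measurable_kE hkaf he p A)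

end Pool.Agent.Helper30_FC
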