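import Pool.Agent.Helper30_FC.VarT

/-!
MP_f5cbfa_nt, frozen S18989 (helper30): the comparison for one form, final form.
-/

set_option autoImplicit false

open MeasureTheory Set

namespace Pool.Agent.Helper30_FC

open Pool.Agent.BTL Pool.Agent.F5S Pool.Agent.F5H

theorem lat_ZZ {L Λ : ℝ} {Φ : ℝ × ℝ → ℝ} (hΦ : Cut Λ Φ) (A : ℝ × ℝ × ℝ) {K : ℝ → ENNReal}
    (hK : Measurable K) (s s' : ℝ) :
    ∫⁻ h, ph L Φ h * gk A K s s' h ∂lat = ZZ A L Φ K s s' :=
  lint_lat _ ((measurable_ph hΦ L).mul (measurable_gk hK s s'))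

/-- the comparison for one form -/
theorem pair_bound (hkaf : KAFStmt) (hprf : PRFStmt) (hclf : CLFStmt) (hggf : GGFStmt)
    {M : ℝ} (hM : 1 ≤ M) : ∃ C0 : ℝ, 1 ≤ C0 ∧ ∀ (B Λ T L R e : ℝ) (p : ℝ × ℝ),
    0 < e → B = e + |p.1| + |p.2| + 1 → 2 ≤ Λ → (400 * Λ ^ 5 * B ^ 2 * M ^ 2) ^ 40 ≤ T →
    1 ≤ L → 1 ≤ R / T → (R / T) ^ 5 ≤ T ^ 2 → L ^ 5 ≤ T ^ 3 → R ≤ T ^ 2 / Λ →
    2 * B ≤ T ^ 2 / Λ → 2 * (2 * M * (2 * L)) ^ 2 ≤ T ^ 2 / Λ →
    ∀ A ∈ KM M, ∀ W : R6 → ℝ, Measurable W → (∀ c, 0 ≤ W c ∧ W c ≤ 1) →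
    Measurable (fun z : R6 × R6 => FA L R e p W A z.1 z.2) →
    (∀ c, W c ≠ 0 → ∀ x : R6, ‖x - c‖ ≤ L → ∀ τ : ℝ, |qf A x.2.2 - τ| ≤ R + e →
      2 * T ^ 2 / Λ ≤ τ ∧ τ ≤ Λ * T ^ 2 / 2) →
    ∫⁻ h, (∫⁻ x, ENNReal.ofReal (FA L R e p W A x (x + h))) ∂(n3 lat) ≤
      (∫⁻ h, (∫⁻ x, ENNReal.ofReal (FA L R e p W A x (x + h))) ∂(n3 volume)) +
        ENNReal.ofReal (C0 * (B ^ 20 * Λ ^ 14) * T ^ 2) := by
  obtain ⟨C0, hC0, hC⟩ := k0_expl hM
  refine ⟨C0, hC0, ?_⟩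
  intro B Λ T L R e p he hB hΛ hT hL hr hr5 hL5 hRT hBT hLT A hA W hW hW1 hFA hsup
  have hB1 : 1 ≤ B := by
    have h1 := abs_nonneg p.1
    have h2 := abs_nonneg p.2
    rw [hB]; linarith
  have hM0 : 0 < M := by linarith
  have hT1 : 1 ≤ T := by
    refine le_trans (one_le_pow₀ ?_) hT
    have h1 : 1 ≤ Λ ^ 5 := one_le_pow₀ (by linarith)
    have h2 : 1 ≤ B ^ 2 := one_le_pow₀ hB1
    have h3 : 1 ≤ M ^ 2 := one_le_pow₀ hM
    have h4 : 1 ≤ Λ ^ 5 * B ^ 2 * M ^ 2 :=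
      one_le_mul_of_one_le_of_one_le (one_le_mul_of_one_le_of_one_le h1 h2) h3
    have e : 400 * Λ ^ 5 * B ^ 2 * M ^ 2 = 400 * (Λ ^ 5 * B ^ 2 * M ^ 2) := by ring
    rw [e]; linarith
  have hT0 : 0 < T := by linarith
  have hL0 : 0 < L := by linarith
  have hR0 : 0 < R := by
    have : 0 < R / T := by linarith
    exact (div_pos_iff_of_pos_right hT0).mp this
  have hΛ0 : 0 < Λ := by linarith
  set I : Set ℝ := Set.Icc (2 * T ^ 2 / Λ) (Λ * T ^ 2 / 2) with hI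
  have hIm : MeasurableSet I := measurableSet_Icc
  -- the four integrals
  have w1 := D_weight hclf hggf lat hL0 hR0 he p A hW hW1 hFA
  have w2 := D_weight hclf hggf (volume : Measure (ℝ × ℝ)) hL0 hR0 he p A hW hW1 hFA
  have f1 := D_free hkaf hprf hclf hggf lat hL0 hR0 he p A I
  have f2 := D_free hkaf hprf hclf hggf (volume : Measure (ℝ × ℝ)) hL0 hR0 he p A I
  have hΦ := cut_PhL hprf hL0
  have f1' : ∀ s s' : ℝ, ∏ l, ∫⁻ h, ph L (PhL L) h * gk A (K3 e p l) s s' h ∂lat =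
      ∏ l, ZZ A L (PhL L) (K3 e p l) s s' := by
    intro s s'
    refine Finset.prod_congr rfl fun l _ => ?_
    exact lat_ZZ hΦ A (measurable_K3 e p l) s s'
  simp only [f1'] at f1
  have f2' : ∀ s s' : ℝ, ∏ l, ∫⁻ h, ph L (PhL L) h * gk A (K3 e p l) s s' h =
      ∏ l, II A L (PhL L) (K3 e p l) s s' := by
    intro s s'
    rfl
  simp only [f2'] at f2
  -- the domain of the kernel
  have hOm : ∀ s s', omI R I s s' ≠ 0 → (s, s') ∈ Om Λ T (R / T) := by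
    intro s s' h
    obtain ⟨τ, hτ, h1, h2⟩ := omI_ne_zero hR0 hIm h
    rw [hI, Set.mem_Icc] at hτ
    rw [abs_lt] at h1 h2
    have e1 : 2 * T ^ 2 / Λ = T ^ 2 / Λ + T ^ 2 / Λ := by ring
    have e2 : T ^ 2 / Λ ≤ Λ * T ^ 2 / 2 := by
      rw [div_le_div_iff₀ hΛ0 (by norm_num)]
      nlinarith [sq_nonneg T, mul_nonneg (sq_nonneg T) (by nlinarith : (0 : ℝ) ≤ Λ * Λ - 2)]
    refine ⟨?_, ?_, ?_, ?_, ?_⟩
    · change T ^ 2 / Λ ≤ s
      linarith [hτ.1]
    · change s ≤ Λ * T ^ 2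
      linarith [hτ.2]
    · change T ^ 2 / Λ ≤ s'
      linarith [hτ.1]
    · change s' ≤ Λ * T ^ 2
      linarith [hτ.2]
    · change |s - s'| ≤ Λ * (R / T) * T
      have e3 : Λ * (R / T) * T = Λ * R := by
        field_simp
      rw [e3, abs_le]
      constructor <;> nlinarith
  have hRR : ENNReal.ofReal (R⁻¹) * ENNReal.ofReal R = 1 := by
    rw [← ENNReal.ofReal_mul (by positivity), inv_mul_cancel₀ hR0.ne', ENNReal.ofReal_one]
  -- the k = 0 theorem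
  have hk := hC B Λ hB1 (by linarith) T L (R / T) hT hr hL hr5 hL5 A hA (K3 e p) (PhL L)
    (fun l => by rw [hB]; exact win_K3 he p l)
    ⟨by linarith, hΦ.nonneg, hΦ.le_one, fun x hx => le_trans (hΦ.supp x hx) hΛ,
      fun x y => le_trans (hΦ.lip x y) (mul_le_mul_of_nonneg_right hΛ (norm_nonneg _))⟩
    (fun s s' => ENNReal.ofReal (R⁻¹) * omI R I s s')
    (fun s s' => by
      rw [← hRR]
      exact mul_le_mul' le_rfl (omI_le hprf hR0 I s s'))
    (fun s s' h => hOm s s' (right_ne_zero_of_mul h))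
  have mo := measurable_omI R I
  -- multiply by R
  have hZ : ∀ (F : ℝ → ℝ → ENNReal), ENNReal.ofReal R * (∫⁻ s, ∫⁻ s',
      ENNReal.ofReal (R⁻¹) * omI R I s s' * F s s') = ∫⁻ s, ∫⁻ s', omI R I s s' * F s s' := by
    intro F
    rw [← lintegral_const_mul' _ _ ENNReal.ofReal_ne_top]
    refine lintegral_congr fun s => ?_
    rw [← lintegral_const_mul' _ _ ENNReal.ofReal_ne_top]
    refine lintegral_congr fun s' => ?_
    calc ENNReal.ofReal R * (ENNReal.ofReal (R⁻¹) * omI R I s s' * F s s') =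
        (ENNReal.ofReal (R⁻¹) * ENNReal.ofReal R) * (omI R I s s' * F s s') := by ring
      _ = _ := by rw [hRR, one_mul]
  have hk2 : ENNReal.ofReal (L ^ 6) * (∫⁻ s, ∫⁻ s', omI R I s s' *
      ∏ l, ZZ A L (PhL L) (K3 e p l) s s') ≤
      ENNReal.ofReal (L ^ 6) * (∫⁻ s, ∫⁻ s', omI R I s s' *
      ∏ l, II A L (PhL L) (K3 e p l) s s') + ENNReal.ofReal (L ^ 6) * ENNReal.ofReal R *
      ENNReal.ofReal (C0 * (B ^ 20 * Λ ^ 14) * T ^ 2) := by
    have := mul_le_mul' (le_refl (ENNReal.ofReal (L ^ 6) * ENNReal.ofReal R)) hk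
    rw [mul_add, mul_assoc, hZ, mul_assoc, hZ] at this
    refine le_trans this (le_of_eq ?_)
    ring
  rw [← f1, ← f2] at hk2
  -- finiteness
  have hfin : ∫⁻ z : R6 × ℝ, Dd volume L R e p A z
      ∂((volume : Measure R6).prod (volume.restrict I)) ≠ ⊤ := by
    rw [f2]
    refine ENNReal.mul_ne_top ENNReal.ofReal_ne_top ?_
    refine fin_double _ (T ^ 2 / Λ) (Λ * T ^ 2)
      (ENNReal.ofReal R * ENNReal.ofReal (192 * M ^ 3 * 2 * B ^ 2 * (L / 1)) ^ 3)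
      (ENNReal.mul_ne_top ENNReal.ofReal_ne_top (ENNReal.pow_ne_top ENNReal.ofReal_ne_top)) ?_ ?_
    · intro s s'
      by_cases h0 : omI R I s s' = 0
      · rw [h0, zero_mul]; exact zero_le
      · have ho := hOm s s' h0
        have hs1 : T ^ 2 / Λ ≤ s := ho.1
        have hs2 : T ^ 2 / Λ ≤ s' := ho.2.2.1
        refine mul_le_mul' (omI_le hprf hR0 I s s') ?_
        have hone : ∀ l : Fin 3, II A L (PhL L) (K3 e p l) s s' ≤
            ENNReal.ofReal (192 * M ^ 3 * 2 * B ^ 2 * (L / 1)) := by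
          intro l
          have hWin : Win B (K3 e p l) := by rw [hB]; exact win_K3 he p l
          refine le_trans (int_bound hM hA hL (by linarith) (by linarith) (by linarith)
            hWin hΦ) ?_
          refine ENNReal.ofReal_le_ofReal ?_
          refine mul_le_mul_of_nonneg_left ?_ (by positivity)
          refine div_le_div_of_nonneg_left hL0.le one_pos ?_
          rw [Real.one_le_sqrt]
          linarith
        rw [Fin.prod_univ_three]
        calc II A L (PhL L) (K3 e p 0) s s' * II A L (PhL L) (K3 e p 1) s s' *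
              II A L (PhL L) (K3 e p 2) s s' ≤
              ENNReal.ofReal (192 * M ^ 3 * 2 * B ^ 2 * (L / 1)) *
              ENNReal.ofReal (192 * M ^ 3 * 2 * B ^ 2 * (L / 1)) *
              ENNReal.ofReal (192 * M ^ 3 * 2 * B ^ 2 * (L / 1)) :=
              mul_le_mul' (mul_le_mul' (hone 0) (hone 1)) (hone 2)
          _ = _ := by ring
    · intro s s' h
      have ho := hOm s s' (left_ne_zero_of_mul h)
      exact ⟨⟨ho.1, ho.2.1⟩, ⟨ho.2.2.1, ho.2.2.2.1⟩⟩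
  -- the trick
  have hzero : ∀ z : R6 × ℝ, W z.1 ≠ 0 → z.2 ∉ I → Dd lat L R e p A z = 0 := by
    intro z hz hzI
    have hall : ∀ x : R6, ENNReal.ofReal (cl6 L z.1 x) * ENNReal.ofReal (gg R e p A z.2 x) = 0 := by
      intro x
      by_contra hne
      have c1 : cl6 L z.1 x ≠ 0 := by
        intro h0
        rw [h0, ENNReal.ofReal_zero, zero_mul] at hne
        exact hne rfl
      have c2 : gg R e p A z.2 x ≠ 0 := by
        intro h0
        rw [h0, ENNReal.ofReal_zero, mul_zero] at hne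
        exact hne rfl
      have d1 := (hclf L hL0).2.2.1 z.1 x c1
      have d2 := ((hggf R e hR0 he p).2.2.1 A z.2 x c2).2.2
      exact hzI (hsup z.1 hz x d1 z.2 d2)
    unfold Dd
    have : ∀ h x : R6, (ENNReal.ofReal (cl6 L z.1 x) * ENNReal.ofReal (gg R e p A z.2 x)) *
        (ENNReal.ofReal (cl6 L z.1 (x + h)) * ENNReal.ofReal (gg R e p A z.2 (x + h))) = 0 := by
      intro h x
      rw [hall x, zero_mul]
    simp only [this, lintegral_zero]
  have trick := var_trick (Dd lat L R e p A) (Dd volume L R e p A)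
    (measurable_Dd hclf hggf lat hL0 hR0 he p A) (measurable_Dd hclf hggf volume hL0 hR0 he p A)
    (fun z => Dd_le hclf hggf hL0 hR0 he p A z) W hW hW1 I hIm hzero
  rw [w1, w2] at trick
  -- conclusion
  set κ : ENNReal := ENNReal.ofReal (L ^ 6) * ENNReal.ofReal R with hκ
  have hκ0 : κ ≠ 0 := by
    rw [hκ]
    refine mul_ne_zero ?_ ?_
    · rw [Ne, ENNReal.ofReal_eq_zero, not_le]; positivity
    · rw [Ne, ENNReal.ofReal_eq_zero, not_le]; exact hR0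
  have hκt : κ ≠ ⊤ := ENNReal.mul_ne_top ENNReal.ofReal_ne_top ENNReal.ofReal_ne_top
  have h3 := le_trans trick (add_le_add le_rfl hk2)
  have h4 : κ * (∫⁻ h, (∫⁻ x, ENNReal.ofReal (FA L R e p W A x (x + h))) ∂(n3 lat)) ≤
      κ * (∫⁻ h, (∫⁻ x, ENNReal.ofReal (FA L R e p W A x (x + h))) ∂(n3 volume)) +
      κ * ENNReal.ofReal (C0 * (B ^ 20 * Λ ^ 14) * T ^ 2) := by
    refine (ENNReal.add_le_add_iff_right hfin).mp ?_
    refine le_trans h3 (le_of_eq ?_)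
    ring
  rw [← mul_add] at h4
  exact (ENNReal.mul_le_mul_iff_right hκ0 hκt).mp h4

end Pool.Agent.Helper30_FC
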