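import Pool.Agent.Helper30_FC.Slice

/-!
MP_f5cbfa_nt, frozen S18989 (helper30): the `L²` norm of the slice function of a thin annulus.
-/

set_option autoImplicit false

open MeasureTheory Set

namespace Pool.Agent.Helper30_FC

theorem lint_inv {a d c : ℝ} (hd : 0 < d) (hda : d ≤ a) (hc : 0 ≤ c) :
    ∫⁻ z in Set.Icc 0 (a - d), ENNReal.ofReal (c / (a - z)) = ENNReal.ofReal (c * Real.log (a / d)) := by
  have ha : 0 < a := lt_of_lt_of_le hd hda
  have hcont : ContinuousOn (fun z : ℝ => c / (a - z)) (Set.Icc 0 (a - d)) := by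
    refine ContinuousOn.div continuousOn_const (by fun_prop) ?_
    intro z hz
    have := hz.2
    intro h0
    linarith
  have hint : IntegrableOn (fun z : ℝ => c / (a - z)) (Set.Icc 0 (a - d)) :=
    hcont.integrableOn_compact isCompact_Icc
  rw [← ofReal_integral_eq_lintegral_ofReal hint]
  · congr 1
    rw [integral_Icc_eq_integral_Ioc, ← intervalIntegral.integral_of_le (by linarith)]
    have e1 : ∫ z in (0 : ℝ)..(a - d), c / (a - z) = c * ∫ z in (0 : ℝ)..(a - d), (1 : ℝ) / (a - z) := by
      rw [← intervalIntegral.integral_const_mul]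
      congr 1
      ext z; ring
    rw [e1, intervalIntegral.integral_comp_sub_left (fun x => (1 : ℝ) / x) a]
    rw [integral_one_div_of_pos (by linarith) (by linarith)]
    congr 3 <;> ring
  · filter_upwards [ae_restrict_mem measurableSet_Icc] with z hz
    have : 0 < a - z := by linarith [hz.2]
    change 0 ≤ c / (a - z)
    positivity

/-- the dominating function on the right half -/
noncomputable def fd (B a : ℝ) (z : ℝ) : ENNReal :=
  (Set.Icc 0 (a - a⁻¹)).indicator (fun z => ENNReal.ofReal (16 * B ^ 2 / a / (a - z))) z +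
    (Set.Icc (a - a⁻¹) a).indicator (fun _ => ENNReal.ofReal (8 * B)) z

theorem measurable_fd (B a : ℝ) : Measurable (fd B a) := by
  unfold fd
  refine Measurable.add ?_ ?_
  · refine Measurable.indicator ?_ measurableSet_Icc
    exact ENNReal.measurable_ofReal.comp (by fun_prop)
  · exact measurable_const.indicator measurableSet_Icc

theorem lint_fd {B a : ℝ} (hB : 0 ≤ B) (ha : 1 ≤ a) :
    ∫⁻ z, fd B a z ≤ ENNReal.ofReal ((8 * B + 32 * B ^ 2 * Real.log a) / a) := by
  have ha0 : 0 < a := by linarith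
  have hinv : a⁻¹ ≤ a := by
    rw [inv_le_comm₀ ha0 ha0]
    exact le_trans (inv_le_one_of_one_le₀ ha) ha
  unfold fd
  rw [lintegral_add_right _ (measurable_const.indicator measurableSet_Icc),
    lintegral_indicator measurableSet_Icc, lintegral_indicator_const measurableSet_Icc,
    lint_inv (inv_pos.mpr ha0) hinv (by positivity), Real.volume_Icc,
    ← ENNReal.ofReal_mul (by positivity), ← ENNReal.ofReal_add]
  · refine ENNReal.ofReal_le_ofReal ?_
    have e1 : a / a⁻¹ = a ^ 2 := by field_simp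
    rw [e1, Real.log_pow]
    have e2 : a - (a - a⁻¹) = a⁻¹ := by ring
    rw [e2]
    push_cast
    refine le_of_eq ?_
    field_simp
    ring
  · refine mul_nonneg (by positivity) (Real.log_nonneg ?_)
    rw [div_inv_eq_mul]
    nlinarith
  · refine mul_nonneg (by positivity) ?_
    have : 0 < a⁻¹ := inv_pos.mpr ha0
    linarith

theorem sl_sq_le_fd {B s a : ℝ} (hB : 0 ≤ B) (ha : 1 ≤ a) (ha2 : a ^ 2 = s + B) (z : ℝ) :
    sl B s z ^ 2 ≤ fd B a z + fd B a (-z) := by
  have ha0 : 0 < a := by linarith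
  have hinv : a⁻¹ ≤ a := by
    rw [inv_le_comm₀ ha0 ha0]
    exact le_trans (inv_le_one_of_one_le₀ ha) ha
  have key : ∀ w : ℝ, 0 ≤ w → w = |z| → sl B s z ^ 2 ≤ fd B a w := by
    intro w hw0 hw
    rcases lt_or_ge a w with h1 | h1
    · rw [sl_zero_a ha0 ha2 (by rwa [← hw])]; simp
    rcases le_or_gt w (a - a⁻¹) with h2 | h2
    · have hi : 0 < a⁻¹ := inv_pos.mpr ha0
      have hlt : |z| < a := by rw [← hw]; linarith
      have h3 := sl_le_a hB ha0 ha2 hlt
      unfold fd
      refine le_trans ?_ le_self_add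
      rw [Set.indicator_of_mem (show w ∈ Set.Icc 0 (a - a⁻¹) from ⟨hw0, h2⟩)]
      refine le_trans (pow_le_pow_left' h3 2) ?_
      rw [← ENNReal.ofReal_pow (by positivity)]
      refine ENNReal.ofReal_le_ofReal (le_of_eq ?_)
      rw [← hw] at hlt ⊢
      have h4 : 0 < a * (a - w) := mul_pos ha0 (by linarith)
      rw [div_pow, Real.sq_sqrt h4.le]
      field_simp
      ring
    · unfold fd
      refine le_trans ?_ le_add_self
      rw [Set.indicator_of_mem (show w ∈ Set.Icc (a - a⁻¹) a from ⟨h2.le, h1⟩)]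
      exact sl_sq_le hB
  rcases le_total 0 z with h0 | h0
  · exact le_trans (key z h0 (abs_of_nonneg h0).symm) le_self_add
  · exact le_trans (key (-z) (by linarith) (abs_of_nonpos h0).symm) le_add_self

/-- the `L²` bound -/
theorem lint_sl_sq {B s a : ℝ} (hB : 0 ≤ B) (ha : 1 ≤ a) (ha2 : a ^ 2 = s + B) :
    ∫⁻ z, sl B s z ^ 2 ≤ ENNReal.ofReal ((16 * B + 64 * B ^ 2 * Real.log a) / a) := by
  have ha0 : 0 < a := by linarith
  calc ∫⁻ z, sl B s z ^ 2 ≤ ∫⁻ z, (fd B a z + fd B a (-z)) := lintegral_mono (sl_sq_le_fd hB ha ha2)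
    _ = (∫⁻ z, fd B a z) + ∫⁻ z, fd B a (-z) := lintegral_add_left (measurable_fd B a) _
    _ = (∫⁻ z, fd B a z) + ∫⁻ z, fd B a z := by
        rw [lintegral_neg_eq_self (fun z => fd B a z)]
    _ ≤ ENNReal.ofReal ((8 * B + 32 * B ^ 2 * Real.log a) / a) +
        ENNReal.ofReal ((8 * B + 32 * B ^ 2 * Real.log a) / a) :=
        add_le_add (lint_fd hB ha) (lint_fd hB ha)
    _ = _ := by
        have h1 : 0 ≤ Real.log a := Real.log_nonneg ha
        rw [← ENNReal.ofReal_add (by positivity) (by positivity)]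
        congr 1
        ring

end Pool.Agent.Helper30_FC
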