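import Pool.Agent.Helper30_FC.Lin
import Pool.Agent.Helper30_FC.SliceL2

/-!
MP_f5cbfa_nt, frozen S18989 (helper30): intersections of two thin annuli with centres at
distance `h`: strip bound, mean and mean square over the position.
-/

set_option autoImplicit false

open MeasureTheory Set

namespace Pool.Agent.Helper30_FC

open Pool.Agent.BTL

/-- Cauchy-Schwarz -/
theorem lint_sq_le {α : Type*} [MeasurableSpace α] (μ : Measure α) (f : α → ENNReal)
    (hf : AEMeasurable f μ) : (∫⁻ a, f a ∂μ) ^ 2 ≤ μ Set.univ * ∫⁻ a, f a ^ 2 ∂μ := by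
  have h := ENNReal.lintegral_mul_le_Lp_mul_Lq μ Real.HolderConjugate.two_two hf
    (g := fun _ => (1 : ENNReal)) aemeasurable_const
  simp only [Pi.mul_apply, mul_one, ENNReal.one_rpow, lintegral_const, one_mul] at h
  have h2 := pow_le_pow_left' h 2
  refine le_trans h2 (le_of_eq ?_)
  rw [mul_pow, ← ENNReal.rpow_natCast, ← ENNReal.rpow_natCast, ← ENNReal.rpow_mul,
    ← ENNReal.rpow_mul]
  norm_num
  rw [mul_comm]

/-- area of the intersection of two thin annuli -/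
noncomputable def bt (A : ℝ × ℝ × ℝ) (B s s' : ℝ) (h : ℝ × ℝ) : ENNReal :=
  volume {x : ℝ × ℝ | |qf A x - s| ≤ B ∧ |qf A (x + h) - s'| ≤ B}

/-- centre of the strip -/
noncomputable def zz (ρ s s' : ℝ) : ℝ := (s' - s - ρ ^ 2) / (2 * ρ)

theorem bt_le_strip {A : ℝ × ℝ × ℝ} {h : ℝ × ℝ} (hd : 0 < disc A) (hh : 0 < qf A h)
    {B : ℝ} (hB : 0 ≤ B) (s s' : ℝ) :
    bt A B s s' h ≤ ENNReal.ofReal (Real.sqrt (disc A))⁻¹ *
      ∫⁻ z in Set.Icc (zz (Real.sqrt (qf A h)) s s' - B / Real.sqrt (qf A h))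
        (zz (Real.sqrt (qf A h)) s s' + B / Real.sqrt (qf A h)), sl B s z := by
  set ρ := Real.sqrt (qf A h) with hρ
  have hρ0 : 0 < ρ := Real.sqrt_pos.mpr hh
  set I := Set.Icc (zz ρ s s' - B / ρ) (zz ρ s s' + B / ρ) with hI
  set E : Set (ℝ × ℝ) := {z | z.1 ∈ I ∧ |z.1 ^ 2 + z.2 ^ 2 - s| ≤ B} with hE
  have hEm : MeasurableSet E := by
    have h1 : MeasurableSet {z : ℝ × ℝ | |z.1 ^ 2 + z.2 ^ 2 - s| ≤ B} :=
      measurableSet_le (by fun_prop) measurable_const
    exact (measurable_fst measurableSet_Icc).inter h1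
  have hsub : {x : ℝ × ℝ | |qf A x - s| ≤ B ∧ |qf A (x + h) - s'| ≤ B} ⊆ (zc A h) ⁻¹' E := by
    intro x hx
    obtain ⟨h1, h2⟩ := hx
    refine ⟨?_, ?_⟩
    · rw [qf_add_zc hd hh, zc_sq hd hh, ← hρ] at h2
      rw [abs_le] at h1 h2
      have e : (zc A h x).1 - zz ρ s s' = (2 * ρ * (zc A h x).1 + ρ ^ 2 - (s' - s)) / (2 * ρ) := by
        unfold zz
        field_simp
        ring
      have h3 : |(zc A h x).1 - zz ρ s s'| ≤ B / ρ := by
        rw [e, abs_div, abs_of_pos (by positivity : (0 : ℝ) < 2 * ρ), div_le_div_iff₀ (by positivity) hρ0]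
        have h4 : |2 * ρ * (zc A h x).1 + ρ ^ 2 - (s' - s)| ≤ 2 * B := by
          rw [abs_le]; constructor <;> linarith [h1.1, h1.2, h2.1, h2.2]
        nlinarith
      rw [abs_le] at h3
      constructor <;> linarith [h3.1, h3.2]
    · change |(zc A h x).1 ^ 2 + (zc A h x).2 ^ 2 - s| ≤ B
      rw [zc_sq hd hh]; exact h1
  have hzc : Measurable (zc A h) := by
    have : (zc A h) = zl A h := by ext x <;> rw [zl_apply]
    rw [this]
    exact (zl A h).continuous_of_finiteDimensional.measurable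
  calc bt A B s s' h ≤ volume ((zc A h) ⁻¹' E) := measure_mono hsub
    _ = ∫⁻ x, (E.indicator 1) (zc A h x) := by
        rw [← lintegral_indicator_one (hzc hEm)]
        rfl
    _ = ENNReal.ofReal (Real.sqrt (disc A))⁻¹ * ∫⁻ z, E.indicator 1 z :=
        lintegral_zc hd hh _ (measurable_one.indicator hEm)
    _ = _ := by
        congr 1
        rw [lintegral_indicator_one hEm, Measure.volume_eq_prod, Measure.prod_apply hEm,
          ← lintegral_indicator measurableSet_Icc]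
        congr 1
        ext z
        by_cases hz : z ∈ I
        · rw [Set.indicator_of_mem hz]
          unfold sl
          congr 1
          ext y
          simp only [hE, Set.mem_preimage, Set.mem_ofPred_eq]
          exact ⟨fun h => h.2, fun h => ⟨hz, h⟩⟩
        · rw [Set.indicator_of_notMem hz]
          have : (Prod.mk z ⁻¹' E) = ∅ := by
            ext y
            simp only [hE, Set.mem_preimage, Set.mem_ofPred_eq, Set.mem_empty_iff_false, iff_false]
            exact fun h => hz h.1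
          rw [this, measure_empty]

theorem disc_pos_of_KM {M : ℝ} (hM : 1 ≤ M) {A : ℝ × ℝ × ℝ} (hA : A ∈ KM M) : 0 < disc A := by
  have := (KM_disc hM hA).1
  exact lt_of_lt_of_le (by positivity) this

theorem inv_sqrt_disc_le {M : ℝ} (hM : 1 ≤ M) {A : ℝ × ℝ × ℝ} (hA : A ∈ KM M) :
    (Real.sqrt (disc A))⁻¹ ≤ M := by
  have hM0 : 0 < M := by linarith
  have hd := (KM_disc hM hA).1
  have h2 : 1 / M ≤ Real.sqrt (disc A) := by
    rw [show (1 : ℝ) / M = Real.sqrt (1 / M ^ 2) by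
      rw [Real.sqrt_div (by norm_num), Real.sqrt_one, Real.sqrt_sq hM0.le]]
    exact Real.sqrt_le_sqrt hd
  rw [inv_le_comm₀ (Real.sqrt_pos.mpr (disc_pos_of_KM hM hA)) hM0, ← one_div]
  exact h2

theorem qf_nonneg {M : ℝ} (hM : 1 ≤ M) {A : ℝ × ℝ × ℝ} (hA : A ∈ KM M) (x : ℝ × ℝ) :
    0 ≤ qf A x :=
  le_trans (div_nonneg (nr_nonneg x) (by linarith)) (hA x).1

/-- area of one annulus -/
theorem area_ann {M : ℝ} (hM : 1 ≤ M) {A : ℝ × ℝ × ℝ} (hA : A ∈ KM M) {B : ℝ} (hB : 0 ≤ B)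
    (s : ℝ) : volume {x : ℝ × ℝ | |qf A x - s| ≤ B} ≤ ENNReal.ofReal (8 * M * B) := by
  have h := Annul.main_area_annulus Area.main_area_ellipse M hM A hA (s - B) (2 * B) (by linarith)
  refine le_trans (measure_mono ?_) (le_trans h (ENNReal.ofReal_le_ofReal (by linarith)))
  intro x hx
  have hx' : |qf A x - s| ≤ B := hx
  rw [abs_le] at hx'
  exact ⟨by linarith [hx'.1], by linarith [hx'.2]⟩

theorem bt_le_area {M : ℝ} (hM : 1 ≤ M) {A : ℝ × ℝ × ℝ} (hA : A ∈ KM M) {B : ℝ} (hB : 0 ≤ B)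
    (s s' : ℝ) (h : ℝ × ℝ) : bt A B s s' h ≤ ENNReal.ofReal (8 * M * B) :=
  le_trans (measure_mono fun _ hx => hx.1) (area_ann hM hA hB s)

theorem measurable_bt (A : ℝ × ℝ × ℝ) (B : ℝ) (h : ℝ × ℝ) :
    Measurable (fun p : ℝ × ℝ => bt A B p.1 p.2 h) := by
  have hm : MeasurableSet {p : (ℝ × ℝ) × (ℝ × ℝ) | |qf A p.2 - p.1.1| ≤ B ∧
      |qf A (p.2 + h) - p.1.2| ≤ B} := by
    have hq := measurable_qf A
    have h1 : MeasurableSet {p : (ℝ × ℝ) × (ℝ × ℝ) | |qf A p.2 - p.1.1| ≤ B} :=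
      measurableSet_le (by fun_prop) measurable_const
    have h2 : MeasurableSet {p : (ℝ × ℝ) × (ℝ × ℝ) | |qf A (p.2 + h) - p.1.2| ≤ B} :=
      measurableSet_le (by fun_prop) measurable_const
    exact h1.inter h2
  exact measurable_measure_prodMk_left hm

/-- mean over the position -/
theorem lint_bt {M : ℝ} (hM : 1 ≤ M) {A : ℝ × ℝ × ℝ} (hA : A ∈ KM M) {B : ℝ} (hB : 0 ≤ B)
    (s : ℝ) (h : ℝ × ℝ) : ∫⁻ s', bt A B s s' h ≤ ENNReal.ofReal (16 * M * B ^ 2) := by
  have hq := measurable_qf A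
  have hm : MeasurableSet {p : ℝ × (ℝ × ℝ) | |qf A p.2 - s| ≤ B ∧
      |qf A (p.2 + h) - p.1| ≤ B} := by
    have h1 : MeasurableSet {p : ℝ × (ℝ × ℝ) | |qf A p.2 - s| ≤ B} :=
      measurableSet_le (by fun_prop) measurable_const
    have h2 : MeasurableSet {p : ℝ × (ℝ × ℝ) | |qf A (p.2 + h) - p.1| ≤ B} :=
      measurableSet_le (by fun_prop) measurable_const
    exact h1.inter h2
  have e1 : ∫⁻ s', bt A B s s' h = ∫⁻ x, volume {s' : ℝ | |qf A x - s| ≤ B ∧
      |qf A (x + h) - s'| ≤ B} := by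
    have a1 := Measure.prod_apply (μ := (volume : Measure ℝ)) (ν := (volume : Measure (ℝ × ℝ))) hm
    have a2 := Measure.prod_apply_symm (μ := (volume : Measure ℝ)) (ν := (volume : Measure (ℝ × ℝ))) hm
    exact a1.symm.trans a2
  rw [e1]
  have e2 : ∀ x : ℝ × ℝ, volume {s' : ℝ | |qf A x - s| ≤ B ∧ |qf A (x + h) - s'| ≤ B} ≤
      ({x : ℝ × ℝ | |qf A x - s| ≤ B}).indicator (fun _ => ENNReal.ofReal (2 * B)) x := by
    intro x
    by_cases hx : |qf A x - s| ≤ B
    · rw [Set.indicator_of_mem (show x ∈ {x : ℝ × ℝ | |qf A x - s| ≤ B} from hx)]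
      have : {s' : ℝ | |qf A x - s| ≤ B ∧ |qf A (x + h) - s'| ≤ B} ⊆
          Set.Icc (qf A (x + h) - B) (qf A (x + h) + B) := by
        rintro s' ⟨-, h2⟩
        rw [abs_le] at h2
        exact ⟨by linarith [h2.1, h2.2], by linarith [h2.1, h2.2]⟩
      refine le_trans (measure_mono this) (le_of_eq ?_)
      rw [Real.volume_Icc]
      congr 1; ring
    · have : {s' : ℝ | |qf A x - s| ≤ B ∧ |qf A (x + h) - s'| ≤ B} = ∅ := by
        ext s'
        simp only [Set.mem_ofPred_eq, Set.mem_empty_iff_false, iff_false]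
        exact fun h => hx h.1
      rw [this, measure_empty]
      exact zero_le
  refine le_trans (lintegral_mono e2) ?_
  rw [lintegral_indicator_const (measurableSet_le (by fun_prop) measurable_const)]
  refine le_trans (mul_le_mul_right (area_ann hM hA hB s) _) (le_of_eq ?_)
  rw [← ENNReal.ofReal_mul (by positivity)]
  congr 1; ring

/-- mean square over the position -/
theorem lint_bt_sq {M : ℝ} (hM : 1 ≤ M) {A : ℝ × ℝ × ℝ} (hA : A ∈ KM M) {B : ℝ} (hB : 0 ≤ B)
    {s a : ℝ} (ha : 1 ≤ a) (ha2 : a ^ 2 = s + B) {h : ℝ × ℝ} (hh : 0 < qf A h) :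
    ∫⁻ s', bt A B s s' h ^ 2 ≤
      ENNReal.ofReal (M ^ 2 * (8 * B ^ 2) * (16 * B + 64 * B ^ 2 * Real.log a) /
        (Real.sqrt (qf A h) * a)) := by
  set ρ := Real.sqrt (qf A h) with hρ
  have hρ0 : 0 < ρ := Real.sqrt_pos.mpr hh
  have hd := disc_pos_of_KM hM hA
  have hsl := measurable_sl B s
  have hM0 : 0 < M := by linarith
  have step1 : ∀ s' : ℝ, bt A B s s' h ^ 2 ≤ ENNReal.ofReal (M ^ 2) * (ENNReal.ofReal (2 * B / ρ) *
      ∫⁻ z in Set.Icc (zz ρ s s' - B / ρ) (zz ρ s s' + B / ρ), sl B s z ^ 2) := by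
    intro s'
    have h1 := bt_le_strip hd hh hB s s'
    rw [← hρ] at h1
    refine le_trans (pow_le_pow_left' h1 2) ?_
    rw [mul_pow, ← ENNReal.ofReal_pow (inv_nonneg.mpr (Real.sqrt_nonneg _))]
    refine mul_le_mul' (ENNReal.ofReal_le_ofReal ?_) ?_
    · exact pow_le_pow_left₀ (inv_nonneg.mpr (Real.sqrt_nonneg _)) (inv_sqrt_disc_le hM hA) 2
    · refine le_trans (lint_sq_le _ _ hsl.aemeasurable) ?_
      rw [Measure.restrict_apply_univ, Real.volume_Icc]
      refine mul_le_mul_left (ENNReal.ofReal_le_ofReal (le_of_eq ?_)) _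
      ring
  have step2 : ∫⁻ s', ∫⁻ z in Set.Icc (zz ρ s s' - B / ρ) (zz ρ s s' + B / ρ), sl B s z ^ 2 =
      ∫⁻ z, ENNReal.ofReal (4 * B) * sl B s z ^ 2 := by
    have e1 : ∀ s' : ℝ, ∫⁻ z in Set.Icc (zz ρ s s' - B / ρ) (zz ρ s s' + B / ρ), sl B s z ^ 2 =
        ∫⁻ z, ({p : ℝ × ℝ | |p.1 - (s + ρ ^ 2 + 2 * ρ * p.2)| ≤ 2 * B}).indicator
          (fun p => sl B s p.2 ^ 2) (s', z) := by
      intro s'
      rw [← lintegral_indicator measurableSet_Icc]
      congr 1
      ext z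
      have hiff : z ∈ Set.Icc (zz ρ s s' - B / ρ) (zz ρ s s' + B / ρ) ↔
          (s', z) ∈ {p : ℝ × ℝ | |p.1 - (s + ρ ^ 2 + 2 * ρ * p.2)| ≤ 2 * B} := by
        simp only [Set.mem_ofPred_eq, Set.mem_Icc, abs_le]
        have e2 : zz ρ s s' - B / ρ = (s' - s - ρ ^ 2 - 2 * B) / (2 * ρ) := by
          unfold zz; field_simp
        have e3 : zz ρ s s' + B / ρ = (s' - s - ρ ^ 2 + 2 * B) / (2 * ρ) := by
          unfold zz; field_simp
        rw [e2, e3, div_le_iff₀ (by positivity), le_div_iff₀ (by positivity)]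
        constructor
        · rintro ⟨h1, h2⟩; constructor <;> linarith
        · rintro ⟨h1, h2⟩; constructor <;> linarith
      by_cases hz : z ∈ Set.Icc (zz ρ s s' - B / ρ) (zz ρ s s' + B / ρ)
      · rw [Set.indicator_of_mem hz, Set.indicator_of_mem (hiff.mp hz)]
      · rw [Set.indicator_of_notMem hz, Set.indicator_of_notMem (fun h => hz (hiff.mpr h))]
    simp only [e1]
    have hmI : MeasurableSet {p : ℝ × ℝ | |p.1 - (s + ρ ^ 2 + 2 * ρ * p.2)| ≤ 2 * B} :=
      measurableSet_le (by fun_prop) measurable_const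
    rw [lintegral_lintegral_swap]
    · congr 1
      ext z
      have e4 : ∀ s' : ℝ, ({p : ℝ × ℝ | |p.1 - (s + ρ ^ 2 + 2 * ρ * p.2)| ≤ 2 * B}).indicator
          (fun p => sl B s p.2 ^ 2) (s', z) =
          (Set.Icc (s + ρ ^ 2 + 2 * ρ * z - 2 * B) (s + ρ ^ 2 + 2 * ρ * z + 2 * B)).indicator
            (fun _ => sl B s z ^ 2) s' := by
        intro s'
        have hiff : s' ∈ Set.Icc (s + ρ ^ 2 + 2 * ρ * z - 2 * B) (s + ρ ^ 2 + 2 * ρ * z + 2 * B) ↔
            (s', z) ∈ {p : ℝ × ℝ | |p.1 - (s + ρ ^ 2 + 2 * ρ * p.2)| ≤ 2 * B} := by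
          simp only [Set.mem_ofPred_eq, Set.mem_Icc, abs_le]
          constructor
          · rintro ⟨h1, h2⟩; constructor <;> linarith
          · rintro ⟨h1, h2⟩; constructor <;> linarith
        by_cases hz : s' ∈ Set.Icc (s + ρ ^ 2 + 2 * ρ * z - 2 * B) (s + ρ ^ 2 + 2 * ρ * z + 2 * B)
        · rw [Set.indicator_of_mem hz, Set.indicator_of_mem (hiff.mp hz)]
        · rw [Set.indicator_of_notMem hz, Set.indicator_of_notMem (fun h => hz (hiff.mpr h))]
      simp only [e4]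
      rw [lintegral_indicator_const measurableSet_Icc, Real.volume_Icc, mul_comm]
      congr 2
      ring
    · have : Measurable (({p : ℝ × ℝ | |p.1 - (s + ρ ^ 2 + 2 * ρ * p.2)| ≤ 2 * B}).indicator
          (fun p => sl B s p.2 ^ 2)) :=
        ((hsl.comp measurable_snd).pow_const 2).indicator hmI
      exact this.aemeasurable
  calc ∫⁻ s', bt A B s s' h ^ 2 ≤ ∫⁻ s', ENNReal.ofReal (M ^ 2) * (ENNReal.ofReal (2 * B / ρ) *
      ∫⁻ z in Set.Icc (zz ρ s s' - B / ρ) (zz ρ s s' + B / ρ), sl B s z ^ 2) :=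
        lintegral_mono step1
    _ = ENNReal.ofReal (M ^ 2) * (ENNReal.ofReal (2 * B / ρ) * (ENNReal.ofReal (4 * B) *
          ∫⁻ z, sl B s z ^ 2)) := by
        rw [lintegral_const_mul' _ _ ENNReal.ofReal_ne_top,
          lintegral_const_mul' _ _ ENNReal.ofReal_ne_top, step2,
          lintegral_const_mul' _ _ ENNReal.ofReal_ne_top]
    _ ≤ ENNReal.ofReal (M ^ 2) * (ENNReal.ofReal (2 * B / ρ) * (ENNReal.ofReal (4 * B) *
          ENNReal.ofReal ((16 * B + 64 * B ^ 2 * Real.log a) / a))) := by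
        gcongr
        exact lint_sl_sq hB ha ha2
    _ = _ := by
        rw [← ENNReal.ofReal_mul (by positivity), ← ENNReal.ofReal_mul (by positivity),
          ← ENNReal.ofReal_mul (by positivity)]
        congr 1
        have ha0 : 0 < a := by linarith
        field_simp
        ring

end Pool.Agent.Helper30_FC
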