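import Pool.Agent.Helper30_FC.Tile
import Pool.Agent.Helper30_FC.Strip

/-!
MP_f5cbfa_nt, frozen S18989 (helper30): trivial count of lattice points in a ring of width one
around an ellipse.
-/

set_option autoImplicit false

open MeasureTheory Set

namespace Pool.Agent.Helper30_FC

open Pool.Agent.BTL

/-- norm attached to the form -/
noncomputable def rr (A : ℝ × ℝ × ℝ) (x : ℝ × ℝ) : ℝ := Real.sqrt (qf A x)

theorem rr_nonneg (A : ℝ × ℝ × ℝ) (x : ℝ × ℝ) : 0 ≤ rr A x := Real.sqrt_nonneg _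

theorem rr_sq {M : ℝ} (hM : 1 ≤ M) {A : ℝ × ℝ × ℝ} (hA : A ∈ KM M) (x : ℝ × ℝ) :
    rr A x ^ 2 = qf A x := Real.sq_sqrt (qf_nonneg hM hA x)

theorem abs_bf_le {M : ℝ} (hM : 1 ≤ M) {A : ℝ × ℝ × ℝ} (hA : A ∈ KM M) (x y : ℝ × ℝ) :
    |bf A x y| ≤ rr A x * rr A y := by
  have h1 := qf_mul_qf A x y
  have h2 : 0 ≤ disc A * cd x y ^ 2 := mul_nonneg (disc_pos_of_KM hM hA).le (sq_nonneg _)
  rw [rr, rr, ← Real.sqrt_mul (qf_nonneg hM hA x)]
  exact Real.abs_le_sqrt (by linarith)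

theorem rr_add_le {M : ℝ} (hM : 1 ≤ M) {A : ℝ × ℝ × ℝ} (hA : A ∈ KM M) (x y : ℝ × ℝ) :
    rr A (x + y) ≤ rr A x + rr A y := by
  have h1 := qf_add A x y
  have h2 := abs_le.mp (abs_bf_le hM hA x y)
  rw [rr]
  apply Real.sqrt_le_iff.mpr
  refine ⟨add_nonneg (rr_nonneg _ _) (rr_nonneg _ _), ?_⟩
  rw [h1, ← rr_sq hM hA x, ← rr_sq hM hA y]
  nlinarith [h2.2]

theorem rr_neg (A : ℝ × ℝ × ℝ) (x : ℝ × ℝ) : rr A (-x) = rr A x := by
  unfold rr qf; congr 1; simp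

theorem rr_sub_le {M : ℝ} (hM : 1 ≤ M) {A : ℝ × ℝ × ℝ} (hA : A ∈ KM M) (x y : ℝ × ℝ) :
    rr A x - rr A y ≤ rr A (x + y) := by
  have := rr_add_le hM hA (x + y) (-y)
  rw [rr_neg, add_neg_cancel_right] at this
  linarith

theorem nr_sq0 {z : ℝ × ℝ} (hz : z ∈ sq0) : nr z ≤ 1 := by
  obtain ⟨⟨h1, h2⟩, h3, h4⟩ := hz
  unfold nr
  nlinarith

theorem rr_sq0 {M : ℝ} (hM : 1 ≤ M) {A : ℝ × ℝ × ℝ} (hA : A ∈ KM M) {z : ℝ × ℝ} (hz : z ∈ sq0) :
    rr A z ≤ M := by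
  have h1 := (hA z).2
  have h2 := nr_sq0 hz
  rw [rr]
  apply Real.sqrt_le_iff.mpr
  refine ⟨by linarith, ?_⟩
  have h3 := nr_nonneg z
  nlinarith

theorem measurable_rr (A : ℝ × ℝ × ℝ) : Measurable (rr A) := (measurable_qf A).sqrt

/-- ring count -/
theorem ring_count {M : ℝ} (hM : 1 ≤ M) {A : ℝ × ℝ × ℝ} (hA : A ∈ KM M) {u : ℝ} (hu : 0 ≤ u)
    (S : Finset (ℤ × ℤ)) (hS : ∀ h ∈ S, u ≤ rr A (rc h) ∧ rr A (rc h) ≤ u + 1) :
    (S.card : ENNReal) ≤ ENNReal.ofReal (48 * M ^ 3 * (u + 1)) := by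
  have hM0 : 0 < M := by linarith
  set lo : ℝ := max (u - M) 0 with hlo
  set hi : ℝ := u + 1 + M with hhi
  have hlo0 : 0 ≤ lo := le_max_right _ _
  have hlohi : lo ≤ hi := max_le (by linarith) (by linarith)
  have hU : MeasurableSet {y : ℝ × ℝ | lo ^ 2 ≤ qf A y ∧ qf A y ≤ lo ^ 2 + (hi ^ 2 - lo ^ 2)} := by
    have hq := measurable_qf A
    exact (measurableSet_le measurable_const hq).inter (measurableSet_le hq measurable_const)
  refine le_trans (card_le_volume S _ hU ?_) ?_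
  · intro h hh z hz
    obtain ⟨h1, h2⟩ := hS h hh
    have h3 := rr_add_le hM hA (rc h) z
    have h4 := rr_sub_le hM hA (rc h) z
    have h5 := rr_sq0 hM hA hz
    have h6 := rr_nonneg A (rc h + z)
    have h7 : lo ≤ rr A (rc h + z) := max_le (by linarith) h6
    have h8 : rr A (rc h + z) ≤ hi := by linarith
    have h9 := rr_sq hM hA (rc h + z)
    change lo ^ 2 ≤ qf A (rc h + z) ∧ qf A (rc h + z) ≤ lo ^ 2 + (hi ^ 2 - lo ^ 2)
    rw [← h9]
    constructor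
    · exact pow_le_pow_left₀ hlo0 h7 2
    · have := pow_le_pow_left₀ h6 h8 2
      linarith
  · have h1 := Annul.main_area_annulus Area.main_area_ellipse M hM A hA (lo ^ 2) (hi ^ 2 - lo ^ 2)
      (by nlinarith)
    refine le_trans h1 (ENNReal.ofReal_le_ofReal ?_)
    have h2 : hi - lo ≤ 1 + 2 * M := by
      have : u - M ≤ lo := le_max_left _ _
      linarith
    have h3 : hi + lo ≤ 2 * (u + 1 + M) := by linarith
    have h4 : hi ^ 2 - lo ^ 2 ≤ (1 + 2 * M) * (2 * (u + 1 + M)) := by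
      have : hi ^ 2 - lo ^ 2 = (hi - lo) * (hi + lo) := by ring
      rw [this]
      exact mul_le_mul h2 h3 (by linarith) (by linarith)
    have h5 : (1 + 2 * M) * (2 * (u + 1 + M)) ≤ (3 * M) * (2 * (2 * M * (u + 1))) := by
      apply mul_le_mul (by linarith) _ (by positivity) (by positivity)
      nlinarith
    calc 4 * M * (hi ^ 2 - lo ^ 2) ≤ 4 * M * ((3 * M) * (2 * (2 * M * (u + 1)))) := by
          apply mul_le_mul_of_nonneg_left (le_trans h4 h5) (by positivity)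
      _ = 48 * M ^ 3 * (u + 1) := by ring

end Pool.Agent.Helper30_FC
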