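import Mathlib

/-!
MP_f5cbfa_nt, frozen S18989 (helper30): lengths of the slices of a thin annulus.
-/

set_option autoImplicit false

open MeasureTheory Set

namespace Pool.Agent.Helper30_FC

/-- length of the slice of the annulus `|z² + y² - s| ≤ B` -/
noncomputable def sl (B s z : ℝ) : ENNReal := volume {y : ℝ | |z ^ 2 + y ^ 2 - s| ≤ B}

theorem measurable_sl (B s : ℝ) : Measurable (sl B s) := by
  have hm : MeasurableSet {p : ℝ × ℝ | |p.1 ^ 2 + p.2 ^ 2 - s| ≤ B} := by
    refine measurableSet_le ?_ measurable_const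
    fun_prop
  exact measurable_measure_prodMk_left hm

theorem sl_zero {B s z : ℝ} (h : s + B < z ^ 2) : sl B s z = 0 := by
  have : {y : ℝ | |z ^ 2 + y ^ 2 - s| ≤ B} = ∅ := by
    ext y
    simp only [Set.mem_ofPred_eq, Set.mem_empty_iff_false, iff_false, not_le]
    have h1 := sq_nonneg y
    have h2 := le_abs_self (z ^ 2 + y ^ 2 - s)
    linarith
  rw [sl, this, measure_empty]

theorem sl_le_aux {B s z : ℝ} (h : z ^ 2 ≤ s + B) :
    sl B s z ≤ ENNReal.ofReal (2 * (Real.sqrt (s + B - z ^ 2) - Real.sqrt (s - B - z ^ 2))) := by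
  set a := Real.sqrt (s + B - z ^ 2) with ha
  set b := Real.sqrt (s - B - z ^ 2) with hb
  have hb0 : 0 ≤ b := Real.sqrt_nonneg _
  by_cases hB : B < 0
  · have : {y : ℝ | |z ^ 2 + y ^ 2 - s| ≤ B} = ∅ := by
      ext y
      simp only [Set.mem_ofPred_eq, Set.mem_empty_iff_false, iff_false, not_le]
      exact lt_of_lt_of_le hB (abs_nonneg _)
    rw [sl, this, measure_empty]
    exact zero_le
  push Not at hB
  have hba : b ≤ a := Real.sqrt_le_sqrt (by linarith)
  have hsub : {y : ℝ | |z ^ 2 + y ^ 2 - s| ≤ B} ⊆ Set.Icc b a ∪ Set.Icc (-a) (-b) := by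
    intro y hy
    have hy' : |z ^ 2 + y ^ 2 - s| ≤ B := hy
    rw [abs_le] at hy'
    have h1 : |y| ≤ a := Real.abs_le_sqrt (by linarith [hy'.2])
    have h2 : b ≤ |y| := by
      rw [hb, ← Real.sqrt_sq_eq_abs]
      exact Real.sqrt_le_sqrt (by linarith [hy'.1])
    rcases le_total 0 y with h0 | h0
    · left
      rw [abs_of_nonneg h0] at h1 h2
      exact ⟨h2, h1⟩
    · right
      rw [abs_of_nonpos h0] at h1 h2
      exact ⟨by linarith, by linarith⟩
  calc sl B s z ≤ volume (Set.Icc b a ∪ Set.Icc (-a) (-b)) := measure_mono hsub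
    _ ≤ volume (Set.Icc b a) + volume (Set.Icc (-a) (-b)) := measure_union_le _ _
    _ = ENNReal.ofReal (a - b) + ENNReal.ofReal (a - b) := by
        rw [Real.volume_Icc, Real.volume_Icc]
        congr 2; ring
    _ = ENNReal.ofReal (2 * (a - b)) := by
        rw [← ENNReal.ofReal_add (by linarith) (by linarith)]
        congr 1; ring

theorem sl_le_inv {B s z : ℝ} (hB : 0 ≤ B) (h : z ^ 2 < s + B) :
    sl B s z ≤ ENNReal.ofReal (4 * B / Real.sqrt (s + B - z ^ 2)) := by
  refine le_trans (sl_le_aux h.le) (ENNReal.ofReal_le_ofReal ?_)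
  set a := Real.sqrt (s + B - z ^ 2) with ha
  set b := Real.sqrt (s - B - z ^ 2) with hb
  have ha0 : 0 < a := Real.sqrt_pos.mpr (by linarith)
  have hb0 : 0 ≤ b := Real.sqrt_nonneg _
  have ha2 : a ^ 2 = s + B - z ^ 2 := Real.sq_sqrt (by linarith)
  have hb2 : s - B - z ^ 2 ≤ b ^ 2 := by
    rcases le_total 0 (s - B - z ^ 2) with h0 | h0
    · rw [hb, Real.sq_sqrt h0]
    · exact le_trans h0 (sq_nonneg b)
  have hba : b ≤ a := Real.sqrt_le_sqrt (by linarith)
  rw [le_div_iff₀ ha0]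
  nlinarith

theorem sl_le_sqrt {B s z : ℝ} (h : z ^ 2 ≤ s + B) :
    sl B s z ≤ ENNReal.ofReal (2 * Real.sqrt (s + B - z ^ 2)) := by
  refine le_trans (sl_le_aux h) (ENNReal.ofReal_le_ofReal ?_)
  have := Real.sqrt_nonneg (s - B - z ^ 2)
  linarith

theorem sl_sq_le {B s z : ℝ} (hB : 0 ≤ B) : sl B s z ^ 2 ≤ ENNReal.ofReal (8 * B) := by
  rcases lt_trichotomy (z ^ 2) (s + B) with h | h | h
  · have h1 := sl_le_inv hB h
    have h2 := sl_le_sqrt h.le
    have ha0 : 0 < Real.sqrt (s + B - z ^ 2) := Real.sqrt_pos.mpr (by linarith)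
    rw [pow_two]
    refine le_trans (mul_le_mul' h1 h2) (le_of_eq ?_)
    rw [← ENNReal.ofReal_mul (by positivity)]
    congr 1
    field_simp
    ring
  · have h2 := sl_le_sqrt (B := B) (s := s) (z := z) h.le
    rw [h, sub_self, Real.sqrt_zero, mul_zero, ENNReal.ofReal_zero] at h2
    have : sl B s z = 0 := le_antisymm h2 zero_le
    rw [this]; simp
  · rw [sl_zero h]; simp

/-- in terms of `a = √(s+B)` -/
theorem sl_le_a {B s z a : ℝ} (hB : 0 ≤ B) (ha : 0 < a) (ha2 : a ^ 2 = s + B) (hz : |z| < a) :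
    sl B s z ≤ ENNReal.ofReal (4 * B / Real.sqrt (a * (a - |z|))) := by
  have h1 : z ^ 2 < s + B := by
    rw [← ha2, ← sq_abs z]
    exact pow_lt_pow_left₀ hz (abs_nonneg _) (by norm_num)
  refine le_trans (sl_le_inv hB h1) (ENNReal.ofReal_le_ofReal ?_)
  have h2 : 0 < a * (a - |z|) := mul_pos ha (by linarith)
  apply div_le_div_of_nonneg_left (by positivity) (Real.sqrt_pos.mpr h2)
  apply Real.sqrt_le_sqrt
  rw [← ha2, ← sq_abs z]
  nlinarith [abs_nonneg z]

theorem sl_zero_a {B s z a : ℝ} (ha : 0 < a) (ha2 : a ^ 2 = s + B) (hz : a < |z|) :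
    sl B s z = 0 := by
  apply sl_zero
  rw [← ha2, ← sq_abs z]
  exact pow_lt_pow_left₀ hz ha.le (by norm_num)

end Pool.Agent.Helper30_FC
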