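import Pool.Agent.Helper30_FC.Tile
import Pool.Agent.Helper30_FC.Strip
import Pool.Agent.F5S.Defs

/-!
MP_f5cbfa_nt, frozen S18989 (helper30): unit cubes tile the space of triples; the variance
inequality.
-/

set_option autoImplicit false

open MeasureTheory Set

namespace Pool.Agent.Helper30_FC

open Pool.Agent.BTL Pool.Agent.F5S

instance instHaar4 : (volume : Measure ((ℝ × ℝ) × (ℝ × ℝ))).IsAddHaarMeasure :=
  Measure.prod.instIsAddHaarMeasure (volume : Measure (ℝ × ℝ)) (volume : Measure (ℝ × ℝ))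

instance instHaar6 : (volume : Measure R6).IsAddHaarMeasure :=
  Measure.prod.instIsAddHaarMeasure (volume : Measure (ℝ × ℝ))
    (volume : Measure ((ℝ × ℝ) × (ℝ × ℝ)))

/-- unit cube in the space of triples -/
def sq6 : Set R6 := sq0 ×ˢ (sq0 ×ˢ sq0)

theorem measurableSet_sq6 : MeasurableSet sq6 :=
  measurableSet_sq0.prod (measurableSet_sq0.prod measurableSet_sq0)

theorem vol_sq6 : (volume : Measure R6) sq6 = 1 := by
  have e1 : (volume : Measure R6) = (volume : Measure (ℝ × ℝ)).prod
      ((volume : Measure (ℝ × ℝ)).prod (volume : Measure (ℝ × ℝ))) := rfl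
  rw [sq6, e1, Measure.prod_prod, Measure.prod_prod, vol_sq0]
  norm_num

/-- nearest integer triple -/
noncomputable def rnd6 (x : R6) : Z6 := (rnd x.1, rnd x.2.1, rnd x.2.2)

theorem mem_sq6_iff (x : R6) (h : Z6) : x - r3 h ∈ sq6 ↔ h = rnd6 x := by
  unfold sq6 r3 rnd6
  rw [Set.mem_prod, Set.mem_prod]
  simp only [Prod.fst_sub, Prod.snd_sub]
  rw [mem_sq0_iff, mem_sq0_iff, mem_sq0_iff]
  constructor
  · rintro ⟨h1, h2, h3⟩
    rw [← h1, ← h2, ← h3]
  · intro h1
    rw [h1]
    exact ⟨rfl, rfl, rfl⟩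

theorem measurable_rnd : Measurable rnd := by
  unfold rnd
  exact (Int.measurable_floor.comp (measurable_fst.add_const _)).prodMk
    (Int.measurable_floor.comp (measurable_snd.add_const _))

theorem measurable_rnd6 : Measurable rnd6 := by
  unfold rnd6
  exact (measurable_rnd.comp measurable_fst).prodMk
    ((measurable_rnd.comp (measurable_fst.comp measurable_snd)).prodMk
      (measurable_rnd.comp (measurable_snd.comp measurable_snd)))

/-- tiling of the space of triples by unit cubes -/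
theorem tile6 (f : R6 → ENNReal) (hf : Measurable f) :
    ∑' h : Z6, ∫⁻ z in sq6, f (r3 h + z) = ∫⁻ x, f x := by
  have e1 : ∀ h : Z6, ∫⁻ z in sq6, f (r3 h + z) =
      ∫⁻ x, ({x : R6 | h = rnd6 x}).indicator f x := by
    intro h
    rw [← lintegral_indicator measurableSet_sq6,
      ← lintegral_add_left_eq_self (fun x => ({x : R6 | h = rnd6 x}).indicator f x) (r3 h)]
    congr 1
    ext z
    by_cases hz : z ∈ sq6
    · have : r3 h + z ∈ {x : R6 | h = rnd6 x} := by
        change h = rnd6 (r3 h + z)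
        rw [← mem_sq6_iff, add_sub_cancel_left]; exact hz
      rw [Set.indicator_of_mem hz, Set.indicator_of_mem this]
    · have : r3 h + z ∉ {x : R6 | h = rnd6 x} := by
        change ¬ h = rnd6 (r3 h + z)
        rw [← mem_sq6_iff, add_sub_cancel_left]; exact hz
      rw [Set.indicator_of_notMem hz, Set.indicator_of_notMem this]
  have hms : ∀ h : Z6, MeasurableSet {x : R6 | h = rnd6 x} := fun h =>
    measurable_rnd6 (MeasurableSet.of_discrete (s := {k : Z6 | h = k}))
  simp only [e1]
  rw [← lintegral_tsum (fun h => (hf.indicator (hms h)).aemeasurable)]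
  congr 1
  ext x
  rw [tsum_eq_single (rnd6 x)]
  · rw [Set.indicator_of_mem]; rfl
  · intro b hb
    rw [Set.indicator_of_notMem]
    exact hb

theorem rc_add (a b : ℤ × ℤ) : rc (a + b) = rc a + rc b := by
  unfold rc
  ext <;> simp

theorem r3_add (a b : Z6) : r3 (a + b) = r3 a + r3 b := by
  unfold r3
  simp only [Prod.fst_add, Prod.snd_add, rc_add, Prod.mk_add_mk]

/-- the variance inequality -/
theorem var_ineq (u : R6 → ENNReal) (hu : Measurable u) :
    (∫⁻ x, u x) ^ 2 ≤ ∑' h : Z6, ∫⁻ x, u x * u (x + r3 h) := by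
  have hm : ∀ a : R6, Measurable (fun z : R6 => u (a + z)) := fun a => hu.comp (measurable_const_add a)
  have hS : Measurable (fun z : R6 => ∑' k : Z6, u (r3 k + z)) :=
    Measurable.tsum (fun k => hm _)
  have e1 : ∫⁻ x, u x = ∫⁻ z in sq6, ∑' k : Z6, u (r3 k + z) := by
    rw [← tile6 u hu, lintegral_tsum (fun k => (hm _).aemeasurable)]
  have h1 := lint_sq_le (volume.restrict sq6) (fun z => ∑' k : Z6, u (r3 k + z)) hS.aemeasurable
  rw [Measure.restrict_apply MeasurableSet.univ, Set.univ_inter, vol_sq6, one_mul, ← e1] at h1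
  refine le_trans h1 (le_of_eq ?_)
  have e2 : ∀ h : Z6, ∫⁻ x, u x * u (x + r3 h) =
      ∑' k : Z6, ∫⁻ z in sq6, u (r3 k + z) * u (r3 (k + h) + z) := by
    intro h
    rw [← tile6 (fun x => u x * u (x + r3 h)) (hu.mul (hu.comp (measurable_add_const _)))]
    refine tsum_congr fun k => ?_
    refine lintegral_congr fun z => ?_
    rw [r3_add, show r3 k + z + r3 h = r3 k + r3 h + z by abel]
  simp only [e2]
  have e3 : ∀ h k : Z6, Measurable (fun z : R6 => u (r3 k + z) * u (r3 (k + h) + z)) :=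
    fun h k => (hm _).mul (hm _)
  have e4 : ∀ h : Z6, ∑' k : Z6, ∫⁻ z in sq6, u (r3 k + z) * u (r3 (k + h) + z) =
      ∫⁻ z in sq6, ∑' k : Z6, u (r3 k + z) * u (r3 (k + h) + z) := by
    intro h
    rw [lintegral_tsum (fun k => (e3 h k).aemeasurable)]
  simp only [e4]
  rw [← lintegral_tsum (fun h => (Measurable.tsum (fun k => e3 h k)).aemeasurable)]
  refine lintegral_congr fun z => ?_
  rw [ENNReal.tsum_comm]
  have e5 : ∀ k : Z6, ∑' h : Z6, u (r3 k + z) * u (r3 (k + h) + z) =
      u (r3 k + z) * ∑' j : Z6, u (r3 j + z) := by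
    intro k
    rw [ENNReal.tsum_mul_left]
    congr 1
    exact (Equiv.addLeft k).tsum_eq (fun j => u (r3 j + z))
  simp only [e5]
  rw [ENNReal.tsum_mul_right, sq]

end Pool.Agent.Helper30_FC
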