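import Pool.Agent.BTL.Annul
import Pool.Agent.BTL.Area

/-!
MP_f5cbfa_nt, frozen S18989 (helper30): unit squares around integer points tile the plane;
trivial lattice point counts.
-/

set_option autoImplicit false

open MeasureTheory Set

namespace Pool.Agent.Helper30_FC

open Pool.Agent.BTL

/-- the nearest integer point -/
noncomputable def rnd (x : ℝ × ℝ) : ℤ × ℤ := (⌊x.1 + 1 / 2⌋, ⌊x.2 + 1 / 2⌋)

theorem mem_sq0_iff (x : ℝ × ℝ) (h : ℤ × ℤ) : x - rc h ∈ sq0 ↔ h = rnd x := by
  unfold sq0 rnd rc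
  simp only [Set.mem_prod, Set.mem_Ico, Prod.fst_sub, Prod.snd_sub]
  rw [Prod.ext_iff]
  simp only
  constructor
  · rintro ⟨⟨h1, h2⟩, h3, h4⟩
    refine ⟨?_, ?_⟩
    · symm; rw [Int.floor_eq_iff]; constructor <;> linarith
    · symm; rw [Int.floor_eq_iff]; constructor <;> linarith
  · rintro ⟨h1, h2⟩
    have e1 := (Int.floor_eq_iff.mp h1.symm)
    have e2 := (Int.floor_eq_iff.mp h2.symm)
    refine ⟨⟨?_, ?_⟩, ?_, ?_⟩ <;> linarith [e1.1, e1.2, e2.1, e2.2]

theorem measurableSet_sq0 : MeasurableSet sq0 := measurableSet_Ico.prod measurableSet_Ico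

/-- tiling of the plane by unit squares -/
theorem tile (f : ℝ × ℝ → ENNReal) (hf : Measurable f) :
    ∑' h : ℤ × ℤ, ∫⁻ z in sq0, f (rc h + z) = ∫⁻ x, f x := by
  have e1 : ∀ h : ℤ × ℤ, ∫⁻ z in sq0, f (rc h + z) =
      ∫⁻ x, ({x : ℝ × ℝ | h = rnd x}).indicator f x := by
    intro h
    rw [← lintegral_indicator measurableSet_sq0,
      ← lintegral_add_left_eq_self (fun x => ({x : ℝ × ℝ | h = rnd x}).indicator f x) (rc h)]
    congr 1
    ext z
    by_cases hz : z ∈ sq0
    · have : rc h + z ∈ {x : ℝ × ℝ | h = rnd x} := by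
        change h = rnd (rc h + z)
        rw [← mem_sq0_iff, add_sub_cancel_left]; exact hz
      rw [Set.indicator_of_mem hz, Set.indicator_of_mem this]
    · have : rc h + z ∉ {x : ℝ × ℝ | h = rnd x} := by
        change ¬ h = rnd (rc h + z)
        rw [← mem_sq0_iff, add_sub_cancel_left]; exact hz
      rw [Set.indicator_of_notMem hz, Set.indicator_of_notMem this]
  have hrnd : Measurable rnd := by
    unfold rnd
    exact (Int.measurable_floor.comp (measurable_fst.add_const _)).prodMk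
      (Int.measurable_floor.comp (measurable_snd.add_const _))
  have hms : ∀ h : ℤ × ℤ, MeasurableSet {x : ℝ × ℝ | h = rnd x} := fun h =>
    hrnd (MeasurableSet.of_discrete (s := {k : ℤ × ℤ | h = k}))
  simp only [e1]
  rw [← lintegral_tsum (fun h => (hf.indicator (hms h)).aemeasurable)]
  congr 1
  ext x
  rw [tsum_eq_single (rnd x)]
  · rw [Set.indicator_of_mem]; rfl
  · intro b hb
    rw [Set.indicator_of_notMem]
    exact hb

theorem vol_sq0 : (volume : Measure (ℝ × ℝ)) sq0 = 1 := by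
  rw [sq0, Measure.volume_eq_prod, Measure.prod_prod, Real.volume_Ico]
  norm_num

/-- upper bound of a lattice sum by an integral -/
theorem tsum_le_lintegral (a : ℤ × ℤ → ENNReal) (f : ℝ × ℝ → ENNReal) (hf : Measurable f)
    (h : ∀ k : ℤ × ℤ, ∀ z ∈ sq0, a k ≤ f (rc k + z)) : ∑' k, a k ≤ ∫⁻ x, f x := by
  rw [← tile f hf]
  refine ENNReal.tsum_le_tsum fun k => ?_
  calc a k = ∫⁻ _ in sq0, a k := by
        rw [setLIntegral_const, vol_sq0, mul_one]
    _ ≤ _ := setLIntegral_mono' measurableSet_sq0 (h k)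

open Classical in
/-- counting by area -/
theorem card_le_volume (S : Finset (ℤ × ℤ)) (U : Set (ℝ × ℝ)) (hU : MeasurableSet U)
    (h : ∀ k ∈ S, ∀ z ∈ sq0, rc k + z ∈ U) : (S.card : ENNReal) ≤ volume U := by
  have h1 := tsum_le_lintegral (fun k => if k ∈ S then 1 else 0) (U.indicator 1)
    (measurable_one.indicator hU) (by
      intro k z hz
      by_cases hk : k ∈ S
      · rw [Set.indicator_of_mem (h k hk z hz)]; simp [hk]
      · simp [hk])
  rw [lintegral_indicator_one hU] at h1
  refine le_trans (le_of_eq ?_) h1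
  rw [tsum_eq_sum (s := S) (by intro b hb; simp [hb])]
  rw [Finset.sum_congr rfl (g := fun _ => (1 : ENNReal)) (by intro x hx; simp [hx])]
  simp

end Pool.Agent.Helper30_FC
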