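import Pool.Agent.Helper30_FC.XDef

/-!
MP_f5cbfa_nt, frozen S18989 (helper30): change of variables from the forms to three values.
-/

set_option autoImplicit false

open MeasureTheory Set Filter

namespace Pool.Agent.Helper30_FC

open Pool.Agent.BTL Pool.Agent.F5S Pool.Agent.F5H

instance instHaar3 : (volume : Measure (ℝ × ℝ × ℝ)).IsAddHaarMeasure :=
  Measure.prod.instIsAddHaarMeasure (volume : Measure ℝ) (volume : Measure (ℝ × ℝ))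

/-- coordinates on `ℝ × ℝ × ℝ` -/
def e3 : (ℝ × ℝ × ℝ) ≃ₗ[ℝ] (Fin 3 → ℝ) where
  toFun v := ![v.1, v.2.1, v.2.2]
  invFun w := (w 0, w 1, w 2)
  map_add' v w := by
    ext i; fin_cases i <;> simp
  map_smul' c v := by
    ext i; fin_cases i <;> simp
  left_inv v := by simp
  right_inv w := by
    ext i; fin_cases i <;> simp

/-- the three values of a form -/
def Vx (x : R6) (A : ℝ × ℝ × ℝ) : ℝ × ℝ × ℝ := (qf A x.1, qf A x.2.1, qf A x.2.2)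

/-- the same as a linear map -/
def Vl (x : R6) : (ℝ × ℝ × ℝ) →ₗ[ℝ] (ℝ × ℝ × ℝ) where
  toFun A := Vx x A
  map_add' A A' := by
    unfold Vx qf
    ext <;> simp only [Prod.fst_add, Prod.snd_add] <;> ring
  map_smul' c A := by
    unfold Vx qf
    ext <;> simp only [Prod.smul_fst, Prod.smul_snd, smul_eq_mul, RingHom.id_apply] <;> ring

/-- the determinant of the three values -/
def De (x : R6) : ℝ := 2 * (dr x.1 x.2.1 * (dr x.1 x.2.2 * dr x.2.1 x.2.2))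

theorem det_Vl (x : R6) : LinearMap.det (Vl x) = De x := by
  have h := LinearMap.det_conj (Vl x) e3
  rw [← h]
  have e : (e3 : (ℝ × ℝ × ℝ) →ₗ[ℝ] (Fin 3 → ℝ)) ∘ₗ Vl x ∘ₗ
      (e3.symm : (Fin 3 → ℝ) →ₗ[ℝ] (ℝ × ℝ × ℝ)) = Matrix.toLin'
      !![x.1.1 ^ 2, 2 * x.1.1 * x.1.2, x.1.2 ^ 2;
         x.2.1.1 ^ 2, 2 * x.2.1.1 * x.2.1.2, x.2.1.2 ^ 2;
         x.2.2.1 ^ 2, 2 * x.2.2.1 * x.2.2.2, x.2.2.2 ^ 2] := by
    apply LinearMap.ext
    intro w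
    ext i
    rw [Matrix.toLin'_apply]
    fin_cases i
    · simp [e3, Vl, Vx, qf, Matrix.mulVec, dotProduct, Fin.sum_univ_three]
      ring
    · simp [e3, Vl, Vx, qf, Matrix.mulVec, dotProduct, Fin.sum_univ_three]
      ring
    · simp [e3, Vl, Vx, qf, Matrix.mulVec, dotProduct, Fin.sum_univ_three]
      ring
  rw [e, LinearMap.det_toLin', Matrix.det_fin_three]
  simp [De, dr]
  ring

/-- inverse of the three values -/
noncomputable def Ax (x : R6) (a : ℝ × ℝ × ℝ) : ℝ × ℝ × ℝ :=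
  (a.1 / (dr x.1 x.2.1 * dr x.1 x.2.2)) •
      ((x.2.1.2 * x.2.2.2, -(x.2.1.2 * x.2.2.1 + x.2.1.1 * x.2.2.2) / 2, x.2.1.1 * x.2.2.1) :
        ℝ × ℝ × ℝ) +
    ((a.2.1 / (dr x.2.1 x.1 * dr x.2.1 x.2.2)) •
      ((x.1.2 * x.2.2.2, -(x.1.2 * x.2.2.1 + x.1.1 * x.2.2.2) / 2, x.1.1 * x.2.2.1) :
        ℝ × ℝ × ℝ) +
    (a.2.2 / (dr x.2.2 x.1 * dr x.2.2 x.2.1)) •
      ((x.1.2 * x.2.1.2, -(x.1.2 * x.2.1.1 + x.1.1 * x.2.1.2) / 2, x.1.1 * x.2.1.1) :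
        ℝ × ℝ × ℝ))

theorem qf_Ax (x : R6) (a : ℝ × ℝ × ℝ) (y : ℝ × ℝ) : qf (Ax x a) y =
    a.1 / (dr x.1 x.2.1 * dr x.1 x.2.2) * (dr y x.2.1 * dr y x.2.2) +
    (a.2.1 / (dr x.2.1 x.1 * dr x.2.1 x.2.2) * (dr y x.1 * dr y x.2.2) +
    a.2.2 / (dr x.2.2 x.1 * dr x.2.2 x.2.1) * (dr y x.1 * dr y x.2.1)) := by
  unfold Ax qf
  simp only [Prod.fst_add, Prod.snd_add, Prod.smul_fst, Prod.smul_snd, smul_eq_mul]
  have e1 : dr y x.2.1 * dr y x.2.2 = x.2.1.2 * x.2.2.2 * y.1 ^ 2 +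
    2 * (-(x.2.1.2 * x.2.2.1 + x.2.1.1 * x.2.2.2) / 2) * y.1 * y.2 + x.2.1.1 * x.2.2.1 * y.2 ^ 2 := by
    unfold dr; ring
  have e2 : dr y x.1 * dr y x.2.2 = x.1.2 * x.2.2.2 * y.1 ^ 2 +
    2 * (-(x.1.2 * x.2.2.1 + x.1.1 * x.2.2.2) / 2) * y.1 * y.2 + x.1.1 * x.2.2.1 * y.2 ^ 2 := by
    unfold dr; ring
  have e3 : dr y x.1 * dr y x.2.1 = x.1.2 * x.2.1.2 * y.1 ^ 2 +
    2 * (-(x.1.2 * x.2.1.1 + x.1.1 * x.2.1.2) / 2) * y.1 * y.2 + x.1.1 * x.2.1.1 * y.2 ^ 2 := by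
    unfold dr; ring
  rw [e1, e2, e3]
  ring

/-- the three determinants do not vanish -/
def nd (x : R6) : Prop := dr x.1 x.2.1 ≠ 0 ∧ dr x.1 x.2.2 ≠ 0 ∧ dr x.2.1 x.2.2 ≠ 0

theorem dr_anti (x y : ℝ × ℝ) : dr y x = -dr x y := by unfold dr; ring

theorem dr_self (x : ℝ × ℝ) : dr x x = 0 := by unfold dr; ring

theorem Vx_Ax {x : R6} (hx : nd x) (a : ℝ × ℝ × ℝ) : Vx x (Ax x a) = a := by
  obtain ⟨h12, h13, h23⟩ := hx
  unfold Vx
  rw [qf_Ax, qf_Ax, qf_Ax, dr_self, dr_self, dr_self, dr_anti x.1 x.2.1, dr_anti x.1 x.2.2,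
    dr_anti x.2.1 x.2.2]
  ext
  · simp only
    field_simp
    ring
  · simp only
    field_simp
    ring
  · simp only
    field_simp
    ring

theorem De_ne {x : R6} (hx : nd x) : De x ≠ 0 :=
  mul_ne_zero two_ne_zero (mul_ne_zero hx.1 (mul_ne_zero hx.2.1 hx.2.2))

theorem Vl_inj {x : R6} (hx : nd x) {A A' : ℝ × ℝ × ℝ} (h : Vx x A = Vx x A') : A = A' := by
  have hd : LinearMap.det (Vl x) ≠ 0 := by rw [det_Vl]; exact De_ne hx
  have hk : LinearMap.ker (Vl x) = ⊥ := by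
    by_contra hne
    exact hd (LinearMap.det_eq_zero_iff_ker_ne_bot.mpr hne)
  exact LinearMap.ker_eq_bot.mp hk h

theorem Ax_Vx {x : R6} (hx : nd x) (A : ℝ × ℝ × ℝ) : Ax x (Vx x A) = A :=
  Vl_inj hx (Vx_Ax hx _)

theorem measurable_Ax (x : R6) : Measurable (Ax x) := by
  unfold Ax
  fun_prop

/-- change of variables -/
theorem lint_Ax {x : R6} (hx : nd x) (f : ℝ × ℝ × ℝ → ENNReal) (hf : Measurable f) :
    ∫⁻ A, f A = ENNReal.ofReal |De x|⁻¹ * ∫⁻ a, f (Ax x a) := by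
  have hd : LinearMap.det (Vl x) ≠ 0 := by rw [det_Vl]; exact De_ne hx
  have hm := Measure.map_linearMap_addHaar_eq_smul_addHaar (volume : Measure (ℝ × ℝ × ℝ)) hd
  have hmeas : Measurable (Vl x) := (Vl x).continuous_of_finiteDimensional.measurable
  have e1 : ∫⁻ A, f A = ∫⁻ A, f (Ax x (Vl x A)) := by
    refine lintegral_congr fun A => ?_
    congr 1
    exact (Ax_Vx hx A).symm
  have hg : Measurable (fun a => f (Ax x a)) := hf.comp (measurable_Ax x)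
  rw [e1, ← lintegral_map hg hmeas, hm, lintegral_smul_measure, det_Vl, abs_inv, smul_eq_mul]

end Pool.Agent.Helper30_FC
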