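import Pool.Agent.Helper30_FC.Pair
import Pool.Agent.Helper30_FC.K0Main

/-!
MP_f5cbfa_nt, frozen S18989 (helper30): the comparison for one form.
-/

set_option autoImplicit false

open MeasureTheory Set

namespace Pool.Agent.Helper30_FC

open Pool.Agent.BTL Pool.Agent.F5S Pool.Agent.F5H

/-- removal of the weight from a nonnegative difference -/
theorem var_trick (D V : R6 × ℝ → ENNReal) (hD : Measurable D) (hV : Measurable V)
    (hVD : ∀ z, V z ≤ D z) (W : R6 → ℝ) (hW : Measurable W) (hW1 : ∀ c, 0 ≤ W c ∧ W c ≤ 1)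
    (I : Set ℝ) (hI : MeasurableSet I) (hs : ∀ z : R6 × ℝ, W z.1 ≠ 0 → z.2 ∉ I → D z = 0) :
    (∫⁻ z : R6 × ℝ, ENNReal.ofReal (W z.1) * D z
        ∂((volume : Measure R6).prod (volume.restrict Set.univ))) +
      ∫⁻ z : R6 × ℝ, V z ∂((volume : Measure R6).prod (volume.restrict I)) ≤
    (∫⁻ z : R6 × ℝ, ENNReal.ofReal (W z.1) * V z
        ∂((volume : Measure R6).prod (volume.restrict Set.univ))) +
      ∫⁻ z : R6 × ℝ, D z ∂((volume : Measure R6).prod (volume.restrict I)) := by
  have e : (volume : Measure R6).prod ((volume : Measure ℝ).restrict I) =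
      ((volume : Measure R6).prod (volume : Measure ℝ)).restrict (Set.univ ×ˢ I) := by
    rw [← Measure.prod_restrict, Measure.restrict_univ]
  have hms : MeasurableSet ((Set.univ : Set R6) ×ˢ I) := MeasurableSet.univ.prod hI
  rw [Measure.restrict_univ, e, ← lintegral_indicator hms, ← lintegral_indicator hms]
  have mW : Measurable (fun z : R6 × ℝ => ENNReal.ofReal (W z.1)) :=
    (hW.comp measurable_fst).ennreal_ofReal
  have mWD : Measurable (fun z : R6 × ℝ => ENNReal.ofReal (W z.1) * D z) := mW.mul hD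
  have mWV : Measurable (fun z : R6 × ℝ => ENNReal.ofReal (W z.1) * V z) := mW.mul hV
  rw [← lintegral_add_left mWD, ← lintegral_add_left mWV]
  refine lintegral_mono fun z => ?_
  have hw : ENNReal.ofReal (W z.1) ≤ 1 := by
    rw [← ENNReal.ofReal_one]
    exact ENNReal.ofReal_le_ofReal (hW1 _).2
  by_cases hz : z.2 ∈ I
  · have hz' : z ∈ ((Set.univ : Set R6) ×ˢ I) := ⟨Set.mem_univ _, hz⟩
    change ENNReal.ofReal (W z.1) * D z + (((Set.univ : Set R6) ×ˢ I)).indicator V z ≤
      ENNReal.ofReal (W z.1) * V z + (((Set.univ : Set R6) ×ˢ I)).indicator D z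
    rw [Set.indicator_of_mem hz', Set.indicator_of_mem hz']
    obtain ⟨δ, hδ⟩ := exists_add_of_le (hVD z)
    rw [hδ]
    have h1 : ENNReal.ofReal (W z.1) * δ ≤ δ := by
      calc ENNReal.ofReal (W z.1) * δ ≤ 1 * δ := mul_le_mul' hw le_rfl
        _ = δ := one_mul _
    calc ENNReal.ofReal (W z.1) * (V z + δ) + V z
        = (ENNReal.ofReal (W z.1) * V z + V z) + ENNReal.ofReal (W z.1) * δ := by ring
      _ ≤ (ENNReal.ofReal (W z.1) * V z + V z) + δ := add_le_add le_rfl h1
      _ = _ := by ring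
  · have hz' : z ∉ ((Set.univ : Set R6) ×ˢ I) := fun h => hz h.2
    change ENNReal.ofReal (W z.1) * D z + (((Set.univ : Set R6) ×ˢ I)).indicator V z ≤
      ENNReal.ofReal (W z.1) * V z + (((Set.univ : Set R6) ×ˢ I)).indicator D z
    rw [Set.indicator_of_notMem hz', Set.indicator_of_notMem hz']
    by_cases hc : W z.1 = 0
    · rw [hc, ENNReal.ofReal_zero, zero_mul, zero_mul]
    · rw [hs z hc hz, mul_zero, zero_add]
      exact zero_le

/-- the difference is nonnegative -/
theorem Dd_le (hclf : CLFStmt) (hggf : GGFStmt)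
    {L R e : ℝ} (hL : 0 < L) (hR : 0 < R) (he : 0 < e) (p : ℝ × ℝ) (A : ℝ × ℝ × ℝ) (z : R6 × ℝ) :
    Dd volume L R e p A z ≤ Dd lat L R e p A z := by
  have mu : Measurable (fun x : R6 => ENNReal.ofReal (cl6 L z.1 x) *
      ENNReal.ofReal (gg R e p A z.2 x)) := by
    have h1 := Measurable.comp (g := fun q : R6 × R6 => ENNReal.ofReal (cl6 L q.1 q.2))
      (f := fun x : R6 => (z.1, x)) (measurable_cE hclf hL) measurable_prodMk_left
    have h2 := Measurable.comp (g := fun q : ℝ × R6 => ENNReal.ofReal (gg R e p A q.1 q.2))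
      (f := fun x : R6 => (z.2, x)) (measurable_gE hggf hR he p A) measurable_prodMk_left
    exact h1.mul h2
  have key : ∀ u : R6 → ENNReal, Measurable u →
      ∫⁻ h, (∫⁻ x, u x * u (x + h)) ∂(n3 volume) ≤ ∫⁻ h, (∫⁻ x, u x * u (x + h)) ∂(n3 lat) := by
    intro u hu
    have m1 : Measurable (fun q : R6 × R6 => u q.2 * u (q.2 + q.1)) :=
      (hu.comp measurable_snd).mul (hu.comp (measurable_snd.add measurable_fst))
    have m2 : Measurable (fun h : R6 => ∫⁻ x, u x * u (x + h)) := m1.lintegral_prod_right'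
    rw [lint_lat3 _ m2, n3_volume]
    refine le_trans (le_of_eq ?_) (var_ineq u hu)
    rw [lintegral_lintegral_swap m1.aemeasurable]
    have e1 : ∀ x : R6, ∫⁻ h : R6, u x * u (x + h) = u x * ∫⁻ y, u y := by
      intro x
      have mx : Measurable (fun h : R6 => u (x + h)) := hu.comp (measurable_const_add x)
      rw [lintegral_const_mul _ mx, lintegral_add_left_eq_self (fun y => u y) x]
    simp only [e1]
    rw [lintegral_mul_const _ hu, sq]
  exact key _ mu

/-- the radial weight is at most the length -/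
theorem omI_le (hprf : PRFStmt) {R : ℝ} (hR : 0 < R) (I : Set ℝ) (s s' : ℝ) :
    omI R I s s' ≤ ENNReal.ofReal R := by
  unfold omI
  refine le_trans (setLIntegral_le_lintegral _ _) ?_
  rw [mass1 hprf hR]
  refine ENNReal.ofReal_le_ofReal ?_
  calc R * PR R (s' - s) ≤ R * 1 := mul_le_mul_of_nonneg_left ((hprf R hR).1 _).2 hR.le
    _ = R := mul_one R

theorem omI_ne_zero {R : ℝ} (hR : 0 < R) {I : Set ℝ} (hI : MeasurableSet I) {s s' : ℝ}
    (h : omI R I s s' ≠ 0) :
    ∃ τ ∈ I, |s - τ| < R ∧ |s' - τ| < R := by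
  by_contra hc
  push Not at hc
  apply h
  unfold omI
  have : ∀ τ ∈ I, ENNReal.ofReal (tn ((s - τ) / R)) * ENNReal.ofReal (tn ((s' - τ) / R)) = 0 := by
    intro τ hτ
    by_contra hne
    have h1 : tn ((s - τ) / R) ≠ 0 := by
      intro h0
      rw [h0, ENNReal.ofReal_zero, zero_mul] at hne
      exact hne rfl
    have h2 : tn ((s' - τ) / R) ≠ 0 := by
      intro h0
      rw [h0, ENNReal.ofReal_zero, mul_zero] at hne
      exact hne rfl
    have h3 := tn_ne_zero' h1
    have h4 := tn_ne_zero' h2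
    rw [abs_div, abs_of_pos hR, div_lt_one hR] at h3 h4
    exact absurd h4 (not_lt.mpr (hc τ hτ h3))
  rw [setLIntegral_congr_fun hI this, lintegral_zero]

/-- finiteness of double integrals over a bounded range of values -/
theorem fin_double (F : ℝ → ℝ → ENNReal) (a b : ℝ) (c : ENNReal) (hc : c ≠ ⊤)
    (h1 : ∀ s s', F s s' ≤ c) (h2 : ∀ s s', F s s' ≠ 0 → s ∈ Set.Icc a b ∧ s' ∈ Set.Icc a b) :
    ∫⁻ s, ∫⁻ s', F s s' ≠ ⊤ := by
  have h3 : ∀ s, ∫⁻ s', F s s' ≤ (Set.Icc a b).indicator (fun _ => c * volume (Set.Icc a b)) s := by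
    intro s
    by_cases hs : s ∈ Set.Icc a b
    · rw [Set.indicator_of_mem hs, ← lintegral_indicator_const measurableSet_Icc]
      refine lintegral_mono fun s' => ?_
      by_cases h0 : F s s' = 0
      · rw [h0]; exact zero_le
      · rw [Set.indicator_of_mem (h2 s s' h0).2]
        exact h1 s s'
    · rw [Set.indicator_of_notMem hs]
      have : ∀ s', F s s' = 0 := by
        intro s'
        by_contra h0
        exact hs (h2 s s' h0).1
      simp only [this, lintegral_zero, le_refl]
  refine ne_top_of_le_ne_top ?_ (lintegral_mono h3)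
  rw [lintegral_indicator_const measurableSet_Icc, Real.volume_Icc]
  exact ENNReal.mul_ne_top (ENNReal.mul_ne_top hc ENNReal.ofReal_ne_top) ENNReal.ofReal_ne_top

end Pool.Agent.Helper30_FC
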