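import Pool.Agent.Helper30_FC.XG

/-!
MP_f5cbfa_nt, frozen S18989 (helper30): the cross term, counting and good points.
-/

set_option autoImplicit false

open MeasureTheory Set Filter

namespace Pool.Agent.Helper30_FC

open Pool.Agent.BTL Pool.Agent.F5S Pool.Agent.F5H

theorem vol_cb2 (r : ℝ) (hr : 0 ≤ r) : volume (Metric.closedBall (0 : ℝ × ℝ) r) =
    ENNReal.ofReal ((2 * r) ^ 2) := by
  have e : Metric.closedBall (0 : ℝ × ℝ) r =
      Metric.closedBall (0 : ℝ) r ×ˢ Metric.closedBall (0 : ℝ) r := by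
    rw [closedBall_prod_same]; rfl
  rw [e, Measure.volume_eq_prod, Measure.prod_prod, Real.volume_closedBall,
    ← ENNReal.ofReal_mul (by linarith)]
  congr 1
  ring

theorem vol_cb6 (r : ℝ) (hr : 0 ≤ r) : volume (Metric.closedBall (0 : R6) r) =
    ENNReal.ofReal ((2 * r) ^ 6) := by
  have e : Metric.closedBall (0 : R6) r =
      Metric.closedBall (0 : ℝ × ℝ) r ×ˢ (Metric.closedBall (0 : ℝ × ℝ) r ×ˢ
        Metric.closedBall (0 : ℝ × ℝ) r) := by
    rw [closedBall_prod_same, closedBall_prod_same]; rfl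
  have ev : (volume : Measure R6) = (volume : Measure (ℝ × ℝ)).prod
      ((volume : Measure (ℝ × ℝ)).prod (volume : Measure (ℝ × ℝ))) := rfl
  rw [e, ev, Measure.prod_prod, Measure.prod_prod, vol_cb2 r hr,
    ← ENNReal.ofReal_mul (by positivity), ← ENNReal.ofReal_mul (by positivity)]
  congr 1
  ring

theorem norm_sq6 {z : R6} (hz : z ∈ sq6) : ‖z‖ ≤ 1 := by
  have key : ∀ u : ℝ × ℝ, u ∈ sq0 → ‖u‖ ≤ 1 := by
    intro u hu
    unfold sq0 at hu
    simp only [Set.mem_prod, Set.mem_Ico] at hu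
    rw [Prod.norm_def, sup_le_iff, Real.norm_eq_abs, Real.norm_eq_abs, abs_le, abs_le]
    obtain ⟨⟨h1, h2⟩, h3, h4⟩ := hu
    refine ⟨⟨?_, ?_⟩, ?_, ?_⟩ <;> linarith
  obtain ⟨h1, h2, h3⟩ := hz
  rw [Prod.norm_def, sup_le_iff]
  refine ⟨key _ h1, ?_⟩
  rw [Prod.norm_def, sup_le_iff]
  exact ⟨key _ h2, key _ h3⟩

open Classical in
/-- number of integer triples in a ball -/
theorem cnt6 (c : ENNReal) {ρ : ℝ} (hρ : 0 ≤ ρ) :
    ∑' k : Z6, (if ‖r3 k‖ ≤ ρ then c else 0) ≤ c * ENNReal.ofReal ((2 * (ρ + 1)) ^ 6) := by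
  have hm : Measurable ((Metric.closedBall (0 : R6) (ρ + 1)).indicator (fun _ => c)) :=
    measurable_const.indicator Metric.isClosed_closedBall.measurableSet
  have h1 := tile6 _ hm
  rw [lintegral_indicator_const Metric.isClosed_closedBall.measurableSet,
    vol_cb6 _ (by linarith)] at h1
  rw [← h1]
  refine ENNReal.tsum_le_tsum fun k => ?_
  by_cases hk : ‖r3 k‖ ≤ ρ
  · rw [if_pos hk]
    calc c = ∫⁻ _ in sq6, c := by rw [setLIntegral_const, vol_sq6, mul_one]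
      _ ≤ _ := by
        refine setLIntegral_mono' measurableSet_sq6 fun z hz => ?_
        have : r3 k + z ∈ Metric.closedBall (0 : R6) (ρ + 1) := by
          rw [mem_closedBall_zero_iff]
          exact le_trans (norm_add_le _ _) (add_le_add hk (norm_sq6 hz))
        rw [Set.indicator_of_mem this]
  · rw [if_neg hk]; exact zero_le

/-- points near a good centre are good -/
theorem gx_near {T K L : ℝ} (hT : 0 < T) (hK : 0 < K) (hL : 0 ≤ L) (h1 : L + 1 ≤ T)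
    (h2 : 24 * (L + 1) * K ≤ T) {c x : R6} (hc : good T K c) (hx : ‖x - c‖ ≤ L + 1) :
    gx T (2 * K) x := by
  have hcn : ∀ z : ℝ × ℝ, nr z ≤ (2 * T) ^ 2 → ‖z‖ ≤ 2 * T := by
    intro z hz
    unfold nr at hz
    rw [Prod.norm_def, sup_le_iff, Real.norm_eq_abs, Real.norm_eq_abs]
    constructor
    · exact abs_le_of_sq_le_sq (by nlinarith [sq_nonneg z.2]) (by linarith)
    · exact abs_le_of_sq_le_sq (by nlinarith [sq_nonneg z.1]) (by linarith)
  obtain ⟨⟨m1, m2, m3⟩, d12, d13, d23⟩ := hc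
  have c1 := hcn _ m1
  have c2 := hcn _ m2
  have c3 := hcn _ m3
  have hcc : ‖c‖ ≤ 2 * T := by
    rw [Prod.norm_def, sup_le_iff]
    refine ⟨c1, ?_⟩
    rw [Prod.norm_def, sup_le_iff]
    exact ⟨c2, c3⟩
  have hxn : ‖x‖ ≤ 3 * T := by
    have e : x = (x - c) + c := by abel
    rw [e]
    refine le_trans (norm_add_le _ _) ?_
    linarith
  have y1 : ‖x.1 - c.1‖ ≤ L + 1 := le_trans (n6_1 (x - c)) hx
  have y2 : ‖x.2.1 - c.2.1‖ ≤ L + 1 := le_trans (n6_2 (x - c)) hx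
  have y3 : ‖x.2.2 - c.2.2‖ ≤ L + 1 := le_trans (n6_3 (x - c)) hx
  have x1 := le_trans (n6_1 x) hxn
  have x2 := le_trans (n6_2 x) hxn
  have x3 := le_trans (n6_3 x) hxn
  have key : ∀ u v u' v' : ℝ × ℝ, ‖v‖ ≤ 3 * T → ‖u'‖ ≤ 2 * T → ‖u - u'‖ ≤ L + 1 →
      ‖v - v'‖ ≤ L + 1 → T ^ 2 / K ≤ |dr u' v'| → T ^ 2 / (2 * K) ≤ |dr u v| := by
    intro u v u' v' hv hu' h1 h2' hd
    have e : dr u v - dr u' v' = dr (u - u') v + dr u' (v - v') := by
      unfold dr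
      simp only [Prod.fst_sub, Prod.snd_sub]
      ring
    have g1 := dr_le h1 hv
    have g2 := dr_le hu' h2'
    have g3 : |dr u v - dr u' v'| ≤ 12 * T * (L + 1) := by
      rw [e]
      refine le_trans (abs_add_le _ _) ?_
      nlinarith [mul_nonneg hT.le (by linarith : (0 : ℝ) ≤ L + 1)]
    have g4 : 12 * T * (L + 1) ≤ T ^ 2 / (2 * K) := by
      rw [le_div_iff₀ (by positivity)]
      have := mul_le_mul_of_nonneg_left h2 hT.le
      nlinarith
    have g5 : |dr u' v'| - |dr u v| ≤ |dr u v - dr u' v'| := by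
      have := abs_sub_abs_le_abs_sub (dr u' v') (dr u v)
      rwa [abs_sub_comm (dr u' v') (dr u v)] at this
    have g6 : T ^ 2 / K = T ^ 2 / (2 * K) + T ^ 2 / (2 * K) := by field_simp; ring
    linarith
  refine ⟨by linarith, key _ _ _ _ x2 c1 y1 y2 d12, key _ _ _ _ x3 c1 y1 y3 d13,
    key _ _ _ _ x3 c2 y2 y3 d23⟩

/-- values at good points -/
theorem gx_val {T K M : ℝ} (hT : 0 < T) (hK : 0 < K) (hM : 0 < M) {x : R6} (hg : gx T K x)
    {A : ℝ × ℝ × ℝ} (hA : A ∈ KM (4 * M)) :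
    T ^ 2 / (128 * M * K ^ 2) ≤ qf A x.1 ∧ T ^ 2 / (128 * M * K ^ 2) ≤ qf A x.2.1 ∧
      T ^ 2 / (128 * M * K ^ 2) ≤ qf A x.2.2 := by
  obtain ⟨hn, d12, d13, d23⟩ := hg
  have nn : ∀ z : ℝ × ℝ, ‖z‖ ≤ 4 * T → nr z ≤ 32 * T ^ 2 := by
    intro z hz
    have := nr_le_of_norm hz
    linarith
  have key : ∀ u v : ℝ × ℝ, T ^ 2 / K ≤ |dr u v| → nr u ≤ 32 * T ^ 2 →
      T ^ 2 / (128 * M * K ^ 2) ≤ qf A v := by
    intro u v h1 h2
    have h3 : (T ^ 2 / K) ^ 2 ≤ nr u * nr v := by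
      refine le_trans ?_ (dr_sq_le u v)
      rw [← sq_abs (dr u v)]
      exact pow_le_pow_left₀ (by positivity) h1 2
    have h4 : nr u * nr v ≤ 32 * T ^ 2 * nr v := mul_le_mul_of_nonneg_right h2 (nr_nonneg v)
    have h5 : 32 * T ^ 2 * (T ^ 2 / (32 * K ^ 2)) ≤ 32 * T ^ 2 * nr v := by
      refine le_trans (le_of_eq ?_) (le_trans h3 h4)
      field_simp
    have h6 : T ^ 2 / (32 * K ^ 2) ≤ nr v := le_of_mul_le_mul_left h5 (by positivity)
    have h7 := (hA v).1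
    refine le_trans ?_ h7
    have e : T ^ 2 / (128 * M * K ^ 2) = T ^ 2 / (32 * K ^ 2) / (4 * M) := by field_simp; ring
    rw [e]
    exact div_le_div_of_nonneg_right h6 (by positivity)
  have a1 := nn _ (le_trans (n6_1 x) hn)
  have a2 := nn _ (le_trans (n6_2 x) hn)
  have s1 : |dr x.2.1 x.1| = |dr x.1 x.2.1| := by rw [dr_anti x.1 x.2.1, abs_neg]
  exact ⟨key x.2.1 x.1 (by rw [s1]; exact d12) a2, key x.1 x.2.1 d12 a1, key x.1 x.2.2 d13 a1⟩

end Pool.Agent.Helper30_FC
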