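import Pool.Agent.Helper30_FC.Geo

/-!
MP_f5cbfa_nt, frozen S18989 (helper30): the cross term `XStmt`, definitions and two independent rows.
-/

set_option autoImplicit false

open MeasureTheory Set Filter

namespace Pool.Agent.Helper30_FC

open Pool.Agent.BTL Pool.Agent.F5S Pool.Agent.F5H

/-- inverse of the coordinates in which the form `A` is the square of the Euclidean norm -/
noncomputable def si (A : ℝ × ℝ × ℝ) (w : ℝ × ℝ) : ℝ × ℝ :=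
  (w.1 / Real.sqrt A.1 - A.2.1 * w.2 / Real.sqrt (A.1 * disc A),
    w.2 * Real.sqrt (A.1 / disc A))

/-- the same for triples -/
noncomputable def si3 (A : ℝ × ℝ × ℝ) (w : R6) : R6 := (si A w.1, si A w.2.1, si A w.2.2)

/-- XSI : the coordinates `si`.  For `A ∈ KM M`: `A.1 ≥ 1/M`, `disc A ≥ 1/M²`, all entries at most `M`
in absolute value; `y ↦ (√a (y₁ + b/a y₂), √(D/a) y₂)` is the inverse of `si A`, of determinant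
`√D`. -/
def XSIStmt : Prop := ∀ M : ℝ, 1 ≤ M → ∃ C : ℝ, 1 ≤ C ∧
  Measurable (fun z : (ℝ × ℝ × ℝ) × R6 => si3 z.1 z.2) ∧
  (∀ A ∈ KM M, ∀ w : ℝ × ℝ, qf A (si A w) = nr w) ∧
  (∀ A ∈ KM M, ∀ f : R6 → ENNReal, Measurable f →
    ∫⁻ y, f y = ENNReal.ofReal (1 / Real.sqrt (disc A) ^ 3) * ∫⁻ w, f (si3 A w)) ∧
  (∀ A ∈ KM M, 0 < 1 / Real.sqrt (disc A) ^ 3 ∧ 1 / Real.sqrt (disc A) ^ 3 ≤ C) ∧
  (∀ A ∈ KM M, ∀ w : R6, ‖si3 A w‖ ≤ C * ‖w‖ ∧ ‖w‖ ≤ C * ‖si3 A w‖) ∧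
  (∀ A ∈ KM M, ∀ A' ∈ KM M, (∀ w : R6, ‖si3 A w - si3 A' w‖ ≤ C * (‖A - A'‖ * ‖w‖)) ∧
    |1 / Real.sqrt (disc A) ^ 3 - 1 / Real.sqrt (disc A') ^ 3| ≤
      C * ‖A - A'‖ * (1 / Real.sqrt (disc A) ^ 3))

/-- XWC : the weight of a pair is Lipschitz.  `cl6 L c ·` is a product of six tents of slope `1/L`, all
`≤ 1`, and zero unless `‖x - c‖ ≤ L`; `W ≤ 1`; volume of the cube of side `2L` in dimension 6. -/
def XWCStmt : Prop := ∀ (L : ℝ) (W : R6 → ℝ), 1 ≤ L → Measurable W → (∀ c, 0 ≤ W c ∧ W c ≤ 1) →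
  Measurable (fun z : R6 × R6 => WC L W z.1 z.2) ∧
  (∀ x y, 0 ≤ WC L W x y ∧ WC L W x y ≤ 64) ∧
  (∀ x y, WC L W x y ≠ 0 → ∃ c, W c ≠ 0 ∧ ‖x - c‖ ≤ L ∧ ‖y - c‖ ≤ L) ∧
  (∀ x y x' y', |WC L W x y - WC L W x' y'| ≤ 1000 / L * (‖x - x'‖ + ‖y - y'‖))

end Pool.Agent.Helper30_FC
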