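import Pool.Agent.Helper30_FC.XFin

/-!
MP_f5cbfa_nt, frozen S18989 (helper30): the input `XStmt` of the hard half, end of the proof.
-/

set_option autoImplicit false

open MeasureTheory Set Filter

namespace Pool.Agent.Helper30_FC

open Pool.Agent.BTL Pool.Agent.F5S Pool.Agent.F5H

theorem good_norm {T K : ℝ} (hT : 0 < T) {c : R6} (hc : good T K c) : ‖c‖ ≤ 2 * T := by
  obtain ⟨n1, n2, n3⟩ := hc.1
  have key : ∀ z : ℝ × ℝ, nr z ≤ (2 * T) ^ 2 → ‖z‖ ≤ 2 * T := by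
    intro z hz
    unfold nr at hz
    rw [Prod.norm_def, sup_le_iff, Real.norm_eq_abs, Real.norm_eq_abs]
    constructor
    · exact abs_le_of_sq_le_sq (by nlinarith [sq_nonneg z.2]) (by linarith)
    · exact abs_le_of_sq_le_sq (by nlinarith [sq_nonneg z.1]) (by linarith)
  rw [Prod.norm_def, sup_le_iff]
  refine ⟨key _ n1, ?_⟩
  rw [Prod.norm_def, sup_le_iff]
  exact ⟨key _ n2, key _ n3⟩

open Classical in
/-- from extended nonnegative integrals to integrals -/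
theorem X_real (hfaf : FAFStmt) {M L R e T E : ℝ} (hM : 1 ≤ M) (hL : 0 < L) (hR : 0 < R)
    (he : 0 < e) (hT : 0 < T) (hLT : L ≤ T) (hE : 0 ≤ E) (p : ℝ × ℝ) {W : R6 → ℝ}
    (hW : Measurable W) (hW1 : ∀ c, 0 ≤ W c ∧ W c ≤ 1) (hρ : ∀ c, W c ≠ 0 → ‖c‖ ≤ 2 * T)
    (h : ∫⁻ x, Gy M L R e p W x ≤ (∑' k : Z6, Gy M L R e p W (r3 k)) + ENNReal.ofReal E) :
    (∫ z : R6 × R6, F5H.FF M L R e p W z.1 z.2) ≤
      (∑' x : Z6, ∫ y, F5H.FF M L R e p W (r3 x) y) + E := by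
  obtain ⟨-, -, -, f4, f5, f6⟩ := hfaf M L R e hM hL hR he p W hW hW1
  have hsup : ∀ x y, F5H.FF M L R e p W x y ≠ 0 → ‖x‖ ≤ 3 * T ∧ ‖y‖ ≤ 3 * T := by
    intro x y hz
    obtain ⟨c, c1, c2, c3⟩ := f6 _ _ hz
    have c4 := hρ c c1
    have key : ∀ y : R6, ‖y - c‖ ≤ L → ‖y‖ ≤ 3 * T := by
      intro y hy
      calc ‖y‖ = ‖c + (y - c)‖ := by rw [add_sub_cancel]
        _ ≤ ‖c‖ + ‖y - c‖ := norm_add_le _ _
        _ ≤ 3 * T := by linarith
    exact ⟨key _ c2, key _ c3⟩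
  have hint : Integrable (fun z : R6 × R6 => F5H.FF M L R e p W z.1 z.2) := by
    refine integ_bdd f4 (C := (4 * M) ^ 3 * (64 * (4 * e ^ 2))) ?_
      (S := Metric.closedBall 0 (3 * T)) measure_closedBall_lt_top ?_
    · intro z
      rw [abs_of_nonneg (f5 _ _).1]
      exact (f5 _ _).2
    · intro z hz
      have h1 := hsup _ _ hz
      rw [mem_closedBall_zero_iff, Prod.norm_def, sup_le_iff]
      exact h1
  have my : ∀ x : R6, Measurable (fun y : R6 => F5H.FF M L R e p W x y) := by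
    intro x
    have h' := Measurable.comp (g := fun z : R6 × R6 => F5H.FF M L R e p W z.1 z.2)
      (f := fun y : R6 => (x, y)) f4 measurable_prodMk_left
    exact h'
  have hinty : ∀ x : R6, Integrable (fun y : R6 => F5H.FF M L R e p W x y) := by
    intro x
    refine integ_bdd (my x) (C := (4 * M) ^ 3 * (64 * (4 * e ^ 2))) ?_
      (S := Metric.closedBall 0 (3 * T)) measure_closedBall_lt_top ?_
    · intro z
      rw [abs_of_nonneg (f5 _ _).1]
      exact (f5 _ _).2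
    · intro y hz
      rw [mem_closedBall_zero_iff]
      exact (hsup _ _ hz).2
  have hleft : ∫⁻ x, Gy M L R e p W x =
      ENNReal.ofReal (∫ z : R6 × R6, F5H.FF M L R e p W z.1 z.2) := by
    rw [ofReal_integral_eq_lintegral_ofReal hint
      (Filter.Eventually.of_forall fun z => (f5 _ _).1)]
    have ev : (volume : Measure (R6 × R6)) = (volume : Measure R6).prod (volume : Measure R6) := rfl
    rw [ev, lintegral_prod _ f4.ennreal_ofReal.aemeasurable]
    rfl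
  have hG : ∀ x : R6, Gy M L R e p W x = ENNReal.ofReal (∫ y, F5H.FF M L R e p W x y) := by
    intro x
    unfold Gy
    rw [ofReal_integral_eq_lintegral_ofReal (hinty x)
      (Filter.Eventually.of_forall fun z => (f5 _ _).1)]
  have hnn : ∀ k : Z6, 0 ≤ ∫ y, F5H.FF M L R e p W (r3 k) y := fun k =>
    integral_nonneg fun y => (f5 _ _).1
  -- summability
  have hfin : ∑' k : Z6, Gy M L R e p W (r3 k) ≠ ⊤ := by
    have hb : ∀ k : Z6, Gy M L R e p W (r3 k) ≤ (if ‖r3 k‖ ≤ 3 * T then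
        ENNReal.ofReal ((4 * M) ^ 3 * (64 * (4 * e ^ 2))) *
          volume (Metric.closedBall (0 : R6) (3 * T)) else 0) := by
      intro k
      have h1 : ∀ y : R6, ENNReal.ofReal (F5H.FF M L R e p W (r3 k) y) ≤
          (Metric.closedBall (0 : R6) (3 * T)).indicator (fun _ => if ‖r3 k‖ ≤ 3 * T then
            ENNReal.ofReal ((4 * M) ^ 3 * (64 * (4 * e ^ 2))) else 0) y := by
        intro y
        by_cases h0 : F5H.FF M L R e p W (r3 k) y = 0
        · rw [h0, ENNReal.ofReal_zero]; exact zero_le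
        · obtain ⟨s1, s2⟩ := hsup _ _ h0
          have hm : y ∈ Metric.closedBall (0 : R6) (3 * T) := by
            rw [mem_closedBall_zero_iff]; exact s2
          rw [Set.indicator_of_mem hm, if_pos s1]
          exact ENNReal.ofReal_le_ofReal (f5 _ _).2
      unfold Gy
      refine le_trans (lintegral_mono h1) ?_
      rw [lintegral_indicator_const Metric.isClosed_closedBall.measurableSet]
      split_ifs
      · exact le_refl _
      · rw [zero_mul]
    refine ne_top_of_le_ne_top ?_ (le_trans (ENNReal.tsum_le_tsum hb)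
      (cnt6 _ (by positivity)))
    exact ENNReal.mul_ne_top (ENNReal.mul_ne_top ENNReal.ofReal_ne_top
      measure_closedBall_lt_top.ne) ENNReal.ofReal_ne_top
  have hsum : Summable (fun k : Z6 => ∫ y, F5H.FF M L R e p W (r3 k) y) := by
    have h1 := ENNReal.summable_toReal hfin
    refine h1.congr fun k => ?_
    rw [hG, ENNReal.toReal_ofReal (hnn k)]
  have hright : ∑' k : Z6, Gy M L R e p W (r3 k) =
      ENNReal.ofReal (∑' k : Z6, ∫ y, F5H.FF M L R e p W (r3 k) y) := by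
    rw [ENNReal.ofReal_tsum_of_nonneg hnn hsum]
    exact tsum_congr fun k => hG _
  rw [hleft, hright, ← ENNReal.ofReal_add (tsum_nonneg hnn) hE] at h
  exact (ENNReal.ofReal_le_ofReal_iff (add_nonneg (tsum_nonneg hnn) hE)).mp h

/-- the input (X) -/
theorem x_stmt (hkaf : KAFStmt) (hprf : PRFStmt) (hchk : CHKStmt)
    (hfaf : FAFStmt) (hxsi : XSIStmt) (hxwc : XWCStmt) : XStmt := by
  have hρ := rho0_pos
  have hρ1 := rho0_le
  refine ⟨1 / 1000, by norm_num, ?_⟩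
  intro M hM e he p
  have hM0 : 0 < M := by linarith
  obtain ⟨C, hC1, hC⟩ := X_enn hprf hkaf hchk hfaf hxsi hxwc hM
  have hC0 : 0 < C := by linarith
  obtain ⟨B, hB⟩ : ∃ B : ℝ, B = e + |p.1| + |p.2| + 1 := ⟨_, rfl⟩
  have hB1 : 1 ≤ B := by
    have h1 := abs_nonneg p.1
    have h2 := abs_nonneg p.2
    rw [hB]; linarith
  have hB0 : 0 < B := by linarith
  have ev : ∀ᶠ T : ℝ in atTop, 1 ≤ T ∧ 2 * T ^ (277 / 500 : ℝ) ≤ T ^ (1 : ℝ) ∧
      (4 * C) * T ^ (2 / 1000 : ℝ) ≤ T ^ (277 / 500 : ℝ) ∧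
      48 * T ^ (555 / 1000 : ℝ) ≤ T ^ (1 : ℝ) ∧
      (2048 * B * M) * T ^ (2 / 1000 : ℝ) ≤ T ^ (2 : ℝ) ∧
      (2097152 * M ^ 3) * T ^ (1110 / 1000 : ℝ) ≤ T ^ (2 : ℝ) ∧
      (3072 * M) * T ^ (1342 / 1000 : ℝ) ≤ T ^ (2 : ℝ) ∧ e ≤ T ^ (134 / 100 : ℝ) := by
    refine (eventually_ge_atTop 1).and ((ev_pow _ _ _ (by norm_num)).and
      ((ev_pow _ _ _ (by norm_num)).and ((ev_pow _ _ _ (by norm_num)).and
      ((ev_pow _ _ _ (by norm_num)).and ((ev_pow _ _ _ (by norm_num)).and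
      ((ev_pow _ _ _ (by norm_num)).and (ev_const _ _ (by norm_num))))))))
  obtain ⟨T0, hT0⟩ := eventually_atTop.mp ev
  refine ⟨C * B ^ 6, max T0 1, ?_, le_max_right _ _, ?_⟩
  · exact one_le_mul_of_one_le_of_one_le hC1 (one_le_pow₀ hB1)
  intro T hT W hAdm
  obtain ⟨hT1, c1, c2, c3, c4, c5, c6, c7⟩ := hT0 T (le_trans (le_max_left _ _) hT)
  obtain ⟨hW, hW1, hWg, -⟩ := hAdm
  have hTp : 0 < T := by linarith
  obtain ⟨K0, hK0⟩ : ∃ K0 : ℝ, K0 = T ^ (1 / 1000 : ℝ) := ⟨_, rfl⟩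
  rw [← hK0] at hWg
  have hmono : ∀ {a b : ℝ}, a ≤ b → T ^ a ≤ T ^ b := fun h => Real.rpow_le_rpow_of_exponent_le hT1 h
  have hK01 : 1 ≤ K0 := by rw [hK0]; exact Real.one_le_rpow hT1 (by norm_num)
  have hK0p : 0 < K0 := by linarith
  have hL1 : 1 ≤ Lx T := Real.one_le_rpow hT1 (by norm_num)
  have hL0 : 0 < Lx T := by linarith
  have hR0 : 0 < Rx T := Real.rpow_pos_of_pos hTp _
  have hLd : Lx T = T ^ (277 / 500 : ℝ) := rfl
  have hRd : Rx T = T ^ (669 / 500 + 2 * rho0) := rfl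
  have hT1' : T ^ (1 : ℝ) = T := Real.rpow_one T
  have hT2' : T ^ (2 : ℝ) = T ^ 2 := by rw [← Real.rpow_natCast]; norm_num
  rw [hT1'] at c1 c3
  rw [hT2'] at c4 c5 c6
  have hK2 : K0 ^ 2 = T ^ (2 / 1000 : ℝ) := by
    rw [hK0, ← Real.rpow_natCast, ← Real.rpow_mul hTp.le]; norm_num
  have hR134 : Rx T ≤ T ^ (134 / 100 : ℝ) := by rw [hRd]; exact hmono (by linarith)
  have hLT : Lx T + 1 ≤ T := by
    rw [hLd] at hL1 ⊢
    linarith
  have hmul : ∀ a b : ℝ, T ^ a * T ^ b = T ^ (a + b) := fun a b => (Real.rpow_add hTp a b).symm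
  have h := hC B T K0 (Lx T) (Rx T) e p W hT1 hK01 hL1 hLT hR0 he ?_ hW hW1 hWg ?_ hB ?_ ?_ ?_
  · have hE : C * B ^ 6 * (K0 ^ 9 * (Rx T * Lx T ^ 2)) / T ≤ C * B ^ 6 * Bx T := by
      have e9 : K0 ^ 9 = T ^ (9 / 1000 : ℝ) := by
        rw [hK0, ← Real.rpow_natCast, ← Real.rpow_mul hTp.le]; norm_num
      have eL : Lx T ^ 2 = T ^ (277 / 250 : ℝ) := by
        rw [hLd, ← Real.rpow_natCast, ← Real.rpow_mul hTp.le]; norm_num
      have e1 : K0 ^ 9 * (Rx T * Lx T ^ 2) ≤ T ^ (3 : ℝ) := by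
        calc K0 ^ 9 * (Rx T * Lx T ^ 2) ≤
              T ^ (9 / 1000 : ℝ) * (T ^ (134 / 100 : ℝ) * T ^ (277 / 250 : ℝ)) := by
              rw [e9, eL]
              refine mul_le_mul_of_nonneg_left ?_ (Real.rpow_nonneg hTp.le _)
              exact mul_le_mul_of_nonneg_right hR134 (Real.rpow_nonneg hTp.le _)
          _ = T ^ (9 / 1000 + (134 / 100 + 277 / 250) : ℝ) := by rw [hmul, hmul]
          _ ≤ T ^ (3 : ℝ) := hmono (by norm_num)
      have e3 : T ^ (3 : ℝ) = T ^ 2 * T := by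
        have : (3 : ℝ) = ((3 : ℕ) : ℝ) := by norm_num
        rw [this, Real.rpow_natCast]; ring
      have e4 : T ^ 2 ≤ Bx T := by
        rw [← hT2']; exact hmono (by linarith)
      rw [div_le_iff₀ hTp]
      calc C * B ^ 6 * (K0 ^ 9 * (Rx T * Lx T ^ 2)) ≤ C * B ^ 6 * T ^ (3 : ℝ) :=
            mul_le_mul_of_nonneg_left e1 (by positivity)
        _ = C * B ^ 6 * (T ^ 2 * T) := by rw [e3]
        _ ≤ C * B ^ 6 * (Bx T * T) := by
            refine mul_le_mul_of_nonneg_left ?_ (by positivity)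
            exact mul_le_mul_of_nonneg_right e4 hTp.le
        _ = C * B ^ 6 * Bx T * T := by ring
    have hE0 : 0 ≤ C * B ^ 6 * (K0 ^ 9 * (Rx T * Lx T ^ 2)) / T := by positivity
    have hr := X_real hfaf hM hL0 hR0 he hTp (by linarith) hE0 p hW hW1
      (fun c hc => good_norm hTp (hWg c hc)) h
    unfold Fx
    linarith
  · calc C * (2 * K0) ^ 2 = 4 * C * K0 ^ 2 := by ring
      _ = 4 * C * T ^ (2 / 1000 : ℝ) := by rw [hK2]
      _ ≤ Lx T := c2
  · calc 24 * (Lx T + 1) * K0 ≤ 24 * (Lx T + Lx T) * K0 := by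
          refine mul_le_mul_of_nonneg_right ?_ hK0p.le
          linarith
      _ = 48 * (T ^ (277 / 500 : ℝ) * T ^ (1 / 1000 : ℝ)) := by rw [hLd, hK0]; ring
      _ = 48 * T ^ (555 / 1000 : ℝ) := by rw [hmul]; norm_num
      _ ≤ T := c3
  · rw [le_div_iff₀ (by positivity)]
    calc 2 * B * (256 * M * (2 * K0) ^ 2) = (2048 * B * M) * K0 ^ 2 := by ring
      _ = (2048 * B * M) * T ^ (2 / 1000 : ℝ) := by rw [hK2]
      _ ≤ T ^ 2 := c4
  · rw [le_div_iff₀ (by positivity)]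
    have eL : Lx T ^ 2 = T ^ (277 / 250 : ℝ) := by
      rw [hLd, ← Real.rpow_natCast, ← Real.rpow_mul hTp.le]; norm_num
    calc 2 * (32 * M * Lx T) ^ 2 * (256 * M * (2 * K0) ^ 2) =
          (2097152 * M ^ 3) * (Lx T ^ 2 * K0 ^ 2) := by ring
      _ = (2097152 * M ^ 3) * T ^ (1110 / 1000 : ℝ) := by rw [eL, hK2, hmul]; norm_num
      _ ≤ T ^ 2 := c5
  · rw [le_div_iff₀ (by positivity)]
    calc (2 * Rx T + e) * (256 * M * (2 * K0) ^ 2) ≤
          (2 * T ^ (134 / 100 : ℝ) + T ^ (134 / 100 : ℝ)) * (256 * M * (2 * K0) ^ 2) := by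
          refine mul_le_mul_of_nonneg_right ?_ (by positivity)
          linarith
      _ = (3072 * M) * (T ^ (134 / 100 : ℝ) * K0 ^ 2) := by ring
      _ = (3072 * M) * T ^ (1342 / 1000 : ℝ) := by rw [hK2, hmul]; norm_num
      _ ≤ T ^ 2 := c6

end Pool.Agent.Helper30_FC
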