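import Pool.Agent.Helper30_FC.XPt

/-!
MP_f5cbfa_nt, frozen S18989 (helper30): the cross term, bound of the error.
-/

set_option autoImplicit false

open MeasureTheory Set Filter

namespace Pool.Agent.Helper30_FC

open Pool.Agent.BTL Pool.Agent.F5S Pool.Agent.F5H

theorem win_lint {B : ℝ} {K : ℝ → ENNReal} (hK : Win B K) (c : ℝ) :
    ∫⁻ u, K (u - c) ≤ ENNReal.ofReal (2 * B) := by
  have h1 : ∀ u, K (u - c) ≤ (Set.Icc (c - B) (c + B)).indicator (fun _ => (1 : ENNReal)) u := by
    intro u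
    by_cases hu : u ∈ Set.Icc (c - B) (c + B)
    · rw [Set.indicator_of_mem hu]; exact hK.le_one _
    · rw [Set.indicator_of_notMem hu, hK.supp]
      by_contra hc
      push Not at hc
      rw [abs_le] at hc
      exact hu ⟨by linarith [hc.1], by linarith [hc.2]⟩
  refine le_trans (lintegral_mono h1) ?_
  rw [lintegral_indicator_const measurableSet_Icc, Real.volume_Icc, one_mul]
  exact ENNReal.ofReal_le_ofReal (by linarith)

/-- one point near `x` in the annulus -/
theorem near_one {M : ℝ} (hM : 1 ≤ M) {A : ℝ × ℝ × ℝ} (hA : A ∈ KM (4 * M)) {B L s' : ℝ}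
    (hL : 0 ≤ L) (hs1 : 2 * B ≤ s') (hs2 : 2 * (32 * M * L) ^ 2 ≤ s')
    {K : ℝ → ENNReal} (hK : Win B K) {x : ℝ × ℝ} (hx : 0 < qf A x) :
    ∫⁻ y, (Metric.closedBall x (4 * L)).indicator (fun y => K (qf A y - s')) y ≤
      ENNReal.ofReal (12 * (4 * M) * B * (32 * M * L) / Real.sqrt s') := by
  have hM0 : 0 < M := by linarith
  have hS : MeasurableSet {h : ℝ × ℝ | rr A h ≤ 32 * M * L ∧ |qf A (x + h) - s'| ≤ B} := by
    have m1 : MeasurableSet {h : ℝ × ℝ | rr A h ≤ 32 * M * L} :=
      measurableSet_le (measurable_rr A) measurable_const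
    have m2 : MeasurableSet {h : ℝ × ℝ | |qf A (x + h) - s'| ≤ B} := by
      refine measurableSet_le ?_ measurable_const
      exact (((measurable_qf A).comp (measurable_const_add x)).sub_const _).abs
    exact m1.inter m2
  have h1 := area_near (by linarith : (1 : ℝ) ≤ 4 * M) hA (B := B) (W := 32 * M * L) (s' := s')
    hK.one_le (by positivity) hs1 hs2 hx
  refine le_trans ?_ h1
  rw [← lintegral_add_left_eq_self (fun y => (Metric.closedBall x (4 * L)).indicator
    (fun y => K (qf A y - s')) y) x, ← lintegral_indicator_one hS]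
  refine lintegral_mono fun h => ?_
  by_cases hb : x + h ∈ Metric.closedBall x (4 * L)
  · change (Metric.closedBall x (4 * L)).indicator (fun y => K (qf A y - s')) (x + h) ≤ _
    rw [Set.indicator_of_mem hb]
    by_cases hq : |qf A (x + h) - s'| ≤ B
    · have hr : rr A h ≤ 32 * M * L := by
        rw [Metric.mem_closedBall, dist_eq_norm, add_sub_cancel_left] at hb
        have := rr_le_of_norm (by linarith : (1 : ℝ) ≤ 4 * M) hA hb
        linarith
      have hm : h ∈ {h : ℝ × ℝ | rr A h ≤ 32 * M * L ∧ |qf A (x + h) - s'| ≤ B} := ⟨hr, hq⟩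
      rw [Set.indicator_of_mem hm]
      exact hK.le_one _
    · rw [hK.supp _ (not_le.mp hq)]
      exact zero_le
  · change (Metric.closedBall x (4 * L)).indicator (fun y => K (qf A y - s')) (x + h) ≤ _
    rw [Set.indicator_of_notMem hb]
    exact zero_le

/-- three points near `x` -/
theorem near_three {M : ℝ} (hM : 1 ≤ M) {A : ℝ × ℝ × ℝ} (hA : A ∈ KM (4 * M)) {B L s' e : ℝ}
    (he : 0 < e) (p : ℝ × ℝ) (hB : B = e + |p.1| + |p.2| + 1)
    (hL : 0 ≤ L) (hs1 : 2 * B ≤ s') (hs2 : 2 * (32 * M * L) ^ 2 ≤ s') {x : R6}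
    (hx1 : 0 < qf A x.1) (hx2 : 0 < qf A x.2.1) (hx3 : 0 < qf A x.2.2) :
    ∫⁻ y : R6, ENNReal.ofReal (ind M L x A y) * ENNReal.ofReal (KA e p A s' y) ≤
      ENNReal.ofReal (12 * (4 * M) * B * (32 * M * L) / Real.sqrt s') ^ 3 := by
  have hW : ∀ l, Win B (K3 e p l) := fun l => by rw [hB]; exact win_K3 he p l
  have mq := measurable_qf A
  have mm : ∀ (z : ℝ × ℝ) (l : Fin 3), Measurable (fun y : ℝ × ℝ =>
      (Metric.closedBall z (4 * L)).indicator (fun y => K3 e p l (qf A y - s')) y) := fun z l =>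
    ((measurable_K3 e p l).comp (mq.sub_const _)).indicator Metric.isClosed_closedBall.measurableSet
  have h := lint_n3 (volume : Measure (ℝ × ℝ)) _ _ _ (mm x.1 0) (mm x.2.1 1) (mm x.2.2 2)
  rw [n3_volume] at h
  have n1 := near_one hM hA hL hs1 hs2 (hW 0) hx1
  have n2 := near_one hM hA hL hs1 hs2 (hW 1) hx2
  have n3' := near_one hM hA hL hs1 hs2 (hW 2) hx3
  have hle : ∫⁻ y : R6, ENNReal.ofReal (ind M L x A y) * ENNReal.ofReal (KA e p A s' y) ≤
      ∫⁻ y : R6, (Metric.closedBall x.1 (4 * L)).indicator (fun y => K3 e p 0 (qf A y - s')) y.1 *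
        ((Metric.closedBall x.2.1 (4 * L)).indicator (fun y => K3 e p 1 (qf A y - s')) y.2.1 *
          (Metric.closedBall x.2.2 (4 * L)).indicator (fun y => K3 e p 2 (qf A y - s')) y.2.2) := by
    refine lintegral_mono fun y => ?_
    by_cases hi : ‖y - x‖ ≤ 4 * L
    · have b1 : y.1 ∈ Metric.closedBall x.1 (4 * L) := by
        rw [Metric.mem_closedBall, dist_eq_norm]; exact le_trans (n6_1 (y - x)) hi
      have b2 : y.2.1 ∈ Metric.closedBall x.2.1 (4 * L) := by
        rw [Metric.mem_closedBall, dist_eq_norm]; exact le_trans (n6_2 (y - x)) hi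
      have b3 : y.2.2 ∈ Metric.closedBall x.2.2 (4 * L) := by
        rw [Metric.mem_closedBall, dist_eq_norm]; exact le_trans (n6_3 (y - x)) hi
      change _ ≤ (Metric.closedBall x.1 (4 * L)).indicator (fun y => K3 e p 0 (qf A y - s')) y.1 *
        ((Metric.closedBall x.2.1 (4 * L)).indicator (fun y => K3 e p 1 (qf A y - s')) y.2.1 *
          (Metric.closedBall x.2.2 (4 * L)).indicator (fun y => K3 e p 2 (qf A y - s')) y.2.2)
      rw [Set.indicator_of_mem b1, Set.indicator_of_mem b2, Set.indicator_of_mem b3, KA_eq]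
      have hi1 : ENNReal.ofReal (ind M L x A y) ≤ 1 := by
        rw [← ENNReal.ofReal_one]
        refine ENNReal.ofReal_le_ofReal ?_
        unfold ind; split_ifs <;> norm_num
      calc _ ≤ 1 * (K3 e p 0 (qf A y.1 - s') * (K3 e p 1 (qf A y.2.1 - s') *
            K3 e p 2 (qf A y.2.2 - s'))) := mul_le_mul' hi1 le_rfl
        _ = _ := one_mul _
    · have : ind M L x A y = 0 := by
        unfold ind
        rw [if_neg]
        intro h; exact hi h.2
      change ENNReal.ofReal (ind M L x A y) * ENNReal.ofReal (KA e p A s' y) ≤ _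
      rw [this, ENNReal.ofReal_zero, zero_mul]
      exact zero_le
  refine le_trans hle ?_
  rw [h]
  calc _ ≤ ENNReal.ofReal (12 * (4 * M) * B * (32 * M * L) / Real.sqrt s') *
        (ENNReal.ofReal (12 * (4 * M) * B * (32 * M * L) / Real.sqrt s') *
        ENNReal.ofReal (12 * (4 * M) * B * (32 * M * L) / Real.sqrt s')) :=
        mul_le_mul' n1 (mul_le_mul' n2 n3')
    _ = _ := by ring

end Pool.Agent.Helper30_FC
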