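import Pool.Agent.Helper30_FC.XErr

/-!
MP_f5cbfa_nt, frozen S18989 (helper30): the cross term, bound of the error, second part.
-/

set_option autoImplicit false

open MeasureTheory Set Filter

namespace Pool.Agent.Helper30_FC

open Pool.Agent.BTL Pool.Agent.F5S Pool.Agent.F5H

theorem isClosed_KM' (M : ℝ) : IsClosed (KM M) := by
  have : KM M = ⋂ x : ℝ × ℝ, ({A | nr x / M ≤ qf A x} ∩ {A | qf A x ≤ M * nr x}) := by
    ext A
    simp only [KM, Set.mem_setOf_eq, Set.mem_iInter, Set.mem_inter_iff]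
  rw [this]
  refine isClosed_iInter fun x => ?_
  have hc : Continuous (fun A : ℝ × ℝ × ℝ => qf A x) := by
    unfold qf; fun_prop
  exact (isClosed_le continuous_const hc).inter (isClosed_le hc continuous_const)

theorem measurable_ind (M L : ℝ) (x : R6) :
    Measurable (fun q : (ℝ × ℝ × ℝ) × R6 => ind M L x q.1 q.2) := by
  classical
  unfold ind
  refine Measurable.ite ?_ measurable_const measurable_const
  have h1 : MeasurableSet {q : (ℝ × ℝ × ℝ) × R6 | q.1 ∈ KM (4 * M)} :=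
    measurable_fst (isClosed_KM' (4 * M)).measurableSet
  have h2 : MeasurableSet {q : (ℝ × ℝ × ℝ) × R6 | ‖q.2 - x‖ ≤ 4 * L} :=
    measurableSet_le (measurable_snd.sub_const x).norm measurable_const
  exact h1.inter h2

theorem measurable_kEs (hkaf : KAFStmt) {e : ℝ} (he : 0 < e) (p : ℝ × ℝ)
    (A : ℝ × ℝ × ℝ) (z : R6) : Measurable (fun s : ℝ => ENNReal.ofReal (KA e p A s z)) := by
  have h := Measurable.comp (g := fun q : ℝ × R6 => ENNReal.ofReal (KA e p A q.1 q.2))
    (f := fun s : ℝ => (s, z)) (measurable_kE hkaf he p A) measurable_prodMk_right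
  exact h

theorem measurable_kEy (hkaf : KAFStmt) {e : ℝ} (he : 0 < e) (p : ℝ × ℝ)
    (A : ℝ × ℝ × ℝ) (s : ℝ) : Measurable (fun z : R6 => ENNReal.ofReal (KA e p A s z)) := by
  have h := Measurable.comp (g := fun q : ℝ × R6 => ENNReal.ofReal (KA e p A q.1 q.2))
    (f := fun z : R6 => (s, z)) (measurable_kE hkaf he p A) measurable_prodMk_left
  exact h

theorem meas_ind2 (R : ℝ) (c : ENNReal) : Measurable (fun z : ℝ × ℝ =>
    (Set.Icc (z.1 - 2 * R) (z.1 + 2 * R)).indicator (fun _ => c) z.2) := by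
  have hS : MeasurableSet {z : ℝ × ℝ | z.1 - 2 * R ≤ z.2 ∧ z.2 ≤ z.1 + 2 * R} :=
    (measurableSet_le (measurable_fst.sub_const _) measurable_snd).inter
      (measurableSet_le measurable_snd (measurable_fst.add_const _))
  have h : Measurable (({z : ℝ × ℝ | z.1 - 2 * R ≤ z.2 ∧ z.2 ≤ z.1 + 2 * R}).indicator
      (fun _ : ℝ × ℝ => c)) := measurable_const.indicator hS
  exact h

theorem meas_win (R : ℝ) (f g : ℝ → ENNReal) (hf : Measurable f) (hg : Measurable g) :
    Measurable (fun z : ℝ × ℝ => ((Set.Icc (z.1 - 2 * R) (z.1 + 2 * R)).indicator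
      (fun _ => (1 : ENNReal)) z.2) * (f z.1 * g z.2)) :=
  (meas_ind2 R 1).mul ((hf.comp measurable_fst).mul (hg.comp measurable_snd))

theorem meas_big (R : ℝ) (i : R6 → ENNReal) (hi : Measurable i) (f : ℝ → ENNReal)
    (hf : Measurable f) (k : ℝ → R6 → ENNReal) (hk : Measurable (fun q : ℝ × R6 => k q.1 q.2)) :
    Measurable (fun q : R6 × ℝ × ℝ => i q.1 *
      (((Set.Icc (q.2.1 - 2 * R) (q.2.1 + 2 * R)).indicator (fun _ => (1 : ENNReal)) q.2.2) *
      (f q.2.1 * k q.2.2 q.1))) := by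
  have m1 : Measurable (fun q : R6 × ℝ × ℝ => i q.1) := hi.comp measurable_fst
  have m2 : Measurable (fun q : R6 × ℝ × ℝ =>
      (Set.Icc (q.2.1 - 2 * R) (q.2.1 + 2 * R)).indicator (fun _ => (1 : ENNReal)) q.2.2) :=
    (meas_ind2 R 1).comp measurable_snd
  have m3 : Measurable (fun q : R6 × ℝ × ℝ => f q.2.1) :=
    hf.comp (measurable_fst.comp measurable_snd)
  have m4 : Measurable (fun q : R6 × ℝ × ℝ => k q.2.2 q.1) :=
    hk.comp ((measurable_snd.comp measurable_snd).prodMk measurable_fst)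
  exact m1.mul (m2.mul (m3.mul m4))

theorem meas_last (R : ℝ) (c : ENNReal) (f : ℝ → ENNReal) (hf : Measurable f) :
    Measurable (fun z : ℝ × ℝ => f z.1 *
      ((Set.Icc (z.1 - 2 * R) (z.1 + 2 * R)).indicator (fun _ => c) z.2)) :=
  (hf.comp measurable_fst).mul (meas_ind2 R c)

/-- upper bound for the kernel of the values -/
theorem RV_le (hprf : PRFStmt) (hkaf : KAFStmt) {R e : ℝ} (hR : 0 < R) (he : 0 < e) (p : ℝ × ℝ)
    (A : ℝ × ℝ × ℝ) (x y : R6) :
    ENNReal.ofReal (RV R e p A x y) ≤ ∫⁻ s, ∫⁻ s', ((Set.Icc (s - 2 * R) (s + 2 * R)).indicator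
      (fun _ => (1 : ENNReal)) s') * (ENNReal.ofReal (KA e p A s x) *
      ENNReal.ofReal (KA e p A s' y)) := by
  obtain ⟨h1, h2, -, -⟩ := hprf R hR
  obtain ⟨k1, -, -, -⟩ := hkaf e he p
  have mm := meas_win R (fun s => ENNReal.ofReal (KA e p A s x))
    (fun s => ENNReal.ofReal (KA e p A s y)) (measurable_kEs hkaf he p A x)
    (measurable_kEs hkaf he p A y)
  have hle : ENNReal.ofReal (RV R e p A x y) ≤ ∫⁻ z : ℝ × ℝ,
      ENNReal.ofReal (PR R (z.1 - z.2) * (KA e p A z.1 x * KA e p A z.2 y)) := by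
    unfold RV
    by_cases hi : Integrable (fun z : ℝ × ℝ => PR R (z.1 - z.2) *
        (KA e p A z.1 x * KA e p A z.2 y))
    · rw [ofReal_integral_eq_lintegral_ofReal hi (Filter.Eventually.of_forall fun z =>
        mul_nonneg (h1 _).1 (mul_nonneg (k1 _ _ _).1 (k1 _ _ _).1))]
    · rw [integral_undef hi, ENNReal.ofReal_zero]; exact zero_le
  refine le_trans hle ?_
  have hmono : ∫⁻ z : ℝ × ℝ, ENNReal.ofReal (PR R (z.1 - z.2) *
      (KA e p A z.1 x * KA e p A z.2 y)) ≤ ∫⁻ z : ℝ × ℝ,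
      ((Set.Icc (z.1 - 2 * R) (z.1 + 2 * R)).indicator (fun _ => (1 : ENNReal)) z.2) *
      (ENNReal.ofReal (KA e p A z.1 x) * ENNReal.ofReal (KA e p A z.2 y)) := by
    refine lintegral_mono fun z => ?_
    rw [ENNReal.ofReal_mul (h1 _).1, ENNReal.ofReal_mul (k1 _ _ _).1]
    refine mul_le_mul' ?_ le_rfl
    by_cases h0 : PR R (z.1 - z.2) = 0
    · rw [h0, ENNReal.ofReal_zero]; exact zero_le
    · have h3 := h2 _ h0
      rw [abs_lt] at h3
      have hm : z.2 ∈ Set.Icc (z.1 - 2 * R) (z.1 + 2 * R) := ⟨by linarith, by linarith⟩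
      rw [Set.indicator_of_mem hm, ← ENNReal.ofReal_one]
      exact ENNReal.ofReal_le_ofReal (h1 _).2
  refine le_trans hmono ?_
  rw [Measure.volume_eq_prod, lintegral_prod _ mm.aemeasurable]

/-- the integral over `y` -/
theorem inner_bound (hprf : PRFStmt) (hkaf : KAFStmt) {M : ℝ} (hM : 1 ≤ M) {A : ℝ × ℝ × ℝ}
    {B L R e s0 : ℝ} (hR : 0 < R) (he : 0 < e) (p : ℝ × ℝ) (hB : B = e + |p.1| + |p.2| + 1)
    (hL : 0 ≤ L) (hs1 : 2 * B ≤ s0) (hs2 : 2 * (32 * M * L) ^ 2 ≤ s0) {x : R6}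
    (hx : A ∈ KM (4 * M) → 0 < qf A x.1 ∧ 0 < qf A x.2.1 ∧ s0 + 2 * R + e ≤ qf A x.2.2) :
    ∫⁻ y : R6, ENNReal.ofReal (ind M L x A y) * ENNReal.ofReal (RV R e p A x y) ≤
      (KM (4 * M)).indicator (fun A => ENNReal.ofReal
        (4 * R * (12 * (4 * M) * B * (32 * M * L) / Real.sqrt s0) ^ 3) *
        ∫⁻ s, ENNReal.ofReal (KA e p A s x)) A := by
  by_cases hA : A ∈ KM (4 * M)
  swap
  · have : ∀ y, ind M L x A y = 0 := by
      intro y; unfold ind; rw [if_neg]; intro h; exact hA h.1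
    simp only [this, ENNReal.ofReal_zero, zero_mul, lintegral_zero]
    exact zero_le
  rw [Set.indicator_of_mem hA]
  obtain ⟨x1, x2, x3⟩ := hx hA
  have hM0 : 0 < M := by linarith
  have hB1 : 1 ≤ B := by
    have h1 := abs_nonneg p.1
    have h2 := abs_nonneg p.2
    rw [hB]; linarith
  have hs00 : 0 < s0 := by linarith
  have hkr := measurable_kEs hkaf he p A
  have mind : Measurable (fun y : R6 => ENNReal.ofReal (ind M L x A y)) := by
    have h := Measurable.comp (g := fun q : (ℝ × ℝ × ℝ) × R6 => ind M L x q.1 q.2)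
      (f := fun y : R6 => (A, y)) (measurable_ind M L x) measurable_prodMk_left
    exact h.ennreal_ofReal
  -- bound by a triple integral
  have step1 : ∀ y : R6, ENNReal.ofReal (ind M L x A y) * ENNReal.ofReal (RV R e p A x y) ≤
      ∫⁻ z : ℝ × ℝ, ENNReal.ofReal (ind M L x A y) *
      (((Set.Icc (z.1 - 2 * R) (z.1 + 2 * R)).indicator (fun _ => (1 : ENNReal)) z.2) *
      (ENNReal.ofReal (KA e p A z.1 x) * ENNReal.ofReal (KA e p A z.2 y))) := by
    intro y
    have mm := meas_win R (fun s => ENNReal.ofReal (KA e p A s x))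
      (fun s => ENNReal.ofReal (KA e p A s y)) (hkr x) (hkr y)
    rw [lintegral_const_mul _ mm, Measure.volume_eq_prod, lintegral_prod _ mm.aemeasurable]
    exact mul_le_mul' le_rfl (RV_le hprf hkaf hR he p A x y)
  refine le_trans (lintegral_mono step1) ?_
  have mbig := meas_big R (fun y => ENNReal.ofReal (ind M L x A y)) mind
    (fun s => ENNReal.ofReal (KA e p A s x)) (hkr x)
    (fun s y => ENNReal.ofReal (KA e p A s y)) (measurable_kE hkaf he p A)
  rw [lintegral_lintegral_swap mbig.aemeasurable]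
  obtain ⟨Q, hQ⟩ : ∃ Q : ℝ, Q = 12 * (4 * M) * B * (32 * M * L) / Real.sqrt s0 := ⟨_, rfl⟩
  have hQ0 : 0 ≤ Q := by rw [hQ]; positivity
  rw [← hQ]
  have step2 : ∀ z : ℝ × ℝ, ∫⁻ y : R6, ENNReal.ofReal (ind M L x A y) *
      (((Set.Icc (z.1 - 2 * R) (z.1 + 2 * R)).indicator (fun _ => (1 : ENNReal)) z.2) *
      (ENNReal.ofReal (KA e p A z.1 x) * ENNReal.ofReal (KA e p A z.2 y))) ≤
      ENNReal.ofReal (KA e p A z.1 x) * ((Set.Icc (z.1 - 2 * R) (z.1 + 2 * R)).indicator
        (fun _ => ENNReal.ofReal Q ^ 3) z.2) := by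
    intro z
    by_cases hz : z.2 ∈ Set.Icc (z.1 - 2 * R) (z.1 + 2 * R)
    swap
    · rw [Set.indicator_of_notMem hz, Set.indicator_of_notMem hz]
      simp only [zero_mul, mul_zero, lintegral_zero, le_refl]
    rw [Set.indicator_of_mem hz, Set.indicator_of_mem hz]
    by_cases h0 : KA e p A z.1 x = 0
    · rw [h0, ENNReal.ofReal_zero]
      simp only [zero_mul, mul_zero, lintegral_zero, le_refl]
    have h3 := ((hkaf e he p).2.2.1 A z.1 x h0).2.2
    rw [abs_lt] at h3
    have hz1 : s0 ≤ z.2 := by linarith [hz.1]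
    have mk : Measurable (fun y : R6 => ENNReal.ofReal (ind M L x A y) *
        ENNReal.ofReal (KA e p A z.2 y)) := mind.mul (measurable_kEy hkaf he p A z.2)
    have e1 : ∀ y : R6, ENNReal.ofReal (ind M L x A y) *
        (1 * (ENNReal.ofReal (KA e p A z.1 x) * ENNReal.ofReal (KA e p A z.2 y))) =
        ENNReal.ofReal (KA e p A z.1 x) * (ENNReal.ofReal (ind M L x A y) *
          ENNReal.ofReal (KA e p A z.2 y)) := by
      intro y; ring
    simp only [e1]
    rw [lintegral_const_mul _ mk]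
    refine mul_le_mul' le_rfl ?_
    refine le_trans (near_three hM hA he p hB hL (by linarith) (by linarith) x1 x2
      (by linarith)) ?_
    refine pow_le_pow_left' (ENNReal.ofReal_le_ofReal ?_) 3
    rw [hQ]
    exact div_le_div_of_nonneg_left (by positivity) (Real.sqrt_pos.mpr hs00)
      (Real.sqrt_le_sqrt hz1)
  refine le_trans (lintegral_mono step2) ?_
  -- integrate
  have mi2 := meas_last R (ENNReal.ofReal Q ^ 3) (fun s => ENNReal.ofReal (KA e p A s x)) (hkr x)
  rw [Measure.volume_eq_prod, lintegral_prod _ mi2.aemeasurable]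
  have e2 : ∀ s : ℝ, ∫⁻ s' : ℝ, ENNReal.ofReal (KA e p A s x) *
      ((Set.Icc (s - 2 * R) (s + 2 * R)).indicator (fun _ => ENNReal.ofReal Q ^ 3) s') =
      ENNReal.ofReal (4 * R * Q ^ 3) * ENNReal.ofReal (KA e p A s x) := by
    intro s
    rw [lintegral_const_mul _ (measurable_const.indicator measurableSet_Icc),
      lintegral_indicator_const measurableSet_Icc, Real.volume_Icc]
    have e3 : s + 2 * R - (s - 2 * R) = 4 * R := by ring
    rw [e3, ← ENNReal.ofReal_pow hQ0, ← ENNReal.ofReal_mul (by positivity), mul_comm (Q ^ 3)]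
    ring
  simp only [e2]
  rw [lintegral_const_mul _ (hkr x)]

/-- the integral over the forms -/
theorem outer_bound (hkaf : KAFStmt) {M : ℝ} (hM : 1 ≤ M) {B T K e : ℝ} (hT : 0 < T) (hK : 0 < K)
    (he : 0 < e) (p : ℝ × ℝ) (hB : B = e + |p.1| + |p.2| + 1) {x : R6} (hg : gx T K x) :
    ∫⁻ A, (KM (4 * M)).indicator (fun A => ∫⁻ s, ENNReal.ofReal (KA e p A s x)) A ≤
      ENNReal.ofReal |De x|⁻¹ * ENNReal.ofReal ((128 * M * T ^ 2 + 2 * B) * (2 * B) ^ 3) := by
  have hM0 : 0 < M := by linarith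
  have hB1 : 1 ≤ B := by
    have h1 := abs_nonneg p.1
    have h2 := abs_nonneg p.2
    rw [hB]; linarith
  have hnd := gx_nd hT hK hg
  have hW : ∀ l, Win B (K3 e p l) := fun l => by rw [hB]; exact win_K3 he p l
  have hka : Measurable (fun q : (ℝ × ℝ × ℝ) × ℝ => ENNReal.ofReal (ka e p q.1 q.2)) :=
    (continuous_ka e p).measurable.ennreal_ofReal
  have e0 : ∀ A : ℝ × ℝ × ℝ, (∫⁻ s, ENNReal.ofReal (KA e p A s x)) =
      ∫⁻ s, ENNReal.ofReal (ka e p (Vx x A) s) := fun A => rfl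
  have mV : Measurable (fun A : ℝ × ℝ × ℝ => Vx x A) := by
    have h := Measurable.comp (g := fun q : R6 × (ℝ × ℝ × ℝ) => Vx q.1 q.2)
      (f := fun A : ℝ × ℝ × ℝ => (x, A)) continuous_Vx.measurable measurable_prodMk_left
    exact h
  have mi : Measurable (fun a : ℝ × ℝ × ℝ => ∫⁻ s, ENNReal.ofReal (ka e p a s)) :=
    hka.lintegral_prod_right'
  have mF : Measurable (fun A => (KM (4 * M)).indicator
      (fun A => ∫⁻ s, ENNReal.ofReal (KA e p A s x)) A) := by
    simp only [e0]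
    exact (mi.comp mV).indicator (isClosed_KM' _).measurableSet
  rw [lint_Ax hnd _ mF]
  refine mul_le_mul' le_rfl ?_
  obtain ⟨J, hJ⟩ : ∃ J : Set ℝ, J = Set.Icc (-B) (128 * M * T ^ 2 + B) := ⟨_, rfl⟩
  have hJm : MeasurableSet J := by rw [hJ]; exact measurableSet_Icc
  have step1 : ∀ a : ℝ × ℝ × ℝ, (KM (4 * M)).indicator
      (fun A => ∫⁻ s, ENNReal.ofReal (KA e p A s x)) (Ax x a) ≤
      ∫⁻ s in J, ENNReal.ofReal (ka e p a s) := by
    intro a
    by_cases hA : Ax x a ∈ KM (4 * M)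
    swap
    · rw [Set.indicator_of_notMem hA]; exact zero_le
    rw [Set.indicator_of_mem hA, e0, Vx_Ax hnd, ← lintegral_indicator hJm]
    refine lintegral_mono fun s => ?_
    by_cases hs : s ∈ J
    · rw [Set.indicator_of_mem hs]
    rw [Set.indicator_of_notMem hs]
    have hz : ka e p a s = 0 := by
      by_contra hne
      have hva : (Vx x (Ax x a)) = a := Vx_Ax hnd a
      have h2 : KA e p (Ax x a) s x ≠ 0 := by
        have : KA e p (Ax x a) s x = ka e p (Vx x (Ax x a)) s := rfl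
        rw [this, hva]; exact hne
      have h3 := ((hkaf e he p).2.2.1 _ _ _ h2).2.2
      rw [abs_lt] at h3
      have h4 := hA x.2.2
      have hn : nr x.2.2 ≤ 32 * T ^ 2 := by
        have := nr_le_of_norm (le_trans (n6_3 x) hg.1)
        linarith
      have hn0 := nr_nonneg x.2.2
      have h5 : qf (Ax x a) x.2.2 ≤ 128 * M * T ^ 2 := by
        refine le_trans h4.2 ?_
        have := mul_le_mul_of_nonneg_left hn (by positivity : (0 : ℝ) ≤ 4 * M)
        linarith
      have h6 : 0 ≤ qf (Ax x a) x.2.2 := le_trans (by positivity) h4.1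
      have heB : e ≤ B := by
        have h1 := abs_nonneg p.1
        have h2 := abs_nonneg p.2
        rw [hB]; linarith
      apply hs
      rw [hJ]
      exact ⟨by linarith [h3.2], by linarith [h3.1]⟩
    rw [hz, ENNReal.ofReal_zero]
  refine le_trans (lintegral_mono step1) ?_
  have hsw : Measurable (fun q : (ℝ × ℝ × ℝ) × ℝ => ENNReal.ofReal (ka e p q.1 q.2)) := hka
  rw [lintegral_lintegral_swap hsw.aemeasurable]
  have step2 : ∀ s : ℝ, ∫⁻ a : ℝ × ℝ × ℝ, ENNReal.ofReal (ka e p a s) ≤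
      ENNReal.ofReal ((2 * B) ^ 3) := by
    intro s
    have e1 : ∀ a : ℝ × ℝ × ℝ, ENNReal.ofReal (ka e p a s) =
        K3 e p 0 (a.1 - s) * (K3 e p 1 (a.2.1 - s) * K3 e p 2 (a.2.2 - s)) := by
      intro a
      unfold ka
      rw [ENNReal.ofReal_mul (tn_nonneg' _), ENNReal.ofReal_mul (tn_nonneg' _)]
      have e1 : a.1 - (p.1 + p.2) - s = a.1 - s - (p.1 + p.2) := by ring
      have e2 : a.2.1 - p.2 - s = a.2.1 - s - p.2 := by ring
      rw [e1, e2]
      rfl
    simp only [e1]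
    have mk : ∀ l : Fin 3, Measurable (fun t : ℝ => K3 e p l (t - s)) := fun l =>
      (measurable_K3 e p l).comp (measurable_id.sub_const _)
    have h1 := lintegral_prod_mul (μ := (volume : Measure ℝ)) (ν := (volume : Measure (ℝ × ℝ)))
      (f := fun t : ℝ => K3 e p 0 (t - s))
      (g := fun q : ℝ × ℝ => K3 e p 1 (q.1 - s) * K3 e p 2 (q.2 - s)) (mk 0).aemeasurable
      (((mk 1).comp measurable_fst).mul ((mk 2).comp measurable_snd)).aemeasurable
    have h2 := lintegral_prod_mul (μ := (volume : Measure ℝ)) (ν := (volume : Measure ℝ))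
      (f := fun t : ℝ => K3 e p 1 (t - s)) (g := fun t : ℝ => K3 e p 2 (t - s))
      (mk 1).aemeasurable (mk 2).aemeasurable
    have ev : (volume : Measure (ℝ × ℝ × ℝ)) =
        (volume : Measure ℝ).prod (volume : Measure (ℝ × ℝ)) := rfl
    have ev2 : (volume : Measure (ℝ × ℝ)) = (volume : Measure ℝ).prod (volume : Measure ℝ) := rfl
    rw [ev, h1, ev2, h2]
    calc _ ≤ ENNReal.ofReal (2 * B) * (ENNReal.ofReal (2 * B) * ENNReal.ofReal (2 * B)) :=
          mul_le_mul' (win_lint (hW 0) s) (mul_le_mul' (win_lint (hW 1) s) (win_lint (hW 2) s))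
      _ = ENNReal.ofReal ((2 * B) ^ 3) := by
          rw [← ENNReal.ofReal_mul (by linarith), ← ENNReal.ofReal_mul (by linarith)]
          congr 1
          ring
  refine le_trans (lintegral_mono step2) ?_
  rw [lintegral_const, Measure.restrict_apply MeasurableSet.univ, Set.univ_inter, hJ,
    Real.volume_Icc, ← ENNReal.ofReal_mul (by positivity)]
  refine ENNReal.ofReal_le_ofReal (le_of_eq ?_)
  ring

end Pool.Agent.Helper30_FC
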