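import Pool.Agent.Helper30_FC.XCnt

/-!
MP_f5cbfa_nt, frozen S18989 (helper30): the input `XStmt` of the hard half.
-/

set_option autoImplicit false

open MeasureTheory Set Filter

namespace Pool.Agent.Helper30_FC

open Pool.Agent.BTL Pool.Agent.F5S Pool.Agent.F5H

/-- bound of the error at one point -/
theorem Er_bound (hprf : PRFStmt) (hkaf : KAFStmt) {M : ℝ} (hM : 1 ≤ M) {B T K L R e : ℝ}
    (hT : 1 ≤ T) (hK : 1 ≤ K) (hL : 0 ≤ L) (hR : 0 < R) (he : 0 < e) (p : ℝ × ℝ)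
    (hB : B = e + |p.1| + |p.2| + 1) {x : R6} (hg : gx T K x)
    (h1 : 2 * B ≤ T ^ 2 / (256 * M * K ^ 2))
    (h2 : 2 * (32 * M * L) ^ 2 ≤ T ^ 2 / (256 * M * K ^ 2))
    (h3 : 2 * R + e ≤ T ^ 2 / (256 * M * K ^ 2)) :
    Er M L R e p x ≤ ENNReal.ofReal (10 ^ 17 * M ^ 10 * B ^ 6 * (K ^ 6 * (R * L ^ 3)) / T ^ 7) := by
  have hM0 : 0 < M := by linarith
  have hT0 : 0 < T := by linarith
  have hK0 : 0 < K := by linarith
  have hB1 : 1 ≤ B := by
    have h1 := abs_nonneg p.1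
    have h2 := abs_nonneg p.2
    rw [hB]; linarith
  have hB0 : 0 < B := by linarith
  obtain ⟨s0, hs0⟩ : ∃ s0, s0 = T ^ 2 / (256 * M * K ^ 2) := ⟨_, rfl⟩
  rw [← hs0] at h1 h2 h3
  have hs00 : 0 < s0 := by rw [hs0]; positivity
  have hs2 : T ^ 2 / (128 * M * K ^ 2) = 2 * s0 := by rw [hs0]; field_simp; ring
  obtain ⟨Q, hQ⟩ : ∃ Q : ℝ, Q = 12 * (4 * M) * B * (32 * M * L) / Real.sqrt s0 := ⟨_, rfl⟩
  have hQ0 : 0 ≤ Q := by rw [hQ]; positivity
  have hin : ∀ A, ∫⁻ y : R6, ENNReal.ofReal (ind M L x A y) * ENNReal.ofReal (RV R e p A x y) ≤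
      (KM (4 * M)).indicator (fun A => ENNReal.ofReal (4 * R * Q ^ 3) *
        ∫⁻ s, ENNReal.ofReal (KA e p A s x)) A := by
    intro A
    rw [hQ]
    refine inner_bound hprf hkaf hM hR he p hB hL h1 h2 ?_
    intro hA
    obtain ⟨v1, v2, v3⟩ := gx_val hT0 hK0 hM0 hg hA
    rw [hs2] at v1 v2 v3
    exact ⟨by linarith, by linarith, by linarith⟩
  unfold Er
  refine le_trans (lintegral_mono hin) ?_
  have e1 : ∀ A, (KM (4 * M)).indicator (fun A => ENNReal.ofReal (4 * R * Q ^ 3) *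
        ∫⁻ s, ENNReal.ofReal (KA e p A s x)) A = ENNReal.ofReal (4 * R * Q ^ 3) *
      (KM (4 * M)).indicator (fun A => ∫⁻ s, ENNReal.ofReal (KA e p A s x)) A := by
    intro A
    by_cases hA : A ∈ KM (4 * M)
    · rw [Set.indicator_of_mem hA, Set.indicator_of_mem hA]
    · rw [Set.indicator_of_notMem hA, Set.indicator_of_notMem hA, mul_zero]
  simp only [e1]
  rw [lintegral_const_mul' _ _ ENNReal.ofReal_ne_top]
  refine le_trans (mul_le_mul' le_rfl (outer_bound hkaf hM hT0 hK0 he p hB hg)) ?_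
  rw [← ENNReal.ofReal_mul (by positivity), ← ENNReal.ofReal_mul (by positivity)]
  refine ENNReal.ofReal_le_ofReal ?_
  -- real inequality
  have hsq : Real.sqrt s0 ^ 2 = s0 := Real.sq_sqrt hs00.le
  have hss : 0 < Real.sqrt s0 := Real.sqrt_pos.mpr hs00
  have hsl : T / (16 * M * K) ≤ Real.sqrt s0 := by
    refine Real.le_sqrt_of_sq_le ?_
    rw [hs0, div_pow, div_le_div_iff₀ (by positivity) (by positivity)]
    have : M ≤ M ^ 2 := by nlinarith
    have h4 : 256 * M * K ^ 2 ≤ (16 * M * K) ^ 2 := by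
      calc 256 * M * K ^ 2 ≤ 256 * M ^ 2 * K ^ 2 := by
            refine mul_le_mul_of_nonneg_right ?_ (by positivity)
            linarith
        _ = _ := by ring
    exact mul_le_mul_of_nonneg_left h4 (by positivity)
  have hQle : Q ≤ 24576 * M ^ 3 * B * L * K / T := by
    rw [hQ]
    calc 12 * (4 * M) * B * (32 * M * L) / Real.sqrt s0 ≤
          12 * (4 * M) * B * (32 * M * L) / (T / (16 * M * K)) :=
          div_le_div_of_nonneg_left (by positivity) (by positivity) hsl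
      _ = 24576 * M ^ 3 * B * L * K / T := by field_simp; ring
  have hQ3 : Q ^ 3 ≤ (24576 * M ^ 3 * B * L * K / T) ^ 3 := pow_le_pow_left₀ hQ0 hQle 3
  have hD : |De x|⁻¹ ≤ K ^ 3 / (2 * T ^ 6) := by
    have h := De_lower hT0 hK0 hg
    have hp : 0 < 2 * (T ^ 2 / K) ^ 3 := by positivity
    calc |De x|⁻¹ ≤ (2 * (T ^ 2 / K) ^ 3)⁻¹ := inv_anti₀ hp h
      _ = K ^ 3 / (2 * T ^ 6) := by field_simp
  have hT2 : 128 * M * T ^ 2 + 2 * B ≤ 129 * M * T ^ 2 := by
    have h4 : s0 ≤ M * T ^ 2 := by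
      rw [hs0, div_le_iff₀ (by positivity)]
      have h5 : 1 ≤ M * (256 * M * K ^ 2) := by
        have a1 : 1 ≤ K ^ 2 := one_le_pow₀ hK
        have a2 : 1 ≤ M * M := one_le_mul_of_one_le_of_one_le hM hM
        have a3 := one_le_mul_of_one_le_of_one_le a2 a1
        calc (1 : ℝ) ≤ 256 * (M * M * K ^ 2) := by linarith
          _ = _ := by ring
      calc T ^ 2 = T ^ 2 * 1 := by ring
        _ ≤ T ^ 2 * (M * (256 * M * K ^ 2)) := mul_le_mul_of_nonneg_left h5 (by positivity)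
        _ = _ := by ring
    linarith
  have hlast : (128 * M * T ^ 2 + 2 * B) * (2 * B) ^ 3 ≤ 129 * M * T ^ 2 * (2 * B) ^ 3 :=
    mul_le_mul_of_nonneg_right hT2 (by positivity)
  calc 4 * R * Q ^ 3 * (|De x|⁻¹ * ((128 * M * T ^ 2 + 2 * B) * (2 * B) ^ 3)) ≤
      4 * R * (24576 * M ^ 3 * B * L * K / T) ^ 3 *
        (K ^ 3 / (2 * T ^ 6) * (129 * M * T ^ 2 * (2 * B) ^ 3)) := by
        refine mul_le_mul (mul_le_mul_of_nonneg_left hQ3 (by positivity))
          (mul_le_mul hD hlast (by positivity) (by positivity)) (by positivity) (by positivity)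
    _ = 4 * 24576 ^ 3 * 129 * 8 / 2 * M ^ 10 * B ^ 6 * (K ^ 6 * (R * L ^ 3)) / T ^ 7 := by
        field_simp
        ring
    _ ≤ 10 ^ 17 * M ^ 10 * B ^ 6 * (K ^ 6 * (R * L ^ 3)) / T ^ 7 := by
        refine div_le_div_of_nonneg_right ?_ (by positivity)
        refine mul_le_mul_of_nonneg_right ?_ (by positivity)
        refine mul_le_mul_of_nonneg_right ?_ (by positivity)
        refine mul_le_mul_of_nonneg_right ?_ (by positivity)
        norm_num

open Classical in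
/-- the comparison of the integral and the sum, extended nonnegative form -/
theorem X_enn (hprf : PRFStmt) (hkaf : KAFStmt) (hchk : CHKStmt) (hfaf : FAFStmt)
    (hxsi : XSIStmt) (hxwc : XWCStmt) {M : ℝ} (hM : 1 ≤ M) :
    ∃ C : ℝ, 1 ≤ C ∧ ∀ (B T K0 L R e : ℝ) (p : ℝ × ℝ) (W : R6 → ℝ), 1 ≤ T → 1 ≤ K0 → 1 ≤ L →
      L + 1 ≤ T → 0 < R → 0 < e → C * (2 * K0) ^ 2 ≤ L → Measurable W →
      (∀ c, 0 ≤ W c ∧ W c ≤ 1) → (∀ c, W c ≠ 0 → good T K0 c) → 24 * (L + 1) * K0 ≤ T →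
      B = e + |p.1| + |p.2| + 1 → 2 * B ≤ T ^ 2 / (256 * M * (2 * K0) ^ 2) →
      2 * (32 * M * L) ^ 2 ≤ T ^ 2 / (256 * M * (2 * K0) ^ 2) →
      2 * R + e ≤ T ^ 2 / (256 * M * (2 * K0) ^ 2) →
      ∫⁻ x, Gy M L R e p W x ≤ (∑' k : Z6, Gy M L R e p W (r3 k)) +
        ENNReal.ofReal (C * B ^ 6 * (K0 ^ 9 * (R * L ^ 2)) / T) := by
  have hM0 : 0 < M := by linarith
  obtain ⟨C, hC, hcomp⟩ := Gy_comp hprf hchk hfaf hxsi hxwc hM
  refine ⟨10 ^ 26 * C * M ^ 10, ?_, ?_⟩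
  · have h1 : 1 ≤ M ^ 10 := one_le_pow₀ hM
    have h2 := one_le_mul_of_one_le_of_one_le hC h1
    calc (1 : ℝ) ≤ 10 ^ 26 * (C * M ^ 10) := by
          have : (1 : ℝ) ≤ 10 ^ 26 := by norm_num
          exact one_le_mul_of_one_le_of_one_le this h2
      _ = _ := by ring
  intro B T K0 L R e p W hT hK0 hL hLT hR he hCL hW hW1 hWg h24 hB h1 h2 h3
  have hT0 : 0 < T := by linarith
  have hK00 : 0 < K0 := by linarith
  have hL0 : 0 < L := by linarith
  have hC0 : 0 < C := by linarith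
  obtain ⟨K, hK⟩ : ∃ K, K = 2 * K0 := ⟨_, rfl⟩
  have hK1 : 1 ≤ K := by rw [hK]; linarith
  have hKp : 0 < K := by linarith
  rw [← hK] at h1 h2 h3
  have hCL2 : C * K ^ 2 ≤ L := by
    refine le_trans ?_ hCL
    rw [hK]
    refine mul_le_mul_of_nonneg_right ?_ (by positivity)
    have a1 : 1 ≤ M ^ 10 := one_le_pow₀ hM
    have a2 : (1 : ℝ) ≤ 10 ^ 26 * M ^ 10 :=
      one_le_mul_of_one_le_of_one_le (by norm_num) a1
    calc C = C * 1 := by ring
      _ ≤ C * (10 ^ 26 * M ^ 10) := mul_le_mul_of_nonneg_left a2 hC0.le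
      _ = _ := by ring
  obtain ⟨-, -, -, f4, f5, f6⟩ := hfaf M L R e hM hL0 hR he p W hW hW1
  -- measurability of Gy
  have mG : Measurable (Gy M L R e p W) := f4.ennreal_ofReal.lintegral_prod_right'
  -- the error
  obtain ⟨E, hE⟩ : ∃ E : ℝ, E = C * K ^ 3 / L *
      (10 ^ 17 * M ^ 10 * B ^ 6 * (K ^ 6 * (R * L ^ 3)) / T ^ 7) := ⟨_, rfl⟩
  have hB1 : 1 ≤ B := by
    have h1 := abs_nonneg p.1
    have h2 := abs_nonneg p.2
    rw [hB]; linarith
  have hB0 : 0 < B := by linarith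
  have hE0 : 0 ≤ E := by rw [hE]; positivity
  -- pointwise
  have hpt : ∀ k : Z6, ∀ z ∈ sq6, Gy M L R e p W (r3 k + z) ≤ Gy M L R e p W (r3 k) +
      (if ‖r3 k‖ ≤ 4 * T then ENNReal.ofReal E else 0) := by
    intro k z hz
    by_cases h0 : Gy M L R e p W (r3 k + z) = 0
    · rw [h0]; exact zero_le
    have hex : ∃ y, F5H.FF M L R e p W (r3 k + z) y ≠ 0 := by
      by_contra hc
      push Not at hc
      apply h0
      unfold Gy
      simp only [hc, ENNReal.ofReal_zero, lintegral_zero]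
    obtain ⟨y, hy⟩ := hex
    obtain ⟨c, c1, c2, -⟩ := f6 _ _ hy
    have hg' : gx T K (r3 k + z) := by
      rw [hK]
      exact gx_near hT0 hK00 hL0.le hLT h24 (hWg c c1) (by linarith)
    have hzn := norm_sq6 hz
    have hg : gx T K (r3 k) := by
      rw [hK]
      refine gx_near hT0 hK00 hL0.le hLT h24 (hWg c c1) ?_
      have e1 : r3 k - c = (r3 k + z - c) - z := by abel
      rw [e1]
      refine le_trans (norm_sub_le _ _) ?_
      linarith
    have hxx : ‖r3 k - (r3 k + z)‖ ≤ 1 := by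
      have e1 : r3 k - (r3 k + z) = -z := by abel
      rw [e1, norm_neg]; exact hzn
    have hc := hcomp T K L R e p W (r3 k) (r3 k + z) hT hK1 hL (by linarith) hR he hCL2 hW hW1
      hg hg' hxx
    rw [if_pos hg.1]
    refine le_trans hc (add_le_add le_rfl ?_)
    have hEr := Er_bound hprf hkaf hM hT hK1 hL0.le hR he p hB hg h1 h2 h3
    refine le_trans (mul_le_mul' le_rfl hEr) ?_
    rw [← ENNReal.ofReal_mul (by positivity), ← hE]
  -- sum over the cubes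
  rw [← tile6 _ mG]
  have hcube : ∀ k : Z6, ∫⁻ z in sq6, Gy M L R e p W (r3 k + z) ≤ Gy M L R e p W (r3 k) +
      (if ‖r3 k‖ ≤ 4 * T then ENNReal.ofReal E else 0) := by
    intro k
    calc ∫⁻ z in sq6, Gy M L R e p W (r3 k + z) ≤ ∫⁻ _ in sq6, (Gy M L R e p W (r3 k) +
          (if ‖r3 k‖ ≤ 4 * T then ENNReal.ofReal E else 0)) :=
          setLIntegral_mono' measurableSet_sq6 (hpt k)
      _ = _ := by rw [setLIntegral_const, vol_sq6, mul_one]
  refine le_trans (ENNReal.tsum_le_tsum hcube) ?_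
  rw [ENNReal.tsum_add]
  refine add_le_add le_rfl ?_
  refine le_trans (cnt6 _ (by positivity)) ?_
  rw [← ENNReal.ofReal_mul hE0]
  refine ENNReal.ofReal_le_ofReal ?_
  have h10 : (2 * (4 * T + 1)) ^ 6 ≤ (10 * T) ^ 6 :=
    pow_le_pow_left₀ (by positivity) (by linarith) 6
  calc E * (2 * (4 * T + 1)) ^ 6 ≤ E * (10 * T) ^ 6 := mul_le_mul_of_nonneg_left h10 hE0
    _ = (10 ^ 17 * 10 ^ 6 * 2 ^ 9) * C * M ^ 10 * B ^ 6 * (K0 ^ 9 * (R * L ^ 2)) / T := by
        rw [hE, hK]; field_simp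
    _ ≤ 10 ^ 26 * C * M ^ 10 * B ^ 6 * (K0 ^ 9 * (R * L ^ 2)) / T := by
        refine div_le_div_of_nonneg_right ?_ (by positivity)
        refine mul_le_mul_of_nonneg_right ?_ (by positivity)
        refine mul_le_mul_of_nonneg_right ?_ (by positivity)
        refine mul_le_mul_of_nonneg_right ?_ (by positivity)
        refine mul_le_mul_of_nonneg_right ?_ (by positivity)
        norm_num

end Pool.Agent.Helper30_FC
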