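import Pool.Agent.Helper30_FC.XErr2

/-!
MP_f5cbfa_nt, frozen S18989 (helper30): the cross term, comparison of the integrals over `y`.
-/

set_option autoImplicit false

open MeasureTheory Set Filter

namespace Pool.Agent.Helper30_FC

open Pool.Agent.BTL Pool.Agent.F5S Pool.Agent.F5H

theorem measurable_chK (hchk : CHKStmt) {M : ℝ} (hM : 1 ≤ M) : Measurable (chK M) := by
  have hlip : LipschitzWith (Real.toNNReal (12 * M)) (chK M) := by
    refine LipschitzWith.of_dist_le_mul ?_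
    intro A A'
    rw [Real.dist_eq, dist_eq_norm, Real.coe_toNNReal _ (by linarith)]
    exact (hchk M hM).2.2.2 A A'
  exact hlip.continuous.measurable

/-- the averaged kernel as an integral over the forms -/
theorem FF_eq (hchk : CHKStmt) (hfaf : FAFStmt) {M L R e : ℝ} (hM : 1 ≤ M) (hL : 0 < L)
    (hR : 0 < R) (he : 0 < e) (p : ℝ × ℝ) {W : R6 → ℝ} (hW : Measurable W)
    (hW1 : ∀ c, 0 ≤ W c ∧ W c ≤ 1) (x y : R6) :
    ENNReal.ofReal (F5H.FF M L R e p W x y) =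
      ∫⁻ A, ENNReal.ofReal (chK M A) * ENNReal.ofReal (FA L R e p W A x y) := by
  obtain ⟨f1, f2, -, -, -, -⟩ := hfaf M L R e hM hL hR he p W hW hW1
  obtain ⟨k1, -, k3, k4⟩ := hchk M hM
  have hkm := measurable_chK hchk hM
  have mA : Measurable (fun A : ℝ × ℝ × ℝ => FA L R e p W A x y) := by
    have h := Measurable.comp (g := fun z : (ℝ × ℝ × ℝ) × R6 × R6 => FA L R e p W z.1 z.2.1 z.2.2)
      (f := fun A : ℝ × ℝ × ℝ => (A, x, y)) f1 measurable_prodMk_right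
    exact h
  have hi : Integrable (fun A => chK M A * FA L R e p W A x y) := by
    refine integ_bdd (hkm.mul mA) (C := 64 * (4 * e ^ 2)) ?_ (S := KM (2 * M))
      (vol_KM_lt (by linarith)) ?_
    · intro A
      rw [abs_of_nonneg (mul_nonneg (k1 A).1 (f2 A x y).1)]
      calc chK M A * FA L R e p W A x y ≤ 1 * (64 * (4 * e ^ 2)) :=
            mul_le_mul (k1 A).2 (f2 A x y).2 (f2 A x y).1 zero_le_one
        _ = _ := one_mul _
    · intro A hA
      exact k3 A (left_ne_zero_of_mul hA)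
  unfold F5H.FF
  rw [ofReal_integral_eq_lintegral_ofReal hi
    (Filter.Eventually.of_forall fun A => mul_nonneg (k1 A).1 (f2 A x y).1)]
  refine lintegral_congr fun A => ?_
  rw [ENNReal.ofReal_mul (k1 A).1]

/-- the integral over `y` -/
noncomputable def Gy (M L R e : ℝ) (p : ℝ × ℝ) (W : R6 → ℝ) (x : R6) : ENNReal :=
  ∫⁻ y, ENNReal.ofReal (F5H.FF M L R e p W x y)

/-- the weight in the integral over `y` -/
noncomputable def uu (M L : ℝ) (W : R6 → ℝ) (x : R6) (A : ℝ × ℝ × ℝ) (y : R6) : ENNReal :=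
  ENNReal.ofReal (chK M A) * ENNReal.ofReal (WC L W x y)

theorem measurable_uu (hchk : CHKStmt) (hxwc : XWCStmt) {M L : ℝ} (hM : 1 ≤ M) (hL : 1 ≤ L)
    {W : R6 → ℝ} (hW : Measurable W) (hW1 : ∀ c, 0 ≤ W c ∧ W c ≤ 1) (x : R6) :
    Measurable (fun q : (ℝ × ℝ × ℝ) × R6 => uu M L W x q.1 q.2) := by
  have h1 : Measurable (fun q : (ℝ × ℝ × ℝ) × R6 => ENNReal.ofReal (chK M q.1)) :=
    (measurable_chK hchk hM).ennreal_ofReal.comp measurable_fst
  have h2 : Measurable (fun y : R6 => WC L W x y) := by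
    have h := Measurable.comp (g := fun z : R6 × R6 => WC L W z.1 z.2)
      (f := fun y : R6 => (x, y)) (hxwc L W hL hW hW1).1 measurable_prodMk_left
    exact h
  exact h1.mul (h2.ennreal_ofReal.comp measurable_snd)

theorem Gy_eq (hchk : CHKStmt) (hfaf : FAFStmt) (hxwc : XWCStmt) {M L R e : ℝ} (hM : 1 ≤ M)
    (hL : 1 ≤ L) (hR : 0 < R) (he : 0 < e) (p : ℝ × ℝ) {W : R6 → ℝ} (hW : Measurable W)
    (hW1 : ∀ c, 0 ≤ W c ∧ W c ≤ 1) (x : R6) :
    Gy M L R e p W x = ∫⁻ A, ∫⁻ y, uu M L W x A y * ENNReal.ofReal (RV R e p A x y) := by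
  have hL0 : 0 < L := by linarith
  obtain ⟨f1, f2, -, -, -, -⟩ := hfaf M L R e hM hL0 hR he p W hW hW1
  unfold Gy
  simp only [FF_eq hchk hfaf hM hL0 hR he p hW hW1]
  have hkm := measurable_chK hchk hM
  have m1 : Measurable (fun q : R6 × (ℝ × ℝ × ℝ) =>
      ENNReal.ofReal (chK M q.2) * ENNReal.ofReal (FA L R e p W q.2 x q.1)) := by
    have h := Measurable.comp (g := fun z : (ℝ × ℝ × ℝ) × R6 × R6 => FA L R e p W z.1 z.2.1 z.2.2)
      (f := fun q : R6 × (ℝ × ℝ × ℝ) => (q.2, x, q.1)) f1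
      (measurable_snd.prodMk (measurable_const.prodMk measurable_fst))
    exact (hkm.comp measurable_snd).ennreal_ofReal.mul h.ennreal_ofReal
  rw [lintegral_lintegral_swap m1.aemeasurable]
  refine lintegral_congr fun A => ?_
  refine lintegral_congr fun y => ?_
  unfold uu FA
  rw [ENNReal.ofReal_mul ((hxwc L W hL hW hW1).2.1 x y).1, mul_assoc]

/-- the error of the comparison -/
noncomputable def Er (M L R e : ℝ) (p : ℝ × ℝ) (x : R6) : ENNReal :=
  ∫⁻ A, ∫⁻ y, ENNReal.ofReal (ind M L x A y) * ENNReal.ofReal (RV R e p A x y)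

theorem meas_tr (c : ENNReal) (j : (ℝ × ℝ × ℝ) → ENNReal) (hj : Measurable j)
    (α : (ℝ × ℝ × ℝ) → (ℝ × ℝ × ℝ)) (hα : Measurable α) (σ : (ℝ × ℝ × ℝ) → R6 → R6)
    (hσ : Measurable (fun q : (ℝ × ℝ × ℝ) × R6 => σ q.1 q.2))
    (ρ : (ℝ × ℝ × ℝ) → (ℝ × ℝ × ℝ) → ENNReal)
    (hρ : Measurable (fun q : (ℝ × ℝ × ℝ) × (ℝ × ℝ × ℝ) => ρ q.1 q.2)) (n : R6 → (ℝ × ℝ × ℝ))
    (hn : Measurable n) (u : (ℝ × ℝ × ℝ) → R6 → ENNReal)
    (hu : Measurable (fun q : (ℝ × ℝ × ℝ) × R6 => u q.1 q.2)) :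
    Measurable (fun q : (ℝ × ℝ × ℝ) × R6 =>
      (c * j (α q.1) * u (α q.1) (σ (α q.1) q.2)) * ρ q.1 (n q.2)) := by
  have a0 : Measurable (fun q : (ℝ × ℝ × ℝ) × R6 => α q.1) := hα.comp measurable_fst
  have a1 : Measurable (fun q : (ℝ × ℝ × ℝ) × R6 => j (α q.1)) := hj.comp a0
  have a2 : Measurable (fun q : (ℝ × ℝ × ℝ) × R6 => σ (α q.1) q.2) :=
    hσ.comp (a0.prodMk measurable_snd)
  have a3 : Measurable (fun q : (ℝ × ℝ × ℝ) × R6 => u (α q.1) (σ (α q.1) q.2)) :=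
    hu.comp (a0.prodMk a2)
  have a4 : Measurable (fun q : (ℝ × ℝ × ℝ) × R6 => ρ q.1 (n q.2)) :=
    hρ.comp (measurable_fst.prodMk (hn.comp measurable_snd))
  exact ((a1.const_mul _).mul a3).mul a4

/-- adding two functions in a double integral -/
theorem add_double (f g : (ℝ × ℝ × ℝ) → R6 → ENNReal) (κ : ENNReal)
    (hf : Measurable (fun q : (ℝ × ℝ × ℝ) × R6 => f q.1 q.2))
    (hg : Measurable (fun q : (ℝ × ℝ × ℝ) × R6 => g q.1 q.2)) :
    (∫⁻ a, ∫⁻ w, f a w) + κ * ∫⁻ a, ∫⁻ w, g a w = ∫⁻ a, ∫⁻ w, (f a w + κ * g a w) := by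
  have hfi : Measurable (fun a : ℝ × ℝ × ℝ => ∫⁻ w, f a w) := hf.lintegral_prod_right'
  have hgi : Measurable (fun a : ℝ × ℝ × ℝ => ∫⁻ w, g a w) := hg.lintegral_prod_right'
  rw [← lintegral_const_mul _ hgi, ← lintegral_add_left hfi]
  refine lintegral_congr fun a => ?_
  have hfa : Measurable (fun w : R6 => f a w) := hf.comp measurable_prodMk_left
  have hga : Measurable (fun w : R6 => g a w) := hg.comp measurable_prodMk_left
  rw [← lintegral_const_mul _ hga, ← lintegral_add_left hfa]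

/-- comparison of the integrals at neighbouring points -/
theorem Gy_comp (hprf : PRFStmt) (hchk : CHKStmt) (hfaf : FAFStmt) (hxsi : XSIStmt)
    (hxwc : XWCStmt) {M : ℝ} (hM : 1 ≤ M) :
    ∃ C : ℝ, 1 ≤ C ∧ ∀ (T K L R e : ℝ) (p : ℝ × ℝ) (W : R6 → ℝ) (x x' : R6), 1 ≤ T →
      1 ≤ K → 1 ≤ L → L ≤ T → 0 < R → 0 < e → C * K ^ 2 ≤ L → Measurable W →
      (∀ c, 0 ≤ W c ∧ W c ≤ 1) → gx T K x → gx T K x' → ‖x - x'‖ ≤ 1 →
      Gy M L R e p W x' ≤ Gy M L R e p W x +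
        ENNReal.ofReal (C * K ^ 3 / L) * Er M L R e p x := by
  obtain ⟨C, hC, hth⟩ := theta hchk hxsi hxwc hM
  refine ⟨C, hC, ?_⟩
  intro T K L R e p W x x' hT hK hL hLT hR he hCL hW hW1 hg hg' hxx
  have hT0 : 0 < T := by linarith
  have hK0 : 0 < K := by linarith
  have hL0 : 0 < L := by linarith
  have n1 := gx_nd hT0 hK0 hg
  have n2 := gx_nd hT0 hK0 hg'
  obtain ⟨k1, -, k3, -⟩ := hchk M hM
  obtain ⟨-, w1, -, -⟩ := hxwc L W hL hW hW1
  have hz : ∀ x A, A ∉ KM (2 * M) → ∀ y, uu M L W x A y = 0 := by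
    intro x A hA y
    have : chK M A = 0 := by
      by_contra h; exact hA (k3 A h)
    unfold uu
    rw [this, ENNReal.ofReal_zero, zero_mul]
  have hzi : ∀ A, A ∉ KM (4 * M) → ∀ y, ENNReal.ofReal (ind M L x A y) = 0 := by
    intro A hA y
    have : ind M L x A y = 0 := by
      unfold ind; rw [if_neg]; intro h; exact hA h.1
    rw [this, ENNReal.ofReal_zero]
  rw [Gy_eq hchk hfaf hxwc hM hL hR he p hW hW1, Gy_eq hchk hfaf hxwc hM hL hR he p hW hW1]
  unfold Er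
  rw [transf hprf hxsi (by linarith : (1 : ℝ) ≤ 2 * M) hR e p n2 _
      (measurable_uu hchk hxwc hM hL hW hW1 x') (hz x'),
    transf hprf hxsi (by linarith : (1 : ℝ) ≤ 2 * M) hR e p n1 _
      (measurable_uu hchk hxwc hM hL hW hW1 x) (hz x),
    transf hprf hxsi (by linarith : (1 : ℝ) ≤ 4 * M) hR e p n1
      (fun A y => ENNReal.ofReal (ind M L x A y)) (measurable_ind M L x).ennreal_ofReal hzi]
  -- measurability of the two integrands
  obtain ⟨-, -, hms, -, -, -, -, -⟩ := hxsi M hM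
  have hrho := (measurable_rho hprf hR e p).ennreal_ofReal
  have mE := meas_tr (ENNReal.ofReal |De x|⁻¹) (fun A => ENNReal.ofReal (jj A))
    measurable_jj.ennreal_ofReal (Ax x) (measurable_Ax x) si3 hms
    (fun a b => ENNReal.ofReal (rho R e p a b)) hrho nv measurable_nv
    (fun A y => ENNReal.ofReal (ind M L x A y)) (measurable_ind M L x).ennreal_ofReal
  have mU := meas_tr (ENNReal.ofReal |De x|⁻¹) (fun A => ENNReal.ofReal (jj A))
    measurable_jj.ennreal_ofReal (Ax x) (measurable_Ax x) si3 hms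
    (fun a b => ENNReal.ofReal (rho R e p a b)) hrho nv measurable_nv
    (uu M L W x) (measurable_uu hchk hxwc hM hL hW hW1 x)
  rw [add_double _ _ _ mU mE]
  refine lintegral_mono fun a => ?_
  refine lintegral_mono fun w => ?_
  have h := hth T K L W x x' a w hT hK hL hLT hCL hW hW1 hg hg' hxx
  have hjn : ∀ A, 0 ≤ jj A := by
    intro A; unfold jj; positivity
  have hi0 : 0 ≤ ind M L x (Ax x a) (si3 (Ax x a) w) := by
    unfold ind; split_ifs <;> norm_num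
  have hε : 0 ≤ C * K ^ 3 / L := by positivity
  have h2 := ENNReal.ofReal_le_ofReal h
  have hD : 0 ≤ |De x|⁻¹ := by positivity
  have hD' : 0 ≤ |De x'|⁻¹ := by positivity
  rw [ENNReal.ofReal_add (mul_nonneg (mul_nonneg hD (hjn _)) (mul_nonneg (k1 _).1 (w1 _ _).1))
      (mul_nonneg (mul_nonneg hε hi0) (mul_nonneg hD (hjn _))),
    ENNReal.ofReal_mul (mul_nonneg hD' (hjn _)), ENNReal.ofReal_mul hD',
    ENNReal.ofReal_mul (k1 _).1,
    ENNReal.ofReal_mul (mul_nonneg hD (hjn _)), ENNReal.ofReal_mul hD,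
    ENNReal.ofReal_mul (k1 _).1, ENNReal.ofReal_mul (mul_nonneg hε hi0),
    ENNReal.ofReal_mul hε, ENNReal.ofReal_mul hD] at h2
  have h3 := mul_le_mul' h2 (le_refl (ENNReal.ofReal (rho R e p a (nv w))))
  refine le_trans h3 (le_of_eq ?_)
  unfold uu
  ring

end Pool.Agent.Helper30_FC
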