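import Pool.Agent.Helper30_FC.XTh

/-!
MP_f5cbfa_nt, frozen S18989 (helper30): the cross term, the pointwise comparison.
-/

set_option autoImplicit false

open MeasureTheory Set Filter

namespace Pool.Agent.Helper30_FC

open Pool.Agent.BTL Pool.Agent.F5S Pool.Agent.F5H

theorem scal {D D' j j' χ χ' ω ω' d1 d2 d3 d4 E : ℝ} (hD : 0 ≤ D) (hj : 0 ≤ j)
    (hj' : 0 ≤ j') (hχ : 0 ≤ χ) (hχ1 : χ ≤ 1) (hχ' : 0 ≤ χ') (hχ1' : χ' ≤ 1)
    (hω' : 0 ≤ ω') (hω1' : ω' ≤ 64) (hd1 : 0 ≤ d1) (hd2 : 0 ≤ d2) (hd21 : d2 ≤ 1) (hd4 : 0 ≤ d4)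
    (h1 : D' ≤ (1 + d1) * D) (h2 : j' ≤ (1 + d2) * j) (h3 : χ' ≤ χ + d3) (h4 : ω' ≤ ω + d4)
    (hd3 : 0 ≤ d3) (hE : 64 * (2 * d1 + d2) + 64 * d3 + d4 ≤ E) :
    D' * j' * (χ' * ω') ≤ D * j * (χ * ω) + E * (D * j) := by
  have hDj : 0 ≤ D * j := mul_nonneg hD hj
  have a1 : χ' * ω' ≤ χ * ω + (64 * d3 + d4) := by
    have b1 : (χ' - χ) * ω' ≤ d3 * 64 := by
      calc (χ' - χ) * ω' ≤ d3 * ω' := mul_le_mul_of_nonneg_right (by linarith) hω'
        _ ≤ d3 * 64 := mul_le_mul_of_nonneg_left hω1' hd3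
    have b2 : χ * ω' ≤ χ * ω + d4 := by
      calc χ * ω' ≤ χ * (ω + d4) := mul_le_mul_of_nonneg_left h4 hχ
        _ = χ * ω + χ * d4 := by ring
        _ ≤ χ * ω + 1 * d4 := by linarith [mul_le_mul_of_nonneg_right hχ1 hd4]
        _ = χ * ω + d4 := by ring
    linarith
  have a2 : χ' * ω' ≤ 64 := by
    calc χ' * ω' ≤ 1 * 64 := mul_le_mul hχ1' hω1' hω' zero_le_one
      _ = 64 := one_mul _
  have a20 : 0 ≤ χ' * ω' := mul_nonneg hχ' hω'
  have a3 : D' * j' ≤ ((1 + d1) * D) * ((1 + d2) * j) :=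
    mul_le_mul h1 h2 hj' (by positivity)
  have a4 : D' * j' * (χ' * ω') ≤ ((1 + d1) * D) * ((1 + d2) * j) * (χ' * ω') :=
    mul_le_mul_of_nonneg_right a3 a20
  have a5 : ((1 + d1) * D) * ((1 + d2) * j) * (χ' * ω') =
      D * j * (χ' * ω') + (d1 + d2 + d1 * d2) * (D * j) * (χ' * ω') := by ring
  have a6 : (d1 + d2 + d1 * d2) * (D * j) * (χ' * ω') ≤ (2 * d1 + d2) * (D * j) * 64 := by
    have c1 : d1 + d2 + d1 * d2 ≤ 2 * d1 + d2 := by
      have := mul_le_mul_of_nonneg_left hd21 hd1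
      linarith
    exact mul_le_mul (mul_le_mul_of_nonneg_right c1 hDj) a2 a20 (by positivity)
  have a7 : D * j * (χ' * ω') ≤ D * j * (χ * ω + (64 * d3 + d4)) :=
    mul_le_mul_of_nonneg_left a1 hDj
  have a8 : (64 * (2 * d1 + d2) + 64 * d3 + d4) * (D * j) ≤ E * (D * j) :=
    mul_le_mul_of_nonneg_right hE hDj
  nlinarith

open Classical in
/-- the indicator of the error -/
noncomputable def ind (M L : ℝ) (x : R6) (A : ℝ × ℝ × ℝ) (y : R6) : ℝ :=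
  if A ∈ KM (4 * M) ∧ ‖y - x‖ ≤ 4 * L then 1 else 0

/-- the comparison at neighbouring points -/
theorem theta (hchk : CHKStmt) (hxsi : XSIStmt) (hxwc : XWCStmt) {M : ℝ} (hM : 1 ≤ M) :
    ∃ C : ℝ, 1 ≤ C ∧ ∀ (T K L : ℝ) (W : R6 → ℝ) (x x' : R6) (a : ℝ × ℝ × ℝ) (w : R6), 1 ≤ T →
      1 ≤ K → 1 ≤ L → L ≤ T → C * K ^ 2 ≤ L → Measurable W → (∀ c, 0 ≤ W c ∧ W c ≤ 1) →
      gx T K x → gx T K x' → ‖x - x'‖ ≤ 1 →
      |De x'|⁻¹ * jj (Ax x' a) * (chK M (Ax x' a) * WC L W x' (si3 (Ax x' a) w)) ≤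
      |De x|⁻¹ * jj (Ax x a) * (chK M (Ax x a) * WC L W x (si3 (Ax x a) w)) +
      (C * K ^ 3 / L * ind M L x (Ax x a) (si3 (Ax x a) w)) * (|De x|⁻¹ * jj (Ax x a)) := by
  have hM0 : 0 < M := by linarith
  obtain ⟨C1, hC1, -, -, -, hj1, hw1, hlip⟩ := hxsi (4 * M) (by linarith)
  obtain ⟨k1, -, k3, k4⟩ := hchk M hM
  refine ⟨30000000 * C1 ^ 2 * M ^ 2, ?_, ?_⟩
  · have h1 : 1 ≤ C1 ^ 2 := one_le_pow₀ hC1
    have h2 : 1 ≤ M ^ 2 := one_le_pow₀ hM
    have h3 := one_le_mul_of_one_le_of_one_le h1 h2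
    linarith
  intro T K L W x x' a w hT hK hL hLT hCL hW hW1 hg hg' hxx
  obtain ⟨-, w1, w2, w3⟩ := hxwc L W hL hW hW1
  have hT0 : 0 < T := by linarith
  have hK0 : 0 < K := by linarith
  have hL0 : 0 < L := by linarith
  have hC10 : 0 < C1 := by linarith
  have hjn : ∀ A, 0 ≤ jj A := by
    intro A; unfold jj; positivity
  obtain ⟨A, hA⟩ : ∃ A, A = Ax x a := ⟨_, rfl⟩
  obtain ⟨A', hA'⟩ : ∃ A', A' = Ax x' a := ⟨_, rfl⟩
  obtain ⟨y, hy⟩ : ∃ y, y = si3 A w := ⟨_, rfl⟩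
  obtain ⟨y', hy'⟩ : ∃ y', y' = si3 A' w := ⟨_, rfl⟩
  have hind : 0 ≤ ind M L x A y := by
    unfold ind; split_ifs <;> norm_num
  rw [← hA, ← hA', ← hy, ← hy']
  have hrhs : 0 ≤ |De x|⁻¹ * jj A * (chK M A * WC L W x y) +
      (30000000 * C1 ^ 2 * M ^ 2 * K ^ 3 / L * ind M L x A y) * (|De x|⁻¹ * jj A) := by
    have q1 := hjn A
    have q2 := (k1 A).1
    have q3 := (w1 x y).1
    positivity
  by_cases hχ0 : chK M A' = 0
  · rw [hχ0, zero_mul, mul_zero]; exact hrhs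
  by_cases hω0 : WC L W x' y' = 0
  · rw [hω0, mul_zero, mul_zero]; exact hrhs
  have hA2 : A' ∈ KM (2 * M) := k3 A' hχ0
  have hA'n : ‖A'‖ ≤ 2 * M := KM_norm (by linarith) hA2
  -- distance of the forms
  have hAA : ‖A' - A‖ ≤ 3072 * M * K ^ 2 / T := by
    have h := Ax_diff hT0 hK0 hg' hg (by rw [norm_sub_rev]; exact hxx) a
    rw [← hA, ← hA'] at h
    refine le_trans h ?_
    calc 1536 * K ^ 2 / T * ‖A'‖ ≤ 1536 * K ^ 2 / T * (2 * M) :=
          mul_le_mul_of_nonneg_left hA'n (by positivity)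
      _ = 3072 * M * K ^ 2 / T := by ring
  obtain ⟨δ, hδ⟩ : ∃ δ, δ = 3072 * M * K ^ 2 / T := ⟨_, rfl⟩
  rw [← hδ] at hAA
  have hδ0 : 0 ≤ δ := by rw [hδ]; positivity
  have hδT : δ * T = 3072 * M * K ^ 2 := by rw [hδ]; field_simp
  have hC2 : 1 ≤ C1 ^ 2 := one_le_pow₀ hC1
  have hC12 : C1 ≤ C1 ^ 2 := by nlinarith
  have hM2 : 1 ≤ M ^ 2 := one_le_pow₀ hM
  have hM12 : M ≤ M ^ 2 := by nlinarith
  have hK2 : 1 ≤ K ^ 2 := one_le_pow₀ hK
  -- products of constants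
  obtain ⟨m, hm⟩ : ∃ m, m = C1 ^ 2 * M ^ 2 := ⟨_, rfl⟩
  have m1 : M ≤ m := by
    rw [hm]
    calc M ≤ 1 * M ^ 2 := by linarith
      _ ≤ C1 ^ 2 * M ^ 2 := mul_le_mul_of_nonneg_right hC2 (by positivity)
  have m2 : M ^ 2 ≤ m := by
    rw [hm]
    calc M ^ 2 = 1 * M ^ 2 := by ring
      _ ≤ C1 ^ 2 * M ^ 2 := mul_le_mul_of_nonneg_right hC2 (by positivity)
  have m3 : C1 * M ≤ m := by
    rw [hm]
    exact mul_le_mul hC12 hM12 hM0.le (by positivity)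
  have m4 : C1 ^ 2 * M ≤ m := by
    rw [hm]
    exact mul_le_mul_of_nonneg_left hM12 (by positivity)
  have m5 : 1 ≤ m := by linarith
  have hCL' : 30000000 * m * K ^ 2 ≤ L := by
    rw [hm]; refine le_trans (le_of_eq ?_) hCL; ring
  have hKm : ∀ c : ℝ, 0 ≤ c → c ≤ m → c * K ^ 2 ≤ m * K ^ 2 := fun c _ hcm =>
    mul_le_mul_of_nonneg_right hcm (by positivity)
  have hmK : 0 ≤ m * K ^ 2 := by positivity
  -- smallness
  have hδ1 : 8 * M * δ ≤ 1 := by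
    have h1 : 8 * M * δ * T ≤ 1 * T := by
      calc 8 * M * δ * T = 24576 * (M ^ 2 * K ^ 2) := by rw [mul_assoc, hδT]; ring
        _ ≤ 24576 * (m * K ^ 2) := by linarith [hKm (M ^ 2) (by positivity) m2]
        _ ≤ 1 * T := by linarith
    exact le_of_mul_le_mul_right h1 hT0
  have hδ2 : C1 * δ ≤ 1 := by
    have h1 : C1 * δ * T ≤ 1 * T := by
      calc C1 * δ * T = 3072 * (C1 * M * K ^ 2) := by rw [mul_assoc, hδT]; ring
        _ ≤ 3072 * (m * K ^ 2) := by linarith [hKm (C1 * M) (by positivity) m3]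
        _ ≤ 1 * T := by linarith
    exact le_of_mul_le_mul_right h1 hT0
  have hA4 : A ∈ KM (4 * M) := by
    have h1 : ‖A - A'‖ ≤ 1 / (4 * (2 * M)) := by
      rw [norm_sub_rev]
      refine le_trans hAA ?_
      rw [le_div_iff₀ (by positivity)]
      linarith
    have h2 := KM_pert (by linarith : (1 : ℝ) ≤ 2 * M) hA2 h1
    have e : 2 * (2 * M) = 4 * M := by ring
    rwa [e] at h2
  have hA'4 : A' ∈ KM (4 * M) := KM_mono (by linarith) (by linarith) hA2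
  -- the points
  obtain ⟨c, hc, hc1, hc2⟩ := w2 x' y' hω0
  have hyx' : ‖y' - x'‖ ≤ 2 * L := by
    have e : y' - x' = (y' - c) - (x' - c) := by abel
    rw [e]
    refine le_trans (norm_sub_le _ _) ?_
    linarith
  have hy'n : ‖y'‖ ≤ 6 * T := by
    have e : y' = (y' - x') + x' := by abel
    rw [e]
    refine le_trans (norm_add_le _ _) ?_
    linarith [hg'.1]
  have hwn : ‖w‖ ≤ C1 * (6 * T) := by
    have h := (hw1 A' hA'4 w).2
    rw [← hy'] at h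
    exact le_trans h (mul_le_mul_of_nonneg_left hy'n hC10.le)
  obtain ⟨l1, l2⟩ := hlip A hA4 A' hA'4
  have hyy : ‖y - y'‖ ≤ 18432 * m * K ^ 2 := by
    have h := l1 w
    rw [← hy, ← hy'] at h
    refine le_trans h ?_
    have h2 : ‖A - A'‖ * ‖w‖ ≤ δ * (C1 * (6 * T)) :=
      mul_le_mul (by rw [norm_sub_rev]; exact hAA) hwn (norm_nonneg _) hδ0
    calc C1 * (‖A - A'‖ * ‖w‖) ≤ C1 * (δ * (C1 * (6 * T))) := mul_le_mul_of_nonneg_left h2 hC10.le
      _ = 6 * C1 ^ 2 * (δ * T) := by ring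
      _ = 18432 * (C1 ^ 2 * M * K ^ 2) := by rw [hδT]; ring
      _ ≤ 18432 * m * K ^ 2 := by linarith [hKm (C1 ^ 2 * M) (by positivity) m4]
  have hyx : ‖y - x‖ ≤ 4 * L := by
    have e : y - x = (y - y') + ((y' - x') - (x - x')) := by abel
    rw [e]
    refine le_trans (norm_add_le _ _) ?_
    refine le_trans (add_le_add le_rfl (norm_sub_le _ _)) ?_
    linarith
  have hind1 : ind M L x A y = 1 := by
    unfold ind
    rw [if_pos ⟨hA4, hyx⟩]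
  rw [hind1, mul_one]
  -- the scalars
  have s1 := inv_De hT0 hK0 hg hg' hxx
  have s2 : jj A' ≤ (1 + C1 * δ) * jj A := by
    have h := l2
    have h' : |jj A - jj A'| ≤ C1 * ‖A - A'‖ * jj A := h
    rw [abs_le] at h'
    have h3 : C1 * ‖A - A'‖ * jj A ≤ C1 * δ * jj A :=
      mul_le_mul_of_nonneg_right (mul_le_mul_of_nonneg_left (by rw [norm_sub_rev]; exact hAA)
        hC10.le) (hjn A)
    linarith [h'.1]
  have s3 : chK M A' ≤ chK M A + 12 * M * δ := by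
    have h := k4 A' A
    rw [abs_le] at h
    have h3 : 12 * M * ‖A' - A‖ ≤ 12 * M * δ := mul_le_mul_of_nonneg_left hAA (by positivity)
    linarith [h.2]
  have s4 : WC L W x' y' ≤ WC L W x y + 1000 / L * (1 + 18432 * m * K ^ 2) := by
    have h := w3 x' y' x y
    rw [abs_le] at h
    have h3 : 1000 / L * (‖x' - x‖ + ‖y' - y‖) ≤ 1000 / L * (1 + 18432 * m * K ^ 2) := by
      refine mul_le_mul_of_nonneg_left ?_ (by positivity)
      rw [norm_sub_rev x' x, norm_sub_rev y' y]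
      linarith
    linarith [h.2]
  refine scal (by positivity) (hjn A) (hjn A') (k1 A).1 (k1 A).2 (k1 A').1 (k1 A').2
    (w1 _ _).1 (w1 _ _).2 (by positivity) (by positivity) hδ2 (by positivity) s1 s2 s3 s4
    (by positivity) ?_
  -- the total error
  have hK3 : K ^ 2 ≤ K ^ 3 := pow_le_pow_right₀ hK (by norm_num)
  have hK13 : 1 ≤ K ^ 3 := one_le_pow₀ hK
  have hinv : ∀ c : ℝ, 0 ≤ c → c / T ≤ c / L := fun c hc => div_le_div_of_nonneg_left hc hL0 hLT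
  have t1 : 49152 * K ^ 3 / T ≤ 49152 * (m * K ^ 3) / L := by
    refine le_trans (hinv _ (by positivity)) (div_le_div_of_nonneg_right ?_ hL0.le)
    have := mul_le_mul_of_nonneg_right m5 (by positivity : (0 : ℝ) ≤ K ^ 3)
    linarith
  have hmK3 : m * K ^ 2 ≤ m * K ^ 3 := mul_le_mul_of_nonneg_left hK3 (by linarith)
  have t2 : C1 * δ ≤ 3072 * (m * K ^ 3) / L := by
    have e : C1 * δ = 3072 * (C1 * M * K ^ 2) / T := by rw [hδ]; ring
    rw [e]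
    refine le_trans (hinv _ (by positivity)) (div_le_div_of_nonneg_right ?_ hL0.le)
    linarith [hKm (C1 * M) (by positivity) m3]
  have t3 : 12 * M * δ ≤ 36864 * (m * K ^ 3) / L := by
    have e : 12 * M * δ = 36864 * (M ^ 2 * K ^ 2) / T := by rw [hδ]; ring
    rw [e]
    refine le_trans (hinv _ (by positivity)) (div_le_div_of_nonneg_right ?_ hL0.le)
    linarith [hKm (M ^ 2) (by positivity) m2]
  have t4 : 1000 / L * (1 + 18432 * m * K ^ 2) ≤ 18433000 * (m * K ^ 3) / L := by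
    have e : 1000 / L * (1 + 18432 * m * K ^ 2) = (1000 + 18432000 * (m * K ^ 2)) / L := by ring
    rw [e]
    refine div_le_div_of_nonneg_right ?_ hL0.le
    have : 1 ≤ m * K ^ 3 := one_le_mul_of_one_le_of_one_le m5 hK13
    linarith
  have hq : 0 ≤ (m * K ^ 3) / L := by positivity
  have f1 : 49152 * (m * K ^ 3) / L = 49152 * ((m * K ^ 3) / L) := by ring
  have f2 : 3072 * (m * K ^ 3) / L = 3072 * ((m * K ^ 3) / L) := by ring
  have f3 : 36864 * (m * K ^ 3) / L = 36864 * ((m * K ^ 3) / L) := by ring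
  have f4 : 18433000 * (m * K ^ 3) / L = 18433000 * ((m * K ^ 3) / L) := by ring
  have f5 : 30000000 * C1 ^ 2 * M ^ 2 * K ^ 3 / L = 30000000 * ((m * K ^ 3) / L) := by
    rw [hm]; ring
  rw [f5]
  linarith

end Pool.Agent.Helper30_FC
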