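import Pool.Agent.Helper30_FC.XTr

/-!
MP_f5cbfa_nt, frozen S18989 (helper30): the cross term, comparison at neighbouring points.
-/

set_option autoImplicit false

open MeasureTheory Set Filter

namespace Pool.Agent.Helper30_FC

open Pool.Agent.BTL Pool.Agent.F5S Pool.Agent.F5H

/-- good triples of points -/
def gx (T K : ℝ) (x : R6) : Prop := ‖x‖ ≤ 4 * T ∧ dge (T ^ 2 / K) x

theorem n6_1 (x : R6) : ‖x.1‖ ≤ ‖x‖ := norm_fst_le x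
theorem n6_2 (x : R6) : ‖x.2.1‖ ≤ ‖x‖ := le_trans (norm_fst_le x.2) (norm_snd_le x)
theorem n6_3 (x : R6) : ‖x.2.2‖ ≤ ‖x‖ := le_trans (norm_snd_le x.2) (norm_snd_le x)

theorem c_1 (u : ℝ × ℝ) : |u.1| ≤ ‖u‖ := norm_fst_le u
theorem c_2 (u : ℝ × ℝ) : |u.2| ≤ ‖u‖ := norm_snd_le u

theorem dr_le {u v : ℝ × ℝ} {a b : ℝ} (hu : ‖u‖ ≤ a) (hv : ‖v‖ ≤ b) : |dr u v| ≤ 2 * a * b := by
  have ha : 0 ≤ a := le_trans (norm_nonneg _) hu
  have h1 : |u.1 * v.2| ≤ a * b := by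
    rw [abs_mul]
    exact mul_le_mul (le_trans (c_1 u) hu) (le_trans (c_2 v) hv) (abs_nonneg _) ha
  have h2 : |u.2 * v.1| ≤ a * b := by
    rw [abs_mul]
    exact mul_le_mul (le_trans (c_2 u) hu) (le_trans (c_1 v) hv) (abs_nonneg _) ha
  unfold dr
  calc |u.1 * v.2 - u.2 * v.1| ≤ |u.1 * v.2| + |u.2 * v.1| := abs_sub _ _
    _ ≤ 2 * a * b := by linarith

theorem dr_diff {u v u' v' : ℝ × ℝ} {a : ℝ} (hv : ‖v‖ ≤ a) (hu' : ‖u'‖ ≤ a)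
    (h1 : ‖u - u'‖ ≤ 1) (h2 : ‖v - v'‖ ≤ 1) : |dr u v - dr u' v'| ≤ 4 * a := by
  have e : dr u v - dr u' v' = dr (u - u') v + dr u' (v - v') := by
    unfold dr
    simp only [Prod.fst_sub, Prod.snd_sub]
    ring
  rw [e]
  have g1 := dr_le h1 hv
  have g2 := dr_le hu' h2
  calc |dr (u - u') v + dr u' (v - v')| ≤ |dr (u - u') v| + |dr u' (v - v')| := abs_add_le _ _
    _ ≤ 4 * a := by linarith

theorem gx_nd {T K : ℝ} (hT : 0 < T) (hK : 0 < K) {x : R6} (h : gx T K x) : nd x := by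
  have hp : 0 < T ^ 2 / K := by positivity
  obtain ⟨-, h1, h2, h3⟩ := h
  refine ⟨?_, ?_, ?_⟩
  · intro h0; rw [h0, abs_zero] at h1; linarith
  · intro h0; rw [h0, abs_zero] at h2; linarith
  · intro h0; rw [h0, abs_zero] at h3; linarith

theorem De_lower {T K : ℝ} (hT : 0 < T) (hK : 0 < K) {x : R6} (h : gx T K x) :
    2 * (T ^ 2 / K) ^ 3 ≤ |De x| := by
  have hp : 0 ≤ T ^ 2 / K := by positivity
  obtain ⟨-, h1, h2, h3⟩ := h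
  unfold De
  rw [abs_mul, abs_mul, abs_mul, abs_two]
  have g1 : (T ^ 2 / K) * ((T ^ 2 / K) * (T ^ 2 / K)) ≤
      |dr x.1 x.2.1| * (|dr x.1 x.2.2| * |dr x.2.1 x.2.2|) :=
    mul_le_mul h1 (mul_le_mul h2 h3 hp (abs_nonneg _)) (by positivity) (abs_nonneg _)
  calc 2 * (T ^ 2 / K) ^ 3 = 2 * ((T ^ 2 / K) * ((T ^ 2 / K) * (T ^ 2 / K))) := by ring
    _ ≤ _ := by linarith

theorem De_diff {T : ℝ} (hT : 0 ≤ T) {x x' : R6} (h : ‖x‖ ≤ 4 * T) (h' : ‖x'‖ ≤ 4 * T)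
    (hx : ‖x - x'‖ ≤ 1) : |De x - De x'| ≤ 98304 * T ^ 5 := by
  have a1 := le_trans (n6_1 x) h
  have a2 := le_trans (n6_2 x) h
  have a3 := le_trans (n6_3 x) h
  have b1 := le_trans (n6_1 x') h'
  have b2 := le_trans (n6_2 x') h'
  have b3 := le_trans (n6_3 x') h'
  have c1 : ‖x.1 - x'.1‖ ≤ 1 := le_trans (n6_1 (x - x')) hx
  have c2 : ‖x.2.1 - x'.2.1‖ ≤ 1 := le_trans (n6_2 (x - x')) hx
  have c3 : ‖x.2.2 - x'.2.2‖ ≤ 1 := le_trans (n6_3 (x - x')) hx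
  have p1 := dr_diff a2 b1 c1 c2
  have p2 := dr_diff a3 b1 c1 c3
  have p3 := dr_diff a3 b2 c2 c3
  have q2 := dr_le a1 a3
  have q3 := dr_le a2 a3
  have r1 := dr_le b1 b2
  have r2 := dr_le b1 b3
  have e : De x - De x' = 2 * ((dr x.1 x.2.1 - dr x'.1 x'.2.1) * (dr x.1 x.2.2 * dr x.2.1 x.2.2) +
      (dr x'.1 x'.2.1 * ((dr x.1 x.2.2 - dr x'.1 x'.2.2) * dr x.2.1 x.2.2) +
      dr x'.1 x'.2.1 * (dr x'.1 x'.2.2 * (dr x.2.1 x.2.2 - dr x'.2.1 x'.2.2)))) := by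
    unfold De; ring
  rw [e, abs_mul, abs_two]
  have t1 : |(dr x.1 x.2.1 - dr x'.1 x'.2.1) * (dr x.1 x.2.2 * dr x.2.1 x.2.2)| ≤
      (4 * (4 * T)) * ((2 * (4 * T) * (4 * T)) * (2 * (4 * T) * (4 * T))) := by
    rw [abs_mul, abs_mul]
    exact mul_le_mul p1 (mul_le_mul q2 q3 (abs_nonneg _) (by positivity)) (by positivity)
      (by positivity)
  have t2 : |dr x'.1 x'.2.1 * ((dr x.1 x.2.2 - dr x'.1 x'.2.2) * dr x.2.1 x.2.2)| ≤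
      (2 * (4 * T) * (4 * T)) * ((4 * (4 * T)) * (2 * (4 * T) * (4 * T))) := by
    rw [abs_mul, abs_mul]
    exact mul_le_mul r1 (mul_le_mul p2 q3 (abs_nonneg _) (by positivity)) (by positivity)
      (by positivity)
  have t3 : |dr x'.1 x'.2.1 * (dr x'.1 x'.2.2 * (dr x.2.1 x.2.2 - dr x'.2.1 x'.2.2))| ≤
      (2 * (4 * T) * (4 * T)) * ((2 * (4 * T) * (4 * T)) * (4 * (4 * T))) := by
    rw [abs_mul, abs_mul]
    exact mul_le_mul r1 (mul_le_mul r2 p3 (abs_nonneg _) (by positivity)) (by positivity)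
      (by positivity)
  have s1 := abs_add_le ((dr x.1 x.2.1 - dr x'.1 x'.2.1) * (dr x.1 x.2.2 * dr x.2.1 x.2.2))
    ((dr x'.1 x'.2.1 * ((dr x.1 x.2.2 - dr x'.1 x'.2.2) * dr x.2.1 x.2.2) +
      dr x'.1 x'.2.1 * (dr x'.1 x'.2.2 * (dr x.2.1 x.2.2 - dr x'.2.1 x'.2.2))))
  have s2 := abs_add_le (dr x'.1 x'.2.1 * ((dr x.1 x.2.2 - dr x'.1 x'.2.2) * dr x.2.1 x.2.2))
      (dr x'.1 x'.2.1 * (dr x'.1 x'.2.2 * (dr x.2.1 x.2.2 - dr x'.2.1 x'.2.2)))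
  nlinarith

theorem inv_De {T K : ℝ} (hT : 0 < T) (hK : 0 < K) {x x' : R6} (h : gx T K x) (h' : gx T K x')
    (hx : ‖x - x'‖ ≤ 1) :
    |De x'|⁻¹ ≤ (1 + 49152 * K ^ 3 / T) * |De x|⁻¹ := by
  have l1 := De_lower hT hK h
  have l2 := De_lower hT hK h'
  have hp : 0 < 2 * (T ^ 2 / K) ^ 3 := by positivity
  have p1 : 0 < |De x| := by linarith
  have p2 : 0 < |De x'| := by linarith
  have d := De_diff hT.le h.1 h'.1 hx
  have d2 : |De x| ≤ |De x'| + 98304 * T ^ 5 := by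
    have := abs_sub_abs_le_abs_sub (De x) (De x')
    linarith
  have d3 : 98304 * T ^ 5 ≤ (49152 * K ^ 3 / T) * |De x'| := by
    have : 98304 * T ^ 5 = (49152 * K ^ 3 / T) * (2 * (T ^ 2 / K) ^ 3) := by
      field_simp
      ring
    rw [this]
    exact mul_le_mul_of_nonneg_left l2 (by positivity)
  have d4 : |De x| ≤ (1 + 49152 * K ^ 3 / T) * |De x'| := by linarith
  rw [inv_eq_one_div, inv_eq_one_div, ← mul_div_assoc, mul_one, div_le_div_iff₀ p2 p1]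
  linarith

theorem Ax_sub (x : R6) (a b : ℝ × ℝ × ℝ) : Ax x (a - b) = Ax x a - Ax x b := by
  unfold Ax
  simp only [Prod.fst_sub, Prod.snd_sub, sub_div, sub_smul]
  abel

theorem Ax_norm {T K : ℝ} (hT : 0 < T) (hK : 0 < K) {x : R6} (h : gx T K x) (a : ℝ × ℝ × ℝ) :
    ‖Ax x a‖ ≤ 48 * K ^ 2 / T ^ 2 * ‖a‖ := by
  obtain ⟨hn, h1, h2, h3⟩ := h
  have hp : 0 < T ^ 2 / K := by positivity
  have a1 := le_trans (n6_1 x) hn
  have a2 := le_trans (n6_2 x) hn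
  have a3 := le_trans (n6_3 x) hn
  -- vectors
  have vec : ∀ u v : ℝ × ℝ, ‖u‖ ≤ 4 * T → ‖v‖ ≤ 4 * T →
      ‖((u.2 * v.2, -(u.2 * v.1 + u.1 * v.2) / 2, u.1 * v.1) : ℝ × ℝ × ℝ)‖ ≤ 16 * T ^ 2 := by
    intro u v hu hv
    have k : ∀ s t : ℝ, |s| ≤ 4 * T → |t| ≤ 4 * T → |s * t| ≤ 16 * T ^ 2 := by
      intro s t hs ht
      rw [abs_mul]
      calc |s| * |t| ≤ (4 * T) * (4 * T) := mul_le_mul hs ht (abs_nonneg _) (by positivity)
        _ = _ := by ring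
    have u1 := le_trans (c_1 u) hu
    have u2 := le_trans (c_2 u) hu
    have v1 := le_trans (c_1 v) hv
    have v2 := le_trans (c_2 v) hv
    rw [Prod.norm_def, sup_le_iff]
    refine ⟨k _ _ u2 v2, ?_⟩
    rw [Prod.norm_def, sup_le_iff]
    refine ⟨?_, k _ _ u1 v1⟩
    rw [Real.norm_eq_abs, abs_div, abs_neg, abs_two]
    have m1 := k _ _ u2 v1
    have m2 := k _ _ u1 v2
    have m3 := abs_add_le (u.2 * v.1) (u.1 * v.2)
    linarith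
  -- coefficients
  have coef : ∀ (t d d' : ℝ), T ^ 2 / K ≤ |d| → T ^ 2 / K ≤ |d'| → |t| ≤ ‖a‖ →
      ‖t / (d * d')‖ ≤ ‖a‖ * (K ^ 2 / T ^ 4) := by
    intro t d d' hd hd' ht
    rw [Real.norm_eq_abs, abs_div, abs_mul, div_eq_mul_inv]
    refine mul_le_mul ht ?_ (by positivity) (norm_nonneg _)
    have h4 : (T ^ 2 / K) * (T ^ 2 / K) ≤ |d| * |d'| :=
      mul_le_mul hd hd' hp.le (abs_nonneg _)
    calc (|d| * |d'|)⁻¹ ≤ ((T ^ 2 / K) * (T ^ 2 / K))⁻¹ := inv_anti₀ (by positivity) h4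
      _ = K ^ 2 / T ^ 4 := by field_simp
  have s1 : |dr x.2.1 x.1| = |dr x.1 x.2.1| := by rw [dr_anti x.1 x.2.1, abs_neg]
  have s2 : |dr x.2.2 x.1| = |dr x.1 x.2.2| := by rw [dr_anti x.1 x.2.2, abs_neg]
  have s3 : |dr x.2.2 x.2.1| = |dr x.2.1 x.2.2| := by rw [dr_anti x.2.1 x.2.2, abs_neg]
  have g1 := coef a.1 _ _ h1 h2 (norm_fst_le a)
  have g2 := coef a.2.1 _ _ (by rw [s1]; exact h1) h3
    (le_trans (norm_fst_le a.2) (norm_snd_le a))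
  have g3 := coef a.2.2 _ _ (by rw [s2]; exact h2) (by rw [s3]; exact h3)
    (le_trans (norm_snd_le a.2) (norm_snd_le a))
  have v1 := vec _ _ a2 a3
  have v2 := vec _ _ a1 a3
  have v3 := vec _ _ a1 a2
  unfold Ax
  refine le_trans (norm_add_le _ _) ?_
  refine le_trans (add_le_add le_rfl (norm_add_le _ _)) ?_
  rw [norm_smul, norm_smul, norm_smul]
  have hB : 0 ≤ ‖a‖ * (K ^ 2 / T ^ 4) := by positivity
  have w1 := mul_le_mul g1 v1 (norm_nonneg _) hB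
  have w2 := mul_le_mul g2 v2 (norm_nonneg _) hB
  have w3 := mul_le_mul g3 v3 (norm_nonneg _) hB
  have e : 48 * K ^ 2 / T ^ 2 * ‖a‖ = 3 * (‖a‖ * (K ^ 2 / T ^ 4) * (16 * T ^ 2)) := by
    field_simp
    ring
  rw [e]
  linarith

theorem qf_diff (A : ℝ × ℝ × ℝ) {u v : ℝ × ℝ} {T : ℝ} (hu : ‖u‖ ≤ 4 * T) (hv : ‖v‖ ≤ 4 * T)
    (h : ‖u - v‖ ≤ 1) : |qf A u - qf A v| ≤ 32 * T * ‖A‖ := by
  have hT : 0 ≤ T := by linarith [norm_nonneg u]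
  have k : ∀ s t s' t' : ℝ, |t| ≤ 4 * T → |s'| ≤ 4 * T → |s - s'| ≤ 1 → |t - t'| ≤ 1 →
      |s * t - s' * t'| ≤ 8 * T := by
    intro s t s' t' ht hs' h1 h2
    have e : s * t - s' * t' = (s - s') * t + s' * (t - t') := by ring
    rw [e]
    refine le_trans (abs_add_le _ _) ?_
    rw [abs_mul, abs_mul]
    have m1 : |s - s'| * |t| ≤ 1 * (4 * T) := mul_le_mul h1 ht (abs_nonneg _) zero_le_one
    have m2 : |s'| * |t - t'| ≤ (4 * T) * 1 := mul_le_mul hs' h2 (abs_nonneg _) (by positivity)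
    linarith
  have u1 := le_trans (c_1 u) hu
  have u2 := le_trans (c_2 u) hu
  have v1 := le_trans (c_1 v) hv
  have v2 := le_trans (c_2 v) hv
  have d1 : |u.1 - v.1| ≤ 1 := le_trans (c_1 (u - v)) h
  have d2 : |u.2 - v.2| ≤ 1 := le_trans (c_2 (u - v)) h
  have k1 := k u.1 u.1 v.1 v.1 u1 v1 d1 d1
  have k2 := k u.1 u.2 v.1 v.2 u2 v1 d1 d2
  have k3 := k u.2 u.2 v.2 v.2 u2 v2 d2 d2
  have A1 : |A.1| ≤ ‖A‖ := norm_fst_le A
  have A2 : |A.2.1| ≤ ‖A‖ := le_trans (norm_fst_le A.2) (norm_snd_le A)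
  have A3 : |A.2.2| ≤ ‖A‖ := le_trans (norm_snd_le A.2) (norm_snd_le A)
  have e : qf A u - qf A v = A.1 * (u.1 * u.1 - v.1 * v.1) +
      (2 * (A.2.1 * (u.1 * u.2 - v.1 * v.2)) + A.2.2 * (u.2 * u.2 - v.2 * v.2)) := by
    unfold qf; ring
  rw [e]
  refine le_trans (abs_add_le _ _) ?_
  refine le_trans (add_le_add le_rfl (abs_add_le _ _)) ?_
  rw [abs_mul, abs_mul, abs_mul, abs_mul, abs_two]
  have m1 : |A.1| * |u.1 * u.1 - v.1 * v.1| ≤ ‖A‖ * (8 * T) :=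
    mul_le_mul A1 k1 (abs_nonneg _) (norm_nonneg _)
  have m2 : |A.2.1| * |u.1 * u.2 - v.1 * v.2| ≤ ‖A‖ * (8 * T) :=
    mul_le_mul A2 k2 (abs_nonneg _) (norm_nonneg _)
  have m3 : |A.2.2| * |u.2 * u.2 - v.2 * v.2| ≤ ‖A‖ * (8 * T) :=
    mul_le_mul A3 k3 (abs_nonneg _) (norm_nonneg _)
  linarith

theorem Ax_diff {T K : ℝ} (hT : 0 < T) (hK : 0 < K) {x x' : R6} (h : gx T K x) (h' : gx T K x')
    (hx : ‖x - x'‖ ≤ 1) (a : ℝ × ℝ × ℝ) :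
    ‖Ax x a - Ax x' a‖ ≤ 1536 * K ^ 2 / T * ‖Ax x a‖ := by
  have n1 := gx_nd hT hK h
  have n2 := gx_nd hT hK h'
  obtain ⟨A, hA⟩ : ∃ A, A = Ax x a := ⟨_, rfl⟩
  have ha : a = Vx x A := by rw [hA, Vx_Ax n1]
  have e : Ax x a - Ax x' a = Ax x' (Vx x' A - a) := by
    rw [Ax_sub, Ax_Vx n2, hA]
  rw [e, ← hA]
  refine le_trans (Ax_norm hT hK h' _) ?_
  have hb : ‖Vx x' A - a‖ ≤ 32 * T * ‖A‖ := by
    rw [ha]
    have k : ∀ u v : ℝ × ℝ, ‖u‖ ≤ 4 * T → ‖v‖ ≤ 4 * T → ‖v - u‖ ≤ 1 →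
        |qf A u - qf A v| ≤ 32 * T * ‖A‖ := by
      intro u v hu hv huv
      refine qf_diff A hu hv ?_
      rw [norm_sub_rev]; exact huv
    rw [Prod.norm_def, sup_le_iff]
    refine ⟨k _ _ (le_trans (n6_1 x') h'.1) (le_trans (n6_1 x) h.1)
      (le_trans (n6_1 (x - x')) hx), ?_⟩
    rw [Prod.norm_def, sup_le_iff]
    exact ⟨k _ _ (le_trans (n6_2 x') h'.1) (le_trans (n6_2 x) h.1)
      (le_trans (n6_2 (x - x')) hx), k _ _ (le_trans (n6_3 x') h'.1) (le_trans (n6_3 x) h.1)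
      (le_trans (n6_3 (x - x')) hx)⟩
  calc 48 * K ^ 2 / T ^ 2 * ‖Vx x' A - a‖ ≤ 48 * K ^ 2 / T ^ 2 * (32 * T * ‖A‖) :=
        mul_le_mul_of_nonneg_left hb (by positivity)
    _ = 1536 * K ^ 2 / T * ‖A‖ := by field_simp; ring

/-- forms close to a form in `KM` -/
theorem KM_pert {M : ℝ} (hM : 1 ≤ M) {A A' : ℝ × ℝ × ℝ} (hA : A ∈ KM M)
    (h : ‖A' - A‖ ≤ 1 / (4 * M)) : A' ∈ KM (2 * M) := by
  intro y
  have hM0 : 0 < M := by linarith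
  obtain ⟨h1, h2⟩ := hA y
  have hd : |qf A' y - qf A y| ≤ 2 * ‖A' - A‖ * nr y := by
    have A1 : |A'.1 - A.1| ≤ ‖A' - A‖ := norm_fst_le (A' - A)
    have A2 : |A'.2.1 - A.2.1| ≤ ‖A' - A‖ :=
      le_trans (norm_fst_le (A' - A).2) (norm_snd_le (A' - A))
    have A3 : |A'.2.2 - A.2.2| ≤ ‖A' - A‖ :=
      le_trans (norm_snd_le (A' - A).2) (norm_snd_le (A' - A))
    have e : qf A' y - qf A y = (A'.1 - A.1) * y.1 ^ 2 +
        (2 * ((A'.2.1 - A.2.1) * (y.1 * y.2)) + (A'.2.2 - A.2.2) * y.2 ^ 2) := by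
      unfold qf; ring
    rw [e]
    refine le_trans (abs_add_le _ _) ?_
    refine le_trans (add_le_add le_rfl (abs_add_le _ _)) ?_
    rw [abs_mul (A'.1 - A.1) (y.1 ^ 2), abs_mul 2 ((A'.2.1 - A.2.1) * (y.1 * y.2)),
      abs_mul (A'.2.1 - A.2.1) (y.1 * y.2), abs_mul (A'.2.2 - A.2.2) (y.2 ^ 2), abs_two,
      abs_of_nonneg (sq_nonneg y.1), abs_of_nonneg (sq_nonneg y.2)]
    have hy : |y.1 * y.2| ≤ nr y / 2 := by
      unfold nr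
      rw [abs_le]
      constructor <;> nlinarith [sq_nonneg (y.1 + y.2), sq_nonneg (y.1 - y.2)]
    have m1 := mul_le_mul_of_nonneg_right A1 (sq_nonneg y.1)
    have m2 : |A'.2.1 - A.2.1| * |y.1 * y.2| ≤ ‖A' - A‖ * (nr y / 2) :=
      mul_le_mul A2 hy (abs_nonneg _) (norm_nonneg _)
    have m3 := mul_le_mul_of_nonneg_right A3 (sq_nonneg y.2)
    have e2 : ‖A' - A‖ * nr y = ‖A' - A‖ * y.1 ^ 2 + ‖A' - A‖ * y.2 ^ 2 := by
      unfold nr; ring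
    linarith
  have hn := nr_nonneg y
  have hd2 : 2 * ‖A' - A‖ * nr y ≤ nr y / (2 * M) := by
    have : 2 * ‖A' - A‖ ≤ 1 / (2 * M) := by
      calc 2 * ‖A' - A‖ ≤ 2 * (1 / (4 * M)) := by linarith
        _ = 1 / (2 * M) := by field_simp; ring
    calc 2 * ‖A' - A‖ * nr y ≤ 1 / (2 * M) * nr y := mul_le_mul_of_nonneg_right this hn
      _ = nr y / (2 * M) := by ring
  have e1 : nr y / M = nr y / (2 * M) + nr y / (2 * M) := by field_simp; ring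
  have e2 : nr y / (2 * M) ≤ M * nr y := by
    rw [div_le_iff₀ (by positivity)]
    nlinarith [mul_nonneg hn (by nlinarith : (0 : ℝ) ≤ 2 * M * M - 1)]
  rw [abs_le] at hd
  constructor <;> linarith [hd.1, hd.2]

theorem KM_norm {M : ℝ} (hM : 1 ≤ M) {A : ℝ × ℝ × ℝ} (hA : A ∈ KM M) : ‖A‖ ≤ M := by
  have a1 := hA (1, 0)
  have a2 := hA (0, 1)
  have a3 := hA (1, 1)
  have a4 := hA (1, -1)
  unfold nr qf at a1 a2 a3 a4
  norm_num at a1 a2 a3 a4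
  have hM0 : 0 < M := by linarith
  have hi : 0 < M⁻¹ := by positivity
  have i2 : 0 ≤ 2 / M := by positivity
  rw [Prod.norm_def, Prod.norm_def, sup_le_iff, sup_le_iff, Real.norm_eq_abs, Real.norm_eq_abs,
    Real.norm_eq_abs, abs_le, abs_le, abs_le]
  refine ⟨⟨?_, ?_⟩, ⟨?_, ?_⟩, ⟨?_, ?_⟩⟩ <;> linarith [a1.1, a1.2, a2.1, a2.2, a3.1, a3.2, a4.1, a4.2]

theorem KM_mono {M M' : ℝ} (hM : 1 ≤ M) (h : M ≤ M') {A : ℝ × ℝ × ℝ} (hA : A ∈ KM M) :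
    A ∈ KM M' := by
  intro y
  obtain ⟨h1, h2⟩ := hA y
  have hn := nr_nonneg y
  constructor
  · refine le_trans (div_le_div_of_nonneg_left hn (by linarith) h) h1
  · exact le_trans h2 (mul_le_mul_of_nonneg_right h hn)

end Pool.Agent.Helper30_FC
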