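import Pool.Agent.Helper30_FC.V3
import Pool.Agent.Helper30_FC.K0S

/-!
MP_f5cbfa_nt, frozen S18989 (helper30): the cross term, passage to the common coordinates.
-/

set_option autoImplicit false

open MeasureTheory Set Filter

namespace Pool.Agent.Helper30_FC

open Pool.Agent.BTL Pool.Agent.F5S Pool.Agent.F5H

/-- the product kernel as a function of the three values -/
noncomputable def ka (e : ℝ) (p : ℝ × ℝ) (a : ℝ × ℝ × ℝ) (s : ℝ) : ℝ :=
  tn ((a.1 - (p.1 + p.2) - s) / e) * (tn ((a.2.1 - p.2 - s) / e) * tn ((a.2.2 - s) / e))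

/-- the kernel of a pair as a function of the six values -/
noncomputable def rho (R e : ℝ) (p : ℝ × ℝ) (a b : ℝ × ℝ × ℝ) : ℝ :=
  ∫ z : ℝ × ℝ, PR R (z.1 - z.2) * (ka e p a z.1 * ka e p b z.2)

theorem RV_rho (R e : ℝ) (p : ℝ × ℝ) (A : ℝ × ℝ × ℝ) (x y : R6) :
    RV R e p A x y = rho R e p (Vx x A) (Vx y A) := rfl

/-- squares of the norms -/
def nv (w : R6) : ℝ × ℝ × ℝ := (nr w.1, nr w.2.1, nr w.2.2)

/-- the Jacobian -/
noncomputable def jj (A : ℝ × ℝ × ℝ) : ℝ := 1 / Real.sqrt (disc A) ^ 3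

theorem measurable_jj : Measurable jj := by
  unfold jj disc
  fun_prop

theorem measurable_nr : Measurable nr := by
  unfold nr
  fun_prop

theorem measurable_nv : Measurable nv := by
  unfold nv
  exact (measurable_nr.comp measurable_fst).prodMk
    ((measurable_nr.comp (measurable_fst.comp measurable_snd)).prodMk
      (measurable_nr.comp (measurable_snd.comp measurable_snd)))

theorem continuous_PR (hprf : PRFStmt) {R : ℝ} (hR : 0 < R) : Continuous (PR R) := by
  have h := (hprf R hR).2.2.1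
  refine (LipschitzWith.of_dist_le_mul (K := Real.toNNReal (1 / R)) ?_).continuous
  intro u v
  rw [Real.dist_eq, Real.dist_eq, Real.coe_toNNReal _ (by positivity)]
  refine le_trans (h u v) (le_of_eq ?_)
  ring

theorem continuous_ka (e : ℝ) (p : ℝ × ℝ) :
    Continuous (fun q : (ℝ × ℝ × ℝ) × ℝ => ka e p q.1 q.2) := by
  unfold ka
  exact (continuous_tn'.comp (by fun_prop)).mul ((continuous_tn'.comp (by fun_prop)).mul
    (continuous_tn'.comp (by fun_prop)))

theorem meas_gen (P : ℝ → ℝ) (hP : Measurable P) (k : (ℝ × ℝ × ℝ) → ℝ → ℝ)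
    (hk : Measurable (fun q : (ℝ × ℝ × ℝ) × ℝ => k q.1 q.2)) :
    Measurable (fun q : (ℝ × ℝ × ℝ) × (ℝ × ℝ × ℝ) =>
      ∫ z : ℝ × ℝ, P (z.1 - z.2) * (k q.1 z.1 * k q.2 z.2)) := by
  have m1 : Measurable (fun q : ((ℝ × ℝ × ℝ) × (ℝ × ℝ × ℝ)) × ℝ × ℝ => P (q.2.1 - q.2.2)) :=
    hP.comp ((measurable_fst.comp measurable_snd).sub (measurable_snd.comp measurable_snd))
  have m2 : Measurable (fun q : ((ℝ × ℝ × ℝ) × (ℝ × ℝ × ℝ)) × ℝ × ℝ => k q.1.1 q.2.1) :=
    hk.comp ((measurable_fst.comp measurable_fst).prodMk (measurable_fst.comp measurable_snd))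
  have m3 : Measurable (fun q : ((ℝ × ℝ × ℝ) × (ℝ × ℝ × ℝ)) × ℝ × ℝ => k q.1.2 q.2.2) :=
    hk.comp ((measurable_snd.comp measurable_fst).prodMk (measurable_snd.comp measurable_snd))
  have m4 : Measurable (fun q : ((ℝ × ℝ × ℝ) × (ℝ × ℝ × ℝ)) × ℝ × ℝ => P (q.2.1 - q.2.2) *
      (k q.1.1 q.2.1 * k q.1.2 q.2.2)) := m1.mul (m2.mul m3)
  exact (m4.stronglyMeasurable.integral_prod_right).measurable

/-- the kernel of the six values is measurable -/
theorem measurable_rho (hprf : PRFStmt) {R : ℝ} (hR : 0 < R) (e : ℝ) (p : ℝ × ℝ) :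
    Measurable (fun q : (ℝ × ℝ × ℝ) × (ℝ × ℝ × ℝ) => rho R e p q.1 q.2) :=
  meas_gen (PR R) (continuous_PR hprf hR).measurable (ka e p) (continuous_ka e p).measurable

theorem continuous_Vx : Continuous (fun q : R6 × (ℝ × ℝ × ℝ) => Vx q.1 q.2) := by
  unfold Vx qf
  fun_prop

/-- passage to the common coordinates -/
theorem transf (hprf : PRFStmt) (hxsi : XSIStmt) {M1 R : ℝ} (hM1 : 1 ≤ M1) (hR : 0 < R) (e : ℝ)
    (p : ℝ × ℝ) {x : R6} (hx : nd x) (u : (ℝ × ℝ × ℝ) → R6 → ENNReal)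
    (hu : Measurable (fun q : (ℝ × ℝ × ℝ) × R6 => u q.1 q.2))
    (hs : ∀ A, A ∉ KM M1 → ∀ y, u A y = 0) :
    ∫⁻ A, ∫⁻ y, u A y * ENNReal.ofReal (RV R e p A x y) =
      ∫⁻ a, ∫⁻ w, (ENNReal.ofReal |De x|⁻¹ * ENNReal.ofReal (jj (Ax x a)) *
        u (Ax x a) (si3 (Ax x a) w)) * ENNReal.ofReal (rho R e p a (nv w)) := by
  obtain ⟨C, hC, hm, h1, h2, -, -, -⟩ := hxsi M1 hM1
  have hrho := measurable_rho hprf hR e p
  have hVxc := continuous_Vx.measurable
  have hVA : ∀ z : R6, Measurable (fun A : ℝ × ℝ × ℝ => Vx z A) := by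
    intro z
    have h := Measurable.comp (g := fun q : R6 × (ℝ × ℝ × ℝ) => Vx q.1 q.2)
      (f := fun A : ℝ × ℝ × ℝ => (z, A)) hVxc measurable_prodMk_left
    exact h
  have hVy : ∀ A : ℝ × ℝ × ℝ, Measurable (fun z : R6 => Vx z A) := by
    intro A
    have h := Measurable.comp (g := fun q : R6 × (ℝ × ℝ × ℝ) => Vx q.1 q.2)
      (f := fun z : R6 => (z, A)) hVxc measurable_prodMk_right
    exact h
  -- first step
  have e1 : ∀ A, ∫⁻ y, u A y * ENNReal.ofReal (RV R e p A x y) =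
      ENNReal.ofReal (jj A) * ∫⁻ w, u A (si3 A w) * ENNReal.ofReal (rho R e p (Vx x A) (nv w)) := by
    intro A
    by_cases hA : A ∈ KM M1
    · have mf : Measurable (fun y => u A y * ENNReal.ofReal (RV R e p A x y)) := by
        have a1 : Measurable (fun y => u A y) := hu.comp measurable_prodMk_left
        have a2 : Measurable (fun y => rho R e p (Vx x A) (Vx y A)) := by
          have h := Measurable.comp (g := fun q : (ℝ × ℝ × ℝ) × (ℝ × ℝ × ℝ) => rho R e p q.1 q.2)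
            (f := fun y : R6 => (Vx x A, Vx y A)) hrho (measurable_const.prodMk (hVy A))
          exact h
        exact a1.mul a2.ennreal_ofReal
      rw [h2 A hA _ mf]
      congr 1
      refine lintegral_congr fun w => ?_
      rw [RV_rho]
      have : Vx (si3 A w) A = nv w := by
        unfold Vx si3 nv
        simp only
        rw [h1 A hA, h1 A hA, h1 A hA]
      rw [this]
    · have z1 : ∀ y, u A y = 0 := hs A hA
      simp only [z1, zero_mul, lintegral_zero, mul_zero]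
  simp only [e1]
  -- second step
  have mj : Measurable (fun A : ℝ × ℝ × ℝ => ENNReal.ofReal (jj A)) :=
    measurable_jj.ennreal_ofReal
  have m1 : Measurable (fun q : (ℝ × ℝ × ℝ) × R6 => u q.1 (si3 q.1 q.2) *
      ENNReal.ofReal (rho R e p (Vx x q.1) (nv q.2))) := by
    have b1 : Measurable (fun q : (ℝ × ℝ × ℝ) × R6 => u q.1 (si3 q.1 q.2)) := by
      have h := Measurable.comp (g := fun q : (ℝ × ℝ × ℝ) × R6 => u q.1 q.2)
        (f := fun q : (ℝ × ℝ × ℝ) × R6 => (q.1, si3 q.1 q.2)) hu (measurable_fst.prodMk hm)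
      exact h
    have b2 : Measurable (fun q : (ℝ × ℝ × ℝ) × R6 => rho R e p (Vx x q.1) (nv q.2)) := by
      have h := Measurable.comp (g := fun q : (ℝ × ℝ × ℝ) × (ℝ × ℝ × ℝ) => rho R e p q.1 q.2)
        (f := fun q : (ℝ × ℝ × ℝ) × R6 => (Vx x q.1, nv q.2)) hrho
        (((hVA x).comp measurable_fst).prodMk (measurable_nv.comp measurable_snd))
      exact h
    exact b1.mul b2.ennreal_ofReal
  have m2 : Measurable (fun A : ℝ × ℝ × ℝ => ∫⁻ w, u A (si3 A w) *
      ENNReal.ofReal (rho R e p (Vx x A) (nv w))) := m1.lintegral_prod_right'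
  have m4 : Measurable (fun A : ℝ × ℝ × ℝ => ENNReal.ofReal (jj A) * ∫⁻ w, u A (si3 A w) *
      ENNReal.ofReal (rho R e p (Vx x A) (nv w))) := mj.mul m2
  rw [lint_Ax hx _ m4, ← lintegral_const_mul' _ _ ENNReal.ofReal_ne_top]
  refine lintegral_congr fun a => ?_
  have m3 : Measurable (fun w : R6 => u (Ax x a) (si3 (Ax x a) w) *
      ENNReal.ofReal (rho R e p (Vx x (Ax x a)) (nv w))) := m1.comp measurable_prodMk_left
  rw [← mul_assoc, ← lintegral_const_mul _ m3, Vx_Ax hx]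
  refine lintegral_congr fun w => ?_
  ring

end Pool.Agent.Helper30_FC
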